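import Pool.Agent.LibFR38.A2

set_option autoImplicit false
set_option maxSynthPendingDepth 3

open Topology Filter Set
open scoped ContDiff

namespace NS38

private theorem A3_sum {E J : Type} [NormedAddCommGroup E] [NormedSpace ℝ E] {Ω : Set E}
    (G : E → E → E → ℝ) (hb : Bil G Ω) (x : E) (hx : x ∈ Ω) (I : Finset J) (a : J → ℝ)
    (v : J → E) (w : E) :
    G x (∑ l ∈ I, a l • v l) w = ∑ l ∈ I, a l * G x (v l) w := by
  classical
  induction I using Finset.induction_on with
  | empty =>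
    have h := hb.smul x hx 0 0 w
    simpa using h
  | insert i I hi ih =>
    rw [Finset.sum_insert hi, Finset.sum_insert hi, hb.add x hx, hb.smul x hx, ih]

private theorem A3_det {m : ℕ} {E J : Type} [NormedAddCommGroup E] [NormedSpace ℝ E]
    [Fintype J] [DecidableEq J] {Ω : Set E} (hΩ : IsOpen Ω)
    (N : (Fin m → ℝ) → E → Matrix J J ℝ) (hN : ∀ i j, PolyS Ω (fun s x => N s x i j)) :
    PolyS Ω (fun s x => (N s x).det) := by
  obtain ⟨-, pMul, pConst, -, -, -, -, pSum, pProd, pCongr⟩ := polyS_facts (m := m) hΩ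
  have h1 : PolyS Ω (fun s x => ∑ σ ∈ (Finset.univ : Finset (Equiv.Perm J)),
      (((Equiv.Perm.sign σ : ℤ) : ℝ) * ∏ i ∈ (Finset.univ : Finset J), N s x (σ i) i)) := by
    refine pSum _ _ (fun σ s x => (((Equiv.Perm.sign σ : ℤ) : ℝ) *
      ∏ i ∈ (Finset.univ : Finset J), N s x (σ i) i)) fun σ _ => ?_
    refine pMul (fun _ _ => ((Equiv.Perm.sign σ : ℤ) : ℝ)) _ (pConst _) ?_
    exact pProd _ _ (fun i s x => N s x (σ i) i) fun i _ => hN _ _
  refine pCongr _ _ (fun s x _ => ?_) h1
  exact (Matrix.det_apply' _).symm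

private theorem A3_adj {m : ℕ} {E J : Type} [NormedAddCommGroup E] [NormedSpace ℝ E]
    [Fintype J] [DecidableEq J] {Ω : Set E} (hΩ : IsOpen Ω)
    (N : (Fin m → ℝ) → E → Matrix J J ℝ) (hN : ∀ i j, PolyS Ω (fun s x => N s x i j))
    (r l : J) : PolyS Ω (fun s x => (N s x).adjugate r l) := by
  obtain ⟨-, -, pConst, -, -, -, -, -, -, pCongr⟩ := polyS_facts (m := m) hΩ
  have h1 : PolyS Ω (fun s x => ((N s x).updateRow l (Pi.single r 1)).det) := by
    refine A3_det hΩ _ fun i j => ?_
    by_cases h : i = l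
    · subst h
      refine pCongr _ _ (fun s x _ => ?_) (pConst ((Pi.single r (1 : ℝ) : J → ℝ) j))
      rw [Matrix.updateRow_self]
    · refine pCongr _ _ (fun s x _ => ?_) (hN i j)
      rw [Matrix.updateRow_ne h]
  refine pCongr _ _ (fun s x _ => ?_) h1
  rw [Matrix.adjugate_apply]

/-- Row A3. The Christoffel symbols of a polynomial family are rational. PLAN. `b` a basis, Gram matrix
`M s x i j = G s x (b i) (b j)`, `D s x = det (M s x)` (`Matrix.det_apply'`: `PolyS` by `polyS_facts`), the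
adjugate has `PolyS` entries (`Matrix.adjugate_apply`: a determinant). For `s ∈ B`, `x ∈ Ω` the matrix is
positive definite, so `D s x ≠ 0`. With `c l = b.repr (C s x (b i) (b j)) l`, the Koszul formula for
`u = b r` says `2 ∑ l, c l * M l r = T r`, `T r = D_(b i) M j r + D_(b j) M i r - D_(b r) M i j`
(`Bil`: expand in the basis), so `2 D c l = ∑ r, T r * adjugate r l`. -/
theorem chr_rat {m : ℕ} {E J : Type} [NormedAddCommGroup E] [NormedSpace ℝ E]
    [FiniteDimensional ℝ E] [Fintype J] [DecidableEq J] (b : Module.Basis J ℝ E) {Ω : Set E}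
    (hΩ : IsOpen Ω) (G : (Fin m → ℝ) → E → E → E → ℝ)
    (hG : ∀ i j, PolyS Ω (fun s x => G s x (b i) (b j))) (B : Set (Fin m → ℝ))
    (hB : ∀ s ∈ B, Met (G s) Ω) :
    ∃ D : (Fin m → ℝ) → E → ℝ, PolyS Ω D ∧ (∀ s ∈ B, ∀ x ∈ Ω, D s x ≠ 0) ∧
      ∀ C : (Fin m → ℝ) → E → E →L[ℝ] E →L[ℝ] E, (∀ s ∈ B, Kos (G s) (C s) Ω) →
        ∀ i j l, RatS Ω B D (fun s x => b.repr (C s x (b i) (b j)) l) := by
  obtain ⟨pAdd, pMul, pConst, -, pDer, -, -, pSum, -, -⟩ := polyS_facts (m := m) hΩ
  have hM : ∀ i j, PolyS Ω (fun s x =>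
      (Matrix.of fun i j => G s x (b i) (b j) : Matrix J J ℝ) i j) := hG
  refine ⟨fun s x => (Matrix.of fun i j => G s x (b i) (b j) : Matrix J J ℝ).det,
    A3_det hΩ _ hM, ?_, ?_⟩
  · intro s hs x hx h0
    obtain ⟨v, hv0, hv⟩ := Matrix.exists_mulVec_eq_zero_iff.mpr h0
    have hne : (∑ l, v l • b l) ≠ 0 := by
      intro h
      apply hv0
      funext i
      have h2 := Fintype.linearIndependent_iff.mp b.linearIndependent v h i
      exact h2
    have hpos := (hB s hs).pos x hx _ hne
    have hbil := (hB s hs).bil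
    rw [A3_sum _ hbil x hx] at hpos
    have hz : ∀ i, G s x (b i) (∑ l, v l • b l) = 0 := by
      intro i
      rw [hbil.symm x hx, A3_sum _ hbil x hx]
      have h3 := congrFun hv i
      simp only [Matrix.mulVec, dotProduct, Matrix.of_apply, Pi.zero_apply] at h3
      rw [← h3]
      refine Finset.sum_congr rfl fun l _ => ?_
      rw [hbil.symm x hx (b l) (b i)]
      ring
    simp only [hz, mul_zero, Finset.sum_const_zero, lt_irrefl] at hpos
  · intro C hC i j l
    refine ⟨1, fun s x => ∑ r ∈ (Finset.univ : Finset J),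
      (((1 / 2 : ℝ) * ((fderiv ℝ (fun y => G s y (b j) (b r)) x (b i) +
        fderiv ℝ (fun y => G s y (b i) (b r)) x (b j)) +
        (-1 : ℝ) * fderiv ℝ (fun y => G s y (b i) (b j)) x (b r))) *
        (Matrix.of fun i j => G s x (b i) (b j) : Matrix J J ℝ).adjugate r l), ?_, ?_⟩
    · refine pSum _ _ (fun r s x => (((1 / 2 : ℝ) * ((fderiv ℝ (fun y => G s y (b j) (b r)) x (b i) +
        fderiv ℝ (fun y => G s y (b i) (b r)) x (b j)) +
        (-1 : ℝ) * fderiv ℝ (fun y => G s y (b i) (b j)) x (b r))) *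
        (Matrix.of fun i j => G s x (b i) (b j) : Matrix J J ℝ).adjugate r l)) fun r _ => ?_
      refine pMul _ _ ?_ (A3_adj hΩ _ hM r l)
      refine pMul (fun _ _ => (1 / 2 : ℝ)) _ (pConst _) ?_
      refine pAdd _ _ (pAdd _ _ ?_ ?_) (pMul (fun _ _ => (-1 : ℝ)) _ (pConst _) ?_)
      · exact pDer _ (hG j r) (b i)
      · exact pDer _ (hG i r) (b j)
      · exact pDer _ (hG i j) (b r)
    · intro s hs x hx
      have hbil := (hB s hs).bil
      have hk : ∀ r, (∑ q, b.repr (C s x (b i) (b j)) q * G s x (b q) (b r)) =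
          (1 / 2 : ℝ) * ((fderiv ℝ (fun y => G s y (b j) (b r)) x (b i) +
            fderiv ℝ (fun y => G s y (b i) (b r)) x (b j)) +
            (-1 : ℝ) * fderiv ℝ (fun y => G s y (b i) (b j)) x (b r)) := by
        intro r
        have h1 := hC s hs x hx (b r) (b i) (b j)
        have h2 : G s x (C s x (b i) (b j)) (b r) =
            ∑ q, b.repr (C s x (b i) (b j)) q * G s x (b q) (b r) := by
          conv_lhs => rw [← b.sum_repr (C s x (b i) (b j))]
          exact A3_sum _ hbil x hx _ _ _ _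
        rw [← h2]
        linarith
      have hv : Matrix.vecMul (fun q => b.repr (C s x (b i) (b j)) q)
          ((Matrix.of fun i j => G s x (b i) (b j) : Matrix J J ℝ) *
            (Matrix.of fun i j => G s x (b i) (b j) : Matrix J J ℝ).adjugate) l =
          b.repr (C s x (b i) (b j)) l *
            (Matrix.of fun i j => G s x (b i) (b j) : Matrix J J ℝ).det := by
        rw [Matrix.mul_adjugate, Matrix.vecMul_smul, Matrix.vecMul_one, Pi.smul_apply,
          smul_eq_mul, mul_comm]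
      rw [← Matrix.vecMul_vecMul] at hv
      beta_reduce
      rw [pow_one, ← hv]
      simp only [Matrix.vecMul, dotProduct]
      refine Finset.sum_congr rfl fun r _ => ?_
      congr 1
      exact hk r

end NS38
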