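import Pool.Agent.LibFR38.A2
import Pool.Agent.LibNS38.B7

set_option autoImplicit false
set_option maxSynthPendingDepth 3

open Topology Filter Set
open scoped ContDiff

namespace NS38

private theorem A4_clm {E : Type} [NormedAddCommGroup E] [NormedSpace ℝ E] {Ω : Set E}
    (hΩ : IsOpen Ω) (C : E → E →L[ℝ] E →L[ℝ] E) (hC : ContDiffOn ℝ ∞ C Ω) :
    ∃ R : E → E →L[ℝ] E →L[ℝ] E →L[ℝ] E, ContDiffOn ℝ ∞ R Ω ∧
      ∀ x ∈ Ω, ∀ u v w, curv C x u v w = R x u v w := by
  obtain ⟨⟨R, hR, h⟩, -⟩ := curv_clm (P := ℝ) (fun _ => C) (Set.univ ×ˢ Ω)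
    (isOpen_univ.prod hΩ) (hC.comp contDiffOn_snd (fun x hx => hx.2))
  exact ⟨fun x => R (0, x), hR.comp (contDiffOn_const.prodMk contDiffOn_id)
    (fun x hx => ⟨trivial, hx⟩), fun x hx u v w => h (0, x) ⟨trivial, hx⟩ u v w⟩

private theorem A4_exp {E J : Type} [NormedAddCommGroup E] [NormedSpace ℝ E] [Fintype J]
    (b : Module.Basis J ℝ E) (L : E →L[ℝ] E) (y : E) (l : J) :
    b.repr (L y) l = ∑ r, b.repr y r * b.repr (L (b r)) l := by
  conv_lhs => rw [← b.sum_repr y]
  simp only [map_sum, map_smul, Finsupp.coe_finsetSum, Finset.sum_apply, Finsupp.smul_apply,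
    smul_eq_mul]

private theorem A4_der {E J : Type} [NormedAddCommGroup E] [NormedSpace ℝ E]
    [FiniteDimensional ℝ E] [Fintype J] (b : Module.Basis J ℝ E) (f : E → E) (x u : E)
    (hf : DifferentiableAt ℝ f x) (l : J) :
    b.repr (fderiv ℝ f x u) l = fderiv ℝ (fun y => b.repr (f y) l) x u := by
  have h := ((LinearMap.toContinuousLinearMap (b.coord l)).hasFDerivAt.comp x hf.hasFDerivAt)
  have h2 : HasFDerivAt (fun y => b.repr (f y) l)
      ((LinearMap.toContinuousLinearMap (b.coord l)).comp (fderiv ℝ f x)) x := h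
  rw [h2.fderiv]
  rfl

private theorem A4_curv {E J : Type} [NormedAddCommGroup E] [NormedSpace ℝ E]
    [FiniteDimensional ℝ E] [Fintype J] (b : Module.Basis J ℝ E) {Ω : Set E} (hΩ : IsOpen Ω)
    (C : E → E →L[ℝ] E →L[ℝ] E) (hC : ContDiffOn ℝ ∞ C Ω) (x : E) (hx : x ∈ Ω) (u v w l : J) :
    b.repr (curv C x (b u) (b v) (b w)) l =
      fderiv ℝ (fun y => b.repr (C y (b v) (b w)) l) x (b u) -
      fderiv ℝ (fun y => b.repr (C y (b u) (b w)) l) x (b v) +
      (∑ r, b.repr (C x (b v) (b w)) r * b.repr (C x (b u) (b r)) l) -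
      ∑ r, b.repr (C x (b u) (b w)) r * b.repr (C x (b v) (b r)) l := by
  have hd : ∀ v w : E, DifferentiableAt ℝ (fun y => C y v w) x := by
    intro v w
    have h1 : DifferentiableAt ℝ C x :=
      (hC.contDiffAt (hΩ.mem_nhds hx)).differentiableAt (by simp)
    exact (h1.clm_apply (differentiableAt_const v)).clm_apply (differentiableAt_const w)
  unfold curv
  rw [map_sub, map_add, map_sub]
  simp only [Finsupp.coe_sub, Finsupp.coe_add, Pi.sub_apply, Pi.add_apply]
  rw [A4_der b _ x _ (hd _ _), A4_der b _ x _ (hd _ _), A4_exp b (C x (b u)),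
    A4_exp b (C x (b v))]

private theorem A4_dcurv {E J : Type} [NormedAddCommGroup E] [NormedSpace ℝ E]
    [FiniteDimensional ℝ E] [Fintype J] (b : Module.Basis J ℝ E) {Ω : Set E} (hΩ : IsOpen Ω)
    (C : E → E →L[ℝ] E →L[ℝ] E) (hC : ContDiffOn ℝ ∞ C Ω) (x : E) (hx : x ∈ Ω)
    (z u v w l : J) :
    b.repr (dcurv C x (b z) (b u) (b v) (b w)) l =
      fderiv ℝ (fun y => b.repr (curv C y (b u) (b v) (b w)) l) x (b z) +
      (∑ r, b.repr (curv C x (b u) (b v) (b w)) r * b.repr (C x (b z) (b r)) l) -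
      (∑ r, b.repr (C x (b z) (b u)) r * b.repr (curv C x (b r) (b v) (b w)) l) -
      (∑ r, b.repr (C x (b z) (b v)) r * b.repr (curv C x (b u) (b r) (b w)) l) -
      ∑ r, b.repr (C x (b z) (b w)) r * b.repr (curv C x (b u) (b v) (b r)) l := by
  obtain ⟨R, hR, h⟩ := A4_clm hΩ C hC
  have hd : DifferentiableAt ℝ (fun y => curv C y (b u) (b v) (b w)) x := by
    have h1 : DifferentiableAt ℝ R x :=
      (hR.contDiffAt (hΩ.mem_nhds hx)).differentiableAt (by simp)
    have h2 : DifferentiableAt ℝ (fun y => R y (b u) (b v) (b w)) x :=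
      ((h1.clm_apply (differentiableAt_const _)).clm_apply
        (differentiableAt_const _)).clm_apply (differentiableAt_const _)
    refine h2.congr_of_eventuallyEq ?_
    filter_upwards [hΩ.mem_nhds hx] with y hy
    exact h y hy _ _ _
  unfold dcurv
  rw [map_sub, map_sub, map_sub, map_add]
  simp only [Finsupp.coe_sub, Finsupp.coe_add, Pi.sub_apply, Pi.add_apply]
  rw [A4_der b _ x _ hd, A4_exp b (C x (b z))]
  have e1 : b.repr (curv C x (C x (b z) (b u)) (b v) (b w)) l =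
      ∑ r, b.repr (C x (b z) (b u)) r * b.repr (curv C x (b r) (b v) (b w)) l := by
    have k := A4_exp b (((R x).flip (b v)).flip (b w)) (C x (b z) (b u)) l
    simp only [ContinuousLinearMap.flip_apply] at k
    rw [h x hx, k]
    exact Finset.sum_congr rfl fun r _ => by rw [h x hx]
  have e2 : b.repr (curv C x (b u) (C x (b z) (b v)) (b w)) l =
      ∑ r, b.repr (C x (b z) (b v)) r * b.repr (curv C x (b u) (b r) (b w)) l := by
    have k := A4_exp b ((R x (b u)).flip (b w)) (C x (b z) (b v)) l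
    simp only [ContinuousLinearMap.flip_apply] at k
    rw [h x hx, k]
    exact Finset.sum_congr rfl fun r _ => by rw [h x hx]
  have e3 : b.repr (curv C x (b u) (b v) (C x (b z) (b w))) l =
      ∑ r, b.repr (C x (b z) (b w)) r * b.repr (curv C x (b u) (b v) (b r)) l := by
    have k := A4_exp b (R x (b u) (b v)) (C x (b z) (b w)) l
    rw [h x hx, k]
    exact Finset.sum_congr rfl fun r _ => by rw [h x hx]
  rw [e1, e2, e3]

/-- Row A4. The components of `curv` and `dcurv` are rational. PLAN. For `s ∈ B`, `x ∈ Ω`, expand in the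
basis `b` (`Module.Basis.sum_repr`, bilinearity of `C s x`): with `γ i j l s x = b.repr (C s x (b i) (b j)) l`,
`ρ u v w l := b.repr (curv (C s) x (b u) (b v) (b w)) l = D_(b u) γ v w l - D_(b v) γ u w l
+ ∑ r, γ v w r * γ u r l - ∑ r, γ u w r * γ v r l` (the coordinate functional is continuous linear, so it
commutes with `fderiv` of the differentiable function `y ↦ C s y (b v) (b w)`), and
`b.repr (dcurv ..) l = D_(b z) ρ u v w l + ∑ r, ρ u v w r * γ z r l - ∑ r, γ z u r * ρ r v w l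
- ∑ r, γ z v r * ρ u r w l - ∑ r, γ z w r * ρ u v r l` (`curv` is linear in each argument at points of `Ω`:
`curv_clm`, `LibNS38/B7.lean`, or directly; `y ↦ curv (C s) y ..` differentiable). `ratS_facts`. -/
theorem dcurv_rat {m : ℕ} {E J : Type} [NormedAddCommGroup E] [NormedSpace ℝ E]
    [FiniteDimensional ℝ E] [Fintype J] [DecidableEq J] (b : Module.Basis J ℝ E) {Ω : Set E}
    (hΩ : IsOpen Ω) (B : Set (Fin m → ℝ)) (D : (Fin m → ℝ) → E → ℝ) (hD : PolyS Ω D)
    (hD0 : ∀ s ∈ B, ∀ x ∈ Ω, D s x ≠ 0) (C : (Fin m → ℝ) → E → E →L[ℝ] E →L[ℝ] E)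
    (hC : ∀ s ∈ B, ContDiffOn ℝ ∞ (C s) Ω)
    (hr : ∀ i j l, RatS Ω B D (fun s x => b.repr (C s x (b i) (b j)) l)) :
    ∀ z u v w l, RatS Ω B D (fun s x => b.repr (dcurv (C s) x (b z) (b u) (b v) (b w)) l) := by
  obtain ⟨hadd, hmul, hpol, -, hder, hsum, hcon⟩ := ratS_facts hΩ B D hD hD0
  have hm1 : RatS Ω B D (fun _ _ => (-1 : ℝ)) := hpol _ ((polyS_facts hΩ).2.2.1 (-1))
  have hsub : ∀ f g : (Fin m → ℝ) → E → ℝ, RatS Ω B D f → RatS Ω B D g →
      RatS Ω B D (fun s x => f s x - g s x) := by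
    intro f g hf hg
    refine hcon _ _ (fun s _ x _ => ?_) (hadd _ _ hf (hmul _ _ hm1 hg))
    ring
  have hρ : ∀ u v w l, RatS Ω B D (fun s x => b.repr (curv (C s) x (b u) (b v) (b w)) l) := by
    intro u v w l
    refine hcon _ _ (fun s hs x hx => (A4_curv b hΩ (C s) (hC s hs) x hx u v w l).symm) ?_
    refine hsub _ _ (hadd _ _ (hsub _ _ (hder _ (hr v w l) _) (hder _ (hr u w l) _)) ?_) ?_
    · exact hsum J Finset.univ _ fun r _ => hmul _ _ (hr v w r) (hr u r l)
    · exact hsum J Finset.univ _ fun r _ => hmul _ _ (hr u w r) (hr v r l)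
  intro z u v w l
  refine hcon _ _ (fun s hs x hx => (A4_dcurv b hΩ (C s) (hC s hs) x hx z u v w l).symm) ?_
  refine hsub _ _ (hsub _ _ (hsub _ _ (hadd _ _ (hder _ (hρ u v w l) _) ?_) ?_) ?_) ?_
  · exact hsum J Finset.univ _ fun r _ => hmul _ _ (hρ u v w r) (hr z r l)
  · exact hsum J Finset.univ _ fun r _ => hmul _ _ (hr z u r) (hρ r v w l)
  · exact hsum J Finset.univ _ fun r _ => hmul _ _ (hr z v r) (hρ u r w l)
  · exact hsum J Finset.univ _ fun r _ => hmul _ _ (hr z w r) (hρ u v r l)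

end NS38
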