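import Pool.Agent.LibNS38.B0

set_option autoImplicit false
set_option maxSynthPendingDepth 3

open Topology Filter Set
open scoped ContDiff

namespace NS38

/-- polynomial in `s` with coefficients smooth in `x ∈ Ω` -/
def PolyS {m : ℕ} {E : Type} [NormedAddCommGroup E] [NormedSpace ℝ E] (Ω : Set E)
    (f : (Fin m → ℝ) → E → ℝ) : Prop :=
  ∃ (I : Finset (Fin m →₀ ℕ)) (a : (Fin m →₀ ℕ) → E → ℝ), (∀ α, ContDiffOn ℝ ∞ (a α) Ω) ∧
    ∀ s, ∀ x ∈ Ω, f s x = ∑ α ∈ I, a α x * ∏ i, s i ^ α i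

private theorem A1_add {m : ℕ} {E : Type} [NormedAddCommGroup E] [NormedSpace ℝ E] {Ω : Set E}
    {f g : (Fin m → ℝ) → E → ℝ} (hf : PolyS Ω f) (hg : PolyS Ω g) :
    PolyS Ω (fun s x => f s x + g s x) := by
  classical
  obtain ⟨I, a, ha, hfa⟩ := hf
  obtain ⟨J, b, hb, hgb⟩ := hg
  refine ⟨I ∪ J, fun α x => (if α ∈ I then a α x else 0) + (if α ∈ J then b α x else 0), ?_, ?_⟩
  · intro α
    refine ContDiffOn.add ?_ ?_
    · by_cases h : α ∈ I
      · simpa [h] using ha α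
      · simpa [h] using (contDiffOn_const (c := (0 : ℝ)) (s := Ω) (𝕜 := ℝ) (n := ∞))
    · by_cases h : α ∈ J
      · simpa [h] using hb α
      · simpa [h] using (contDiffOn_const (c := (0 : ℝ)) (s := Ω) (𝕜 := ℝ) (n := ∞))
  · intro s x hx
    show f s x + g s x = _
    rw [hfa s x hx, hgb s x hx]
    simp only [add_mul, Finset.sum_add_distrib, ite_mul, zero_mul]
    congr 1
    · rw [Finset.sum_ite_mem]
      congr 1
      ext α
      simp
    · rw [Finset.sum_ite_mem]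
      congr 1
      ext α
      simp

private theorem A1_mul {m : ℕ} {E : Type} [NormedAddCommGroup E] [NormedSpace ℝ E] {Ω : Set E}
    {f g : (Fin m → ℝ) → E → ℝ} (hf : PolyS Ω f) (hg : PolyS Ω g) :
    PolyS Ω (fun s x => f s x * g s x) := by
  classical
  obtain ⟨I, a, ha, hfa⟩ := hf
  obtain ⟨J, b, hb, hgb⟩ := hg
  refine ⟨(I ×ˢ J).image (fun p => p.1 + p.2),
    fun γ x => ∑ p ∈ (I ×ˢ J).filter (fun p => p.1 + p.2 = γ), a p.1 x * b p.2 x, ?_, ?_⟩
  · intro γ
    exact ContDiffOn.sum (fun p _ => (ha p.1).mul (hb p.2))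
  · intro s x hx
    show f s x * g s x = _
    rw [hfa s x hx, hgb s x hx, Finset.sum_mul_sum, ← Finset.sum_product']
    symm
    rw [← Finset.sum_fiberwise_of_maps_to
      (s := I ×ˢ J) (t := (I ×ˢ J).image (fun p => p.1 + p.2)) (g := fun p => p.1 + p.2)
      (fun p hp => Finset.mem_image_of_mem _ hp)]
    refine Finset.sum_congr rfl (fun γ _ => ?_)
    rw [Finset.sum_mul]
    refine Finset.sum_congr rfl (fun p hp => ?_)
    have hp' := (Finset.mem_filter.mp hp).2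
    have : (∏ i, s i ^ γ i) = (∏ i, s i ^ p.1 i) * ∏ i, s i ^ p.2 i := by
      rw [← hp', ← Finset.prod_mul_distrib]
      refine Finset.prod_congr rfl (fun i _ => ?_)
      rw [Finsupp.add_apply, pow_add]
    rw [this]
    ring

private theorem A1_const {m : ℕ} {E : Type} [NormedAddCommGroup E] [NormedSpace ℝ E] {Ω : Set E}
    (r : ℝ) : PolyS (m := m) Ω (fun _ _ => r) := by
  refine ⟨{0}, fun _ _ => r, fun _ => contDiffOn_const, ?_⟩
  intro s x _
  simp

private theorem A1_congr {m : ℕ} {E : Type} [NormedAddCommGroup E] [NormedSpace ℝ E] {Ω : Set E}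
    {f g : (Fin m → ℝ) → E → ℝ} (h : ∀ s, ∀ x ∈ Ω, f s x = g s x) (hf : PolyS Ω f) :
    PolyS Ω g := by
  obtain ⟨I, a, ha, hfa⟩ := hf
  exact ⟨I, a, ha, fun s x hx => (h s x hx).symm.trans (hfa s x hx)⟩

private theorem A1_sum {m : ℕ} {E : Type} [NormedAddCommGroup E] [NormedSpace ℝ E] {Ω : Set E}
    {ι : Type} (I : Finset ι) (f : ι → (Fin m → ℝ) → E → ℝ) (h : ∀ i ∈ I, PolyS Ω (f i)) :
    PolyS Ω (fun s x => ∑ i ∈ I, f i s x) := by
  classical
  induction I using Finset.induction_on with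
  | empty => simpa using (A1_const (m := m) (Ω := Ω) 0)
  | insert i J hi ih =>
    have h1 := A1_add (h i (Finset.mem_insert_self i J))
      (ih (fun j hj => h j (Finset.mem_insert_of_mem hj)))
    refine A1_congr (fun s x _ => ?_) h1
    rw [Finset.sum_insert hi]

private theorem A1_prod {m : ℕ} {E : Type} [NormedAddCommGroup E] [NormedSpace ℝ E] {Ω : Set E}
    {ι : Type} (I : Finset ι) (f : ι → (Fin m → ℝ) → E → ℝ) (h : ∀ i ∈ I, PolyS Ω (f i)) :
    PolyS Ω (fun s x => ∏ i ∈ I, f i s x) := by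
  classical
  induction I using Finset.induction_on with
  | empty => simpa using (A1_const (m := m) (Ω := Ω) 1)
  | insert i J hi ih =>
    have h1 := A1_mul (h i (Finset.mem_insert_self i J))
      (ih (fun j hj => h j (Finset.mem_insert_of_mem hj)))
    refine A1_congr (fun s x _ => ?_) h1
    rw [Finset.prod_insert hi]

/-- Row A1 (only Mathlib). Algebra of `PolyS`. PLAN. For the product take `I = image of +` and
`a γ = ∑ over pairs with α + β = γ`. (Possibly easier: `PolyS Ω f` iff there are finitely many smooth `a_j` and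
polynomials `p_j : MvPolynomial (Fin m) ℝ` with `f s x = ∑ j, eval s p_j * a_j x`; prove this
characterization first.) Derivatives at `x ∈ Ω` (open) of `f s` are those of the sum. -/
theorem polyS_facts {m : ℕ} {E : Type} [NormedAddCommGroup E] [NormedSpace ℝ E] {Ω : Set E}
    (hΩ : IsOpen Ω) :
    (∀ f g : (Fin m → ℝ) → E → ℝ, PolyS Ω f → PolyS Ω g → PolyS Ω (fun s x => f s x + g s x)) ∧
    (∀ f g : (Fin m → ℝ) → E → ℝ, PolyS Ω f → PolyS Ω g → PolyS Ω (fun s x => f s x * g s x)) ∧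
    (∀ r : ℝ, PolyS (m := m) Ω (fun _ _ => r)) ∧
    (∀ f : (Fin m → ℝ) → E → ℝ, PolyS Ω f → ∀ s, ContDiffOn ℝ ∞ (f s) Ω) ∧
    (∀ f : (Fin m → ℝ) → E → ℝ, PolyS Ω f → ∀ u : E, PolyS Ω (fun s x => fderiv ℝ (f s) x u)) ∧
    (∀ f : (Fin m → ℝ) → E → ℝ, PolyS Ω f → ∀ x ∈ Ω, ∃ p : MvPolynomial (Fin m) ℝ,
      ∀ s, f s x = MvPolynomial.eval s p) ∧
    (∀ (p : MvPolynomial (Fin m) ℝ) (a : E → ℝ), ContDiffOn ℝ ∞ a Ω →
      PolyS Ω (fun s x => MvPolynomial.eval s p * a x)) ∧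
    (∀ (ι : Type) (I : Finset ι) (f : ι → (Fin m → ℝ) → E → ℝ), (∀ i ∈ I, PolyS Ω (f i)) →
      PolyS Ω (fun s x => ∑ i ∈ I, f i s x)) ∧
    (∀ (ι : Type) (I : Finset ι) (f : ι → (Fin m → ℝ) → E → ℝ), (∀ i ∈ I, PolyS Ω (f i)) →
      PolyS Ω (fun s x => ∏ i ∈ I, f i s x)) ∧
    ∀ f g : (Fin m → ℝ) → E → ℝ, (∀ s, ∀ x ∈ Ω, f s x = g s x) → PolyS Ω f → PolyS Ω g := by
  refine ⟨fun f g hf hg => A1_add hf hg, fun f g hf hg => A1_mul hf hg, fun r => A1_const r,
    ?_, ?_, ?_, ?_, fun ι I f h => A1_sum I f h, fun ι I f h => A1_prod I f h,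
    fun f g h hf => A1_congr h hf⟩
  · rintro f ⟨I, a, ha, hfa⟩ s
    refine ContDiffOn.congr (f := fun x => ∑ α ∈ I, a α x * ∏ i, s i ^ α i) ?_
      (fun x hx => hfa s x hx)
    exact ContDiffOn.sum (fun α _ => (ha α).mul contDiffOn_const)
  · rintro f ⟨I, a, ha, hfa⟩ u
    refine ⟨I, fun α x => fderiv ℝ (a α) x u, fun α => ?_, ?_⟩
    · exact ((ha α).fderiv_of_isOpen hΩ (by simp)).clm_apply contDiffOn_const
    · intro s x hx
      have hev : (f s) =ᶠ[𝓝 x] fun x => ∑ α ∈ I, a α x * ∏ i, s i ^ α i := by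
        filter_upwards [hΩ.mem_nhds hx] with z hz using hfa s z hz
      have hd : ∀ α ∈ I, HasFDerivAt (fun x => a α x * ∏ i, s i ^ α i)
          ((∏ i, s i ^ α i) • fderiv ℝ (a α) x) x := by
        intro α _
        have h1 : HasFDerivAt (a α) (fderiv ℝ (a α) x) x :=
          (((ha α).contDiffAt (hΩ.mem_nhds hx)).differentiableAt (by simp)).hasFDerivAt
        exact h1.mul_const _
      have hs := HasFDerivAt.fun_sum hd
      show fderiv ℝ (f s) x u = _
      rw [hev.fderiv_eq, hs.fderiv]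
      simp only [ContinuousLinearMap.sum_apply, ContinuousLinearMap.smul_apply, smul_eq_mul]
      exact Finset.sum_congr rfl (fun α _ => mul_comm _ _)
  · rintro f ⟨I, a, ha, hfa⟩ x hx
    refine ⟨∑ α ∈ I, MvPolynomial.monomial α (a α x), fun s => ?_⟩
    rw [hfa s x hx, map_sum]
    refine Finset.sum_congr rfl (fun α _ => ?_)
    rw [MvPolynomial.eval_monomial, Finsupp.prod_fintype _ _ (fun i => pow_zero _)]
  · intro p a ha
    refine ⟨p.support, fun α x => p.coeff α * a x, fun α => contDiffOn_const.mul ha, ?_⟩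
    intro s x _
    show MvPolynomial.eval s p * a x = _
    rw [MvPolynomial.eval_eq', Finset.sum_mul]
    refine Finset.sum_congr rfl (fun α _ => ?_)
    ring

end NS38
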