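import Pool.Agent.LibFR38.A1

set_option autoImplicit false
set_option maxSynthPendingDepth 3

open Topology Filter Set
open scoped ContDiff

namespace NS38

/-- `f D^k` is polynomial in `s` with coefficients smooth in `x`, for the parameters `s ∈ B` -/
def RatS {m : ℕ} {E : Type} [NormedAddCommGroup E] [NormedSpace ℝ E] (Ω : Set E)
    (B : Set (Fin m → ℝ)) (D f : (Fin m → ℝ) → E → ℝ) : Prop :=
  ∃ (k : ℕ) (g : (Fin m → ℝ) → E → ℝ), PolyS Ω g ∧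
    ∀ s ∈ B, ∀ x ∈ Ω, f s x * D s x ^ k = g s x

private theorem A2_pow {m : ℕ} {E : Type} [NormedAddCommGroup E] [NormedSpace ℝ E] {Ω : Set E}
    (hΩ : IsOpen Ω) (D : (Fin m → ℝ) → E → ℝ) (hD : PolyS Ω D) (k : ℕ) :
    PolyS Ω (fun s x => D s x ^ k) := by
  obtain ⟨hadd, hmul, hconst, hsm, hder, hev, hpe, hsum, hprod, hcongr⟩ :=
    polyS_facts (m := m) (Ω := Ω) hΩ
  induction k with
  | zero =>
    refine hcongr _ _ ?_ (hconst 1)
    intro s x hx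
    simp
  | succ k ih =>
    refine hcongr _ _ ?_ (hmul _ _ ih hD)
    intro s x hx
    exact (pow_succ (D s x) k).symm

private theorem A2_rep {m : ℕ} {E : Type} [NormedAddCommGroup E] [NormedSpace ℝ E] {Ω : Set E}
    (B : Set (Fin m → ℝ)) (D : (Fin m → ℝ) → E → ℝ)
    (hD0 : ∀ s ∈ B, ∀ x ∈ Ω, D s x ≠ 0) (f g : (Fin m → ℝ) → E → ℝ) (k : ℕ)
    (h : ∀ s ∈ B, ∀ x ∈ Ω, f s x * D s x ^ k = g s x) :
    ∀ s ∈ B, ∀ x ∈ Ω, f s x = g s x / D s x ^ k := by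
  intro s hs x hx
  rw [eq_div_iff (pow_ne_zero k (hD0 s hs x hx))]
  exact h s hs x hx

private theorem A2_add {m : ℕ} {E : Type} [NormedAddCommGroup E] [NormedSpace ℝ E] {Ω : Set E}
    (hΩ : IsOpen Ω) (B : Set (Fin m → ℝ)) (D : (Fin m → ℝ) → E → ℝ) (hD : PolyS Ω D)
    (f g : (Fin m → ℝ) → E → ℝ) (hf : RatS Ω B D f) (hg : RatS Ω B D g) :
    RatS Ω B D (fun s x => f s x + g s x) := by
  obtain ⟨hadd, hmul, hconst, hsm, hder, hev, hpe, hsum, hprod, hcongr⟩ :=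
    polyS_facts (m := m) (Ω := Ω) hΩ
  obtain ⟨k, F, hF, hkF⟩ := hf
  obtain ⟨l, G, hG, hlG⟩ := hg
  refine ⟨k + l, fun s x => F s x * D s x ^ l + G s x * D s x ^ k,
    hadd _ _ (hmul _ _ hF (A2_pow hΩ D hD l)) (hmul _ _ hG (A2_pow hΩ D hD k)), ?_⟩
  intro s hs x hx
  show (f s x + g s x) * D s x ^ (k + l) = F s x * D s x ^ l + G s x * D s x ^ k
  rw [← hkF s hs x hx, ← hlG s hs x hx, pow_add]
  ring

private theorem A2_mul {m : ℕ} {E : Type} [NormedAddCommGroup E] [NormedSpace ℝ E] {Ω : Set E}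
    (hΩ : IsOpen Ω) (B : Set (Fin m → ℝ)) (D : (Fin m → ℝ) → E → ℝ)
    (f g : (Fin m → ℝ) → E → ℝ) (hf : RatS Ω B D f) (hg : RatS Ω B D g) :
    RatS Ω B D (fun s x => f s x * g s x) := by
  obtain ⟨hadd, hmul, hconst, hsm, hder, hev, hpe, hsum, hprod, hcongr⟩ :=
    polyS_facts (m := m) (Ω := Ω) hΩ
  obtain ⟨k, F, hF, hkF⟩ := hf
  obtain ⟨l, G, hG, hlG⟩ := hg
  refine ⟨k + l, fun s x => F s x * G s x, hmul _ _ hF hG, ?_⟩
  intro s hs x hx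
  show (f s x * g s x) * D s x ^ (k + l) = F s x * G s x
  rw [← hkF s hs x hx, ← hlG s hs x hx, pow_add]
  ring

private theorem A2_poly {m : ℕ} {E : Type} [NormedAddCommGroup E] [NormedSpace ℝ E] {Ω : Set E}
    (B : Set (Fin m → ℝ)) (D : (Fin m → ℝ) → E → ℝ)
    (f : (Fin m → ℝ) → E → ℝ) (hf : PolyS Ω f) : RatS Ω B D f := by
  refine ⟨0, f, hf, ?_⟩
  intro s hs x hx
  rw [pow_zero, mul_one]

private theorem A2_sm {m : ℕ} {E : Type} [NormedAddCommGroup E] [NormedSpace ℝ E] {Ω : Set E}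
    (hΩ : IsOpen Ω) (B : Set (Fin m → ℝ)) (D : (Fin m → ℝ) → E → ℝ) (hD : PolyS Ω D)
    (hD0 : ∀ s ∈ B, ∀ x ∈ Ω, D s x ≠ 0)
    (f : (Fin m → ℝ) → E → ℝ) (hf : RatS Ω B D f) : ∀ s ∈ B, ContDiffOn ℝ ∞ (f s) Ω := by
  obtain ⟨hadd, hmul, hconst, hsm, hder, hev, hpe, hsum, hprod, hcongr⟩ :=
    polyS_facts (m := m) (Ω := Ω) hΩ
  obtain ⟨k, F, hF, hkF⟩ := hf
  intro s hs
  have h1 : ContDiffOn ℝ ∞ (fun x => F s x / D s x ^ k) Ω :=
    (hsm F hF s).div ((hsm D hD s).pow k) (fun x hx => pow_ne_zero k (hD0 s hs x hx))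
  refine h1.congr ?_
  intro x hx
  exact A2_rep B D hD0 f F k hkF s hs x hx

private theorem A2_der {m : ℕ} {E : Type} [NormedAddCommGroup E] [NormedSpace ℝ E] {Ω : Set E}
    (hΩ : IsOpen Ω) (B : Set (Fin m → ℝ)) (D : (Fin m → ℝ) → E → ℝ) (hD : PolyS Ω D)
    (hD0 : ∀ s ∈ B, ∀ x ∈ Ω, D s x ≠ 0)
    (f : (Fin m → ℝ) → E → ℝ) (hf : RatS Ω B D f) (u : E) :
    RatS Ω B D (fun s x => fderiv ℝ (f s) x u) := by
  have hfs := A2_sm hΩ B D hD hD0 f hf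
  obtain ⟨hadd, hmul, hconst, hsm, hder, hev, hpe, hsum, hprod, hcongr⟩ :=
    polyS_facts (m := m) (Ω := Ω) hΩ
  obtain ⟨k, F, hF, hkF⟩ := hf
  refine ⟨k + 1, fun s x => fderiv ℝ (F s) x u * D s x +
    (-(k : ℝ)) * (F s x * fderiv ℝ (D s) x u),
    hadd _ _ (hmul _ _ (hder F hF u) hD) (hmul _ _ (hconst (-(k : ℝ)))
      (hmul _ _ hF (hder D hD u))), ?_⟩
  intro s hs x hx
  show fderiv ℝ (f s) x u * D s x ^ (k + 1) = fderiv ℝ (F s) x u * D s x +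
    (-(k : ℝ)) * (F s x * fderiv ℝ (D s) x u)
  have hΩx : Ω ∈ 𝓝 x := hΩ.mem_nhds hx
  have hf1 : HasFDerivAt (f s) (fderiv ℝ (f s) x) x :=
    (((hfs s hs).contDiffAt hΩx).differentiableAt (by simp)).hasFDerivAt
  have hD1 : HasFDerivAt (D s) (fderiv ℝ (D s) x) x :=
    (((hsm D hD s).contDiffAt hΩx).differentiableAt (by simp)).hasFDerivAt
  have hF1 : HasFDerivAt (F s) (fderiv ℝ (F s) x) x :=
    (((hsm F hF s).contDiffAt hΩx).differentiableAt (by simp)).hasFDerivAt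
  have hprodder : HasFDerivAt (fun z => f s z * D s z ^ k)
      (f s x • (((k : ℝ) * D s x ^ (k - 1)) • fderiv ℝ (D s) x) +
        (D s x ^ k) • fderiv ℝ (f s) x) x := by
    have hp : HasFDerivAt (fun z => D s z ^ k)
        (((k : ℝ) * D s x ^ (k - 1)) • fderiv ℝ (D s) x) x := by
      have hq : HasDerivAt (fun y : ℝ => y ^ k) ((k : ℝ) * D s x ^ (k - 1)) (D s x) :=
        hasDerivAt_pow k (D s x)
      exact hq.comp_hasFDerivAt x hD1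
    exact hf1.mul hp
  have heq : (fun z => f s z * D s z ^ k) =ᶠ[𝓝 x] F s := by
    filter_upwards [hΩx] with z hz
    exact hkF s hs z hz
  have hu : fderiv ℝ (F s) x = f s x • (((k : ℝ) * D s x ^ (k - 1)) • fderiv ℝ (D s) x) +
        (D s x ^ k) • fderiv ℝ (f s) x :=
    (hF1.congr_of_eventuallyEq heq).unique hprodder
  have huu : fderiv ℝ (F s) x u = f s x * (((k : ℝ) * D s x ^ (k - 1)) * fderiv ℝ (D s) x u) +
        (D s x ^ k) * fderiv ℝ (f s) x u := by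
    rw [hu]
    rfl
  rw [huu, ← hkF s hs x hx]
  rcases Nat.eq_zero_or_pos k with hk | hk
  · subst hk
    simp
  · obtain ⟨j, rfl⟩ : ∃ j, k = j + 1 := ⟨k - 1, by omega⟩
    rw [Nat.add_sub_cancel]
    ring

/-- Row A2 (only Mathlib). Algebra of `RatS`. PLAN. Common denominators; for the derivative:
`f s = g s / D s ^ k` on `Ω` for `s ∈ B`, so
`D_u f * D ^ (k + 1) = (D_u g) * D - k * g * D_u D` (`polyS_facts`; for `k = 0` and `k ≥ 1`). -/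
theorem ratS_facts {m : ℕ} {E : Type} [NormedAddCommGroup E] [NormedSpace ℝ E] {Ω : Set E}
    (hΩ : IsOpen Ω) (B : Set (Fin m → ℝ)) (D : (Fin m → ℝ) → E → ℝ) (hD : PolyS Ω D)
    (hD0 : ∀ s ∈ B, ∀ x ∈ Ω, D s x ≠ 0) :
    (∀ f g : (Fin m → ℝ) → E → ℝ, RatS Ω B D f → RatS Ω B D g →
      RatS Ω B D (fun s x => f s x + g s x)) ∧
    (∀ f g : (Fin m → ℝ) → E → ℝ, RatS Ω B D f → RatS Ω B D g →
      RatS Ω B D (fun s x => f s x * g s x)) ∧
    (∀ f : (Fin m → ℝ) → E → ℝ, PolyS Ω f → RatS Ω B D f) ∧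
    (∀ f : (Fin m → ℝ) → E → ℝ, RatS Ω B D f → ∀ s ∈ B, ContDiffOn ℝ ∞ (f s) Ω) ∧
    (∀ f : (Fin m → ℝ) → E → ℝ, RatS Ω B D f → ∀ u : E,
      RatS Ω B D (fun s x => fderiv ℝ (f s) x u)) ∧
    (∀ (ι : Type) (I : Finset ι) (f : ι → (Fin m → ℝ) → E → ℝ), (∀ i ∈ I, RatS Ω B D (f i)) →
      RatS Ω B D (fun s x => ∑ i ∈ I, f i s x)) ∧
    ∀ f g : (Fin m → ℝ) → E → ℝ, (∀ s ∈ B, ∀ x ∈ Ω, f s x = g s x) → RatS Ω B D f →
      RatS Ω B D g := by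
  have hcg : ∀ f g : (Fin m → ℝ) → E → ℝ, (∀ s ∈ B, ∀ x ∈ Ω, f s x = g s x) → RatS Ω B D f →
      RatS Ω B D g := by
    rintro f g hfg ⟨k, F, hF, hkF⟩
    refine ⟨k, F, hF, ?_⟩
    intro s hs x hx
    rw [← hfg s hs x hx]
    exact hkF s hs x hx
  refine ⟨fun f g hf hg => A2_add hΩ B D hD f g hf hg, fun f g hf hg => A2_mul hΩ B D f g hf hg,
    fun f hf => A2_poly B D f hf, fun f hf => A2_sm hΩ B D hD hD0 f hf,
    fun f hf u => A2_der hΩ B D hD hD0 f hf u, ?_, hcg⟩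
  intro ι I f
  classical
  induction I using Finset.induction_on with
  | empty =>
    intro _
    refine hcg (fun _ _ => (0 : ℝ)) (fun s x => ∑ i ∈ (∅ : Finset ι), f i s x) ?_
      (A2_poly B D _ ((polyS_facts (m := m) (Ω := Ω) hΩ).2.2.1 0))
    intro s hs x hx
    simp
  | insert a I ha ih =>
    intro hI
    have h1 := ih (fun i hi => hI i (Finset.mem_insert_of_mem hi))
    have h2 := A2_add hΩ B D hD _ _ (hI a (Finset.mem_insert_self a I)) h1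
    refine hcg (fun s x => f a s x + ∑ i ∈ I, f i s x)
      (fun s x => ∑ i ∈ insert a I, f i s x) ?_ h2
    intro s hs x hx
    show f a s x + ∑ i ∈ I, f i s x = ∑ i ∈ insert a I, f i s x
    rw [Finset.sum_insert ha]

end NS38
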