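import Pool.Agent.LibNS38.B0

set_option autoImplicit false
set_option maxSynthPendingDepth 3

open Topology Filter Set
open scoped ContDiff

namespace NS38

/-- the covariant derivative of the curvature tensor of the metric `G` at `x` is bounded by `b` -/
def DcB {E : Type} [NormedAddCommGroup E] [NormedSpace ℝ E] (G : E → E → E → ℝ) (Ω : Set E) (x : E)
    (b : ℝ) : Prop :=
  ∀ C : E → E →L[ℝ] E →L[ℝ] E, ContDiffOn ℝ ∞ C Ω → Kos G C Ω → ∀ z u v w,
    ‖dcurv C x z u v w‖ ≤ b * (‖z‖ * ‖u‖ * ‖v‖ * ‖w‖)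

end NS38
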