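import Pool.Agent.LibNS38.B3
import Pool.Agent.LibNS38.B7
import Pool.Agent.LibFR38.K0
import Pool.Agent.LibFR38.A3
import Pool.Agent.LibFR38.A4

set_option autoImplicit false
set_option maxSynthPendingDepth 3

open Topology Filter Set
open scoped ContDiff

namespace NS38

/-- one connection: `dcurv` is multilinear at the points of `Ω` -/
private theorem A5_lin {E : Type} [NormedAddCommGroup E] [NormedSpace ℝ E] {Ω : Set E}
    (hΩ : IsOpen Ω) (C : E → E →L[ℝ] E →L[ℝ] E) (hC : ContDiffOn ℝ ∞ C Ω) :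
    ∃ R : E → E →L[ℝ] E →L[ℝ] E →L[ℝ] E →L[ℝ] E,
      ∀ x ∈ Ω, ∀ z u v w, dcurv C x z u v w = R x z u v w := by
  have h1 : ContDiffOn ℝ ∞ (fun x : ℝ × E => (fun _ : ℝ => C) x.1 x.2) (univ ×ˢ Ω) :=
    hC.comp contDiffOn_snd fun x hx => hx.2
  obtain ⟨R', -, h2⟩ := (curv_clm (fun _ : ℝ => C) (univ ×ˢ Ω) (isOpen_univ.prod hΩ) h1).2
  exact ⟨fun x => R' (0, x), fun x hx z u v w => h2 (0, x) ⟨mem_univ _, hx⟩ z u v w⟩

/-- a continuous 4-linear map which vanishes on basis vectors is zero -/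
private theorem A5_zero {E J : Type} [NormedAddCommGroup E] [NormedSpace ℝ E] [Fintype J]
    (b : Module.Basis J ℝ E) (R : E →L[ℝ] E →L[ℝ] E →L[ℝ] E →L[ℝ] E)
    (h : ∀ z u v w, R (b z) (b u) (b v) (b w) = 0) : ∀ z u v w, R z u v w = 0 := by
  have e : ∀ (F : Type) [NormedAddCommGroup F] [NormedSpace ℝ F] (f : E →L[ℝ] F),
      (∀ i, f (b i) = 0) → ∀ x, f x = 0 := by
    intro F _ _ f hf x
    have h1 : (f : E →ₗ[ℝ] F) = 0 := b.ext fun i => by simpa using hf i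
    have h2 := LinearMap.congr_fun h1 x
    simpa using h2
  have h4 : ∀ z u v, R (b z) (b u) (b v) = 0 := fun z u v =>
    ContinuousLinearMap.ext fun w => e E (R (b z) (b u) (b v)) (h z u v) w
  have h3 : ∀ z u, R (b z) (b u) = 0 := fun z u =>
    ContinuousLinearMap.ext fun v => e (E →L[ℝ] E) (R (b z) (b u)) (h4 z u) v
  have h2 : ∀ z, R (b z) = 0 := fun z =>
    ContinuousLinearMap.ext fun u => e (E →L[ℝ] E →L[ℝ] E) (R (b z)) (h3 z) u
  intro z u v w
  have h1 := e (E →L[ℝ] E →L[ℝ] E →L[ℝ] E) R h2 z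
  rw [h1]
  rfl

/-- Row A5 (assembly). The locally symmetric members of a polynomial family of metrics are given by
polynomial equations. PLAN. `b` a basis of `E` (`Module.finBasis`), `C s` the Christoffel symbols for `s ∈ B`
(`kos_facts` (4)), `D` from `chr_rat`; `dcurv_rat`: for `x ∈ Ω` and indices there are `k` and (`polyS_facts` (6))
a polynomial `p` with `eval s p = b.repr (dcurv (C s) x ..) l * D s x ^ k` for `s ∈ B`; `Pz` the set of all of
them. If all vanish at `s ∈ B` then `dcurv (C s) x` vanishes on basis vectors, so it is zero (`curv_clm`,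
`ContinuousLinearMap` / basis ext). Bound: `|b.repr y l| ≤ c ‖y‖` (finite dimension), `|D s x| ^ k` is bounded
for `‖s‖ ≤ 1` (a polynomial in `s`); `DcB` is applied to `C s` (`b ≥ 0` is not needed: `0 ≤ ‖dcurv ..‖ ≤ b * ..`;
if the product of the norms of the basis vectors is used, put it into `A`). -/
theorem lsym_poly {m : ℕ} {E : Type} [NormedAddCommGroup E] [NormedSpace ℝ E]
    [FiniteDimensional ℝ E] {Ω : Set E} (hΩ : IsOpen Ω) (G : (Fin m → ℝ) → E → E → E → ℝ)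
    (hG : ∀ v w, PolyS Ω (fun s x => G s x v w)) (B : Set (Fin m → ℝ))
    (hB : ∀ s ∈ B, Met (G s) Ω) :
    ∃ Pz : Set (MvPolynomial (Fin m) ℝ),
      (∀ s ∈ B, (∀ p ∈ Pz, MvPolynomial.eval s p = 0) → LSym (G s) Ω) ∧
      ∀ p ∈ Pz, ∃ x ∈ Ω, ∃ A : ℝ, 0 ≤ A ∧ ∀ s ∈ B, ‖s‖ ≤ 1 → ∀ b : ℝ, DcB (G s) Ω x b →
        |MvPolynomial.eval s p| ≤ A * b := by
  classical
  set b := Module.finBasis ℝ E with hb
  -- the Christoffel symbols
  have hex : ∀ s : Fin m → ℝ, ∃ C : E → E →L[ℝ] E →L[ℝ] E,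
      s ∈ B → ContDiffOn ℝ ∞ C Ω ∧ Kos (G s) C Ω := by
    intro s
    by_cases hs : s ∈ B
    · obtain ⟨C, h⟩ := (kos_facts hΩ).2.2.2.1 (G s) (hB s hs)
      exact ⟨C, fun _ => h⟩
    · exact ⟨fun _ => 0, fun h => absurd h hs⟩
  choose C hC using hex
  obtain ⟨D, hD, hD0, hD1⟩ := chr_rat b hΩ G (fun i j => hG _ _) B hB
  have hr := hD1 C (fun s hs => (hC s hs).2)
  have hdc := dcurv_rat b hΩ B D hD hD0 C (fun s hs => (hC s hs).1) hr
  have h6 := (polyS_facts (m := m) hΩ).2.2.2.2.2.1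
  refine ⟨{p | ∃ x ∈ Ω, ∃ z u v w l, ∃ k : ℕ, ∀ s ∈ B,
    b.repr (dcurv (C s) x (b z) (b u) (b v) (b w)) l * D s x ^ k = MvPolynomial.eval s p},
    ?_, ?_⟩
  · intro s hs hp
    obtain ⟨R, hR⟩ := A5_lin hΩ (C s) (hC s hs).1
    refine ⟨C s, (hC s hs).1, (hC s hs).2, fun x hx z u v w => ?_⟩
    rw [hR x hx]
    refine A5_zero b (R x) (fun z u v w => ?_) z u v w
    rw [← hR x hx]
    refine b.ext_elem fun l => ?_
    obtain ⟨k, g, hg, hk⟩ := hdc z u v w l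
    obtain ⟨p, hp'⟩ := h6 g hg x hx
    have h1 := hp p ⟨x, hx, z, u, v, w, l, k, fun s hs => by rw [hk s hs x hx, hp' s]⟩
    have h2 := hk s hs x hx
    rw [hp' s, h1] at h2
    have h3 := (mul_eq_zero.1 h2).resolve_right (pow_ne_zero _ (hD0 s hs x hx))
    rw [map_zero, Finsupp.zero_apply]
    exact h3
  · rintro p ⟨x, hx, z, u, v, w, l, k, hk⟩
    obtain ⟨q, hq⟩ := h6 D hD x hx
    -- a bound for `D s x` on the unit ball
    have hbd : ∃ M : ℝ, 0 ≤ M ∧ ∀ s : Fin m → ℝ, ‖s‖ ≤ 1 → |D s x| ≤ M := by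
      have hc : IsCompact (Metric.closedBall (0 : Fin m → ℝ) 1) := isCompact_closedBall 0 1
      have hcont : ContinuousOn (fun s : Fin m → ℝ => MvPolynomial.eval s q)
          (Metric.closedBall 0 1) := (MvPolynomial.continuous_eval q).continuousOn
      obtain ⟨M, hM⟩ := hc.exists_bound_of_continuousOn hcont
      refine ⟨max M 0, le_max_right _ _, fun s hs => ?_⟩
      have h1 := hM s (by simpa using hs)
      rw [hq s]
      exact (by simpa [Real.norm_eq_abs] using h1 : |MvPolynomial.eval s q| ≤ M).trans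
        (le_max_left _ _)
    obtain ⟨M, hM0, hM⟩ := hbd
    set f : E →L[ℝ] ℝ := LinearMap.toContinuousLinearMap (b.coord l) with hf
    have hf1 : ∀ y, f y = b.repr y l := fun y => rfl
    refine ⟨x, hx, ‖f‖ * (‖b z‖ * ‖b u‖ * ‖b v‖ * ‖b w‖) * M ^ k, by positivity, ?_⟩
    intro s hs hs1 β hβ
    have h1 := hβ (C s) (hC s hs).1 (hC s hs).2 (b z) (b u) (b v) (b w)
    have h2 : |b.repr (dcurv (C s) x (b z) (b u) (b v) (b w)) l| ≤
        ‖f‖ * (β * (‖b z‖ * ‖b u‖ * ‖b v‖ * ‖b w‖)) := by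
      rw [← hf1, ← Real.norm_eq_abs]
      exact (f.le_opNorm _).trans (mul_le_mul_of_nonneg_left h1 (norm_nonneg _))
    have h3 : |D s x ^ k| ≤ M ^ k := by
      rw [abs_pow]
      exact pow_le_pow_left₀ (abs_nonneg _) (hM s hs1) k
    rw [← hk s hs, abs_mul]
    calc |b.repr (dcurv (C s) x (b z) (b u) (b v) (b w)) l| * |D s x ^ k|
        ≤ (‖f‖ * (β * (‖b z‖ * ‖b u‖ * ‖b v‖ * ‖b w‖))) * M ^ k :=
          mul_le_mul h2 h3 (abs_nonneg _) ((abs_nonneg _).trans h2)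
      _ = ‖f‖ * (‖b z‖ * ‖b u‖ * ‖b v‖ * ‖b w‖) * M ^ k * β := by ring

end NS38
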