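import Pool.Agent.LibNS38.B0

set_option autoImplicit false
set_option maxSynthPendingDepth 3

open Topology Filter Set
open scoped ContDiff

namespace NS38

/-- Row A6 (only Mathlib). Hilbert's basis theorem: finitely many members of a set of polynomials have the
same common zeros. PLAN. `Ideal.span Pz` is finitely generated (`MvPolynomial` over a field is Noetherian);
`Submodule.fg_span_iff_fg_span_finset_subset` (or similar) gives a finite subset of `Pz` with the same
span; an element of the ideal vanishes where the generators vanish (`Submodule.span_induction`, or the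
kernel of `eval s` is an ideal). -/
theorem fin_zero {m : ℕ} (Pz : Set (MvPolynomial (Fin m) ℝ)) :
    ∃ F : Finset (MvPolynomial (Fin m) ℝ), (∀ p ∈ F, p ∈ Pz) ∧ ∀ s : Fin m → ℝ,
      (∀ p ∈ F, MvPolynomial.eval s p = 0) → ∀ p ∈ Pz, MvPolynomial.eval s p = 0 := by
  have hfg : (Submodule.span (MvPolynomial (Fin m) ℝ) Pz).FG := IsNoetherian.noetherian _
  obtain ⟨F, hF, hspan⟩ := (Submodule.fg_span_iff_fg_span_finset_subset Pz).1 hfg
  refine ⟨F, fun p hp => hF hp, fun s hs p hp => ?_⟩
  have hker : Submodule.span (MvPolynomial (Fin m) ℝ) (F : Set (MvPolynomial (Fin m) ℝ)) ≤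
      RingHom.ker (MvPolynomial.eval s) := by
    refine Submodule.span_le.2 fun q hq => ?_
    exact hs q hq
  have h1 : p ∈ Submodule.span (MvPolynomial (Fin m) ℝ) (F : Set (MvPolynomial (Fin m) ℝ)) := by
    rw [← hspan]
    exact Submodule.subset_span hp
  exact hker h1

end NS38
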