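import Pool.Agent.LibFR38.F0

set_option autoImplicit false
set_option maxSynthPendingDepth 3

open Matrix MeasureTheory Topology Filter
open scoped Matrix.Norms.Elementwise ContDiff

namespace LibNC38

private theorem V1P_pr {P : Type} [NormedAddCommGroup P] [NormedSpace ℝ P] {n : ℕ} {S : Set P}
    {a : P → ℝ} (ha : ContDiffOn ℝ ∞ a S) :
    ContDiffOn ℝ ∞ (fun x : P × Mt n => a x.1) (S ×ˢ PU n) :=
  ha.comp contDiff_fst.contDiffOn fun _ hx => hx.1

private theorem V1P_slice {P : Type} [NormedAddCommGroup P] [NormedSpace ℝ P] {n : ℕ} {t : P}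
    {S : Set (Mt n)} : ContDiffOn ℝ ∞ (fun A : Mt n => ((t, A) : P × Mt n)) S :=
  (contDiff_const.prodMk contDiff_id).contDiffOn

/-- Row V1P. Operations on smooth families (compare `smF_facts` in `LibNS38/V4.lean`, whose proof adapts).
(1) linear combinations with smooth coefficients. (2) `gF` is smooth. (3) restriction. (4) members of
smooth families. (5) constant families. (6) finite sums. -/
theorem smP_facts {P : Type} [NormedAddCommGroup P] [NormedSpace ℝ P] {n : ℕ} :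
    (∀ (S : Set P) (a b : P → ℝ) (K L : P → PD n → Fm n), ContDiffOn ℝ ∞ a S →
      ContDiffOn ℝ ∞ b S → SmFP S K → SmFP S L → SmFP S (fun s p => a s • K s p + b s • L s p)) ∧
    (∀ S : Set P, SmFP S (fun _ => (gF : PD n → Fm n))) ∧
    (∀ (S S' : Set P) (K : P → PD n → Fm n) (Ψ : P → PD n → PD n), S' ⊆ S →
      (SmFP S K → SmFP S' K) ∧ (SmMP S Ψ → SmMP S' Ψ)) ∧
    (∀ (S : Set P) (s : P) (K : P → PD n → Fm n) (Ψ : P → PD n → PD n), s ∈ S →
      (SmFP S K → ∀ v w, ContDiffOn ℝ ∞ (fun A : Mt n => K s (ret A) v w) (PU n)) ∧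
      (SmMP S Ψ → SmX (Ψ s))) ∧
    (∀ (S : Set P) (κ : PD n → Fm n),
      (∀ v w, ContDiffOn ℝ ∞ (fun A : Mt n => κ (ret A) v w) (PU n)) → SmFP S (fun _ => κ)) ∧
    (∀ (S : Set P) (k : ℕ) (a : Fin k → P → ℝ) (K : Fin k → P → PD n → Fm n),
      (∀ i, ContDiffOn ℝ ∞ (a i) S) → (∀ i, SmFP S (K i)) →
      SmFP S (fun s p => ∑ i, a i s • K i s p)) := by
  refine ⟨fun S a b K L ha hb hK hL v w => ?_, fun S v w => ?_,
    fun S S' K Ψ h => ⟨fun hK v w => ?_, fun hΨ => ?_⟩,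
    fun S s K Ψ hs => ⟨fun hK v w => ?_, fun hΨ => ?_⟩, fun S κ hκ v w => ?_,
    fun S k a K ha hK v w => ?_⟩
  · exact ((V1P_pr ha).mul (hK v w)).add ((V1P_pr hb).mul (hL v w))
  · have h1 : ContDiffOn ℝ ∞ (fun x : P × Mt n => (ret x.2).1) (S ×ˢ PU n) :=
      ContDiffOn.comp (g := fun A : Mt n => (ret A).1) ret_smooth contDiff_snd.contDiffOn
        fun _ hx => hx.2
    have h2 : ContDiffOn ℝ ∞ (fun x : P × Mt n => ((ret x.2).1)⁻¹) (S ×ˢ PU n) :=
      cd_inv h1 fun x _ => by rw [(ret x.2).2.2]; exact one_ne_zero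
    exact cd_trace (cd_mul (cd_mul h2 contDiffOn_const) (cd_mul h2 contDiffOn_const))
  · exact (hK v w).mono (Set.prod_mono h subset_rfl)
  · exact ContDiffOn.mono hΨ (Set.prod_mono h subset_rfl)
  · exact (hK v w).comp V1P_slice fun _ hA => ⟨hs, hA⟩
  · exact ContDiffOn.comp (g := fun x : P × Mt n => (Ψ x.1 (ret x.2)).1) hΨ V1P_slice
      fun _ hA => ⟨hs, hA⟩
  · exact (hκ v w).comp contDiff_snd.contDiffOn fun _ hx => hx.2
  · have h : ContDiffOn ℝ ∞ (fun x : P × Mt n => ∑ i, a i x.1 * K i x.1 (ret x.2) v w)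
        (S ×ˢ PU n) := ContDiffOn.sum fun i _ => (V1P_pr (ha i)).mul (hK i v w)
    refine h.congr fun x _ => ?_
    show (∑ i, a i x.1 • K i x.1 (ret x.2)) v w = _
    rw [LinearMap.sum_apply, LinearMap.sum_apply]
    rfl

/-- Row V1P (second part). Change of parameters. -/
theorem smP_comp {P P' : Type} [NormedAddCommGroup P] [NormedSpace ℝ P] [NormedAddCommGroup P']
    [NormedSpace ℝ P'] {n : ℕ} (S : Set P) (S' : Set P') (σ : P' → P) (hσ : ContDiffOn ℝ ∞ σ S')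
    (hm : ∀ s ∈ S', σ s ∈ S) :
    (∀ K : P → PD n → Fm n, SmFP S K → SmFP S' (fun s => K (σ s))) ∧
    ∀ Ψ : P → PD n → PD n, SmMP S Ψ → SmMP S' (fun s => Ψ (σ s)) := by
  have h1 : ContDiffOn ℝ ∞ (fun x : P' × Mt n => ((σ x.1, x.2) : P × Mt n)) (S' ×ˢ PU n) :=
    (hσ.comp contDiff_fst.contDiffOn fun _ hx => hx.1).prodMk contDiff_snd.contDiffOn
  have h2 : Set.MapsTo (fun x : P' × Mt n => ((σ x.1, x.2) : P × Mt n)) (S' ×ˢ PU n)
      (S ×ˢ PU n) := fun x hx => ⟨hm x.1 hx.1, hx.2⟩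
  refine ⟨fun K hK v w => ?_, fun Ψ hΨ => ?_⟩
  · exact (hK v w).comp h1 h2
  · exact ContDiffOn.comp (g := fun x : P × Mt n => (Ψ x.1 (ret x.2)).1) hΨ h1 h2

/-- Row V1P (third part). Smoothness in the parameter at a fixed point. PLAN. compose with `s ↦ (s, p.1)`,
`ret_self`, `mem_PU`. -/
theorem smP_point {P : Type} [NormedAddCommGroup P] [NormedSpace ℝ P] {n : ℕ} (S : Set P)
    (K : P → PD n → Fm n) (hK : SmFP S K) (p : PD n) (v w : Mt n) :
    ContDiffOn ℝ ∞ (fun s => K s p v w) S := by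
  have h1 : ContDiffOn ℝ ∞ (fun s : P => ((s, p.1) : P × Mt n)) S :=
    (contDiff_id.prodMk contDiff_const).contDiffOn
  have h2 : ContDiffOn ℝ ∞ (fun s : P => K s (ret p.1) v w) S :=
    (hK v w).comp h1 fun s hs => ⟨hs, mem_PU p⟩
  refine h2.congr fun s _ => ?_
  show K s p v w = K s (ret p.1) v w
  rw [ret_self]

end LibNC38
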