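import Pool.Agent.LibFR38.R1
import Pool.Agent.LibFR38.V1P

set_option autoImplicit false
set_option maxSynthPendingDepth 3

open Matrix MeasureTheory Topology Filter
open scoped Matrix.Norms.Elementwise ContDiff

namespace LibNC38

private lemma B1P_gF_symm {n : ℕ} (p : PD n) (v w : Mt n) : gF p v w = gF p w v := by
  rw [gF_apply, gF_apply, Matrix.trace_mul_comm]

private lemma B1P_SmMP {P : Type} [NormedAddCommGroup P] [NormedSpace ℝ P] {n : ℕ} (S : Set P) :
    SmMP S (fun _ (p : PD n) => p) := by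
  show ContDiffOn ℝ ∞ (fun x : P × Mt n => (ret x.2).1) (S ×ˢ PU n)
  exact (ret_smooth (n := n) (m := ∞)).comp contDiff_snd.contDiffOn (fun x hx => hx.2)

private lemma B1P_Dfm {n : ℕ} (Γ : Subgroup (SL n)) : Dfm Γ (fun p : PD n => p) where
  smooth := dff_facts.2.2.1.1
  equi := fun _ _ _ => rfl
  inv := ⟨fun p => p, dff_facts.2.2.1.1, fun _ => rfl, fun _ => rfl⟩

/-- Row B1P. Order zero: `Φ = id`, `c = 1`, no `e`, `R s = H s - gF` (for `m` parameters). `Dfm Γ id`,
`pul id h p v v = h p v v` for tangent `v`: `dff_facts` (compare `ord_one`, `LibNS38/I1.lean`). `RayF 1 R`: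
`smP_point`, `rayO_facts` (5). (`OrdP` asks `0 < ε`: take the given `ε`.) -/
theorem ordP_zero {n m : ℕ} (Γ : Subgroup (SL n)) (Cc : Submodule ℝ (PD n → Fm n))
    (H : (Fin m → ℝ) → PD n → Fm n) (hH : ∀ s, FmOK Γ (H s)) (ε : ℝ) (hε : 0 < ε)
    (hs : SmFP (Metric.ball 0 ε) H) (h0 : ∀ p v, IsTan p v → H 0 p v v = gF p v v) :
    OrdP Γ Cc H 0 := by
  have hF : SmFP (Metric.ball 0 ε) (fun (s : Fin m → ℝ) (p : PD n) =>
      (1 : ℝ) • H s p + (-1 : ℝ) • (gF p : Fm n)) :=
    smP_facts.1 (Metric.ball 0 ε) (fun _ => 1) (fun _ => -1) H (fun _ => gF) contDiffOn_const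
      contDiffOn_const hs (smP_facts.2.1 _)
  have hval : ∀ (s : Fin m → ℝ) (p : PD n) (v w : Mt n),
      ((1 : ℝ) • H s p + (-1 : ℝ) • (gF p : Fm n)) v w = H s p v w - gF p v w := by
    intro s p v w
    simp only [LinearMap.add_apply, LinearMap.smul_apply, smul_eq_mul]
    ring
  refine ⟨ε, fun _ p => p, fun _ => 1, 0, fun i => i.elim0, fun i => i.elim0,
    fun s p => (1 : ℝ) • H s p + (-1 : ℝ) • (gF p : Fm n), ?_, fun i => i.elim0⟩
  exact
    { pos := hε
      smΦ := B1P_SmMP _
      id := fun _ => rfl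
      dfm := fun _ _ => B1P_Dfm Γ
      smc := contDiffOn_const
      c0 := rfl
      cpos := fun _ _ => one_pos
      smq := fun i => i.elim0
      rq := fun i => i.elim0
      tf := fun i => i.elim0
      smR := hF
      symR := by
        intro s p v w
        simp only [hval]
        rw [(hH s).symm p v w, B1P_gF_symm p v w]
      rR := by
        intro p v hv
        have h1 := smP_point (Metric.ball 0 ε) _ hF p v v
        refine (rayO_facts.2.2.2.2.1 ε _ hε h1).2 ?_
        simp only [hval]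
        rw [h0 p v hv, sub_self]
      eq := by
        intro s hs' p v hv
        rw [pul_apply, dff_facts.2.2.1.2 p v hv]
        simp only [hval]
        rw [Finset.univ_eq_empty, Finset.sum_empty]
        ring }

end LibNC38
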