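import Pool.Agent.LibFR38.F0

set_option autoImplicit false
set_option maxSynthPendingDepth 3

open Matrix MeasureTheory Topology Filter
open scoped Matrix.Norms.Elementwise ContDiff

namespace LibNC38

private theorem C1_diff {n : ℕ} {Γ : Subgroup (SL n)} {Y : Mt n → Mt n} (h : VF Γ Y) (p : PD n) :
    DifferentiableAt ℝ Y p.1 :=
  (h.smooth.contDiffAt (PU_open.mem_nhds (mem_PU p))).differentiableAt (by simp)

private theorem C1_lie {n : ℕ} {Γ : Subgroup (SL n)} {Y Z : Mt n → Mt n} (h : VF Γ Y) (h' : VF Γ Z)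
    (a b : ℝ) (p : PD n) (v : Mt n) :
    LieG (fun A => a • Y A + b • Z A) p.1 v = a * LieG Y p.1 v + b * LieG Z p.1 v := by
  have h1 : fderiv ℝ (fun A => a • Y A + b • Z A) p.1 v =
      a • fderiv ℝ Y p.1 v + b • fderiv ℝ Z p.1 v := by
    have h2 := ((C1_diff h p).hasFDerivAt.const_smul a).add ((C1_diff h' p).hasFDerivAt.const_smul b)
    have h3 : HasFDerivAt (fun A => a • Y A + b • Z A)
        (a • fderiv ℝ Y p.1 + b • fderiv ℝ Z p.1) p.1 := h2
    exact DFunLike.congr_fun h3.fderiv v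
  unfold LieG
  rw [h1]
  simp only [Matrix.mul_add, Matrix.add_mul, Matrix.mul_smul, Matrix.smul_mul, Matrix.trace_add,
    Matrix.trace_smul, smul_eq_mul]
  ring

private theorem C1_vf {n : ℕ} {Γ : Subgroup (SL n)} {Y Z : Mt n → Mt n} (h : VF Γ Y) (h' : VF Γ Z)
    (a b : ℝ) : VF Γ (fun A => a • Y A + b • Z A) := by
  refine ⟨(h.smooth.const_smul a).add (h'.smooth.const_smul b), fun p => ?_, fun γ hγ p => ?_⟩
  · have h1 := h.tan p
    have h2 := h'.tan p
    obtain ⟨h3, h4⟩ := h1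
    obtain ⟨h5, h6⟩ := h2
    refine ⟨?_, ?_⟩
    · show (a • Y p.1 + b • Z p.1)ᵀ = _
      rw [transpose_add, transpose_smul, transpose_smul, h3, h5]
    · simp only [Matrix.mul_add, Matrix.mul_smul, Matrix.trace_add, Matrix.trace_smul, h4, h6,
        smul_zero, add_zero]
  · show a • Y (act γ p).1 + b • Z (act γ p).1 = _
    rw [h.equi γ hγ p, h'.equi γ hγ p]
    simp only [Matrix.mul_add, Matrix.add_mul, Matrix.mul_smul, Matrix.smul_mul]

/-- Row C1. A complement of the trivial forms. PLAN. The trivial forms in `TF Γ` are a submodule `Tr`: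
sums and multiples (`LieG` is linear in `Y`: `fderiv` of a sum at `p.1`, `Y` differentiable there as `PU n` is
open, `mem_PU`); the zero form with `c = 0`, `Y = 0`. `Submodule.exists_isCompl Tr` in the whole space gives
`C'`; `Cc := C' ⊓ TF Γ`. For `κ ∈ TF Γ` write `κ = τ + e`, `τ ∈ Tr`, `e ∈ C'`; `e = κ - τ ∈ TF Γ`. -/
theorem compl_exists {n : ℕ} (Γ : Subgroup (SL n)) :
    ∃ Cc : Submodule ℝ (PD n → Fm n), Cc ≤ TF Γ ∧ (∀ κ ∈ Cc, TrF Γ κ → κ = 0) ∧
      ∀ κ ∈ TF Γ, ∃ e ∈ Cc, TrF Γ (κ - e) := by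
  have hz : VF Γ (fun _ : Mt n => (0 : Mt n)) := by
    refine ⟨contDiffOn_const, fun p => ⟨by simp, by simp⟩, fun γ hγ p => by simp⟩
  let Tr : Submodule ℝ (PD n → Fm n) :=
    { carrier := {κ | κ ∈ TF Γ ∧ TrF Γ κ}
      add_mem' := by
        rintro κ κ' ⟨h1, c, Y, hY, h2⟩ ⟨h3, c', Y', hY', h4⟩
        refine ⟨(TF Γ).add_mem h1 h3, c + c', fun A => (1 : ℝ) • Y A + (1 : ℝ) • Y' A,
          C1_vf hY hY' 1 1, fun p v hv => ?_⟩
        show κ p v v + κ' p v v = _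
        rw [h2 p v hv, h4 p v hv, C1_lie hY hY']
        ring
      zero_mem' := by
        refine ⟨(TF Γ).zero_mem, 0, fun _ => 0, hz, fun p v hv => ?_⟩
        show (0 : ℝ) = _
        unfold LieG
        simp
      smul_mem' := by
        rintro r κ ⟨h1, c, Y, hY, h2⟩
        refine ⟨(TF Γ).smul_mem r h1, r * c, fun A => r • Y A + (0 : ℝ) • Y A,
          C1_vf hY hY r 0, fun p v hv => ?_⟩
        show r * κ p v v = _
        rw [h2 p v hv, C1_lie hY hY]
        ring }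
  obtain ⟨C', hC'⟩ := Submodule.exists_isCompl Tr
  refine ⟨C' ⊓ TF Γ, inf_le_right, fun κ hκ ht => ?_, fun κ hκ => ?_⟩
  · have h1 : κ ∈ Tr := ⟨hκ.2, ht⟩
    exact (Submodule.disjoint_def.1 hC'.disjoint) κ h1 hκ.1
  · obtain ⟨τ, hτ, e, he, h1⟩ := Submodule.mem_sup.1
      (hC'.sup_eq_top ▸ (Submodule.mem_top : κ ∈ (⊤ : Submodule ℝ (PD n → Fm n))))
    have h2 : e = κ - τ := by rw [← h1]; abel
    have h3 : κ - e = τ := by rw [← h1]; abel
    refine ⟨e, ⟨he, ?_⟩, ?_⟩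
    · rw [h2]
      exact (TF Γ).sub_mem hκ hτ.1
    · rw [h3]
      exact hτ.2

end LibNC38
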