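import Pool.Agent.LibFR38.F0

set_option autoImplicit false
set_option maxSynthPendingDepth 3

open Matrix MeasureTheory Topology Filter
open scoped Matrix.Norms.Elementwise ContDiff

namespace LibNC38

private theorem R1_small {P : Type} [NormedAddCommGroup P] [NormedSpace ℝ P] {ε : ℝ} (hε : 0 < ε)
    (s : P) : ∃ δ : ℝ, 0 < δ ∧ ∀ t : ℝ, |t| < δ → ‖t • s‖ < ε := by
  have h1 : 0 < ‖s‖ + 1 := by positivity
  refine ⟨ε / (‖s‖ + 1), div_pos hε h1, fun t ht => ?_⟩
  rw [norm_smul, Real.norm_eq_abs]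
  have h2 : |t| * (‖s‖ + 1) < ε := (lt_div_iff₀ h1).1 ht
  have h3 : |t| * ‖s‖ ≤ |t| * (‖s‖ + 1) :=
    mul_le_mul_of_nonneg_left (by linarith) (abs_nonneg t)
  exact lt_of_le_of_lt h3 h2

private theorem R1_add {P : Type} [NormedAddCommGroup P] [NormedSpace ℝ P]
    (N : ℕ) (f g : P → ℝ) (hf : RayO N f) (hg : RayO N g) : RayO N (fun s => f s + g s) := by
  intro s
  obtain ⟨C, δ, hδ, h⟩ := hf s
  obtain ⟨C', δ', hδ', h'⟩ := hg s
  refine ⟨C + C', min δ δ', lt_min hδ hδ', fun t ht => ?_⟩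
  have h1 := h t (lt_of_lt_of_le ht (min_le_left _ _))
  have h2 := h' t (lt_of_lt_of_le ht (min_le_right _ _))
  calc |f (t • s) + g (t • s)| ≤ |f (t • s)| + |g (t • s)| := abs_add_le _ _
    _ ≤ C * |t| ^ N + C' * |t| ^ N := add_le_add h1 h2
    _ = (C + C') * |t| ^ N := by ring

/-- Row R1. Algebra of `RayO`. (5): a smooth function near `0` is bounded along rays, and `O(t)` if it
vanishes at `0` (differentiable along the ray). (6) depends only on a neighbourhood of `0`. -/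
theorem rayO_facts {P : Type} [NormedAddCommGroup P] [NormedSpace ℝ P] :
    (∀ (N M : ℕ) (f : P → ℝ), N ≤ M → RayO M f → RayO N f) ∧
    (∀ (N : ℕ) (f g : P → ℝ), RayO N f → RayO N g → RayO N (fun s => f s + g s)) ∧
    (∀ (N : ℕ) (f : P → ℝ) (r : ℝ), RayO N f → RayO N (fun s => r * f s)) ∧
    (∀ (a b : ℕ) (f g : P → ℝ), RayO a f → RayO b g → RayO (a + b) (fun s => f s * g s)) ∧
    (∀ (ε : ℝ) (f : P → ℝ), 0 < ε → ContDiffOn ℝ ∞ f (Metric.ball 0 ε) →
      RayO 0 f ∧ (f 0 = 0 → RayO 1 f)) ∧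
    (∀ (N : ℕ) (ε : ℝ) (f g : P → ℝ), 0 < ε → (∀ s ∈ Metric.ball (0 : P) ε, f s = g s) →
      RayO N f → RayO N g) ∧
    (∀ (N : ℕ) (ι : Type) (I : Finset ι) (f : ι → P → ℝ), (∀ i ∈ I, RayO N (f i)) →
      RayO N (fun s => ∑ i ∈ I, f i s)) := by
  refine ⟨?_, R1_add, ?_, ?_, ?_, ?_, ?_⟩
  · intro N M f hNM hf s
    obtain ⟨C, δ, hδ, h⟩ := hf s
    refine ⟨|C|, min δ 1, lt_min hδ one_pos, fun t ht => ?_⟩
    have h1 := h t (lt_of_lt_of_le ht (min_le_left _ _))
    have h2 : |t| ≤ 1 := (lt_of_lt_of_le ht (min_le_right _ _)).le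
    calc |f (t • s)| ≤ C * |t| ^ M := h1
      _ ≤ |C| * |t| ^ M := mul_le_mul_of_nonneg_right (le_abs_self C) (by positivity)
      _ ≤ |C| * |t| ^ N :=
        mul_le_mul_of_nonneg_left (pow_le_pow_of_le_one (abs_nonneg t) h2 hNM) (abs_nonneg C)
  · intro N f r hf s
    obtain ⟨C, δ, hδ, h⟩ := hf s
    refine ⟨|r| * C, δ, hδ, fun t ht => ?_⟩
    calc |r * f (t • s)| = |r| * |f (t • s)| := abs_mul _ _
      _ ≤ |r| * (C * |t| ^ N) := mul_le_mul_of_nonneg_left (h t ht) (abs_nonneg r)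
      _ = |r| * C * |t| ^ N := by ring
  · intro a b f g hf hg s
    obtain ⟨C, δ, hδ, h⟩ := hf s
    obtain ⟨C', δ', hδ', h'⟩ := hg s
    refine ⟨C * C', min δ δ', lt_min hδ hδ', fun t ht => ?_⟩
    have h1 := h t (lt_of_lt_of_le ht (min_le_left _ _))
    have h2 := h' t (lt_of_lt_of_le ht (min_le_right _ _))
    calc |f (t • s) * g (t • s)| = |f (t • s)| * |g (t • s)| := abs_mul _ _
      _ ≤ (C * |t| ^ a) * (C' * |t| ^ b) :=
        mul_le_mul h1 h2 (abs_nonneg _) (le_trans (abs_nonneg _) h1)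
      _ = C * C' * |t| ^ (a + b) := by rw [pow_add]; ring
  · intro ε f hε hf
    have hd : DifferentiableAt ℝ f 0 :=
      (hf.contDiffAt (Metric.ball_mem_nhds 0 hε)).differentiableAt (by simp)
    have hO := hd.hasFDerivAt.isBigO_sub
    obtain ⟨C, hC⟩ := hO.bound
    obtain ⟨ε', hε', hball⟩ := Metric.eventually_nhds_iff.1 hC
    have key : ∀ s : P, ∃ δ : ℝ, 0 < δ ∧ ∀ t : ℝ, |t| < δ →
        |f (t • s) - f 0| ≤ |C| * (|t| * ‖s‖) ∧ |t| * ‖s‖ < ε' := by
      intro s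
      obtain ⟨δ, hδ, h⟩ := R1_small hε' s
      refine ⟨δ, hδ, fun t ht => ?_⟩
      have h1 := h t ht
      have h2 := hball (y := t • s) (by rwa [dist_zero_right])
      rw [sub_zero, Real.norm_eq_abs, norm_smul, Real.norm_eq_abs] at h2
      rw [norm_smul, Real.norm_eq_abs] at h1
      exact ⟨h2.trans (mul_le_mul_of_nonneg_right (le_abs_self C) (by positivity)), h1⟩
    constructor
    · intro s
      obtain ⟨δ, hδ, h⟩ := key s
      refine ⟨|f 0| + |C| * ε', δ, hδ, fun t ht => ?_⟩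
      obtain ⟨h1, h2⟩ := h t ht
      rw [pow_zero, mul_one]
      have h3 : |f (t • s)| ≤ |f (t • s) - f 0| + |f 0| := by
        have := abs_add_le (f (t • s) - f 0) (f 0)
        rwa [sub_add_cancel] at this
      have h4 : |C| * (|t| * ‖s‖) ≤ |C| * ε' := mul_le_mul_of_nonneg_left h2.le (abs_nonneg C)
      linarith
    · intro hf0 s
      obtain ⟨δ, hδ, h⟩ := key s
      refine ⟨|C| * ‖s‖, δ, hδ, fun t ht => ?_⟩
      obtain ⟨h1, -⟩ := h t ht
      rw [hf0, sub_zero] at h1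
      rw [pow_one]
      calc |f (t • s)| ≤ |C| * (|t| * ‖s‖) := h1
        _ = |C| * ‖s‖ * |t| := by ring
  · intro N ε f g hε hfg hf s
    obtain ⟨C, δ, hδ, h⟩ := hf s
    obtain ⟨δ', hδ', h'⟩ := R1_small hε s
    refine ⟨C, min δ δ', lt_min hδ hδ', fun t ht => ?_⟩
    have h1 := h t (lt_of_lt_of_le ht (min_le_left _ _))
    have h2 := h' t (lt_of_lt_of_le ht (min_le_right _ _))
    rw [← hfg (t • s) (by rwa [Metric.mem_ball, dist_zero_right])]
    exact h1
  · intro N ι I f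
    classical
    induction I using Finset.induction_on with
    | empty =>
      intro _ s
      exact ⟨0, 1, one_pos, fun t _ => by simp⟩
    | insert i J hi ih =>
      intro h
      have h1 := R1_add N (f i) (fun s => ∑ j ∈ J, f j s) (h i (Finset.mem_insert_self i J))
        (ih fun j hj => h j (Finset.mem_insert_of_mem hj))
      have h2 : (fun s => ∑ j ∈ insert i J, f j s) = fun s => f i s + ∑ j ∈ J, f j s := by
        funext s
        rw [Finset.sum_insert hi]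
      rw [h2]
      exact h1

private theorem R1_hom {P : Type} [NormedAddCommGroup P] [NormedSpace ℝ P]
    (b : ℕ) (f : P → ℝ) (hf : ∀ (t : ℝ) (s : P), f (t • s) = t ^ b * f s) : RayO b f := by
  intro s
  refine ⟨|f s|, 1, one_pos, fun t _ => ?_⟩
  rw [hf, abs_mul, abs_pow, mul_comm]

/-- Row R1 (second part). Composition with a homogeneous map, homogeneous functions, monomials. -/
theorem rayO_comp {P P' : Type} [NormedAddCommGroup P] [NormedSpace ℝ P] [NormedAddCommGroup P']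
    [NormedSpace ℝ P'] :
    (∀ (N b : ℕ) (f : P' → ℝ) (Q : P → P'), 1 ≤ b → (∀ (t : ℝ) (s : P), Q (t • s) = t ^ b • Q s) →
      RayO N f → RayO (N * b) (fun s => f (Q s))) ∧
    (∀ (b : ℕ) (f : P → ℝ), (∀ (t : ℝ) (s : P), f (t • s) = t ^ b * f s) → RayO b f) ∧
    ∀ (N m : ℕ) (α : Fin N → Fin m), RayO N (fun s : Fin m → ℝ => ∏ j, s (α j)) := by
  refine ⟨?_, R1_hom, ?_⟩
  · intro N b f Q hb hQ hf s
    obtain ⟨C, δ, hδ, h⟩ := hf (Q s)
    refine ⟨C, min δ 1, lt_min hδ one_pos, fun t ht => ?_⟩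
    have h1 : |t| < δ := lt_of_lt_of_le ht (min_le_left _ _)
    have h2 : |t| ≤ 1 := (lt_of_lt_of_le ht (min_le_right _ _)).le
    have h3 : |t ^ b| < δ := by
      rw [abs_pow]
      calc |t| ^ b ≤ |t| ^ 1 := pow_le_pow_of_le_one (abs_nonneg t) h2 hb
        _ = |t| := pow_one _
        _ < δ := h1
    have h4 := h (t ^ b) h3
    show |f (Q (t • s))| ≤ C * |t| ^ (N * b)
    rw [hQ]
    rwa [abs_pow, ← pow_mul, mul_comm b N] at h4
  · intro N m α
    refine R1_hom N _ fun t s => ?_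
    simp only [Pi.smul_apply, smul_eq_mul]
    rw [Finset.prod_mul_distrib, Finset.prod_const, Finset.card_univ, Fintype.card_fin]

end LibNC38
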