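import Pool.Agent.LibFR38.F0

set_option autoImplicit false
set_option maxSynthPendingDepth 3

open Matrix MeasureTheory Topology Filter
open scoped Matrix.Norms.Elementwise ContDiff

namespace LibNC38

private theorem V2P_val {P : Type} [NormedAddCommGroup P] [NormedSpace ℝ P] {n : ℕ} {S : Set P}
    {Ψ : P → PD n → PD n} (h : SmMP S Ψ) :
    ContDiffOn ℝ ∞ (fun x : P × Mt n => ((x.1, (Ψ x.1 (ret x.2)).1) : P × Mt n))
      (S ×ˢ PU n) := by
  have h1 : ContDiffOn ℝ ∞ (fun x : P × Mt n => x.1) (S ×ˢ PU n) :=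
    contDiff_fst.contDiffOn
  exact h1.prodMk h

private theorem V2P_maps {P : Type} {n : ℕ} {S : Set P} (Ψ : P → PD n → PD n) :
    Set.MapsTo (fun x : P × Mt n => ((x.1, (Ψ x.1 (ret x.2)).1) : P × Mt n))
      (S ×ˢ PU n) (S ×ˢ PU n) := by
  intro x hx
  exact ⟨hx.1, mem_PU _⟩

private theorem V2P_comp {P : Type} [NormedAddCommGroup P] [NormedSpace ℝ P] {n : ℕ} {S : Set P}
    {Ψ : P → PD n → PD n} (h : SmMP S Ψ)
    {E : Type*} [NormedAddCommGroup E] [NormedSpace ℝ E] {f : P → PD n → E}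
    (hf : ContDiffOn ℝ ∞ (fun x : P × Mt n => f x.1 (ret x.2)) (S ×ˢ PU n)) :
    ContDiffOn ℝ ∞ (fun x : P × Mt n => f x.1 (Ψ x.1 (ret x.2))) (S ×ˢ PU n) := by
  have h1 := hf.comp (V2P_val h) (V2P_maps Ψ)
  refine h1.congr fun x _ => ?_
  show f x.1 (Ψ x.1 (ret x.2)) = f x.1 (ret (Ψ x.1 (ret x.2)).1)
  rw [ret_self]

private theorem V2P_id {P : Type} [NormedAddCommGroup P] [NormedSpace ℝ P] {n : ℕ} (S : Set P) :
    SmMP (n := n) S (fun _ p => p) := by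
  have h1 : ContDiffOn ℝ ∞ (fun x : P × Mt n => x.2) (S ×ˢ PU n) :=
    contDiff_snd.contDiffOn
  exact (ret_smooth (n := n) (m := ∞)).comp h1 (fun x hx => hx.2)

private theorem V2P_gen {P E F X : Type*} [NormedAddCommGroup P] [NormedSpace ℝ P]
    [NormedAddCommGroup E] [NormedSpace ℝ E]
    [NormedAddCommGroup F] [NormedSpace ℝ F] [NormedAddCommGroup X] [NormedSpace ℝ X]
    {f : P × E → F} {s : Set (P × E)} (hs : IsOpen s) (hf : ContDiffOn ℝ ∞ f s) (v : E)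
    {g : X → P × E} {u : Set X} (hg : ContDiffOn ℝ ∞ g u) (hm : Set.MapsTo g u s) :
    ContDiffOn ℝ ∞ (fun x => fderiv ℝ (fun A : E => f ((g x).1, A)) (g x).2 v) u := by
  have h1 : ContDiffOn ℝ ∞ (fderiv ℝ f) s := ContDiffOn.fderiv_of_isOpen hf hs (by simp)
  have h2 := h1.comp hg hm
  have h3 : ContDiffOn ℝ ∞ (fun _ : X => ((0, v) : P × E)) u := contDiffOn_const
  have h4 := h2.clm_apply h3
  refine h4.congr fun x hx => ?_
  have h5 : HasFDerivAt f (fderiv ℝ f (g x)) (g x) :=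
    ((ContDiffOn.contDiffAt hf (hs.mem_nhds (hm hx))).differentiableAt (by simp)).hasFDerivAt
  have h7 : HasFDerivAt (fun A : E => (((g x).1, A) : P × E))
      (ContinuousLinearMap.inr ℝ P E) (g x).2 := hasFDerivAt_prodMk_right (g x).1 (g x).2
  have h8 := h5.comp (g x).2 h7
  have h9 : fderiv ℝ (fun A : E => f ((g x).1, A)) (g x).2 = _ := h8.fderiv
  show fderiv ℝ (fun A : E => f ((g x).1, A)) (g x).2 v = _
  rw [h9]
  rfl

private theorem V2P_dff {P : Type} [NormedAddCommGroup P] [NormedSpace ℝ P] {n : ℕ} {S : Set P}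
    (hS : IsOpen S) {Ψ : P → PD n → PD n} (h : SmMP S Ψ) (v : Mt n) :
    ContDiffOn ℝ ∞ (fun x : P × Mt n => dff (Ψ x.1) (ret x.2) v) (S ×ˢ PU n) :=
  V2P_gen (f := fun x : P × Mt n => (Ψ x.1 (ret x.2)).1) (hS.prod PU_open) h v
    (V2P_val (V2P_id S)) (V2P_maps (fun _ p => p))

/-- Row V2P. Pull backs and compositions of smooth families (compare `smF_pul` in `LibNS38/V4a.lean`,
whose proof adapts: `P` instead of `ℝ`, the open set `S` instead of the interval). -/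
theorem smP_pul {P : Type} [NormedAddCommGroup P] [NormedSpace ℝ P] {n : ℕ} (S : Set P)
    (hS : IsOpen S) :
    (∀ (Ψ : P → PD n → PD n) (K : P → PD n → Fm n), SmMP S Ψ → SmFP S K →
      SmFP S (fun s => pul (Ψ s) (K s))) ∧
    (∀ (Φ Ψ : P → PD n → PD n), SmMP S Φ → SmMP S Ψ → SmMP S (fun s p => Φ s (Ψ s p))) := by
  refine ⟨fun Ψ K hΨ hK v w => ?_, fun Φ Ψ hΦ hΨ => ?_⟩
  · have h1 : ∀ a b, ContDiffOn ℝ ∞ (fun x : P × Mt n => K x.1 (Ψ x.1 (ret x.2)) a b)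
        (S ×ˢ PU n) := fun a b =>
      V2P_comp hΨ (f := fun t p => K t p a b) (hK a b)
    exact cd_bil (K := fun x : P × Mt n => K x.1 (Ψ x.1 (ret x.2))) h1 (V2P_dff hS hΨ v)
      (V2P_dff hS hΨ w)
  · exact V2P_comp hΨ (f := fun t p => (Φ t p).1) hΦ

end LibNC38
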