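import Pool.Agent.LibFR38.T6
import Pool.Agent.LibFR38.R1
import Pool.Agent.LibFR38.V1P
import Pool.Agent.LibFR38.V2P

set_option autoImplicit false
set_option maxSynthPendingDepth 3

open Matrix MeasureTheory Topology Filter
open scoped Matrix.Norms.Elementwise ContDiff

namespace LibNC38

/-- Row E1. Pulling back a family of order `N` by maps near the identity changes it only in order
`N + 1`. PLAN. `taylor_fm`: for `s` in the ball
`pul (ψ s) (R s) p v v - R s p v v = ∑ α, (∏ j, s (α j)) * (pul (ψ s) (L α s) p v v - L α s p v v)` (the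
vector `dff (ψ s) p v` is tangent at `ψ s p`: `dff_facts`); the bracket is a smooth function of `s`
(`smP_pul`, `smP_point`) which vanishes at `s = 0` (`ψ 0 = id`, `dff_facts`: `dff id p v = v` for tangent
`v`); `rayO_facts` (4), (5), (6), (7), `rayO_comp` (3). -/
theorem pul_ray {n m : ℕ} (N : ℕ) (ε : ℝ) (hε : 0 < ε) (ψ : (Fin m → ℝ) → PD n → PD n)
    (hψ : SmMP (Metric.ball 0 ε) ψ) (h0 : ∀ p, ψ 0 p = p) (R : (Fin m → ℝ) → PD n → Fm n)
    (hR : SmFP (Metric.ball 0 ε) R) (hs : ∀ s p v w, R s p v w = R s p w v) (hO : RayF N R) :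
    ∀ (p : PD n) (v : Mt n), IsTan p v →
      RayO (N + 1) (fun s => pul (ψ s) (R s) p v v - R s p v v) := by
  intro p v hv
  obtain ⟨L, hL, -, hEq⟩ := taylor_fm N ε hε R hR hs hO
  have hR7 := (rayO_facts (P := Fin m → ℝ)).2.2.2.2.2.2
  have hR6 := (rayO_facts (P := Fin m → ℝ)).2.2.2.2.2.1
  have hR5 := (rayO_facts (P := Fin m → ℝ)).2.2.2.2.1
  have hR4 := (rayO_facts (P := Fin m → ℝ)).2.2.2.1
  have hM := (rayO_comp (P := Fin m → ℝ) (P' := Fin m → ℝ)).2.2
  have hpul := (smP_pul (n := n) (Metric.ball (0 : Fin m → ℝ) ε) Metric.isOpen_ball).1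
  -- the sum
  have h1 : RayO (N + 1) (fun s : Fin m → ℝ => ∑ α : Fin N → Fin m,
      (∏ j, s (α j)) * (pul (ψ s) (L α s) p v v - L α s p v v)) := by
    refine hR7 (N + 1) (Fin N → Fin m) Finset.univ (fun α (s : Fin m → ℝ) =>
      (∏ j, s (α j)) * (pul (ψ s) (L α s) p v v - L α s p v v)) ?_
    intro α _
    refine hR4 N 1 (fun s : Fin m → ℝ => ∏ j, s (α j))
      (fun s : Fin m → ℝ => pul (ψ s) (L α s) p v v - L α s p v v) (hM N m α) ?_
    have h2 : ContDiffOn ℝ ∞ (fun s : Fin m → ℝ => pul (ψ s) (L α s) p v v - L α s p v v)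
        (Metric.ball 0 ε) :=
      (smP_point (Metric.ball 0 ε) (fun s => pul (ψ s) (L α s)) (hpul ψ (L α) hψ (hL α)) p v v).sub
        (smP_point (Metric.ball 0 ε) (L α) (hL α) p v v)
    refine (hR5 ε _ hε h2).2 ?_
    have h3 : ψ 0 = fun p => p := funext h0
    have h4 := (dff_facts (n := n)).2.2.1.2 p v hv
    show pul (ψ 0) (L α 0) p v v - L α 0 p v v = 0
    rw [pul_apply, h3, h4]
    exact sub_self _
  refine hR6 (N + 1) ε _ _ hε ?_ h1
  intro s hsb
  have h5 : SmX (ψ s) := ((smP_facts (n := n)).2.2.2.1 (Metric.ball 0 ε) s R ψ hsb).2 hψ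
  have h6 : IsTan (ψ s p) (dff (ψ s) p v) := (dff_facts (n := n)).1 (ψ s) h5 p v
  have h7 := hEq s hsb (ψ s p) (dff (ψ s) p v) h6
  have h8 := hEq s hsb p v hv
  show ∑ α : Fin N → Fin m, (∏ j, s (α j)) * (pul (ψ s) (L α s) p v v - L α s p v v) =
    pul (ψ s) (R s) p v v - R s p v v
  rw [pul_apply, h7, h8, ← Finset.sum_sub_distrib]
  refine Finset.sum_congr rfl fun α _ => ?_
  rw [pul_apply, mul_sub]

end LibNC38
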