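import Pool.Agent.LibFR38.R1
import Pool.Agent.LibNS38.V4
import Pool.Agent.LibNS38.V1
import Pool.Agent.LibNS38.V2

set_option autoImplicit false
set_option maxSynthPendingDepth 3

open Matrix MeasureTheory Topology Filter
open scoped Matrix.Norms.Elementwise ContDiff

namespace LibNC38

/-- a function which is smooth near `0`, with its value and derivative at `0`: second order expansion -/
private theorem E2_taylor (φ : ℝ → ℝ) (ε D : ℝ) (hε : 0 < ε)
    (hφ : ContDiffOn ℝ ∞ φ (Set.Ioo (-ε) ε)) (hD : HasDerivAt φ D 0) :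
    ∃ C δ : ℝ, 0 < δ ∧ ∀ t : ℝ, |t| < δ → |φ t - φ 0 - t * D| ≤ C * |t| ^ 2 := by
  have h0 : (0 : ℝ) ∈ Set.Ioo (-ε) ε := ⟨by linarith, hε⟩
  have hF : ContDiffOn ℝ ∞ (fun x : ℝ × ℝ => φ x.1 - φ 0)
      (Set.Ioo (-ε) ε ×ˢ (Set.univ : Set ℝ)) :=
    (hφ.comp contDiff_fst.contDiffOn fun x hx => hx.1).sub contDiffOn_const
  obtain ⟨g, hg, hg1, hg2⟩ := NS38.hadamard (fun x : ℝ × ℝ => φ x.1 - φ 0) ε hε Set.univ
    isOpen_univ hF (fun x _ => sub_self _)
  have hgD : g (0, 0) = D := by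
    have h1 := hg2 0 (Set.mem_univ _)
    exact h1.unique (hD.sub_const (φ 0))
  have hG : ContDiffOn ℝ ∞ (fun x : ℝ × ℝ => g x - g (0, x.2))
      (Set.Ioo (-ε) ε ×ˢ (Set.univ : Set ℝ)) := by
    refine hg.sub ?_
    refine hg.comp (contDiff_const.prodMk contDiff_snd).contDiffOn fun x _ => ?_
    exact ⟨h0, Set.mem_univ _⟩
  obtain ⟨h, hh, hh1, -⟩ := NS38.hadamard (fun x : ℝ × ℝ => g x - g (0, x.2)) ε hε Set.univ
    isOpen_univ hG (fun x _ => sub_self _)
  have hc : ContinuousAt (fun t : ℝ => h (t, 0)) 0 := by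
    have h1 : ContinuousAt h (0, 0) := hh.continuousOn.continuousAt
      ((isOpen_Ioo.prod isOpen_univ).mem_nhds ⟨h0, Set.mem_univ _⟩)
    have h2 : ContinuousAt (fun t : ℝ => ((t, 0) : ℝ × ℝ)) 0 := by fun_prop
    exact ContinuousAt.comp (g := h) h1 h2
  obtain ⟨δ, hδ, hb⟩ := Metric.continuousAt_iff.1 hc 1 one_pos
  refine ⟨|h (0, 0)| + 1, min δ ε, lt_min hδ hε, fun t ht => ?_⟩
  have ht1 : |t| < δ := ht.trans_le (min_le_left _ _)
  have ht2 : t ∈ Set.Ioo (-ε) ε := abs_lt.1 (ht.trans_le (min_le_right _ _))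
  have e1 : φ t - φ 0 = t * g (t, 0) := hg1 t ht2 0 (Set.mem_univ _)
  have e2 : g (t, 0) - g (0, 0) = t * h (t, 0) := hh1 t ht2 0 (Set.mem_univ _)
  have e3 : φ t - φ 0 - t * D = t ^ 2 * h (t, 0) := by
    rw [e1, ← hgD, ← mul_sub, e2]
    ring
  have hbt : |h (t, 0)| ≤ |h (0, 0)| + 1 := by
    have h1 : dist (h (t, 0)) (h (0, 0)) < 1 := hb (by rw [Real.dist_eq, sub_zero]; exact ht1)
    rw [Real.dist_eq] at h1
    have h2 : |h (t, 0)| ≤ |h (t, 0) - h (0, 0)| + |h (0, 0)| := by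
      have := abs_add_le (h (t, 0) - h (0, 0)) (h (0, 0))
      rwa [sub_add_cancel] at this
    linarith
  rw [e3, abs_mul, abs_pow, mul_comm]
  exact mul_le_mul_of_nonneg_right hbt (by positivity)

/-- linear combinations of invariant fields are invariant -/
private theorem E2_vf {n k : ℕ} (Γ : Subgroup (SL n)) (Y : Fin k → Mt n → Mt n)
    (hY : ∀ i, VF Γ (Y i)) (q : Fin k → ℝ) : VF Γ (fun A => ∑ i, q i • Y i A) where
  smooth := ContDiffOn.sum fun i _ => (hY i).smooth.const_smul (q i)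
  tan := fun p => by
    refine ⟨?_, ?_⟩
    · rw [Matrix.transpose_sum]
      refine Finset.sum_congr rfl fun i _ => ?_
      rw [Matrix.transpose_smul, ((hY i).tan p).1]
    · rw [Matrix.mul_sum, Matrix.trace_sum]
      refine Finset.sum_eq_zero fun i _ => ?_
      rw [Matrix.mul_smul, Matrix.trace_smul, ((hY i).tan p).2, smul_zero]
  equi := fun γ hγ p => by
    rw [Matrix.mul_sum, Matrix.sum_mul]
    refine Finset.sum_congr rfl fun i _ => ?_
    rw [(hY i).equi γ hγ p, Matrix.mul_smul, Matrix.smul_mul]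

/-- the Lie derivative is linear in the field -/
private theorem E2_lie {n k : ℕ} (Γ : Subgroup (SL n)) (Y : Fin k → Mt n → Mt n)
    (hY : ∀ i, VF Γ (Y i)) (q : Fin k → ℝ) (p : PD n) (v : Mt n) :
    LieG (fun A => ∑ i, q i • Y i A) p.1 v = ∑ i, q i * LieG (Y i) p.1 v := by
  have hd : ∀ i, HasFDerivAt (Y i) (fderiv ℝ (Y i) p.1) p.1 := fun i =>
    (((hY i).smooth.contDiffAt (PU_open.mem_nhds (mem_PU p))).differentiableAt
      (by simp)).hasFDerivAt
  have hs : HasFDerivAt (fun A => ∑ i, q i • Y i A) (∑ i, q i • fderiv ℝ (Y i) p.1) p.1 :=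
    HasFDerivAt.fun_sum fun i _ => (hd i).const_smul (q i)
  have h1 : fderiv ℝ (fun A => ∑ i, q i • Y i A) p.1 v = ∑ i, q i • fderiv ℝ (Y i) p.1 v := by
    rw [hs.fderiv]
    simp
  unfold LieG
  rw [h1]
  simp only [Matrix.sum_mul, Matrix.trace_sum, Matrix.mul_smul, Matrix.smul_mul,
    Matrix.trace_smul, smul_eq_mul, Finset.mul_sum]
  rw [← Finset.sum_sub_distrib]
  refine Finset.sum_congr rfl fun i _ => ?_
  ring

private theorem E2_gauk {n k : ℕ} (Y : Fin k → Mt n → Mt n) (q : Fin k → ℝ) (t : ℝ) :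
    gauk Y (t • q) = gau (fun A => ∑ i, q i • Y i A) t := by
  funext p
  unfold gauk gau
  congr 2
  rw [Finset.smul_sum]
  refine Finset.sum_congr rfl fun i _ => ?_
  rw [Pi.smul_apply, smul_eq_mul, mul_smul]

/-- Row E2. Second order expansion of the pull back of `g` by the gauge maps. PLAN. Along the ray
`t ↦ t • q`: `gauk Y (t • q) = gau Y' t` with `Y' A = ∑ i, q i • Y i A`, an invariant vector field
(`gau_facts`, `var_gau` apply), and `φ t = pul (gau Y' t) gF p v v` is `C^∞` near `0` (`smF_pul`, `gau_facts`,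
`smF_facts` (3), at the fixed point `p`: `ret_self`) with `φ 0 = gF p v v` (`dff_facts` (3)) and
`φ' 0 = - LieG Y' p.1 v = - ∑ i, q i * LieG (Y i) p.1 v` (`LieG` is linear in `Y`: `fderiv` of a finite sum,
`Y i` differentiable at `p.1`). A `C²` function with given value and derivative at `0` is
`φ 0 + t φ' 0 + O(t²)`. -/
theorem gauk_second {n k : ℕ} (Γ : Subgroup (SL n)) (hc : Coc Γ) (Y : Fin k → Mt n → Mt n)
    (hY : ∀ i, VF Γ (Y i)) (p : PD n) (v : Mt n) (hv : IsTan p v) :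
    RayO 2 (fun q : Fin k → ℝ =>
      pul (gauk Y q) gF p v v - gF p v v + ∑ i, q i * LieG (Y i) p.1 v) := by
  intro q
  have hV := E2_vf Γ Y hY q
  obtain ⟨s0, hs0, -, hsm, h0, -, -⟩ := gau_facts Γ hc _ hV.smooth hV.tan hV.equi
  have hF := smF_pul.1 s0 _ (fun _ => (gF : PD n → Fm n)) hsm (smF_facts.2.2.1 s0) v v
  have hφ : ContDiffOn ℝ ∞ (fun t : ℝ => pul (gau (fun A => ∑ i, q i • Y i A) t) gF p v v)
      (Set.Ioo (-s0) s0) := by
    have h1 : ContDiffOn ℝ ∞ (fun t : ℝ => ((t, p.1) : ℝ × Mt n)) (Set.Ioo (-s0) s0) :=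
      (contDiff_id.prodMk contDiff_const).contDiffOn
    have h2 := hF.comp h1 fun t ht => ⟨ht, mem_PU p⟩
    refine h2.congr fun t _ => ?_
    show _ = pul (gau (fun A => ∑ i, q i • Y i A) t) gF (ret p.1) v v
    rw [ret_self]
  have hD := var_gau Γ hc _ hV.smooth hV.tan hV.equi p v hv
  have hφ0 : pul (gau (fun A => ∑ i, q i • Y i A) 0) gF p v v = gF p v v := by
    have hg0 : gau (fun A => ∑ i, q i • Y i A) 0 = fun p : PD n => p := funext h0
    rw [pul_apply, hg0, dff_facts.2.2.1.2 p v hv]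
  obtain ⟨C, δ, hδ, hb⟩ := E2_taylor _ s0 _ hs0 hφ hD
  refine ⟨C, δ, hδ, fun t ht => ?_⟩
  have h1 := hb t ht
  rw [hφ0, E2_lie Γ Y hY q p v] at h1
  have e : ∑ i, (t • q) i * LieG (Y i) p.1 v = t * ∑ i, q i * LieG (Y i) p.1 v := by
    rw [Finset.mul_sum]
    refine Finset.sum_congr rfl fun i _ => ?_
    rw [Pi.smul_apply, smul_eq_mul]
    ring
  show |pul (gauk Y (t • q)) gF p v v - gF p v v + ∑ i, (t • q) i * LieG (Y i) p.1 v| ≤ _
  rw [E2_gauk, e]
  have e2 : pul (gau (fun A => ∑ i, q i • Y i A) t) gF p v v - gF p v v +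
      t * ∑ i, q i * LieG (Y i) p.1 v =
      pul (gau (fun A => ∑ i, q i • Y i A) t) gF p v v - gF p v v -
      t * -∑ i, q i * LieG (Y i) p.1 v := by ring
  rw [e2]
  exact h1

end LibNC38
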