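import Pool.Agent.LibNS38.P6

set_option autoImplicit false
set_option maxSynthPendingDepth 3

open Matrix MeasureTheory Topology Filter
open scoped Matrix.Norms.Elementwise ContDiff

namespace LibNC38

/-- smooth family `H s`, `s ∈ S`, of forms on `PD n`: with the retraction `ret : PU n → PD n` the
coefficients `(s, A) ↦ H s (ret A) v w` are `C^∞` on `S × PU n` -/
def SmFP {P : Type} [NormedAddCommGroup P] [NormedSpace ℝ P] {n : ℕ} (S : Set P)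
    (H : P → PD n → Fm n) : Prop :=
  ∀ v w, ContDiffOn ℝ ∞ (fun x : P × Mt n => H x.1 (ret x.2) v w) (S ×ˢ PU n)

/-- smooth family of maps of `PD n` -/
def SmMP {P : Type} [NormedAddCommGroup P] [NormedSpace ℝ P] {n : ℕ} (S : Set P)
    (Φ : P → PD n → PD n) : Prop :=
  ContDiffOn ℝ ∞ (fun x : P × Mt n => (Φ x.1 (ret x.2)).1) (S ×ˢ PU n)

/-- `f` is `O(|t| ^ N)` along all rays `t ↦ f (t s)` -/
def RayO {P : Type} [NormedAddCommGroup P] [NormedSpace ℝ P] (N : ℕ) (f : P → ℝ) : Prop :=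
  ∀ s : P, ∃ C δ : ℝ, 0 < δ ∧ ∀ t : ℝ, |t| < δ → |f (t • s)| ≤ C * |t| ^ N

/-- the family `R` of forms is `O(|t| ^ N)` along all rays, on tangent vectors -/
def RayF {P : Type} [NormedAddCommGroup P] [NormedSpace ℝ P] {n : ℕ} (N : ℕ)
    (R : P → PD n → Fm n) : Prop :=
  ∀ p v, IsTan p v → RayO N (fun s => R s p v v)

/-- the space of the smooth `Γ`-invariant symmetric forms -/
def TF {n : ℕ} (Γ : Subgroup (SL n)) : Submodule ℝ (PD n → Fm n) where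
  carrier := {κ | FmOK Γ κ ∧ ∀ v w, ContDiffOn ℝ ∞ (fun A : Mt n => κ (ret A) v w) (PU n)}
  add_mem' := by
    rintro κ κ' ⟨h1, h2⟩ ⟨h3, h4⟩
    refine ⟨⟨fun v w => ?_, fun p v w => ?_, fun γ hγ p v hv => ?_⟩, fun v w => ?_⟩
    · exact (h1.cont v w).add (h3.cont v w)
    · show κ p v w + κ' p v w = κ p w v + κ' p w v
      rw [h1.symm, h3.symm]
    · show κ _ _ _ + κ' _ _ _ = κ p v v + κ' p v v
      rw [h1.inv γ hγ p v hv, h3.inv γ hγ p v hv]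
    · exact (h2 v w).add (h4 v w)
  zero_mem' := by
    refine ⟨⟨fun v w => continuous_const, fun p v w => rfl, fun γ hγ p v hv => rfl⟩,
      fun v w => contDiffOn_const⟩
  smul_mem' := by
    rintro r κ ⟨h1, h2⟩
    refine ⟨⟨fun v w => ?_, fun p v w => ?_, fun γ hγ p v hv => ?_⟩, fun v w => ?_⟩
    · exact continuous_const.mul (h1.cont v w)
    · show r * κ p v w = r * κ p w v
      rw [h1.symm]
    · show r * κ _ _ _ = r * κ p v v
      rw [h1.inv γ hγ p v hv]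
    · exact contDiffOn_const.mul (h2 v w)

/-- smooth `Γ`-invariant vector field on `PD n` -/
structure VF {n : ℕ} (Γ : Subgroup (SL n)) (Y : Mt n → Mt n) : Prop where
  smooth : ContDiffOn ℝ ∞ Y (PU n)
  tan : ∀ p : PD n, IsTan p (Y p.1)
  equi : ∀ γ ∈ Γ, ∀ p : PD n, Y (act γ p).1 = γ.1 * Y p.1 * γ.1ᵀ

/-- the trivial forms `c g + L_Y g` -/
def TrF {n : ℕ} (Γ : Subgroup (SL n)) (κ : PD n → Fm n) : Prop :=
  ∃ (c : ℝ) (Y : Mt n → Mt n), VF Γ Y ∧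
    ∀ (p : PD n) (v : Mt n), IsTan p v → κ p v v = c * gF p v v + LieG Y p.1 v

/-- the gauge map `p ↦ ret (p - ∑ q_i Y_i(p))` -/
noncomputable def gauk {n k : ℕ} (Y : Fin k → Mt n → Mt n) (q : Fin k → ℝ) (p : PD n) : PD n :=
  ret (p.1 - ∑ i, q i • Y i p.1)

/-- `Φ_s^* H_s = c_s (g + ∑ q_i(s) e_i + R_s)` with smooth data on the ball of radius `ε`,
`q_i = O(s)`, `R_s = O(s ^ (N + 1))` -/
structure Dat {n m : ℕ} (Γ : Subgroup (SL n)) (H : (Fin m → ℝ) → PD n → Fm n) (N : ℕ) (ε : ℝ)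
    (Φ : (Fin m → ℝ) → PD n → PD n) (c : (Fin m → ℝ) → ℝ) {k : ℕ} (q : Fin k → (Fin m → ℝ) → ℝ)
    (e : Fin k → PD n → Fm n) (R : (Fin m → ℝ) → PD n → Fm n) : Prop where
  pos : 0 < ε
  smΦ : SmMP (Metric.ball 0 ε) Φ
  id : ∀ p, Φ 0 p = p
  dfm : ∀ s ∈ Metric.ball (0 : Fin m → ℝ) ε, Dfm Γ (Φ s)
  smc : ContDiffOn ℝ ∞ c (Metric.ball 0 ε)
  c0 : c 0 = 1
  cpos : ∀ s ∈ Metric.ball (0 : Fin m → ℝ) ε, 0 < c s
  smq : ∀ i, ContDiffOn ℝ ∞ (q i) (Metric.ball 0 ε)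
  rq : ∀ i, RayO 1 (q i)
  tf : ∀ i, e i ∈ TF Γ
  smR : SmFP (Metric.ball 0 ε) R
  symR : ∀ s p v w, R s p v w = R s p w v
  rR : RayF (N + 1) R
  eq : ∀ s ∈ Metric.ball (0 : Fin m → ℝ) ε, ∀ (p : PD n) (v : Mt n), IsTan p v →
    pul (Φ s) (H s) p v v = c s * (gF p v v + ∑ i, q i s * e i p v v + R s p v v)

/-- there are data of order `N` with the `e i` in the space `Cc` -/
def OrdP {n m : ℕ} (Γ : Subgroup (SL n)) (Cc : Submodule ℝ (PD n → Fm n))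
    (H : (Fin m → ℝ) → PD n → Fm n) (N : ℕ) : Prop :=
  ∃ (ε : ℝ) (Φ : (Fin m → ℝ) → PD n → PD n) (c : (Fin m → ℝ) → ℝ) (k : ℕ)
    (q : Fin k → (Fin m → ℝ) → ℝ) (e : Fin k → PD n → Fm n) (R : (Fin m → ℝ) → PD n → Fm n),
    Dat Γ H N ε Φ c q e R ∧ ∀ i, e i ∈ Cc

end LibNC38
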