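import Pool.Agent.LibFR38.F0

set_option autoImplicit false
set_option maxSynthPendingDepth 3

open Matrix MeasureTheory Topology Filter
open scoped Matrix.Norms.Elementwise ContDiff

namespace LibNC38

private theorem G3P_es {n : ℕ} {m : WithTop ℕ∞} : ContDiffOn ℝ m (fun A : Mt n => ell A) (PU n) := by
  unfold ell
  refine contDiffOn_const.mul (ContDiffOn.log (cd_det syp_smooth) ?_)
  intro A hA
  have h5 : (syp A).PosDef := hA
  exact h5.det_pos.ne'

private theorem G3P_ss {n : ℕ} {m : WithTop ℕ∞} {S : Set (Mt n)} :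
    ContDiffOn ℝ m (fun A : Mt n => skp A) S := by
  have h1 : ContDiffOn ℝ m (fun A : Mt n => A) S := contDiffOn_id
  rw [cd_iff]
  intro i j
  have h2 := cd_entry h1 i j
  have h3 := cd_entry (cd_transpose h1) i j
  have h4 : (fun A : Mt n => skp A i j) = fun A : Mt n => (1 / 2 : ℝ) * (A i j - Aᵀ i j) := by
    funext A
    simp only [skp, Matrix.smul_apply, Matrix.sub_apply, smul_eq_mul]
  rw [h4]
  exact contDiffOn_const.mul (h2.sub h3)

/-- Row G3P. Joint smoothness of the lifts in the parameter (compare `lft_smooth` in `LibNS38/G3.lean`,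
whose proof adapts). -/
theorem lft_smoothP {P : Type} [NormedAddCommGroup P] [NormedSpace ℝ P] {n : ℕ} (S : Set P)
    (Φ : P → PD n → PD n) (hΦ : SmMP S Φ) (a : P → ℝ) (ha : ContDiffOn ℝ ∞ a S) :
    ContDiffOn ℝ ∞ (fun x : P × Mt n => lft (a x.1) (Φ x.1) x.2) (S ×ˢ PU n) := by
  have h1 : ContDiffOn ℝ ∞ (fun A : Mt n => ell A) (PU n) := G3P_es
  have h2 : ContDiffOn ℝ ∞ (fun A : Mt n => skp A) (PU n) := G3P_ss
  have h3 : ContDiffOn ℝ ∞ (fun x : P × Mt n => a x.1) (S ×ˢ PU n) :=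
    ha.comp contDiffOn_fst fun x hx => hx.1
  have h4 : ContDiffOn ℝ ∞ (fun x : P × Mt n => ell x.2) (S ×ˢ PU n) :=
    ContDiffOn.comp (g := fun A : Mt n => ell A) h1 contDiffOn_snd fun x hx => hx.2
  have h5 : ContDiffOn ℝ ∞ (fun x : P × Mt n => skp x.2) (S ×ˢ PU n) :=
    ContDiffOn.comp (g := fun A : Mt n => skp A) h2 contDiffOn_snd
      fun x hx => hx.2
  have h6 : ContDiffOn ℝ ∞ (fun x : P × Mt n => Real.exp (a x.1 * ell x.2))
      (S ×ˢ PU n) := (h3.mul h4).exp
  exact (h6.smul hΦ).add (h3.smul h5)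

end LibNC38
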