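import Pool.Agent.LibFR38.G1P
import Pool.Agent.LibFR38.G3P
import Pool.Agent.LibFR38.G4P
import Pool.Agent.LibNS38.G1b

set_option autoImplicit false
set_option maxSynthPendingDepth 3

open Matrix MeasureTheory Topology Filter
open scoped Matrix.Norms.Elementwise ContDiff

namespace LibNC38

private theorem G5P_inj {E : Type} [NormedAddCommGroup E] [NormedSpace ℝ E] (L : E →L[ℝ] E)
    (h : ∀ w, ‖L w - w‖ ≤ 1 / 2 * ‖w‖) : Function.Injective L := by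
  intro w w' hw
  have h1 : L (w - w') = 0 := by rw [map_sub, hw, sub_self]
  have h2 := h (w - w')
  rw [h1, zero_sub, norm_neg] at h2
  have h3 := norm_nonneg (w - w')
  have h4 : ‖w - w'‖ = 0 := by linarith
  exact sub_eq_zero.1 (norm_eq_zero.1 h4)

/-- Row G5P. `small_bij` (`LibNS38/G5.lean`) with a parameter space `P`: the proof adapts (`near_idP`,
`near_surj` of `LibNS38/G1b.lean`, `lft_smoothP`, `close_relP`). -/
theorem small_bijP {P : Type} [NormedAddCommGroup P] [NormedSpace ℝ P] {n : ℕ} (hn : 1 ≤ n)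
    (Γ : Subgroup (SL n)) (hc : Coc Γ) (ε : ℝ) (hε : 0 < ε) (Ψ : P → PD n → PD n)
    (hΨ : SmMP (Metric.ball 0 ε) Ψ) (h0 : ∀ p, Ψ 0 p = p)
    (he : ∀ t ∈ Metric.ball (0 : P) ε, ∀ γ ∈ Γ, ∀ p, Ψ t (act γ p) = act γ (Ψ t p)) :
    ∃ δ > 0, δ ≤ ε ∧ ∀ t : P, ‖t‖ < δ → Function.Bijective (Ψ t) ∧
      ∀ p : PD n, ∃ γ ∈ Γ, Function.Injective (fderiv ℝ (lft 1 (Ψ t)) (act γ p).1) := by
  obtain ⟨act1, actm, -⟩ := act_facts (n := n)
  obtain ⟨Q, hQc, hQ⟩ := coc_pd Γ hc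
  have hQ'c : IsCompact ((fun p : PD n => p.1) '' Q) := hQc.image continuous_subtype_val
  have hQ's : ((fun p : PD n => p.1) '' Q) ⊆ PU n := by
    rintro _ ⟨p, -, rfl⟩
    exact mem_PU p
  have hF : ContDiffOn ℝ ∞ (fun x : P × Mt n => lft 1 (Ψ x.1) x.2)
      (Metric.ball 0 ε ×ˢ PU n) :=
    lft_smoothP (Metric.ball 0 ε) Ψ hΨ (fun _ => (1 : ℝ)) contDiffOn_const
  have hF0 : ∀ A ∈ PU n, lft 1 (Ψ 0) A = A := by
    intro A hA
    have h1 := (dec_facts hn).1 A hA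
    unfold lft
    rw [h0, one_mul, one_smul]
    exact h1.symm
  obtain ⟨ρ, hρ, δ1, hδ1, hδ1ε, hball, hnear⟩ :=
    NS38.near_idP PU_open ε hε (fun t => lft 1 (Ψ t)) hF hF0 _ hQ'c hQ's
  obtain ⟨δ2, hδ2, hδ2ε, hclose⟩ := close_relP Γ hc ε hε Ψ hΨ h0 he Q hQc ρ hρ
  obtain ⟨lv, -, lp, -, -⟩ := lft_facts hn
  refine ⟨min δ1 δ2, lt_min hδ1 hδ2, (min_le_left _ _).trans hδ1ε, ?_⟩
  intro t ht
  have ht1 : ‖t‖ < δ1 := lt_of_lt_of_le ht (min_le_left _ _)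
  have ht2 : ‖t‖ < δ2 := lt_of_lt_of_le ht (min_le_right _ _)
  have htε : t ∈ Metric.ball (0 : P) ε := by
    rw [mem_ball_zero_iff]
    exact lt_of_lt_of_le ht1 hδ1ε
  have hcancel : ∀ (γ : SL n) (p : PD n), act γ⁻¹ (act γ p) = p := by
    intro γ p
    rw [← actm, inv_mul_cancel, act1]
  have hinball : ∀ p : PD n, Ψ t p ∈ Q → p.1 ∈ Metric.closedBall (Ψ t p).1 ρ := by
    intro p hp
    rw [mem_closedBall_iff_norm]
    exact hclose t ht2 p hp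
  refine ⟨⟨?_, ?_⟩, ?_⟩
  · intro p p' hpp
    obtain ⟨γ, hγ, hγQ⟩ := hQ (Ψ t p)
    have e1 : Ψ t (act γ p) = act γ (Ψ t p) := he t htε γ hγ p
    have e2 : Ψ t (act γ p') = act γ (Ψ t p) := by rw [he t htε γ hγ p', hpp]
    have hq := hnear t ht1 (act γ (Ψ t p)).1 ⟨_, hγQ, rfl⟩
    have hs := NS38.near_surj (lft 1 (Ψ t)) (act γ (Ψ t p)).1 ρ hρ
      (fun A hA => (hq.1 A hA).1) hq.2
    have m1 : (act γ p).1 ∈ Metric.closedBall (act γ (Ψ t p)).1 ρ := by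
      have h5 := hinball (act γ p) (by rw [e1]; exact hγQ)
      rw [e1] at h5
      exact h5
    have m2 : (act γ p').1 ∈ Metric.closedBall (act γ (Ψ t p)).1 ρ := by
      have h5 := hinball (act γ p') (by rw [e2]; exact hγQ)
      rw [e2] at h5
      exact h5
    have h6 : lft 1 (Ψ t) (act γ p).1 = lft 1 (Ψ t) (act γ p').1 := by
      rw [lp, lp, e1, e2]
    have h7 := hs.2 _ m1 _ m2 h6
    have h8 : act γ p = act γ p' := Subtype.ext h7
    rw [← hcancel γ p, h8, hcancel]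
  · intro q0
    obtain ⟨γ, hγ, hγQ⟩ := hQ q0
    have hq := hnear t ht1 (act γ q0).1 ⟨_, hγQ, rfl⟩
    have hs := NS38.near_surj (lft 1 (Ψ t)) (act γ q0).1 ρ hρ
      (fun A hA => (hq.1 A hA).1) hq.2
    obtain ⟨A, hA, hAq⟩ := hs.1
    have hA' : A ∈ Metric.closedBall (act γ q0).1 ρ :=
      Metric.closedBall_subset_closedBall (by linarith) hA
    have hAU : A ∈ PU n := hball (act γ q0).1 ⟨_, hγQ, rfl⟩ hA'
    have h5 := (lv 1 (Ψ t) A hAU).2.1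
    rw [hAq, ret_self] at h5
    refine ⟨act γ⁻¹ (ret A), ?_⟩
    rw [he t htε γ⁻¹ (Γ.inv_mem hγ), ← h5, hcancel]
  · intro p
    obtain ⟨γ, hγ, hγQ⟩ := hQ (Ψ t p)
    have e1 : Ψ t (act γ p) = act γ (Ψ t p) := he t htε γ hγ p
    have hq := hnear t ht1 (act γ (Ψ t p)).1 ⟨_, hγQ, rfl⟩
    have m1 : (act γ p).1 ∈ Metric.closedBall (act γ (Ψ t p)).1 ρ := by
      have h5 := hinball (act γ p) (by rw [e1]; exact hγQ)
      rw [e1] at h5
      exact h5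
    exact ⟨γ, hγ, G5P_inj _ (hq.1 _ m1).2⟩

end LibNC38
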