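import Pool.Agent.LibFR38.G5P
import Pool.Agent.LibNS38.G6a
import Pool.Agent.LibNS38.G6b

set_option autoImplicit false
set_option maxSynthPendingDepth 3

open Matrix MeasureTheory Topology Filter
open scoped Matrix.Norms.Elementwise ContDiff

namespace LibNC38

private theorem G6P_slice {P : Type} [NormedAddCommGroup P] [NormedSpace ℝ P] {n : ℕ} {t : P}
    {S : Set (Mt n)} : ContDiffOn ℝ ∞ (fun A : Mt n => ((t, A) : P × Mt n)) S :=
  (contDiff_const.prodMk contDiff_id).contDiffOn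

private theorem G6P_inv {n : ℕ} (hn : 1 ≤ n) (χ : PD n → PD n)
    (h : ContDiffOn ℝ ∞ (lft 1 χ) (PU n)) : SmX χ := by
  obtain ⟨-, -, -, -, h5, h6⟩ := dec_facts (n := n) hn
  have h7 : ContDiffOn ℝ ∞ (fun A : Mt n => Real.exp (-(ell A)) • (lft 1 χ A - skp A)) (PU n) :=
    (h5.neg.exp).smul (h.sub h6)
  refine ContDiffOn.congr h7 fun A _ => ?_
  have h8 : lft 1 χ A - skp A = Real.exp (ell A) • (χ (ret A)).1 := by
    simp only [lft, one_mul, one_smul]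
    exact add_sub_cancel_right _ _
  rw [h8, smul_smul, ← Real.exp_add, neg_add_cancel, Real.exp_zero, one_smul]

/-- Row G6P. `small_dfm` (`LibNS38/G6.lean`) with a parameter space `P`: the proof adapts (`small_bijP`,
`lft_inj`, `NS38.inv_smooth`). -/
theorem small_dfmP {P : Type} [NormedAddCommGroup P] [NormedSpace ℝ P] {n : ℕ} (hn : 1 ≤ n)
    (Γ : Subgroup (SL n)) (hc : Coc Γ) (ε : ℝ) (hε : 0 < ε) (Ψ : P → PD n → PD n)
    (hΨ : SmMP (Metric.ball 0 ε) Ψ) (h0 : ∀ p, Ψ 0 p = p)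
    (he : ∀ t ∈ Metric.ball (0 : P) ε, ∀ γ ∈ Γ, ∀ p, Ψ t (act γ p) = act γ (Ψ t p)) :
    ∃ δ > 0, δ ≤ ε ∧ ∀ t : P, ‖t‖ < δ → Dfm Γ (Ψ t) := by
  obtain ⟨δ, hδ, hδε, h⟩ := small_bijP hn Γ hc ε hε Ψ hΨ h0 he
  refine ⟨δ, hδ, hδε, fun t ht => ?_⟩
  have htI : t ∈ Metric.ball (0 : P) ε := mem_ball_zero_iff.2 (ht.trans_le hδε)
  obtain ⟨hb, hi⟩ := h t ht
  have hsm : SmX (Ψ t) :=
    ContDiffOn.comp (g := fun x : P × Mt n => (Ψ x.1 (ret x.2)).1) hΨ G6P_slice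
      fun _ hA => ⟨htI, hA⟩
  obtain ⟨h1, h2, -, -, h5⟩ := lft_facts (n := n) hn
  have hs : ∀ p, (Equiv.ofBijective (Ψ t) hb).symm (Ψ t p) = p :=
    fun p => (Equiv.ofBijective (Ψ t) hb).symm_apply_apply p
  have hs' : ∀ p, Ψ t ((Equiv.ofBijective (Ψ t) hb).symm p) = p :=
    fun p => (Equiv.ofBijective (Ψ t) hb).apply_symm_apply p
  generalize ((Equiv.ofBijective (Ψ t) hb).symm : PD n → PD n) = χ at hs hs'
  have hXF : ∀ A ∈ PU n, lft 1 χ (lft 1 (Ψ t) A) = A := fun A hA => by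
    have := h2 1 (Ψ t) χ one_pos hs A hA
    rwa [inv_one] at this
  have hFX : ∀ A ∈ PU n, lft 1 (Ψ t) (lft 1 χ A) = A := fun A hA => by
    have := h2 1 χ (Ψ t) one_pos hs' A hA
    rwa [inv_one] at this
  have hj : ∀ A ∈ PU n, Function.Injective (fderiv ℝ (lft 1 (Ψ t)) A) :=
    lft_inj hn (Ψ t) hsm fun p => by
      obtain ⟨γ, hγ, hin⟩ := hi p
      exact ⟨γ, fun q => he t htI γ hγ q, hin⟩
  have hX : ContDiffOn ℝ ∞ (lft 1 χ) (PU n) :=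
    NS38.inv_smooth (PU n) PU_open (lft 1 (Ψ t)) (lft 1 χ) (h5 1 (Ψ t) hsm)
      (fun A hA => (h1 1 (Ψ t) A hA).1) (fun A hA => (h1 1 χ A hA).1) hXF hFX hj
  exact ⟨hsm, fun γ hγ p => he t htI γ hγ p, χ, G6P_inv hn χ hX, hs, hs'⟩

end LibNC38
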