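import Pool.Agent.LibFR38.F0

set_option autoImplicit false
set_option maxSynthPendingDepth 3

open Matrix MeasureTheory Topology Filter
open scoped Matrix.Norms.Elementwise ContDiff

namespace LibNC38

private theorem G7P_equi {n k : ℕ} (Γ : Subgroup (SL n)) (Y : Fin k → Mt n → Mt n)
    (hY : ∀ i, VF Γ (Y i)) (γ : SL n) (hγ : γ ∈ Γ) (q : Fin k → ℝ) (p : PD n) :
    (act γ p).1 - ∑ i, q i • Y i (act γ p).1 = γ.1 * (p.1 - ∑ i, q i • Y i p.1) * γ.1ᵀ := by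
  have h : ∑ i, q i • Y i (act γ p).1 = γ.1 * (∑ i, q i • Y i p.1) * γ.1ᵀ := by
    rw [Finset.mul_sum, Finset.sum_mul]
    refine Finset.sum_congr rfl fun i _ => ?_
    rw [(hY i).equi γ hγ p, Matrix.mul_smul, Matrix.smul_mul]
  rw [h, mul_sub, sub_mul]
  rfl

private theorem G7P_s0 {n k : ℕ} (Γ : Subgroup (SL n)) (hc : Coc Γ) (Y : Fin k → Mt n → Mt n)
    (hY : ∀ i, VF Γ (Y i)) :
    ∃ r : ℝ, r > 0 ∧ ∀ q ∈ Metric.ball (0 : Fin k → ℝ) r, ∀ p : PD n,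
      p.1 - ∑ i, q i • Y i p.1 ∈ PU n := by
  obtain ⟨Q, hQ, hQc⟩ := coc_pd Γ hc
  have hYc : ∀ i, Continuous fun p : PD n => Y i p.1 := fun i =>
    (hY i).smooth.continuousOn.comp_continuous continuous_subtype_val (fun p => mem_PU p)
  have hF : Continuous fun x : (Fin k → ℝ) × PD n => x.2.1 - ∑ i, x.1 i • Y i x.2.1 := by
    refine (continuous_subtype_val.comp continuous_snd).sub ?_
    refine continuous_finsetSum _ fun i _ => ?_
    exact ((continuous_apply i).comp continuous_fst).smul ((hYc i).comp continuous_snd)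
  have hW : IsOpen ((fun x : (Fin k → ℝ) × PD n => x.2.1 - ∑ i, x.1 i • Y i x.2.1) ⁻¹' PU n) :=
    PU_open.preimage hF
  have hsub : ({0} : Set (Fin k → ℝ)) ×ˢ Q ⊆
      (fun x : (Fin k → ℝ) × PD n => x.2.1 - ∑ i, x.1 i • Y i x.2.1) ⁻¹' PU n := by
    rintro ⟨s, p⟩ ⟨hs, _⟩
    have hs' : s = 0 := hs
    subst hs'
    show p.1 - ∑ i, (0 : Fin k → ℝ) i • Y i p.1 ∈ PU n
    have h0 : ∑ i, (0 : Fin k → ℝ) i • Y i p.1 = 0 := by
      refine Finset.sum_eq_zero fun i _ => ?_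
      rw [Pi.zero_apply, zero_smul]
    rw [h0, sub_zero]
    exact mem_PU p
  obtain ⟨u, v, hu, _, h0u, hQv, huv⟩ := generalized_tube_lemma isCompact_singleton hQ hW hsub
  obtain ⟨r, hr, hball⟩ := Metric.isOpen_iff.1 hu 0 (h0u rfl)
  refine ⟨r, hr, ?_⟩
  intro q hq p
  have hsu : q ∈ u := hball hq
  obtain ⟨γ, hγ, hqQ⟩ := hQc p
  have h1 : (act γ p).1 - ∑ i, q i • Y i (act γ p).1 ∈ PU n := huv (Set.mk_mem_prod hsu (hQv hqQ))
  have h2 := (ret_facts.1 γ⁻¹ _ h1).1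
  have h3 : act γ⁻¹ (act γ p) = p := by
    rw [← act_facts.2.1, inv_mul_cancel, act_facts.1]
  have h4 := G7P_equi Γ Y hY γ⁻¹ (Γ.inv_mem hγ) q (act γ p)
  rw [h3] at h4
  rw [h4]
  exact h2

/-- Row G7P. The gauge maps of several vector fields (compare `gau_facts` in `LibNS38/G7.lean`, whose
proof adapts: `∑ i, q i • Y i` instead of `s • Y`, `q` in a small ball of `Fin k → ℝ`). -/
theorem gauk_pre {n k : ℕ} (Γ : Subgroup (SL n)) (hc : Coc Γ) (Y : Fin k → Mt n → Mt n)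
    (hY : ∀ i, VF Γ (Y i)) :
    ∃ r > 0, SmMP (Metric.ball (0 : Fin k → ℝ) r) (gauk Y) ∧ (∀ p, gauk Y 0 p = p) ∧
      ∀ q ∈ Metric.ball (0 : Fin k → ℝ) r, ∀ γ ∈ Γ, ∀ p,
        gauk Y q (act γ p) = act γ (gauk Y q p) := by
  obtain ⟨r, hr, h1⟩ := G7P_s0 Γ hc Y hY
  refine ⟨r, hr, ?_, ?_, ?_⟩
  · have hR : ContDiffOn ℝ ∞ (fun x : (Fin k → ℝ) × Mt n => (ret x.2).1)
        (Metric.ball (0 : Fin k → ℝ) r ×ˢ PU n) :=
      (ret_smooth (n := n) (m := ∞)).comp contDiffOn_snd (fun x hx => hx.2)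
    have hYr : ∀ i, ContDiffOn ℝ ∞ (fun x : (Fin k → ℝ) × Mt n => Y i (ret x.2).1)
        (Metric.ball (0 : Fin k → ℝ) r ×ˢ PU n) := fun i =>
      (hY i).smooth.comp hR (fun x _ => mem_PU _)
    have hq : ∀ i, ContDiffOn ℝ ∞ (fun x : (Fin k → ℝ) × Mt n => x.1 i)
        (Metric.ball (0 : Fin k → ℝ) r ×ˢ PU n) := fun i =>
      ((contDiff_apply ℝ ℝ i).comp contDiff_fst).contDiffOn
    have hsum : ContDiffOn ℝ ∞ (fun x : (Fin k → ℝ) × Mt n => ∑ i, x.1 i • Y i (ret x.2).1)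
        (Metric.ball (0 : Fin k → ℝ) r ×ˢ PU n) :=
      ContDiffOn.sum fun i _ => (hq i).smul (hYr i)
    have hg : ContDiffOn ℝ ∞ (fun x : (Fin k → ℝ) × Mt n =>
        (ret x.2).1 - ∑ i, x.1 i • Y i (ret x.2).1)
        (Metric.ball (0 : Fin k → ℝ) r ×ˢ PU n) := hR.sub hsum
    exact (ret_smooth (n := n) (m := ∞)).comp hg (fun x hx => h1 x.1 hx.1 (ret x.2))
  · intro p
    unfold gauk
    have h0 : ∑ i, (0 : Fin k → ℝ) i • Y i p.1 = 0 := by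
      refine Finset.sum_eq_zero fun i _ => ?_
      rw [Pi.zero_apply, zero_smul]
    rw [h0, sub_zero, ret_self]
  · intro q hq γ hγ p
    unfold gauk
    rw [G7P_equi Γ Y hY γ hγ q p]
    exact (ret_facts.1 γ _ (h1 q hq p)).2

end LibNC38
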