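import Pool.Agent.LibFR38.G6P
import Pool.Agent.LibFR38.G7P

set_option autoImplicit false
set_option maxSynthPendingDepth 3

open Matrix MeasureTheory Topology Filter
open scoped Matrix.Norms.Elementwise ContDiff

namespace LibNC38

/-- Row G8P (assembly of G6P, G7P). -/
theorem gauk_facts {n k : ℕ} (hn : 1 ≤ n) (Γ : Subgroup (SL n)) (hc : Coc Γ)
    (Y : Fin k → Mt n → Mt n) (hY : ∀ i, VF Γ (Y i)) :
    ∃ r > 0, SmMP (Metric.ball (0 : Fin k → ℝ) r) (gauk Y) ∧ (∀ p, gauk Y 0 p = p) ∧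
      ∀ q ∈ Metric.ball (0 : Fin k → ℝ) r, Dfm Γ (gauk Y q) := by
  obtain ⟨r, hr, h1, h2, h3⟩ := gauk_pre Γ hc Y hY
  obtain ⟨δ, hδ, h4, h5⟩ := small_dfmP hn Γ hc r hr (gauk Y) h1 h2 h3
  exact ⟨δ, hδ, h1.mono (Set.prod_mono (Metric.ball_subset_ball h4) subset_rfl), h2,
    fun q hq => h5 q (by simpa using hq)⟩

end LibNC38
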