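import Pool.Agent.LibFR38.F0

set_option autoImplicit false
set_option maxSynthPendingDepth 3

open Matrix MeasureTheory Topology Filter
open scoped Matrix.Norms.Elementwise ContDiff

namespace LibNC38

/-- Row I1P. The remainder `R s` of the data is invariant. PLAN.
`R s p v v = (c s)⁻¹ * pul (Φ s) (H s) p v v - gF p v v - ∑ i, q i s * e i p v v`, all terms are invariant
(`fmOK_pul`, `fmOK_gF`, `Dat.tf`). (`act γ p` and the vector `γ v γᵀ` are tangent: as in `ord_inv`,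
`LibNS38/D9.lean`.) -/
theorem dat_inv {n m : ℕ} (Γ : Subgroup (SL n)) (H : (Fin m → ℝ) → PD n → Fm n)
    (hH : ∀ s, FmOK Γ (H s)) (N : ℕ) (ε : ℝ) (Φ : (Fin m → ℝ) → PD n → PD n)
    (c : (Fin m → ℝ) → ℝ) {k : ℕ} (q : Fin k → (Fin m → ℝ) → ℝ) (e : Fin k → PD n → Fm n)
    (R : (Fin m → ℝ) → PD n → Fm n) (hD : Dat Γ H N ε Φ c q e R) :
    ∀ s ∈ Metric.ball (0 : Fin m → ℝ) ε, ∀ γ ∈ Γ, ∀ p v, IsTan p v →
      R s (act γ p) (γ.1 * v * γ.1ᵀ) (γ.1 * v * γ.1ᵀ) = R s p v v := by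
  intro s hs γ hγ p v hv
  have ht' : IsTan (act γ p) (γ.1 * v * γ.1ᵀ) := tan_facts.2.1 γ p v hv
  have e1 := hD.eq s hs p v hv
  have e2 := hD.eq s hs (act γ p) (γ.1 * v * γ.1ᵀ) ht'
  have e3 := (fmOK_pul Γ (Φ s) (hD.dfm s hs) (H s) (hH s)).inv γ hγ p v hv
  have e4 := (fmOK_gF (n := n) Γ).inv γ hγ p v hv
  have e5 : ∑ i, q i s * e i (act γ p) (γ.1 * v * γ.1ᵀ) (γ.1 * v * γ.1ᵀ) =
      ∑ i, q i s * e i p v v := by
    refine Finset.sum_congr rfl fun i _ => ?_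
    have h := (hD.tf i).1.inv γ hγ p v hv
    rw [h]
  rw [e3, e1, e4, e5] at e2
  have hc' := (hD.cpos s hs).ne'
  have e6 := mul_left_cancel₀ hc' e2
  linarith

end LibNC38
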