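import Pool.Agent.LibNS38.B0

set_option autoImplicit false
set_option maxSynthPendingDepth 3

open Topology Filter Set
open scoped ContDiff

namespace NS38

/-- Row L1 (only Mathlib, linear algebra). A finite family is a combination of a linearly independent
family in its span (a basis of the span: `Module.finBasis`). -/
theorem rebase {V : Type} [AddCommGroup V] [Module ℝ V] {k : ℕ} (e : Fin k → V) :
    ∃ (l : ℕ) (b : Fin l → V) (a : Fin k → Fin l → ℝ), LinearIndependent ℝ b ∧
      (∀ j, b j ∈ Submodule.span ℝ (Set.range e)) ∧ ∀ i, e i = ∑ j, a i j • b j := by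
  have hfd : FiniteDimensional ℝ (Submodule.span ℝ (Set.range e)) :=
    FiniteDimensional.span_of_finite ℝ (Set.finite_range e)
  let W := Submodule.span ℝ (Set.range e)
  let B := Module.finBasis ℝ W
  refine ⟨Module.finrank ℝ W, fun j => (B j : V), fun i j => B.repr ⟨e i, Submodule.subset_span ⟨i, rfl⟩⟩ j, ?_, ?_, ?_⟩
  · exact B.linearIndependent.map' W.subtype (Submodule.ker_subtype W)
  · intro j
    exact (B j).2
  · intro i
    have h := B.sum_repr (⟨e i, Submodule.subset_span ⟨i, rfl⟩⟩ : W)
    have h2 := congrArg (fun x : W => (x : V)) h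
    simp only [Submodule.coe_sum, Submodule.coe_smul] at h2
    exact h2.symm

end NS38
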