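import Pool.Agent.LibFR38.L1
import Pool.Agent.LibFR38.R1

set_option autoImplicit false
set_option maxSynthPendingDepth 3

open Matrix MeasureTheory Topology Filter
open scoped Matrix.Norms.Elementwise ContDiff

namespace LibNC38

/-- Row L2. The data with linearly independent `e`. PLAN. `NS38.rebase`; `q' j = ∑ i, a i j * q i`;
`b j ∈ Cc` (`Submodule.span_le`), `Dat.tf` from `hCT`. -/
theorem dat_rebase {n m : ℕ} (Γ : Subgroup (SL n)) (Cc : Submodule ℝ (PD n → Fm n))
    (hCT : Cc ≤ TF Γ) (H : (Fin m → ℝ) → PD n → Fm n) (N : ℕ) (hO : OrdP Γ Cc H N) :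
    ∃ (ε : ℝ) (Φ : (Fin m → ℝ) → PD n → PD n) (c : (Fin m → ℝ) → ℝ) (k : ℕ)
      (q : Fin k → (Fin m → ℝ) → ℝ) (e : Fin k → PD n → Fm n) (R : (Fin m → ℝ) → PD n → Fm n),
      Dat Γ H N ε Φ c q e R ∧ (∀ i, e i ∈ Cc) ∧ LinearIndependent ℝ e := by
  obtain ⟨ε, Φ, c, k, q, e, R, hD, he⟩ := hO
  obtain ⟨l, b, a, hb, hbs, hab⟩ := NS38.rebase e
  have hspan : Submodule.span ℝ (Set.range e) ≤ Cc := by
    rw [Submodule.span_le]
    rintro _ ⟨i, rfl⟩
    exact he i
  have hbC : ∀ j, b j ∈ Cc := fun j => hspan (hbs j)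
  obtain ⟨-, -, hsm, -, -, -, hsum⟩ := rayO_facts (P := Fin m → ℝ)
  refine ⟨ε, Φ, c, l, fun j s => ∑ i, a i j * q i s, b, R, ?_, hbC, hb⟩
  refine
    { pos := hD.pos
      smΦ := hD.smΦ
      id := hD.id
      dfm := hD.dfm
      smc := hD.smc
      c0 := hD.c0
      cpos := hD.cpos
      smq := ?_
      rq := ?_
      tf := fun j => hCT (hbC j)
      smR := hD.smR
      symR := hD.symR
      rR := hD.rR
      eq := ?_ }
  · intro j
    exact ContDiffOn.sum fun i _ => contDiffOn_const.mul (hD.smq i)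
  · intro j
    exact hsum 1 (Fin k) Finset.univ (fun i s => a i j * q i s)
      (fun i _ => hsm 1 (q i) (a i j) (hD.rq i))
  · intro s hs p v hv
    rw [hD.eq s hs p v hv]
    have h1 : ∀ i, e i p v v = ∑ j, a i j * b j p v v := by
      intro i
      rw [hab i]
      simp only [Finset.sum_apply, Pi.smul_apply, LinearMap.sum_apply, LinearMap.smul_apply, smul_eq_mul]
    have h2 : ∑ i, q i s * e i p v v = ∑ j, (∑ i, a i j * q i s) * b j p v v := by
      simp_rw [h1, Finset.mul_sum, Finset.sum_mul]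
      rw [Finset.sum_comm]
      refine Finset.sum_congr rfl fun j _ => Finset.sum_congr rfl fun i _ => ?_
      ring
    rw [h2]

end LibNC38
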