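import Pool.Agent.LibFR38.U1
import Pool.Agent.LibFR38.I1P
import Pool.Agent.LibNS38.D5
import Pool.Agent.LibNS38.D6
import Pool.Agent.LibNS38.D7
import Pool.Agent.LibNE38.E3
import Pool.Agent.LibNT38.TK

set_option autoImplicit false
set_option maxSynthPendingDepth 3

open Matrix MeasureTheory Topology Filter
open scoped Matrix.Norms.Elementwise ContDiff

namespace LibNC38

private theorem M1_ext {n k : ℕ} (Γ : Subgroup (SL n)) (e : Fin k → PD n → Fm n)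
    (he : ∀ i, e i ∈ TF Γ) (a : Fin k → ℝ) (v w : Mt n) :
    ContDiffOn ℝ ∞ (fun A : Mt n => (∑ i, a i • e i (ret A) : Fm n) v w) (PU n) := by
  have h1 : (fun A : Mt n => (∑ i, a i • e i (ret A) : Fm n) v w) =
      fun A : Mt n => ∑ i, a i * e i (ret A) v w := by
    funext A
    rw [LinearMap.sum_apply, LinearMap.sum_apply]
    exact Finset.sum_congr rfl fun i _ => rfl
  rw [h1]
  exact ContDiffOn.sum fun i _ => contDiffOn_const.mul ((he i).2 v w)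

private theorem M1_triv {n k : ℕ} (hn : 3 ≤ n) (Γ : Subgroup (SL n)) (hd : Disc Γ) (hcc : Coc Γ)
    (e : Fin k → PD n → Fm n) (he : ∀ i, e i ∈ TF Γ) (a : Fin k → ℝ)
    (h : ℕ → PD n → Fm n) (δ : ℕ → ℝ) (hD : Defo Γ (fun p => ∑ i, a i • e i p) h δ) :
    TrF Γ (fun p => ∑ i, a i • e i p) := by
  have hC2 : LibNC27.C2F (fun p : PD n => (∑ i, a i • e i p : Fm n)) := by
    refine ⟨PU n, fun A => ∑ i, a i • e i (ret A), PU_open, fun p => ⟨mem_PU p, ?_⟩, fun v w => ?_⟩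
    · show (∑ i, a i • e i (ret p.1) : Fm n) = ∑ i, a i • e i p
      rw [ret_self]
    · exact (M1_ext Γ e he a v w).of_le (WithTop.coe_le_coe.2 le_top)
  have hCm : CmF ((⊤ : ℕ∞) : WithTop ℕ∞) (fun p : PD n => (∑ i, a i • e i p : Fm n)) := by
    refine ⟨PU n, fun A => ∑ i, a i • e i (ret A), PU_open, fun p => ⟨mem_PU p, ?_⟩, fun v w => ?_⟩
    · show (∑ i, a i • e i (ret p.1) : Fm n) = ∑ i, a i • e i p
      rw [ret_self]
    · exact M1_ext Γ e he a v w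
  obtain ⟨c, Y, h1, h2, h3, h4⟩ := triv_reg ⊤ le_top Γ _ hCm (defo_triv hn Γ hd hcc _ _ _ hD hC2)
  exact ⟨c, Y, ⟨h1, h2, h3⟩, h4⟩

/-- Row M1 (the main step). Absence of conjugate points bounds the coefficients. PLAN. Otherwise for all
`j : ℕ` there is `s j`, `‖s j‖ < 1/(j+1)`, `NoConj`, and `d j := max_i |q i (s j)| > j * ‖s j‖ ^ (N + 1)`
(`d j = ‖fun i => q i (s j)‖` in `Fin k → ℝ`); `d j > 0`, `d j → 0` (`q i` continuous, `q i 0 = 0` from
`RayO 1`). The vectors `(d j)⁻¹ • q (s j)` have norm `1`: a subsequence converges to `a`, `‖a‖ = 1`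
(`IsCompact.tendsto_subseq`). `κ := ∑ i, a i • e i` (`∈ TF Γ`, in `Cc`), `h j := fun p => (c (s j))⁻¹ •
pul (Φ (s j)) (H (s j)) p`, `δ j := d j` along the subsequence (from some index on, `s j` in the ball).
`Defo Γ κ h δ` (`LibNG38/GK2.lean`): `FmOK`: `fmOK_sum`, `fmOK_pul`, `fmOK_smul`; `conv`: by `Dat.eq`
`h j x v v - gF x v v - d j * κ x v v = ∑ i, (q i (s j) - d j * a i) * e i x v v + R (s j) x v v`, with
`form_bound` for the `e i` and `fam_bound` for `R` (`dat_inv`): at most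
`d j * (∑ i |q i (s j)/d j - a i| * C_i + C * ‖s j‖ ^ (N+1)/d j) * gF x v v`, and
`‖s j‖ ^ (N+1)/d j ≤ 1/j`; `gF_self`; `nc`: `noConj_pul`, `noConj_smul`. `defo_triv` (needs `C2F κ`: extension
`A ↦ κ (ret A)` on `PU n`) and `triv_reg ⊤` (`CmF ∞ κ`): `TrF Γ κ` (compare `ord_triv`, `LibNS38/D10.lean`).
`hC0`: `κ = 0`, `hl`: `a = 0`, contradiction. (`k = 0`: nothing to prove.) -/
theorem main_bound {n m : ℕ} (hn : 3 ≤ n) (Γ : Subgroup (SL n)) (hd : Disc Γ) (hcc : Coc Γ)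
    (Cc : Submodule ℝ (PD n → Fm n)) (hC0 : ∀ κ ∈ Cc, TrF Γ κ → κ = 0)
    (H : (Fin m → ℝ) → PD n → Fm n) (hH : ∀ s, FmOK Γ (H s)) (N : ℕ) (ε : ℝ)
    (Φ : (Fin m → ℝ) → PD n → PD n) (c : (Fin m → ℝ) → ℝ) {k : ℕ}
    (q : Fin k → (Fin m → ℝ) → ℝ) (e : Fin k → PD n → Fm n) (R : (Fin m → ℝ) → PD n → Fm n)
    (hD : Dat Γ H N ε Φ c q e R) (he : ∀ i, e i ∈ Cc) (hl : LinearIndependent ℝ e) :
    ∃ C δ : ℝ, 0 ≤ C ∧ 0 < δ ∧ δ ≤ ε ∧ ∀ s : Fin m → ℝ, ‖s‖ < δ → NoConj (dN (nrm (H s))) →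
      ∀ i, |q i s| ≤ C * ‖s‖ ^ (N + 1) := by
  classical
  by_contra hcon
  push_neg at hcon
  have hε : 0 < ε := hD.pos
  -- bad points
  have hbad : ∀ j : ℕ, ∃ s : Fin m → ℝ, ‖s‖ < min ε (1 / ((j : ℝ) + 1)) ∧
      NoConj (dN (nrm (H s))) ∧ ∃ i, (j : ℝ) * ‖s‖ ^ (N + 1) < |q i s| := by
    intro j
    obtain ⟨s, h1, h2, i, h3⟩ := hcon j (min ε (1 / ((j : ℝ) + 1))) (Nat.cast_nonneg j)
      (lt_min hε (by positivity)) (min_le_left _ _)
    exact ⟨s, h1, h2, i, h3⟩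
  choose s hs hnc hbi using hbad
  have hsε : ∀ j, s j ∈ Metric.ball (0 : Fin m → ℝ) ε := by
    intro j
    rw [Metric.mem_ball, dist_zero_right]
    exact (hs j).trans_le (min_le_left _ _)
  have hs1 : ∀ j, ‖s j‖ < 1 / ((j : ℝ) + 1) := fun j => (hs j).trans_le (min_le_right _ _)
  have hs0n : Tendsto (fun j => ‖s j‖) atTop (𝓝 0) :=
    squeeze_zero (fun j => norm_nonneg _) (fun j => (hs1 j).le) tendsto_one_div_add_atTop_nhds_zero_nat
  have hs0 : Tendsto s atTop (𝓝 0) := tendsto_zero_iff_norm_tendsto_zero.2 hs0n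
  set Q : ℕ → Fin k → ℝ := fun j i => q i (s j) with hQ
  have hdpos' : ∀ j : ℕ, (j : ℝ) * ‖s j‖ ^ (N + 1) < ‖Q j‖ := by
    intro j
    obtain ⟨i, hi⟩ := hbi j
    refine hi.trans_le ?_
    have := norm_le_pi_norm (Q j) i
    rwa [Real.norm_eq_abs] at this
  have hdpos : ∀ j, 0 < ‖Q j‖ := by
    intro j
    refine lt_of_le_of_lt ?_ (hdpos' j)
    positivity
  have hq0 : ∀ i, q i 0 = 0 := by
    intro i
    obtain ⟨C, d, hd0, hb⟩ := hD.rq i 0
    have h1 := hb 0 (by simpa using hd0)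
    simp only [smul_zero, abs_zero, pow_one, mul_zero] at h1
    exact abs_eq_zero.1 (le_antisymm h1 (abs_nonneg _))
  have hqc : ∀ i, Tendsto (fun j => q i (s j)) atTop (𝓝 0) := by
    intro i
    have h1 : ContinuousAt (q i) 0 :=
      (hD.smq i).continuousOn.continuousAt (Metric.ball_mem_nhds 0 hε)
    have h2 : Tendsto (q i) (𝓝 0) (𝓝 (q i 0)) := h1
    rw [hq0 i] at h2
    exact h2.comp hs0
  have hQ0 : Tendsto Q atTop (𝓝 0) := tendsto_pi_nhds.2 fun i => hqc i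
  have hd0 : Tendsto (fun j => ‖Q j‖) atTop (𝓝 0) := by
    have := hQ0.norm
    simpa using this
  -- unit vectors
  have hu : ∀ j, (‖Q j‖⁻¹ • Q j) ∈ Metric.sphere (0 : Fin k → ℝ) 1 := by
    intro j
    rw [mem_sphere_zero_iff_norm, norm_smul, norm_inv, norm_norm]
    exact inv_mul_cancel₀ (hdpos j).ne'
  obtain ⟨a, ha, φ, hφ, hlim⟩ := (isCompact_sphere (0 : Fin k → ℝ) 1).tendsto_subseq hu
  have ha1 : ‖a‖ = 1 := by rwa [mem_sphere_zero_iff_norm] at ha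
  -- bounds
  have hei : ∀ i, ∃ C : ℝ, 0 ≤ C ∧ ∀ (p : PD n) (v : Mt n), IsTan p v → |e i p v v| ≤ C * gF p v v :=
    fun i => form_bound Γ hcc (e i) (hD.tf i).1
  choose Ce hCe0 hCe using hei
  obtain ⟨CR, dR, hCR0, hdR0, hdRε, hCR⟩ := fam_bound Γ hcc (N + 1) ε hε R hD.smR hD.symR hD.rR
    (dat_inv Γ H hH N ε Φ c q e R hD)
  have hval : ∀ j (x : PD n) (v : Mt n), IsTan x v →
      ((c (s j))⁻¹ • pul (Φ (s j)) (H (s j)) x : Fm n) v v =
        gF x v v + ∑ i, q i (s j) * e i x v v + R (s j) x v v := by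
    intro j x v hv
    show (c (s j))⁻¹ * pul (Φ (s j)) (H (s j)) x v v = _
    rw [hD.eq _ (hsε j) x v hv, ← mul_assoc, inv_mul_cancel₀ (hD.cpos _ (hsε j)).ne', one_mul]
  have hDefo : Defo Γ (fun p => ∑ i, a i • e i p)
      (fun j p => (c (s (φ j)))⁻¹ • pul (Φ (s (φ j))) (H (s (φ j))) p)
      (fun j => ‖Q (φ j)‖) := by
    refine ⟨fun j => hdpos _, hd0.comp hφ.tendsto_atTop, ?_, ?_, ?_, ?_⟩
    · exact fmOK_sum Γ e (fun i => (hD.tf i).1) a
    · intro j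
      exact fmOK_smul Γ _ (fmOK_pul Γ _ (hD.dfm _ (hsε _)) _ (hH _)) _
    · intro η hη
      have h1 : Tendsto (fun j => ‖‖Q (φ j)‖⁻¹ • Q (φ j) - a‖) atTop (𝓝 0) := by
        have h2 : Tendsto (fun j => ‖Q (φ j)‖⁻¹ • Q (φ j) - a) atTop (𝓝 (a - a)) :=
          hlim.sub_const a
        rw [sub_self] at h2
        simpa using h2.norm
      have h3 : Tendsto (fun j => CR * (1 / ((φ j : ℕ) : ℝ))) atTop (𝓝 0) := by
        have h4 : Tendsto (fun j : ℕ => 1 / (j : ℝ)) atTop (𝓝 0) := tendsto_one_div_atTop_nhds_zero_nat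
        have h5 := (h4.comp hφ.tendsto_atTop).const_mul CR
        simpa using h5
      have h6 : Tendsto (fun j => ‖‖Q (φ j)‖⁻¹ • Q (φ j) - a‖ * (∑ i, Ce i) +
          CR * (1 / ((φ j : ℕ) : ℝ))) atTop (𝓝 0) := by
        have h7 := (h1.mul_const (∑ i, Ce i)).add h3
        simpa using h7
      have h8 : ∀ᶠ j in atTop, ‖s (φ j)‖ < dR :=
        (hs0n.comp hφ.tendsto_atTop).eventually (gt_mem_nhds hdR0)
      have h9 : ∀ᶠ j in atTop, 1 ≤ φ j := hφ.tendsto_atTop.eventually (eventually_ge_atTop 1)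
      filter_upwards [h6.eventually (gt_mem_nhds hη), h8, h9] with j hj1 hj2 hj3 x v hv
      have hg : 0 ≤ gF x v v := by
        rw [gF_self x v hv]
        positivity
      have hdj := hdpos (φ j)
      have hsum : (∑ i, a i • e i x : Fm n) v v = ∑ i, a i * e i x v v := by
        rw [LinearMap.sum_apply, LinearMap.sum_apply]
        exact Finset.sum_congr rfl fun i _ => rfl
      have hdiff : ((c (s (φ j)))⁻¹ • pul (Φ (s (φ j))) (H (s (φ j))) x : Fm n) v v -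
          spd x v ^ 2 - ‖Q (φ j)‖ * (∑ i, a i • e i x : Fm n) v v =
            ∑ i, (q i (s (φ j)) - ‖Q (φ j)‖ * a i) * e i x v v + R (s (φ j)) x v v := by
        rw [hval (φ j) x v hv, gF_self x v hv, hsum, Finset.mul_sum]
        have : ∑ i, (q i (s (φ j)) - ‖Q (φ j)‖ * a i) * e i x v v =
            ∑ i, q i (s (φ j)) * e i x v v - ∑ i, ‖Q (φ j)‖ * (a i * e i x v v) := by
          rw [← Finset.sum_sub_distrib]
          exact Finset.sum_congr rfl fun i _ => by ring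
        rw [this]
        ring
      show |((c (s (φ j)))⁻¹ • pul (Φ (s (φ j))) (H (s (φ j))) x : Fm n) v v -
          spd x v ^ 2 - ‖Q (φ j)‖ * (∑ i, a i • e i x : Fm n) v v| ≤ η * ‖Q (φ j)‖ * spd x v ^ 2
      rw [hdiff, ← gF_self x v hv]
      have hco : ∀ i, |q i (s (φ j)) - ‖Q (φ j)‖ * a i| ≤
          ‖Q (φ j)‖ * ‖‖Q (φ j)‖⁻¹ • Q (φ j) - a‖ := by
        intro i
        have e1 := norm_le_pi_norm (‖Q (φ j)‖⁻¹ • Q (φ j) - a) i
        rw [Real.norm_eq_abs] at e1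
        have e2 : q i (s (φ j)) - ‖Q (φ j)‖ * a i =
            ‖Q (φ j)‖ * ((‖Q (φ j)‖⁻¹ • Q (φ j) - a) i) := by
          simp only [Pi.sub_apply, Pi.smul_apply, smul_eq_mul, hQ]
          rw [mul_sub, ← mul_assoc, mul_inv_cancel₀ hdj.ne', one_mul]
        rw [e2, abs_mul, abs_of_pos hdj]
        exact mul_le_mul_of_nonneg_left e1 hdj.le
      have hA : |∑ i, (q i (s (φ j)) - ‖Q (φ j)‖ * a i) * e i x v v| ≤
          ‖Q (φ j)‖ * (‖‖Q (φ j)‖⁻¹ • Q (φ j) - a‖ * (∑ i, Ce i)) * gF x v v := by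
        calc |∑ i, (q i (s (φ j)) - ‖Q (φ j)‖ * a i) * e i x v v|
            ≤ ∑ i, |(q i (s (φ j)) - ‖Q (φ j)‖ * a i) * e i x v v| :=
              Finset.abs_sum_le_sum_abs _ _
          _ ≤ ∑ i, (‖Q (φ j)‖ * ‖‖Q (φ j)‖⁻¹ • Q (φ j) - a‖) * (Ce i * gF x v v) := by
              refine Finset.sum_le_sum fun i _ => ?_
              rw [abs_mul]
              exact mul_le_mul (hco i) (hCe i x v hv) (abs_nonneg _) (by positivity)
          _ = ‖Q (φ j)‖ * (‖‖Q (φ j)‖⁻¹ • Q (φ j) - a‖ * (∑ i, Ce i)) * gF x v v := by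
              rw [← Finset.mul_sum, ← Finset.sum_mul]
              ring
      have hφpos : (0 : ℝ) < ((φ j : ℕ) : ℝ) := by
        exact_mod_cast hj3
      have hB : |R (s (φ j)) x v v| ≤ ‖Q (φ j)‖ * (CR * (1 / ((φ j : ℕ) : ℝ))) * gF x v v := by
        refine (hCR _ hj2 x v hv).trans (mul_le_mul_of_nonneg_right ?_ hg)
        have e3 : ‖s (φ j)‖ ^ (N + 1) ≤ ‖Q (φ j)‖ * (1 / ((φ j : ℕ) : ℝ)) := by
          rw [mul_one_div, le_div_iff₀ hφpos, mul_comm]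
          exact (hdpos' (φ j)).le
        calc CR * ‖s (φ j)‖ ^ (N + 1) ≤ CR * (‖Q (φ j)‖ * (1 / ((φ j : ℕ) : ℝ))) :=
              mul_le_mul_of_nonneg_left e3 hCR0
          _ = ‖Q (φ j)‖ * (CR * (1 / ((φ j : ℕ) : ℝ))) := by ring
      calc |∑ i, (q i (s (φ j)) - ‖Q (φ j)‖ * a i) * e i x v v + R (s (φ j)) x v v|
          ≤ |∑ i, (q i (s (φ j)) - ‖Q (φ j)‖ * a i) * e i x v v| + |R (s (φ j)) x v v| :=
            abs_add_le _ _
        _ ≤ ‖Q (φ j)‖ * (‖‖Q (φ j)‖⁻¹ • Q (φ j) - a‖ * (∑ i, Ce i)) * gF x v v +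
            ‖Q (φ j)‖ * (CR * (1 / ((φ j : ℕ) : ℝ))) * gF x v v := add_le_add hA hB
        _ = (‖‖Q (φ j)‖⁻¹ • Q (φ j) - a‖ * (∑ i, Ce i) + CR * (1 / ((φ j : ℕ) : ℝ))) *
            (‖Q (φ j)‖ * gF x v v) := by ring
        _ ≤ η * (‖Q (φ j)‖ * gF x v v) :=
            mul_le_mul_of_nonneg_right hj1.le (mul_nonneg hdj.le hg)
        _ = η * ‖Q (φ j)‖ * gF x v v := by ring
    · intro j
      exact noConj_smul _ (inv_pos.2 (hD.cpos _ (hsε _))) _
        (noConj_pul Γ _ (hD.dfm _ (hsε _)) _ (hnc _))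
  have hT : TrF Γ (fun p => ∑ i, a i • e i p) := M1_triv hn Γ hd hcc e hD.tf a _ _ hDefo
  have hfun : (∑ i, a i • e i : PD n → Fm n) = fun p => ∑ i, a i • e i p := by
    funext p
    rw [Finset.sum_apply]
    exact Finset.sum_congr rfl fun i _ => rfl
  have hmem : (∑ i, a i • e i : PD n → Fm n) ∈ Cc :=
    Submodule.sum_mem _ fun i _ => Submodule.smul_mem _ _ (he i)
  have hz : (∑ i, a i • e i : PD n → Fm n) = 0 := hC0 _ hmem (by rw [hfun]; exact hT)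
  have haz : ∀ i, a i = 0 := Fintype.linearIndependent_iff.1 hl a hz
  have : a = 0 := funext haz
  rw [this, norm_zero] at ha1
  exact zero_ne_one ha1

end LibNC38
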