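import Pool.Agent.LibFR38.U1
import Pool.Agent.LibFR38.R1
import Pool.Agent.LibFR38.V1P

set_option autoImplicit false
set_option maxSynthPendingDepth 3

open Matrix MeasureTheory Topology Filter
open scoped Matrix.Norms.Elementwise ContDiff

namespace LibNC38

/-- Row N1. The members of the family are metrics for small parameters. PLAN. `fam_bound` with `N = 1` for
`R s = H s - gF` (`smP_point`, `rayO_facts` (5) for `RayF 1`; invariance): `|H s p v v - gF p v v| ≤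
C ‖s‖ gF p v v ≤ 1/2 gF p v v`, and `gF p v v > 0` for tangent `v ≠ 0` (`prodm_gF.1`). Smooth: `smP_facts` (4). -/
theorem met_near {n m : ℕ} (hn : 1 ≤ n) (Γ : Subgroup (SL n)) (hc : Coc Γ)
    (H : (Fin m → ℝ) → PD n → Fm n) (hH : ∀ s, FmOK Γ (H s)) (ε : ℝ) (hε : 0 < ε)
    (hs : SmFP (Metric.ball 0 ε) H) (h0 : ∀ p v, IsTan p v → H 0 p v v = gF p v v) :
    ∃ δ > 0, δ ≤ ε ∧ ∀ s : Fin m → ℝ, ‖s‖ < δ → MetX (H s) := by
  obtain ⟨f1, f2, -, f4, -, -⟩ := smP_facts (P := Fin m → ℝ) (n := n)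
  obtain ⟨-, -, -, -, r5, -, -⟩ := rayO_facts (P := Fin m → ℝ)
  have hR : SmFP (Metric.ball 0 ε)
      (fun (s : Fin m → ℝ) (p : PD n) => (1 : ℝ) • H s p + (-1 : ℝ) • gF p) :=
    f1 _ (fun _ => 1) (fun _ => -1) H (fun _ => gF) contDiffOn_const contDiffOn_const hs (f2 _)
  have hval : ∀ (s : Fin m → ℝ) (p : PD n) (v w : Mt n),
      ((1 : ℝ) • H s p + (-1 : ℝ) • gF p) v w = H s p v w - gF p v w := by
    intro s p v w
    rw [LinearMap.add_apply, LinearMap.add_apply, LinearMap.smul_apply, LinearMap.smul_apply,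
      LinearMap.smul_apply, LinearMap.smul_apply, smul_eq_mul, smul_eq_mul]
    ring
  have hgsym : ∀ (p : PD n) (v w : Mt n), gF p v w = gF p w v := (fmOK_gF (n := n) Γ).symm
  obtain ⟨C, δ, hC, hδ, hδε, hb⟩ := fam_bound Γ hc 1 ε hε
    (fun (s : Fin m → ℝ) (p : PD n) => (1 : ℝ) • H s p + (-1 : ℝ) • gF p) hR
    (fun s p v w => by
      show ((1 : ℝ) • H s p + (-1 : ℝ) • gF p) v w = ((1 : ℝ) • H s p + (-1 : ℝ) • gF p) w v
      rw [hval, hval, (hH s).symm, hgsym])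
    (fun p v hv => by
      refine (r5 ε _ hε (smP_point (Metric.ball 0 ε) _ hR p v v)).2 ?_
      show ((1 : ℝ) • H 0 p + (-1 : ℝ) • gF p) v v = 0
      rw [hval, h0 p v hv, sub_self])
    (fun s _ γ hγ p v hv => by
      show ((1 : ℝ) • H s (act γ p) + (-1 : ℝ) • gF (act γ p)) _ _ =
        ((1 : ℝ) • H s p + (-1 : ℝ) • gF p) v v
      rw [hval, hval, (hH s).inv γ hγ p v hv, (fmOK_gF (n := n) Γ).inv γ hγ p v hv])
  have hC1 : 0 < 2 * (C + 1) := by linarith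
  refine ⟨min δ (1 / (2 * (C + 1))), lt_min hδ (by positivity), (min_le_left _ _).trans hδε,
    fun s hsδ => ?_⟩
  have hs1 : ‖s‖ < δ := hsδ.trans_le (min_le_left _ _)
  have hs2 : ‖s‖ < 1 / (2 * (C + 1)) := hsδ.trans_le (min_le_right _ _)
  refine ⟨(f4 (Metric.ball 0 ε) s H (fun _ p => p) (by
      rw [mem_ball_zero_iff]
      exact hs1.trans_le hδε)).1 hs, (hH s).symm, fun p v hv hv0 => ?_⟩
  have hg := (prodm_gF (n := n) hn).1.pos p v hv hv0
  have h1 := hb s hs1 p v hv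
  have h2 : |H s p v v - gF p v v| ≤ C * ‖s‖ ^ 1 * gF p v v := by
    rw [← hval s p v v]
    exact h1
  rw [pow_one] at h2
  have h3 : C * ‖s‖ ≤ 1 / 2 := by
    rw [lt_div_iff₀ hC1] at hs2
    have h4 := norm_nonneg s
    nlinarith
  have h4 : C * ‖s‖ * gF p v v ≤ 1 / 2 * gF p v v := mul_le_mul_of_nonneg_right h3 hg.le
  have h5 := (abs_le.1 (h2.trans h4)).1
  linarith

end LibNC38
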