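import Pool.Agent.LibNS38.B3
import Pool.Agent.LibNS38.B7

set_option autoImplicit false
set_option maxSynthPendingDepth 3

open Topology Filter Set
open scoped ContDiff

namespace NS38

private theorem Q1_low {E : Type} [NormedAddCommGroup E] [NormedSpace ℝ E]
    [FiniteDimensional ℝ E] (L0 : E → E →L[ℝ] E →L[ℝ] ℝ) (T : Set E) (hT : IsCompact T)
    (hc : ContinuousOn L0 T) (hp : ∀ x ∈ T, ∀ v, v ≠ 0 → 0 < L0 x v v) :
    ∃ m : ℝ, 0 < m ∧ ∀ x ∈ T, ∀ v, m * (‖v‖ * ‖v‖) ≤ L0 x v v := by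
  have hS : IsCompact (Metric.sphere (0 : E) 1) := isCompact_sphere 0 1
  have hTS : IsCompact (T ×ˢ Metric.sphere (0 : E) 1) := hT.prod hS
  have hf : ContinuousOn (fun p : E × E => L0 p.1 p.2 p.2) (T ×ˢ Metric.sphere (0 : E) 1) := by
    have h1 : ContinuousOn (fun p : E × E => L0 p.1) (T ×ˢ Metric.sphere (0 : E) 1) :=
      hc.comp continuousOn_fst (fun p hp => hp.1)
    exact (h1.clm_apply continuousOn_snd).clm_apply continuousOn_snd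
  have hun : ∀ v : E, v ≠ 0 → ‖v‖⁻¹ • v ∈ Metric.sphere (0 : E) 1 := by
    intro v hv
    have h1 : ‖v‖ ≠ 0 := norm_ne_zero_iff.2 hv
    simp [norm_smul, h1]
  have hsc : ∀ x : E, ∀ v : E, v ≠ 0 →
      L0 x v v = (‖v‖ * ‖v‖) * L0 x (‖v‖⁻¹ • v) (‖v‖⁻¹ • v) := by
    intro x v hv
    have h1 : ‖v‖ ≠ 0 := norm_ne_zero_iff.2 hv
    simp only [map_smul, smul_apply, smul_eq_mul]
    field_simp
  rcases (T ×ˢ Metric.sphere (0 : E) 1).eq_empty_or_nonempty with he | hne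
  · refine ⟨1, one_pos, fun x hx v => ?_⟩
    by_cases hv : v = 0
    · subst hv; simp
    · exfalso
      have : (x, ‖v‖⁻¹ • v) ∈ T ×ˢ Metric.sphere (0 : E) 1 := ⟨hx, hun v hv⟩
      rw [he] at this
      exact this
  · obtain ⟨p0, hp0, hmin⟩ := hTS.exists_isMinOn hne hf
    have hp1 : p0.2 ≠ 0 := by
      intro h0
      have h1 : ‖p0.2‖ = 1 := by simpa using hp0.2
      rw [h0, norm_zero] at h1
      exact zero_ne_one h1
    refine ⟨L0 p0.1 p0.2 p0.2, hp _ hp0.1 _ hp1, fun x hx v => ?_⟩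
    by_cases hv : v = 0
    · subst hv; simp
    · rw [hsc x v hv, mul_comm]
      have h2 : L0 p0.1 p0.2 p0.2 ≤ L0 x (‖v‖⁻¹ • v) (‖v‖⁻¹ • v) :=
        hmin (a := (x, ‖v‖⁻¹ • v)) ⟨hx, hun v hv⟩
      exact mul_le_mul_of_nonneg_left h2 (mul_nonneg (norm_nonneg _) (norm_nonneg _))

private theorem Q1_tube {X E F : Type} [NormedAddCommGroup X] [NormedAddCommGroup E]
    [NormedAddCommGroup F] (f : X × E → F) (S : Set (X × E)) (hS : IsOpen S)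
    (hf : ContinuousOn f S) (Q : Set E) (hQ : IsCompact Q) (hQS : ∀ x ∈ Q, ((0 : X), x) ∈ S) :
    ∃ (δ B : ℝ) (V : Set E), 0 < δ ∧ 0 ≤ B ∧ IsOpen V ∧ Q ⊆ V ∧
      ∀ s x, ‖s‖ < δ → x ∈ V → (s, x) ∈ S ∧ ‖f (s, x)‖ ≤ B := by
  have hK : IsCompact (({0} : Set X) ×ˢ Q) := isCompact_singleton.prod hQ
  have hKS : ({0} : Set X) ×ˢ Q ⊆ S := by
    rintro ⟨a, x⟩ ⟨ha, hx⟩
    simp only [mem_singleton_iff] at ha
    subst ha
    exact hQS x hx
  obtain ⟨B0, hB0⟩ := hK.exists_bound_of_continuousOn (hf.mono hKS)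
  have hU : IsOpen (S ∩ f ⁻¹' (Metric.ball 0 (|B0| + 1))) :=
    hf.isOpen_inter_preimage hS Metric.isOpen_ball
  have hKU : ({0} : Set X) ×ˢ Q ⊆ S ∩ f ⁻¹' (Metric.ball 0 (|B0| + 1)) := by
    intro p hp
    refine ⟨hKS hp, ?_⟩
    rw [mem_preimage, mem_ball_zero_iff]
    have h1 := hB0 p hp
    have h2 := le_abs_self B0
    linarith
  obtain ⟨u, v, hu, hv, hu0, hQv, huv⟩ := generalized_tube_lemma isCompact_singleton hQ hU hKU
  obtain ⟨δ, hδ, hδu⟩ := Metric.isOpen_iff.1 hu 0 (hu0 rfl)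
  refine ⟨δ, |B0| + 1, v, hδ, by positivity, hv, hQv, fun s x hs hx => ?_⟩
  have h3 : (s, x) ∈ S ∩ f ⁻¹' (Metric.ball 0 (|B0| + 1)) :=
    huv ⟨hδu (mem_ball_zero_iff.2 hs), hx⟩
  refine ⟨h3.1, ?_⟩
  have h4 := h3.2
  rw [mem_preimage, mem_ball_zero_iff] at h4
  exact h4.le

private theorem Q1_mv {X E F : Type} [NormedAddCommGroup X] [NormedSpace ℝ X]
    [NormedAddCommGroup E] [NormedSpace ℝ E] [NormedAddCommGroup F] [NormedSpace ℝ F]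
    (R : X × E → F) (S : Set (X × E)) (hS : IsOpen S) (hR : ContDiffOn ℝ ∞ R S) (Q : Set E)
    (hQ : IsCompact Q) (hQS : ∀ x ∈ Q, ((0 : X), x) ∈ S) :
    ∃ (δ M : ℝ), 0 < δ ∧ 0 ≤ M ∧ ∀ A : Set (X × E), Convex ℝ A →
      (∀ y ∈ A, ‖y.1‖ < δ ∧ y.2 ∈ Q) → ∀ x ∈ A, ∀ y ∈ A, ‖R y - R x‖ ≤ M * ‖y - x‖ := by
  have hfd : ContinuousOn (fun x => fderiv ℝ R x) S :=
    hR.continuousOn_fderiv_of_isOpen hS (by norm_cast)
  obtain ⟨δ, M, V, hδ, hM0, -, hQV, hVM⟩ := Q1_tube (fun x => fderiv ℝ R x) S hS hfd Q hQ hQS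
  refine ⟨δ, M, hδ, hM0, fun A hconv hA x hx y hy => ?_⟩
  have hA2 : ∀ z ∈ A, z ∈ S ∧ ‖fderiv ℝ R z‖ ≤ M :=
    fun z hz => hVM z.1 z.2 (hA z hz).1 (hQV (hA z hz).2)
  have hd : ∀ z ∈ A, HasFDerivWithinAt R (fderiv ℝ R z) A z := by
    intro z hz
    have hzS : z ∈ S := (hA2 z hz).1
    have h1 : DifferentiableAt ℝ R z :=
      (hR.differentiableOn (by simp) z hzS).differentiableAt (hS.mem_nhds hzS)
    exact h1.hasFDerivAt.hasFDerivWithinAt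
  exact hconv.norm_image_sub_le_of_norm_hasFDerivWithin_le hd (fun z hz => (hA2 z hz).2) hx hy

/-- Row Q1. `small_dcurv` (`LibNS38/B11.lean`) with several parameters: the proof adapts. PLAN. The family
`G (q, s) = G0 + ∑ i, q i * K i s` on `(ι → ℝ) × P`, a metric near the compact set `{(0, 0)} × Q` (tube lemma;
positivity on the unit sphere of `E`), `chr_exists` (general parameter space) for it, `curv_clm`: the
derivative `dcurv` is a smooth function `R'` of `(q, s, x)`, zero for `q = 0` (there the Christoffel symbol is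
that of `G0`: `kos_facts` (1), (5), `hL`), so `‖R' (q, s, x)‖ ≤ M ‖q‖` near `{(0, 0)} × Q` (mean value
inequality in `q` on a ball, with the bounded partial derivative; tube lemma). Uniqueness of the Christoffel
symbol (`kos_facts` (1), (5)) for the given `C`. -/
theorem small_dcurvP {P E ι : Type} [NormedAddCommGroup P] [NormedSpace ℝ P]
    [NormedAddCommGroup E] [NormedSpace ℝ E] [FiniteDimensional ℝ E] [Fintype ι] {Ω : Set E}
    (hΩ : IsOpen Ω) (G0 : E → E → E → ℝ) (h0 : Met G0 Ω) (hL : LSym G0 Ω) (ε : ℝ) (hε : 0 < ε)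
    (K : ι → P → E → E → E → ℝ)
    (hb : ∀ i, Bil (fun x : P × E => K i x.1 x.2) (Metric.ball 0 ε ×ˢ Ω))
    (hs : ∀ i v w, ContDiffOn ℝ ∞ (fun x : P × E => K i x.1 x.2 v w) (Metric.ball 0 ε ×ˢ Ω))
    (Q : Set E) (hQ : IsCompact Q) (hQΩ : Q ⊆ Ω) :
    ∃ (ε' M : ℝ) (Ω' : Set E), 0 < ε' ∧ 0 ≤ M ∧ IsOpen Ω' ∧ Q ⊆ Ω' ∧ Ω' ⊆ Ω ∧
      ∀ (q : ι → ℝ) (s : P), ‖q‖ < ε' → ‖s‖ < ε' →
        Met (fun x v w => G0 x v w + ∑ i, q i * K i s x v w) Ω' ∧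
        ∀ C : E → E →L[ℝ] E →L[ℝ] E, ContDiffOn ℝ ∞ C Ω' →
          Kos (fun x v w => G0 x v w + ∑ i, q i * K i s x v w) C Ω' → ∀ x ∈ Q, ∀ z u v w,
            ‖dcurv C x z u v w‖ ≤ M * ‖q‖ * (‖z‖ * ‖u‖ * ‖v‖ * ‖w‖) := by
  classical
  obtain ⟨T, hT, hQT, hTΩ⟩ := exists_compact_between hQ hΩ hQΩ
  obtain ⟨L0, hL0c, hL0⟩ := clm_ext (m := ∞) G0 Ω h0.bil h0.smooth
  have hLKe := fun i => clm_ext (m := ∞) (fun x : P × E => K i x.1 x.2)
    (Metric.ball 0 ε ×ˢ Ω) (hb i) (hs i)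
  choose LK hLKc hLK using hLKe
  obtain ⟨m, hm, hml⟩ := Q1_low L0 T hT (hL0c.continuousOn.mono hTΩ) (fun x hx v hv => by
    rw [hL0 x (hTΩ hx)]; exact h0.pos x (hTΩ hx) v hv)
  have hoKΩ : IsOpen ((Metric.ball (0 : P) ε) ×ˢ Ω) := Metric.isOpen_ball.prod hΩ
  have hcF : ContinuousOn (fun (x : P × E) (i : ι) => LK i x) ((Metric.ball (0 : P) ε) ×ˢ Ω) :=
    continuousOn_pi.2 fun i => (hLKc i).continuousOn
  obtain ⟨δ1, B, V1, hδ1, hB0, hV1, hQV1, hV1B⟩ := Q1_tube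
    (fun (x : P × E) (i : ι) => LK i x) _ hoKΩ hcF Q hQ
    (fun x hx => ⟨Metric.mem_ball_self hε, hQΩ hx⟩)
  set W : Set E := V1 ∩ interior T with hWdef
  have hWo : IsOpen W := hV1.inter isOpen_interior
  have hQW : Q ⊆ W := fun x hx => ⟨hQV1 hx, hQT hx⟩
  have hWT : W ⊆ T := fun x hx => interior_subset hx.2
  have hWΩ : W ⊆ Ω := hWT.trans hTΩ
  -- the size of the parameters
  obtain ⟨δ, hδ, hδε, hδB⟩ : ∃ δ : ℝ, 0 < δ ∧ δ ≤ δ1 ∧
      δ * ((Fintype.card ι : ℝ) * B + 1) ≤ m := by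
    have hB1 : 0 < (Fintype.card ι : ℝ) * B + 1 := by positivity
    refine ⟨min δ1 (m / ((Fintype.card ι : ℝ) * B + 1)), lt_min hδ1 (by positivity),
      min_le_left _ _, ?_⟩
    calc min δ1 (m / ((Fintype.card ι : ℝ) * B + 1)) * ((Fintype.card ι : ℝ) * B + 1)
        ≤ m / ((Fintype.card ι : ℝ) * B + 1) * ((Fintype.card ι : ℝ) * B + 1) :=
          mul_le_mul_of_nonneg_right (min_le_right _ _) hB1.le
      _ = m := div_mul_cancel₀ _ hB1.ne'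
  have hKm : ∀ s : P, ‖s‖ < δ → ∀ x ∈ W, (s, x) ∈ (Metric.ball (0 : P) ε) ×ˢ Ω :=
    fun s hs' x hx => (hV1B s x (hs'.trans_le hδε) hx.1).1
  have hpos : ∀ (q : ι → ℝ) (s : P), ‖q‖ < δ → ‖s‖ < δ → ∀ x ∈ W, ∀ v, v ≠ 0 →
      0 < G0 x v v + ∑ i, q i * K i s x v v := by
    intro q s hq' hs' x hx v hv
    have hxT : x ∈ T := hWT hx
    have hxΩ : x ∈ Ω := hTΩ hxT
    have htm := hKm s hs' x hx
    have h1 := hml x hxT v
    rw [hL0 x hxΩ] at h1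
    have h2 : ∀ i, |K i s x v v| ≤ B * (‖v‖ * ‖v‖) := by
      intro i
      have h3 := hLK i (s, x) htm v v
      have h4 : ‖LK i (s, x) v v‖ ≤ ‖LK i (s, x)‖ * ‖v‖ * ‖v‖ := (LK i (s, x)).le_opNorm₂ v v
      rw [h3, Real.norm_eq_abs] at h4
      have h5 : ‖LK i (s, x)‖ ≤ B :=
        (norm_le_pi_norm (fun i : ι => LK i (s, x)) i).trans
          (hV1B s x (hs'.trans_le hδε) hx.1).2
      calc |K i s x v v| ≤ ‖LK i (s, x)‖ * ‖v‖ * ‖v‖ := h4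
        _ = ‖LK i (s, x)‖ * (‖v‖ * ‖v‖) := by ring
        _ ≤ B * (‖v‖ * ‖v‖) := mul_le_mul_of_nonneg_right h5
            (mul_nonneg (norm_nonneg _) (norm_nonneg _))
    have hv0 : 0 < ‖v‖ * ‖v‖ := mul_pos (norm_pos_iff.2 hv) (norm_pos_iff.2 hv)
    have h5 : |∑ i, q i * K i s x v v| ≤ ∑ _i : ι, ‖q‖ * (B * (‖v‖ * ‖v‖)) := by
      refine (Finset.abs_sum_le_sum_abs _ _).trans (Finset.sum_le_sum fun i _ => ?_)
      rw [abs_mul]
      have h6 : |q i| ≤ ‖q‖ := by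
        rw [← Real.norm_eq_abs]
        exact norm_le_pi_norm q i
      exact mul_le_mul h6 (h2 i) (abs_nonneg _) (norm_nonneg _)
    rw [Finset.sum_const, nsmul_eq_mul, Finset.card_univ] at h5
    have h6 : (Fintype.card ι : ℝ) * (‖q‖ * (B * (‖v‖ * ‖v‖))) ≤
        (Fintype.card ι : ℝ) * (δ * (B * (‖v‖ * ‖v‖))) :=
      mul_le_mul_of_nonneg_left (mul_le_mul_of_nonneg_right hq'.le
        (mul_nonneg hB0 hv0.le)) (Nat.cast_nonneg _)
    have h7 : (Fintype.card ι : ℝ) * (δ * (B * (‖v‖ * ‖v‖))) < m * (‖v‖ * ‖v‖) := by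
      have h8 : δ * ((Fintype.card ι : ℝ) * B) < m := by nlinarith
      calc (Fintype.card ι : ℝ) * (δ * (B * (‖v‖ * ‖v‖)))
          = (δ * ((Fintype.card ι : ℝ) * B)) * (‖v‖ * ‖v‖) := by ring
        _ < m * (‖v‖ * ‖v‖) := mul_lt_mul_of_pos_right h8 hv0
    have h9 := neg_abs_le (∑ i, q i * K i s x v v)
    linarith
  -- the open set of the parameters
  set S : Set (((ι → ℝ) × P) × E) := (Metric.ball 0 δ ×ˢ Metric.ball 0 δ) ×ˢ W with hSdef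
  have hSo : IsOpen S := (Metric.isOpen_ball.prod Metric.isOpen_ball).prod hWo
  have hmem : ∀ (q : ι → ℝ) (s : P), ‖q‖ < δ → ‖s‖ < δ → ∀ x ∈ W, ((q, s), x) ∈ S :=
    fun q s hq' hs' x hx => ⟨⟨mem_ball_zero_iff.2 hq', mem_ball_zero_iff.2 hs'⟩, hx⟩
  have hS1 : ∀ x ∈ S, x.2 ∈ Ω := fun x hx => hWΩ hx.2
  have hS2 : ∀ x ∈ S, (x.1.2, x.2) ∈ (Metric.ball (0 : P) ε) ×ˢ Ω := by
    rintro ⟨⟨q, s⟩, x⟩ ⟨⟨_, hs'⟩, hx⟩
    exact hKm s (mem_ball_zero_iff.1 hs') x hx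
  set G : ((ι → ℝ) × P) → E → E → E → ℝ :=
    fun p x v w => G0 x v w + ∑ i, p.1 i * K i p.2 x v w with hGdef
  have hGb : Bil (fun x : ((ι → ℝ) × P) × E => G x.1 x.2) S := by
    refine ⟨fun x hx u v w => ?_, fun x hx r v w => ?_, fun x hx v w => ?_⟩
    · have h1 := h0.bil.add x.2 (hS1 x hx) u v w
      have h2 := fun i => (hb i).add (x.1.2, x.2) (hS2 x hx) u v w
      simp only at h1 h2
      simp only [hGdef]
      rw [h1, Finset.sum_congr rfl fun i _ => congrArg (x.1.1 i * ·) (h2 i)]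
      simp only [mul_add, Finset.sum_add_distrib]
      ring
    · have h1 := h0.bil.smul x.2 (hS1 x hx) r v w
      have h2 := fun i => (hb i).smul (x.1.2, x.2) (hS2 x hx) r v w
      simp only at h1 h2
      simp only [hGdef]
      rw [h1, Finset.sum_congr rfl fun i _ => congrArg (x.1.1 i * ·) (h2 i), mul_add,
        Finset.mul_sum]
      congr 1
      exact Finset.sum_congr rfl fun i _ => by ring
    · have h1 := h0.bil.symm x.2 (hS1 x hx) v w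
      have h2 := fun i => (hb i).symm (x.1.2, x.2) (hS2 x hx) v w
      simp only at h1 h2
      simp only [hGdef]
      rw [h1, Finset.sum_congr rfl fun i _ => congrArg (x.1.1 i * ·) (h2 i)]
  have hGs : ∀ v w, ContDiffOn ℝ ∞ (fun x : ((ι → ℝ) × P) × E => G x.1 x.2 v w) S := by
    intro v w
    have h1 : ContDiffOn ℝ ∞ (fun x : ((ι → ℝ) × P) × E => G0 x.2 v w) S :=
      (h0.smooth v w).comp contDiff_snd.contDiffOn (fun x hx => hS1 x hx)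
    have h2 : ∀ i, ContDiffOn ℝ ∞ (fun x : ((ι → ℝ) × P) × E => K i x.1.2 x.2 v w) S :=
      fun i => (hs i v w).comp (g := fun x : P × E => K i x.1 x.2 v w)
        (f := fun x : ((ι → ℝ) × P) × E => (x.1.2, x.2))
        ((contDiff_fst.snd.prodMk contDiff_snd).contDiffOn) (fun x hx => hS2 x hx)
    have h3 : ∀ i, ContDiffOn ℝ ∞ (fun x : ((ι → ℝ) × P) × E => x.1.1 i) S :=
      fun i => ((contDiff_apply ℝ ℝ i).comp contDiff_fst.fst).contDiffOn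
    exact h1.add (ContDiffOn.sum fun i _ => (h3 i).mul (h2 i))
  have hGp : ∀ x ∈ S, ∀ v, v ≠ 0 → 0 < G x.1 x.2 v v := by
    rintro ⟨⟨q, s⟩, x⟩ ⟨⟨hq', hs'⟩, hx⟩ v hv
    exact hpos q s (mem_ball_zero_iff.1 hq') (mem_ball_zero_iff.1 hs') x hx v hv
  obtain ⟨C, hCc, hCk⟩ := chr_exists G S hSo hGb hGs hGp
  obtain ⟨-, R', hRc, hR⟩ := curv_clm C S hSo hCc
  have hKos : ∀ (q : ι → ℝ) (s : P), ‖q‖ < δ → ‖s‖ < δ →
      Kos (fun x v w => G0 x v w + ∑ i, q i * K i s x v w) (C (q, s)) W := by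
    intro q s hq' hs' x hx u v w
    exact hCk ((q, s), x) (hmem q s hq' hs' x hx) u v w
  have hMet : ∀ (q : ι → ℝ) (s : P), ‖q‖ < δ → ‖s‖ < δ →
      Met (fun x v w => G0 x v w + ∑ i, q i * K i s x v w) W := by
    intro q s hq' hs'
    refine ⟨⟨fun x hx u v w => ?_, fun x hx r v w => ?_, fun x hx v w => ?_⟩, fun v w => ?_,
      fun x hx v hv => hpos q s hq' hs' x hx v hv⟩
    · exact hGb.add ((q, s), x) (hmem q s hq' hs' x hx) u v w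
    · exact hGb.smul ((q, s), x) (hmem q s hq' hs' x hx) r v w
    · exact hGb.symm ((q, s), x) (hmem q s hq' hs' x hx) v w
    · exact (hGs v w).comp (g := fun x : ((ι → ℝ) × P) × E => G x.1 x.2 v w)
        (f := fun x : E => ((q, s), x))
        ((contDiff_const.prodMk contDiff_id).contDiffOn) (fun x hx => hmem q s hq' hs' x hx)
  -- vanishing at `q = 0`
  obtain ⟨C0, -, hC0k, hC0z⟩ := hL
  have h00 : ‖(0 : ι → ℝ)‖ < δ := by rw [norm_zero]; exact hδ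
  have hzero : ∀ s : P, ‖s‖ < δ → ∀ x ∈ W, R' ((0, s), x) = 0 := by
    intro s hs' x hx
    have hk : Kos G0 (C (0, s)) W := by
      have h1 := hKos 0 s h00 hs'
      have h2 : (fun x v w => G0 x v w + ∑ i, (0 : ι → ℝ) i * K i s x v w) = G0 := by
        funext x v w
        rw [Finset.sum_eq_zero (fun i _ => by rw [Pi.zero_apply, zero_mul]), add_zero]
      rwa [h2] at h1
    have hm0 : Met G0 W :=
      ⟨⟨fun x hx => h0.bil.add x (hWΩ hx), fun x hx => h0.bil.smul x (hWΩ hx),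
        fun x hx => h0.bil.symm x (hWΩ hx)⟩, fun v w => (h0.smooth v w).mono hWΩ,
        fun x hx => h0.pos x (hWΩ hx)⟩
    have hk0 : Kos G0 C0 W := fun y hy => hC0k y (hWΩ hy)
    have hf := kos_facts (E := E) (Ω := W) hWo
    have he : ∀ y ∈ W, C (0, s) y = C0 y := hf.1 G0 _ _ hm0 hk hk0
    ext z u v w
    rw [← hR ((0, s), x) (hmem 0 s h00 hs' x hx) z u v w]
    have h3 := (hf.2.2.2.2 (C (0, s)) C0 he x hx z u v w).2
    simp only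
    rw [h3, hC0z x (hWΩ hx)]
    simp
  -- the bound
  obtain ⟨δ2, M, hδ2, hM0, hmvt⟩ := Q1_mv R' S hSo hRc Q hQ
    (fun x hx => hmem 0 0 h00 (by rw [norm_zero]; exact hδ) x (hQW hx))
  refine ⟨min δ δ2, M, W, lt_min hδ hδ2, hM0, hWo, hQW, hWΩ, fun q s hq' hs' => ?_⟩
  have hqδ : ‖q‖ < δ := hq'.trans_le (min_le_left _ _)
  have hsδ : ‖s‖ < δ := hs'.trans_le (min_le_left _ _)
  have hqδ2 : ‖q‖ < δ2 := hq'.trans_le (min_le_right _ _)
  have hsδ2 : ‖s‖ < δ2 := hs'.trans_le (min_le_right _ _)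
  refine ⟨hMet q s hqδ hsδ, fun C' _ hC'k x hx z u v w => ?_⟩
  have hxW : x ∈ W := hQW hx
  have hf := kos_facts (E := E) (Ω := W) hWo
  have he : ∀ y ∈ W, C' y = C (q, s) y :=
    hf.1 _ _ _ (hMet q s hqδ hsδ) hC'k (hKos q s hqδ hsδ)
  rw [(hf.2.2.2.2 C' (C (q, s)) he x hxW z u v w).2,
    hR ((q, s), x) (hmem q s hqδ hsδ x hxW) z u v w]
  -- mean value inequality
  have hmv : ‖R' ((q, s), x)‖ ≤ M * ‖q‖ := by
    have hconv : Convex ℝ ((Metric.ball (0 : ι → ℝ) δ2 ×ˢ ({s} : Set P)) ×ˢ ({x} : Set E)) :=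
      ((convex_ball _ _).prod (convex_singleton _)).prod (convex_singleton _)
    have hA : ∀ y ∈ ((Metric.ball (0 : ι → ℝ) δ2 ×ˢ ({s} : Set P)) ×ˢ ({x} : Set E)),
        ‖y.1‖ < δ2 ∧ y.2 ∈ Q := by
      rintro ⟨⟨q', s'⟩, x'⟩ ⟨⟨h1, h2⟩, h3⟩
      simp only [mem_singleton_iff] at h2 h3
      subst h2 h3
      refine ⟨?_, hx⟩
      rw [Prod.norm_def]
      exact max_lt (mem_ball_zero_iff.1 h1) hsδ2
    have hx0 : ((0, s), x) ∈ ((Metric.ball (0 : ι → ℝ) δ2 ×ˢ ({s} : Set P)) ×ˢ ({x} : Set E)) :=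
      ⟨⟨Metric.mem_ball_self hδ2, rfl⟩, rfl⟩
    have hxs : ((q, s), x) ∈ ((Metric.ball (0 : ι → ℝ) δ2 ×ˢ ({s} : Set P)) ×ˢ ({x} : Set E)) :=
      ⟨⟨mem_ball_zero_iff.2 hqδ2, rfl⟩, rfl⟩
    have h1 := hmvt _ hconv hA _ hx0 _ hxs
    rw [hzero s hsδ x hxW, sub_zero] at h1
    have h2 : ‖(((q, s), x) : ((ι → ℝ) × P) × E) - ((0, s), x)‖ = ‖q‖ := by
      simp [Prod.norm_def]
    rwa [h2] at h1
  calc ‖R' ((q, s), x) z u v w‖ ≤ ‖R' ((q, s), x) z u v‖ * ‖w‖ := ContinuousLinearMap.le_opNorm _ _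
    _ ≤ (‖R' ((q, s), x) z u‖ * ‖v‖) * ‖w‖ :=
        mul_le_mul_of_nonneg_right (ContinuousLinearMap.le_opNorm _ _) (norm_nonneg _)
    _ ≤ ((‖R' ((q, s), x) z‖ * ‖u‖) * ‖v‖) * ‖w‖ := by
        gcongr
        exact ContinuousLinearMap.le_opNorm _ _
    _ ≤ (((‖R' ((q, s), x)‖ * ‖z‖) * ‖u‖) * ‖v‖) * ‖w‖ := by
        gcongr
        exact ContinuousLinearMap.le_opNorm _ _
    _ ≤ ((((M * ‖q‖) * ‖z‖) * ‖u‖) * ‖v‖) * ‖w‖ := by
        gcongr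
    _ = M * ‖q‖ * (‖z‖ * ‖u‖ * ‖v‖ * ‖w‖) := by ring

end NS38
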