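import Pool.Agent.LibNS38.B8
import Pool.Agent.LibFR38.K0
import Pool.Agent.LibFR38.Q1
import Pool.Agent.LibFR38.Q2

set_option autoImplicit false
set_option maxSynthPendingDepth 3

open Topology Filter Set
open scoped ContDiff

namespace NS38

/-- the family `H` of metrics is, up to diffeomorphisms `Φ s` and constants `c s`, equal to
`H 0 + ∑ q_i(s) K_i(s)` with `|q_i(s)| ≤ B ‖s‖ ^ N` for the parameters `s ∈ Z` (the point `x` is reached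
from the compact set `Q`) -/
def GaugeF {P E : Type} [NormedAddCommGroup P] [NormedSpace ℝ P] [NormedAddCommGroup E]
    [NormedSpace ℝ E] (H : P → E → E → E → ℝ) (Z : Set P) (Ω Q : Set E) (x : E) (N : ℕ) : Prop :=
  ∃ (ι : Type) (_ : Fintype ι) (ε B : ℝ) (Φ : P → E → E) (c : P → ℝ) (q : ι → P → ℝ)
    (K : ι → P → E → E → E → ℝ), 0 < ε ∧ 0 ≤ B ∧
    ContDiffOn ℝ ∞ (fun y : P × E => Φ y.1 y.2) (Metric.ball 0 ε ×ˢ Ω) ∧ (∀ y ∈ Ω, Φ 0 y = y) ∧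
    (∀ i, Bil (fun y : P × E => K i y.1 y.2) (Metric.ball 0 ε ×ˢ Ω)) ∧
    (∀ i v w, ContDiffOn ℝ ∞ (fun y : P × E => K i y.1 y.2 v w) (Metric.ball 0 ε ×ˢ Ω)) ∧
    ∀ s ∈ Metric.ball (0 : P) ε, 0 < c s ∧ (∃ y ∈ Q, Φ s y = x) ∧
      (∀ y ∈ Ω, Φ s y ∈ Ω ∧ Function.Surjective (fderiv ℝ (Φ s) y)) ∧
      (∀ y ∈ Ω, ∀ v w, H s (Φ s y) (fderiv ℝ (Φ s) y v) (fderiv ℝ (Φ s) y w) =
        c s * (H 0 y v w + ∑ i, q i s * K i s y v w)) ∧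
      (s ∈ Z → ∀ i, |q i s| ≤ B * ‖s‖ ^ N)

private theorem Q3_slice {P E : Type} [NormedAddCommGroup P] [NormedSpace ℝ P]
    [NormedAddCommGroup E] [NormedSpace ℝ E]
    {Ω Ω' : Set E} (hΩ'Ω : Ω' ⊆ Ω) (ε : ℝ) (Φ : P → E → E)
    (hΦ : ContDiffOn ℝ ∞ (fun y : P × E => Φ y.1 y.2) (Metric.ball 0 ε ×ˢ Ω)) (t : P)
    (ht : t ∈ Metric.ball (0 : P) ε) : ContDiffOn ℝ ∞ (Φ t) Ω' := by
  have h1 : ContDiff ℝ ∞ (fun y : E => ((t, y) : P × E)) := contDiff_const.prodMk contDiff_id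
  have h2 := hΦ.comp (s := Ω') h1.contDiffOn (fun y hy => Set.mk_mem_prod ht (hΩ'Ω hy))
  exact h2

private theorem Q3_norm {E : Type} [NormedAddCommGroup E] (a b : E)
    (h : ‖a - b‖ ≤ 1 / 2 * ‖b‖) : ‖b‖ ≤ 2 * ‖a‖ ∧ ‖a‖ ≤ 2 * ‖b‖ := by
  have h1 : ‖b‖ ≤ ‖a‖ + ‖a - b‖ := by
    have h2 : b = a - (a - b) := by abel
    calc ‖b‖ = ‖a - (a - b)‖ := by rw [← h2]
      _ ≤ ‖a‖ + ‖a - b‖ := norm_sub_le _ _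
  have h3 : ‖a‖ ≤ ‖b‖ + ‖a - b‖ := by
    have h2 : a = b + (a - b) := by abel
    calc ‖a‖ = ‖b + (a - b)‖ := by rw [← h2]
      _ ≤ ‖b‖ + ‖a - b‖ := norm_add_le _ _
  have h4 := norm_nonneg b
  constructor <;> linarith

/-- Row Q3 (compare `path_bound`, `LibNS38/C13b.lean`, whose proof adapts). PLAN. `small_dcurvP`,
`near_oneP` for `Q`. For small `s ∈ Z`: `‖fun i => q i s‖ ≤ B ‖s‖ ^ N < ε'` (`N ≥ 1`), the metric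
`G' = H 0 + ∑ q K` on `Ω'`, its Christoffel symbol `C'` (`kos_facts` (4)); `nat_dcurv` for
`φ = Φ s : Ω' → Ω`: at `y ∈ Q` with `Φ s y = x`, `dcurv C x (Dφ z') .. = Dφ (dcurv C' y z' ..)`; `Dφ` is
surjective with `1/2 ‖w‖ ≤ ‖Dφ w‖ ≤ 3/2 ‖w‖`. -/
theorem fam_dcurv {P E : Type} [NormedAddCommGroup P] [NormedSpace ℝ P] [NormedAddCommGroup E]
    [NormedSpace ℝ E] [FiniteDimensional ℝ E] {Ω : Set E} (hΩ : IsOpen Ω)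
    (H : P → E → E → E → ℝ) (Z : Set P) (ε0 : ℝ) (hε0 : 0 < ε0)
    (hm : ∀ s ∈ Metric.ball (0 : P) ε0, Met (H s) Ω) (hL : LSym (H 0) Ω) (Q : Set E)
    (hQ : IsCompact Q) (hQΩ : Q ⊆ Ω) (x : E) (N : ℕ) (hN1 : 1 ≤ N) (hN : GaugeF H Z Ω Q x N) :
    ∃ M δ : ℝ, 0 ≤ M ∧ 0 < δ ∧ ∀ s ∈ Z, ‖s‖ < δ → DcB (H s) Ω x (M * ‖s‖ ^ N) := by
  obtain ⟨ι, hι, ε, B, Φ, c, q, K, hε, hB, hΦ, hΦ0, hKb, hKs, HH⟩ := hN
  obtain ⟨ε', M, Ω', hε', hM, hΩ'o, hQΩ', hΩ'Ω, hsd⟩ :=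
    small_dcurvP hΩ (H 0) (hm 0 (Metric.mem_ball_self hε0)) hL ε hε K hKb hKs Q hQ hQΩ
  obtain ⟨δ, hδ0, hδε, hnear⟩ := near_oneP hΩ ε hε Φ hΦ hΦ0 Q hQ hQΩ
  refine ⟨32 * (M * B), min (min (min δ ε') ε0) (min 1 (ε' / (B + 1))), by positivity,
    lt_min (lt_min (lt_min hδ0 hε') hε0) (lt_min one_pos (by positivity)), ?_⟩
  intro s hsZ hs C hC hK z u v w
  have hsδ : ‖s‖ < δ := lt_of_lt_of_le hs
    ((min_le_left _ _).trans ((min_le_left _ _).trans (min_le_left _ _)))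
  have hsε' : ‖s‖ < ε' := lt_of_lt_of_le hs
    ((min_le_left _ _).trans ((min_le_left _ _).trans (min_le_right _ _)))
  have hsε0 : ‖s‖ < ε0 := lt_of_lt_of_le hs ((min_le_left _ _).trans (min_le_right _ _))
  have hs1 : ‖s‖ < 1 := lt_of_lt_of_le hs ((min_le_right _ _).trans (min_le_left _ _))
  have hsB : ‖s‖ < ε' / (B + 1) := lt_of_lt_of_le hs ((min_le_right _ _).trans (min_le_right _ _))
  have hsε : ‖s‖ < ε := lt_of_lt_of_le hsδ hδε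
  have hs0 : 0 ≤ ‖s‖ := norm_nonneg s
  have hsN0 : 0 ≤ ‖s‖ ^ N := pow_nonneg hs0 N
  have hsN : ‖s‖ ^ N ≤ ‖s‖ := by
    calc ‖s‖ ^ N ≤ ‖s‖ ^ 1 := pow_le_pow_of_le_one hs0 hs1.le hN1
      _ = ‖s‖ := pow_one _
  obtain ⟨hc, ⟨y, hyQ, hyx⟩, hmap, hlaw, hq⟩ := HH s (by simpa using hsε)
  have hqn : ‖fun i => q i s‖ ≤ B * ‖s‖ ^ N :=
    (pi_norm_le_iff_of_nonneg (by positivity)).2 fun i => by
      rw [Real.norm_eq_abs]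
      exact hq hsZ i
  have hBs : B * ‖s‖ ^ N < ε' := by
    have h1 : (B + 1) * ‖s‖ < ε' := by
      have h2 := (lt_div_iff₀ (by positivity : (0 : ℝ) < B + 1)).1 hsB
      linarith
    have h3 : B * ‖s‖ ^ N ≤ B * ‖s‖ := mul_le_mul_of_nonneg_left hsN hB
    linarith
  have hqs : ‖fun i => q i s‖ < ε' := lt_of_le_of_lt hqn hBs
  obtain ⟨hMet', hbd⟩ := hsd (fun i => q i s) s hqs hsε'
  obtain ⟨C', hC', hK'⟩ := (kos_facts hΩ'o).2.2.2.1 _ hMet'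
  have hMett := hm s (by simpa using hsε0)
  have hφ : ContDiffOn ℝ ∞ (Φ s) Ω' :=
    Q3_slice hΩ'Ω ε Φ hΦ s (by simpa using hsε)
  have hnat := nat_dcurv hΩ hΩ'o hMett hMet' (Φ s) hφ (fun p hp => (hmap p (hΩ'Ω hp)).1)
    (fun p hp => (hmap p (hΩ'Ω hp)).2) (c s) hc
    (fun p hp v w => hlaw p (hΩ'Ω hp) v w) C C' hC hC' hK hK'
  have hsur := (hmap y (hQΩ hyQ)).2
  obtain ⟨z', hz⟩ := hsur z
  obtain ⟨u', hu⟩ := hsur u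
  obtain ⟨v', hv⟩ := hsur v
  obtain ⟨w', hw⟩ := hsur w
  have nz := (Q3_norm _ _ (hnear s hsδ y hyQ z')).1
  have nu := (Q3_norm _ _ (hnear s hsδ y hyQ u')).1
  have nv := (Q3_norm _ _ (hnear s hsδ y hyQ v')).1
  have nw := (Q3_norm _ _ (hnear s hsδ y hyQ w')).1
  rw [hz] at nz
  rw [hu] at nu
  rw [hv] at nv
  rw [hw] at nw
  have e1 := hnat y (hQΩ' hyQ) z' u' v' w'
  rw [hz, hu, hv, hw, hyx] at e1
  have b1 := hbd C' hC' hK' y hyQ z' u' v' w'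
  have b2 := (Q3_norm _ _ (hnear s hsδ y hyQ (dcurv C' y z' u' v' w'))).2
  rw [e1] at b2
  have hprod : ‖z'‖ * ‖u'‖ * ‖v'‖ * ‖w'‖ ≤ (2 * ‖z‖) * (2 * ‖u‖) * (2 * ‖v‖) * (2 * ‖w‖) := by
    gcongr
  have b3 : M * ‖fun i => q i s‖ * (‖z'‖ * ‖u'‖ * ‖v'‖ * ‖w'‖) ≤
      M * (B * ‖s‖ ^ N) * ((2 * ‖z‖) * (2 * ‖u‖) * (2 * ‖v‖) * (2 * ‖w‖)) := by
    have hP : 0 ≤ ‖z'‖ * ‖u'‖ * ‖v'‖ * ‖w'‖ := by positivity
    calc M * ‖fun i => q i s‖ * (‖z'‖ * ‖u'‖ * ‖v'‖ * ‖w'‖)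
        ≤ M * (B * ‖s‖ ^ N) * (‖z'‖ * ‖u'‖ * ‖v'‖ * ‖w'‖) := by gcongr
      _ ≤ M * (B * ‖s‖ ^ N) * ((2 * ‖z‖) * (2 * ‖u‖) * (2 * ‖v‖) * (2 * ‖w‖)) := by gcongr
  calc ‖dcurv C x z u v w‖ ≤ 2 * ‖dcurv C' y z' u' v' w'‖ := b2
    _ ≤ 2 * (M * (B * ‖s‖ ^ N) * ((2 * ‖z‖) * (2 * ‖u‖) * (2 * ‖v‖) * (2 * ‖w‖))) := by
        have := b1.trans b3
        linarith
    _ = 32 * (M * B) * ‖s‖ ^ N * (‖z‖ * ‖u‖ * ‖v‖ * ‖w‖) := by ring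

end NS38
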