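import Pool.Agent.LibNS38.B0

set_option autoImplicit false
set_option maxSynthPendingDepth 3

open Topology Filter Set
open scoped ContDiff

namespace NS38

/-- partial derivative in the direction of the `i`-th parameter -/
noncomputable def pdv {m : ℕ} {E : Type} [NormedAddCommGroup E] [NormedSpace ℝ E] (i : Fin m)
    (f : (Fin m → ℝ) × E → ℝ) : (Fin m → ℝ) × E → ℝ :=
  fun x => fderiv ℝ f x (Pi.single i 1, 0)

/-- iterated partial derivatives in the parameters -/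
noncomputable def pdvs {m : ℕ} {E : Type} [NormedAddCommGroup E] [NormedSpace ℝ E] :
    (N : ℕ) → (Fin N → Fin m) → ((Fin m → ℝ) × E → ℝ) → (Fin m → ℝ) × E → ℝ
  | 0, _, f => f
  | N + 1, α, f => pdvs N (fun j => α j.succ) (pdv (α 0) f)

private lemma T2_open {m : ℕ} {E : Type} [NormedAddCommGroup E] [NormedSpace ℝ E] (ε : ℝ) (V : Set E)
    (hV : IsOpen V) : IsOpen (Metric.ball (0 : Fin m → ℝ) ε ×ˢ V) :=
  Metric.isOpen_ball.prod hV

private lemma T2_pdv {m : ℕ} {E : Type} [NormedAddCommGroup E] [NormedSpace ℝ E]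
    (f : (Fin m → ℝ) × E → ℝ) (ε : ℝ) (V : Set E) (hV : IsOpen V)
    (hf : ContDiffOn ℝ ∞ f (Metric.ball 0 ε ×ˢ V)) (i : Fin m) :
    ContDiffOn ℝ ∞ (pdv i f) (Metric.ball 0 ε ×ˢ V) := by
  have h : ContDiffOn ℝ ∞ (fderiv ℝ f) (Metric.ball 0 ε ×ˢ V) :=
    hf.fderiv_of_isOpen (T2_open ε V hV) (by simp)
  exact h.clm_apply contDiffOn_const

/-- the chain rule along a ray -/
private lemma T2_chain {m : ℕ} {E : Type} [NormedAddCommGroup E] [NormedSpace ℝ E]
    (f : (Fin m → ℝ) × E → ℝ) (ε : ℝ) (V : Set E) (hV : IsOpen V)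
    (hf : ContDiffOn ℝ ∞ f (Metric.ball 0 ε ×ˢ V)) (s : Fin m → ℝ) (x : E) (hx : x ∈ V) (u : ℝ)
    (hu : u • s ∈ Metric.ball (0 : Fin m → ℝ) ε) :
    deriv (fun u : ℝ => f (u • s, x)) u = ∑ i, s i * pdv i f (u • s, x) := by
  have hmem : (u • s, x) ∈ Metric.ball (0 : Fin m → ℝ) ε ×ˢ V := ⟨hu, hx⟩
  have hd : DifferentiableAt ℝ f (u • s, x) :=
    (hf.contDiffAt ((T2_open ε V hV).mem_nhds hmem)).differentiableAt (by simp)
  have h1 : HasDerivAt (fun u : ℝ => ((u • s, x) : (Fin m → ℝ) × E)) (s, 0) u := by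
    have h2 : HasDerivAt (fun u : ℝ => u • s) s u := by
      simpa using (hasDerivAt_id u).smul_const s
    exact h2.prodMk (hasDerivAt_const u x)
  have h3 : HasDerivAt (fun u : ℝ => f (u • s, x)) (fderiv ℝ f (u • s, x) (s, 0)) u :=
    hd.hasFDerivAt.comp_hasDerivAt u h1
  rw [h3.deriv]
  have h4 : ((s, 0) : (Fin m → ℝ) × E) =
      ∑ i, s i • ((Pi.single i 1, 0) : (Fin m → ℝ) × E) := by
    refine Prod.ext ?_ ?_
    · rw [Prod.fst_sum]
      funext j
      simp [Finset.sum_apply, Pi.single_apply]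
    · rw [Prod.snd_sum]
      simp
  rw [h4, map_sum]
  refine Finset.sum_congr rfl fun i _ => ?_
  rw [map_smul, smul_eq_mul]
  rfl

private lemma T2_cda {m : ℕ} {E : Type} [NormedAddCommGroup E] [NormedSpace ℝ E]
    (f : (Fin m → ℝ) × E → ℝ) (ε : ℝ) (V : Set E) (hV : IsOpen V)
    (hf : ContDiffOn ℝ ∞ f (Metric.ball 0 ε ×ˢ V)) (s : Fin m → ℝ) (x : E) (hx : x ∈ V) (u : ℝ)
    (hu : u • s ∈ Metric.ball (0 : Fin m → ℝ) ε) :
    ContDiffAt ℝ ∞ (fun u : ℝ => f (u • s, x)) u := by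
  have hmem : (u • s, x) ∈ Metric.ball (0 : Fin m → ℝ) ε ×ˢ V := ⟨hu, hx⟩
  have h1 : ContDiffAt ℝ ∞ f (u • s, x) := hf.contDiffAt ((T2_open ε V hV).mem_nhds hmem)
  have h2 : ContDiffAt ℝ ∞ (fun u : ℝ => ((u • s, x) : (Fin m → ℝ) × E)) u :=
    ((contDiff_id.smul contDiff_const).prodMk contDiff_const).contDiffAt
  exact ContDiffAt.comp u h1 h2

/-- Row T2 (only Mathlib). Derivatives along rays by partial derivatives. PLAN. Induction on `N` for all
`f`. `pdv i f` is `C^∞` on the open set `ball 0 ε ×ˢ V` (`ContDiffOn.fderiv_of_isOpen`, `clm_apply`). For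
`u • s ∈ ball` the derivative of `u ↦ f (u • s, x)` near `u` is `∑ i, s i * pdv i f (u • s, x)` (chain rule,
`s = ∑ i, s i • Pi.single i 1`); `iteratedDeriv_succ'`, `Filter.EventuallyEq.iteratedDeriv_eq`, linearity of
`iteratedDeriv` for finite sums of functions smooth near `u`; re-index `Fin (N+1) → Fin m` by
`Fin.consEquiv` / `Fin.cons`. -/
theorem ray_deriv {m : ℕ} {E : Type} [NormedAddCommGroup E] [NormedSpace ℝ E] (N : ℕ)
    (f : (Fin m → ℝ) × E → ℝ) (ε : ℝ) (V : Set E) (hV : IsOpen V)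
    (hf : ContDiffOn ℝ ∞ f (Metric.ball 0 ε ×ˢ V)) :
    (∀ α : Fin N → Fin m, ContDiffOn ℝ ∞ (pdvs N α f) (Metric.ball 0 ε ×ˢ V)) ∧
    ∀ (s : Fin m → ℝ), ∀ x ∈ V, ∀ u : ℝ, u • s ∈ Metric.ball (0 : Fin m → ℝ) ε →
      iteratedDeriv N (fun u : ℝ => f (u • s, x)) u =
        ∑ α : Fin N → Fin m, (∏ j, s (α j)) * pdvs N α f (u • s, x) := by
  induction N generalizing f with
  | zero =>
    refine ⟨fun α => hf, fun s x hx u hu => ?_⟩
    rw [iteratedDeriv_zero, Fintype.sum_unique]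
    simp [pdvs]
  | succ N ih =>
    have hp := fun i => T2_pdv f ε V hV hf i
    refine ⟨fun α => (ih (pdv (α 0) f) (hp (α 0))).1 _, fun s x hx u hu => ?_⟩
    have hev : deriv (fun u : ℝ => f (u • s, x)) =ᶠ[𝓝 u]
        fun u => ∑ i, s i * pdv i f (u • s, x) := by
      have ho : {u : ℝ | u • s ∈ Metric.ball (0 : Fin m → ℝ) ε} ∈ 𝓝 u :=
        (Metric.isOpen_ball.preimage (by fun_prop : Continuous fun u : ℝ => u • s)).mem_nhds hu
      filter_upwards [ho] with w hw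
      exact T2_chain f ε V hV hf s x hx w hw
    rw [iteratedDeriv_succ', hev.iteratedDeriv_eq N]
    have hcd : ∀ i, ContDiffAt ℝ N (fun u : ℝ => pdv i f (u • s, x)) u := fun i =>
      (T2_cda (pdv i f) ε V hV (hp i) s x hx u hu).of_le (by exact_mod_cast le_top)
    rw [iteratedDeriv_fun_sum (fun i _ => contDiffAt_const.mul (hcd i))]
    have h5 : ∀ i, iteratedDeriv N (fun u : ℝ => s i * pdv i f (u • s, x)) u =
        ∑ β : Fin N → Fin m, s i * ((∏ j, s (β j)) * pdvs N β (pdv i f) (u • s, x)) := by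
      intro i
      rw [iteratedDeriv_const_mul_field, (ih (pdv i f) (hp i)).2 s x hx u hu, Finset.mul_sum]
    rw [Finset.sum_congr rfl fun i _ => h5 i, ← Fintype.sum_prod_type']
    refine Fintype.sum_equiv (Fin.consEquiv fun _ : Fin (N + 1) => Fin m) _ _ ?_
    rintro ⟨i, β⟩
    rw [Fin.prod_univ_succ]
    simp only [Fin.consEquiv, Equiv.coe_fn_mk, Fin.cons_zero, Fin.cons_succ, pdvs]
    ring

end NS38
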