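import Pool.Agent.LibNT38.TD3
import Pool.Agent.LibNS38.B0

set_option autoImplicit false
set_option maxSynthPendingDepth 3

open Topology Filter Set
open scoped ContDiff

namespace NS38

/-- Row T3. Smoothness of the remainder integrals. PLAN. `LibNC38.par_smooth_top ⊤` with
`f (u, x) = (1 - u) ^ M / M! * g (u • x.1, x.2)` on the open set `{(u, x) | u • x.1 ∈ ball 0 ε, x.2 ∈ V}`
(for `u ∈ [0, 1]` and `x.1 ∈ ball 0 ε` one has `u • x.1 ∈ ball 0 ε`). -/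
theorem par_ray {m : ℕ} {E : Type} [NormedAddCommGroup E] [NormedSpace ℝ E]
    (g : (Fin m → ℝ) × E → ℝ) (ε : ℝ) (V : Set E) (hV : IsOpen V)
    (hg : ContDiffOn ℝ ∞ g (Metric.ball 0 ε ×ˢ V)) (M : ℕ) :
    ContDiffOn ℝ ∞ (fun x : (Fin m → ℝ) × E =>
      ∫ u in (0 : ℝ)..1, (1 - u) ^ M / (M.factorial : ℝ) * g (u • x.1, x.2))
      (Metric.ball 0 ε ×ˢ V) := by
  have hc1 : ContDiff ℝ ∞ fun y : ℝ × ((Fin m → ℝ) × E) => y.1 • y.2.1 :=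
    contDiff_fst.smul (contDiff_fst.comp contDiff_snd)
  have hc2 : ContDiff ℝ ∞ fun y : ℝ × ((Fin m → ℝ) × E) => y.2.2 :=
    contDiff_snd.comp contDiff_snd
  have hO : IsOpen {y : ℝ × ((Fin m → ℝ) × E) |
      y.1 • y.2.1 ∈ Metric.ball (0 : Fin m → ℝ) ε ∧ y.2.2 ∈ V} :=
    (Metric.isOpen_ball.preimage hc1.continuous).inter (hV.preimage hc2.continuous)
  have hmem : ∀ s ∈ Set.Icc (0 : ℝ) 1, ∀ x ∈ Metric.ball (0 : Fin m → ℝ) ε ×ˢ V,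
      (s, x) ∈ {y : ℝ × ((Fin m → ℝ) × E) |
        y.1 • y.2.1 ∈ Metric.ball (0 : Fin m → ℝ) ε ∧ y.2.2 ∈ V} := by
    intro s hs x hx
    refine ⟨?_, hx.2⟩
    have h1 : ‖x.1‖ < ε := mem_ball_zero_iff.1 hx.1
    refine mem_ball_zero_iff.2 (lt_of_le_of_lt ?_ h1)
    show ‖s • x.1‖ ≤ ‖x.1‖
    rw [norm_smul, Real.norm_eq_abs, abs_of_nonneg hs.1]
    exact mul_le_of_le_one_left (norm_nonneg _) hs.2
  have hf : ContDiffOn ℝ ∞ (fun y : ℝ × ((Fin m → ℝ) × E) =>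
      (1 - y.1) ^ M / (M.factorial : ℝ) * g (y.1 • y.2.1, y.2.2))
      {y : ℝ × ((Fin m → ℝ) × E) |
        y.1 • y.2.1 ∈ Metric.ball (0 : Fin m → ℝ) ε ∧ y.2.2 ∈ V} := by
    refine ContDiffOn.mul ?_ ?_
    · have h2 : ContDiff ℝ ∞ fun y : ℝ × ((Fin m → ℝ) × E) =>
          (1 - y.1) ^ M / (M.factorial : ℝ) :=
        ((contDiff_const.sub contDiff_fst).pow M).div_const _
      exact h2.contDiffOn
    · exact hg.comp (hc1.prodMk hc2).contDiffOn fun y hy => ⟨hy.1, hy.2⟩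
  exact LibNC38.par_smooth_top ⊤ _ _ _ hO (Metric.isOpen_ball.prod hV) hmem hf

end NS38
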