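import Pool.Agent.LibFR38.T1
import Pool.Agent.LibFR38.T2
import Pool.Agent.LibFR38.T3

set_option autoImplicit false
set_option maxSynthPendingDepth 3

open Topology Filter Set
open scoped ContDiff

namespace NS38

/-- Row T4 (assembly of T1, T2, T3). A smooth function which is `O(|t| ^ N)` along all rays is a
combination of the monomials of degree `N` with smooth coefficients. PLAN. `N = 0`: `L = f`. `N = M + 1`:
`L α (s, x) = ∫ u in 0..1, (1 - u) ^ M / M! * pdvs N α f (u • s, x)` (`par_ray`); for `s` in the ball and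
`x ∈ V` apply `ray_taylor` to `φ u = f (u • s, x)` (`a > 1` with `a * ‖s‖ < ε`; smooth on `(-a, a)`), then
`ray_deriv`, and exchange the finite sum with the integral. -/
theorem taylor_rep {m : ℕ} {E : Type} [NormedAddCommGroup E] [NormedSpace ℝ E] (N : ℕ)
    (f : (Fin m → ℝ) × E → ℝ) (ε : ℝ) (hε : 0 < ε) (V : Set E) (hV : IsOpen V)
    (hf : ContDiffOn ℝ ∞ f (Metric.ball 0 ε ×ˢ V))
    (hO : ∀ x ∈ V, ∀ s : Fin m → ℝ, ∃ C δ : ℝ, 0 < δ ∧ ∀ t : ℝ, |t| < δ →
      |f (t • s, x)| ≤ C * |t| ^ N) :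
    ∃ L : (Fin N → Fin m) → (Fin m → ℝ) × E → ℝ,
      (∀ α, ContDiffOn ℝ ∞ (L α) (Metric.ball 0 ε ×ˢ V)) ∧
      ∀ s ∈ Metric.ball (0 : Fin m → ℝ) ε, ∀ x ∈ V,
        f (s, x) = ∑ α : Fin N → Fin m, (∏ j, s (α j)) * L α (s, x) := by
  rcases N with _ | M
  · refine ⟨fun _ => f, fun _ => hf, fun s _ x _ => ?_⟩
    simp
  · obtain ⟨h1, h2⟩ := ray_deriv (M + 1) f ε V hV hf
    refine ⟨fun α y => ∫ u in (0 : ℝ)..1, (1 - u) ^ M / (M.factorial : ℝ) *
      pdvs (M + 1) α f (u • y.1, y.2), fun α => par_ray (pdvs (M + 1) α f) ε V hV (h1 α) M,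
      fun s hs x hx => ?_⟩
    have hs' : ‖s‖ < ε := by simpa using hs
    have hpos : 0 < ε + ‖s‖ := by positivity
    obtain ⟨a, ha1, ha2⟩ : ∃ a : ℝ, 1 < a ∧ a * ‖s‖ < ε := by
      refine ⟨2 * ε / (ε + ‖s‖), ?_, ?_⟩
      · rw [lt_div_iff₀ hpos]; linarith
      · rw [div_mul_eq_mul_div, div_lt_iff₀ hpos]
        nlinarith
    have hmem : ∀ u : ℝ, |u| < a → u • s ∈ Metric.ball (0 : Fin m → ℝ) ε := by
      intro u hu
      rw [mem_ball_zero_iff, norm_smul, Real.norm_eq_abs]
      rcases eq_or_lt_of_le (norm_nonneg s) with h0 | h0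
      · rw [← h0, mul_zero]; exact hε
      · exact lt_trans (mul_lt_mul_of_pos_right hu h0) ha2
    have hmem1 : ∀ u ∈ Set.uIcc (0 : ℝ) 1, u • s ∈ Metric.ball (0 : Fin m → ℝ) ε := by
      intro u hu
      rw [Set.uIcc_of_le zero_le_one] at hu
      refine hmem u ?_
      rw [abs_of_nonneg hu.1]
      exact lt_of_le_of_lt hu.2 ha1
    have hφ : ContDiffOn ℝ ∞ (fun u : ℝ => f (u • s, x)) (Ioo (-a) a) := by
      have hg : ContDiffOn ℝ ∞ (fun u : ℝ => ((u • s, x) : (Fin m → ℝ) × E)) (Ioo (-a) a) :=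
        ((contDiff_id.smul contDiff_const).prodMk contDiff_const).contDiffOn
      refine hf.comp hg ?_
      intro u hu
      exact ⟨hmem u (abs_lt.2 hu), hx⟩
    have key := ray_taylor (fun u : ℝ => f (u • s, x)) a ha1 hφ M (hO x hx s)
    have hcont : ∀ α : Fin (M + 1) → Fin m, ContinuousOn (fun u : ℝ =>
        (∏ j, s (α j)) * ((1 - u) ^ M / (M.factorial : ℝ) * pdvs (M + 1) α f (u • s, x)))
        (Set.uIcc (0 : ℝ) 1) := by
      intro α
      refine continuousOn_const.mul (ContinuousOn.mul ?_ ?_)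
      · exact (((continuous_const.sub continuous_id).pow M).div_const _).continuousOn
      · have hg : ContinuousOn (fun u : ℝ => ((u • s, x) : (Fin m → ℝ) × E))
            (Set.uIcc (0 : ℝ) 1) :=
          ((continuous_id.smul continuous_const).prodMk continuous_const).continuousOn
        exact (h1 α).continuousOn.comp hg (fun u hu => ⟨hmem1 u hu, hx⟩)
    have e1 : f (s, x) = ∫ u in (0 : ℝ)..1, ∑ α : Fin (M + 1) → Fin m,
        (∏ j, s (α j)) * ((1 - u) ^ M / (M.factorial : ℝ) * pdvs (M + 1) α f (u • s, x)) := by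
      have e0 : f (s, x) = f ((1 : ℝ) • s, x) := by rw [one_smul]
      rw [e0]
      refine key.trans ?_
      refine intervalIntegral.integral_congr (fun u hu => ?_)
      show (1 - u) ^ M / (M.factorial : ℝ) * iteratedDeriv (M + 1) (fun u : ℝ => f (u • s, x)) u = _
      rw [h2 s x hx u (hmem1 u hu), Finset.mul_sum]
      refine Finset.sum_congr rfl (fun α _ => ?_)
      ring
    rw [e1, intervalIntegral.integral_finsetSum (fun α _ => (hcont α).intervalIntegrable)]
    refine Finset.sum_congr rfl (fun α _ => ?_)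
    rw [intervalIntegral.integral_const_mul]

end NS38
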