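import Pool.Agent.LibFR38.F0
import Pool.Agent.LibFR38.T4
import Pool.Agent.LibNS38.V3

set_option autoImplicit false
set_option maxSynthPendingDepth 3

open Matrix MeasureTheory Topology Filter
open scoped Matrix.Norms.Elementwise ContDiff

namespace LibNC38

/-- the matrix unit with index `i` -/
private noncomputable def T6_e {n : ℕ} (i : Fin n × Fin n) : Mt n :=
  Matrix.single i.1 i.2 (1 : ℝ)

private theorem T6_sum {n : ℕ} (v : Mt n) :
    v = ∑ i : Fin n × Fin n, v i.1 i.2 • (T6_e i : Mt n) := by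
  rw [Fintype.sum_prod_type]
  conv_lhs => rw [Matrix.matrix_eq_sum_single v]
  refine Finset.sum_congr rfl fun a _ => Finset.sum_congr rfl fun b _ => ?_
  show Matrix.single a b (v a b) = v a b • Matrix.single a b (1 : ℝ)
  rw [Matrix.smul_single, smul_eq_mul, mul_one]

private theorem T6_prT {n : ℕ} (p : PD n) (v : Mt n) (hv : IsTan p v) :
    v = ∑ i : Fin n × Fin n, v i.1 i.2 • prT p.1 (T6_e i) := by
  obtain ⟨-, h2, -, -, h5, h6⟩ := prT_facts (n := n)
  have hlin : ∀ (s : Finset (Fin n × Fin n)), prT p.1 (∑ i ∈ s, v i.1 i.2 • (T6_e i : Mt n)) =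
      ∑ i ∈ s, v i.1 i.2 • prT p.1 (T6_e i) := by
    classical
    intro s
    induction s using Finset.induction_on with
    | empty =>
      rw [Finset.sum_empty, Finset.sum_empty]
      have h := h6 p.1 0 0
      rwa [zero_smul, zero_smul] at h
    | insert a s ha ih =>
      rw [Finset.sum_insert ha, Finset.sum_insert ha, h5, h6, ih]
  rw [← hlin, ← T6_sum, h2 p v hv]

/-- the bilinear form with coefficients `h i j` -/
private noncomputable def T6_K {n : ℕ} (h : Fin n × Fin n → Fin n × Fin n → ℝ) : Fm n :=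
  LinearMap.mk₂ ℝ (fun v w : Mt n => ∑ i : Fin n × Fin n, ∑ j : Fin n × Fin n,
      v i.1 i.2 * w j.1 j.2 * h i j)
    (by
      intro v v' w
      simp only [Matrix.add_apply, add_mul, Finset.sum_add_distrib])
    (by
      intro c v w
      simp only [Matrix.smul_apply, smul_eq_mul, Finset.mul_sum, mul_assoc])
    (by
      intro v w w'
      simp only [Matrix.add_apply, mul_add, add_mul, Finset.sum_add_distrib])
    (by
      intro c v w
      simp only [Matrix.smul_apply, smul_eq_mul, Finset.mul_sum]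
      refine Finset.sum_congr rfl fun i _ => Finset.sum_congr rfl fun j _ => ?_
      ring)

private theorem T6_K_apply {n : ℕ} (h : Fin n × Fin n → Fin n × Fin n → ℝ) (v w : Mt n) :
    T6_K h v w = ∑ i : Fin n × Fin n, ∑ j : Fin n × Fin n, v i.1 i.2 * w j.1 j.2 * h i j := rfl

private theorem T6_K_symm {n : ℕ} (h : Fin n × Fin n → Fin n × Fin n → ℝ)
    (hh : ∀ i j, h i j = h j i) (v w : Mt n) : T6_K h v w = T6_K h w v := by
  rw [T6_K_apply, T6_K_apply, Finset.sum_comm]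
  refine Finset.sum_congr rfl fun i _ => Finset.sum_congr rfl fun j _ => ?_
  rw [hh j i]
  ring

private theorem T6_K_diag {n : ℕ} (g : Fin n × Fin n → Fin n × Fin n → ℝ) (v : Mt n) :
    T6_K (fun i j => 1 / 2 * (g i j + g j i)) v v =
      ∑ i : Fin n × Fin n, ∑ j : Fin n × Fin n, v i.1 i.2 * v j.1 j.2 * g i j := by
  rw [T6_K_apply]
  have h1 : ∑ i : Fin n × Fin n, ∑ j : Fin n × Fin n, v i.1 i.2 * v j.1 j.2 * g j i =
      ∑ i : Fin n × Fin n, ∑ j : Fin n × Fin n, v i.1 i.2 * v j.1 j.2 * g i j := by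
    rw [Finset.sum_comm]
    refine Finset.sum_congr rfl fun i _ => Finset.sum_congr rfl fun j _ => ?_
    ring
  have h2 : ∑ i : Fin n × Fin n, ∑ j : Fin n × Fin n,
      v i.1 i.2 * v j.1 j.2 * (1 / 2 * (g i j + g j i)) =
      1 / 2 * (∑ i : Fin n × Fin n, ∑ j : Fin n × Fin n, v i.1 i.2 * v j.1 j.2 * g i j) +
        1 / 2 * (∑ i : Fin n × Fin n, ∑ j : Fin n × Fin n, v i.1 i.2 * v j.1 j.2 * g j i) := by
    rw [Finset.mul_sum, Finset.mul_sum, ← Finset.sum_add_distrib]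
    refine Finset.sum_congr rfl fun i _ => ?_
    rw [Finset.mul_sum, Finset.mul_sum, ← Finset.sum_add_distrib]
    refine Finset.sum_congr rfl fun j _ => ?_
    ring
  rw [h2, h1]
  ring

/-- bilinear expansion -/
private theorem T6_exp {n : ℕ} (B : Fm n) (p : PD n) (v : Mt n) (hv : IsTan p v) :
    B v v = ∑ i : Fin n × Fin n, ∑ j : Fin n × Fin n,
      v i.1 i.2 * v j.1 j.2 * B (prT p.1 (T6_e i)) (prT p.1 (T6_e j)) := by
  have h1 : B v v = B (∑ i : Fin n × Fin n, v i.1 i.2 • prT p.1 (T6_e i))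
      (∑ j : Fin n × Fin n, v j.1 j.2 • prT p.1 (T6_e j)) := by
    rw [← T6_prT p v hv]
  rw [h1]
  have h2 : B (∑ i : Fin n × Fin n, v i.1 i.2 • prT p.1 (T6_e i)) =
      ∑ i : Fin n × Fin n, v i.1 i.2 • B (prT p.1 (T6_e i)) := by
    rw [_root_.map_sum]
    exact Finset.sum_congr rfl fun i _ => B.map_smul _ _
  rw [h2, LinearMap.sum_apply]
  refine Finset.sum_congr rfl fun i _ => ?_
  have h3 : (B (prT p.1 (T6_e i))) (∑ j : Fin n × Fin n, v j.1 j.2 • prT p.1 (T6_e j)) =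
      ∑ j : Fin n × Fin n, v j.1 j.2 * B (prT p.1 (T6_e i)) (prT p.1 (T6_e j)) := by
    rw [_root_.map_sum]
    exact Finset.sum_congr rfl fun j _ => (B (prT p.1 (T6_e i))).map_smul _ _
  rw [LinearMap.smul_apply, h3, smul_eq_mul, Finset.mul_sum]
  refine Finset.sum_congr rfl fun j _ => ?_
  ring


private theorem T6_prT_smooth {n : ℕ} {P : Type} [NormedAddCommGroup P] [NormedSpace ℝ P]
    (S : Set P) (e : Mt n) :
    ContDiffOn ℝ ∞ (fun x : P × Mt n => prT (ret x.2).1 e) (S ×ˢ PU n) := by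
  have h1 : ContDiffOn ℝ ∞ (fun x : P × Mt n => (ret x.2).1) (S ×ˢ PU n) :=
    (ret_smooth (n := n) (m := ∞)).comp contDiffOn_snd (fun x hx => hx.2)
  have h2 : ContDiffOn ℝ ∞ (fun x : P × Mt n => ((ret x.2).1)⁻¹) (S ×ˢ PU n) := by
    refine cd_inv h1 fun x _ => ?_
    rw [(ret x.2).2.2]
    exact one_ne_zero
  have h3 : ContDiffOn ℝ ∞ (fun x : P × Mt n =>
      (((ret x.2).1)⁻¹ * ((1 / 2 : ℝ) • (e + eᵀ))).trace / (n : ℝ)) (S ×ˢ PU n) :=
    (cd_trace (cd_mul h2 contDiffOn_const)).div_const _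
  exact ContDiffOn.sub contDiffOn_const (ContDiffOn.smul h3 h1)

/-- polarization of the growth condition -/
private theorem T6_pol {n m : ℕ} (N : ℕ) (R : (Fin m → ℝ) → PD n → Fm n)
    (hs : ∀ s p v w, R s p v w = R s p w v) (hO : RayF N R)
    (p : PD n) (v w : Mt n) (hv : IsTan p v) (hw : IsTan p w) :
    RayO N (fun s => R s p v w) := by
  have hvw : IsTan p (v + w) := by
    refine ⟨?_, ?_⟩
    · rw [Matrix.transpose_add, hv.1, hw.1]
    · rw [Matrix.mul_add, Matrix.trace_add, hv.2, hw.2, add_zero]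
  intro s
  obtain ⟨C1, d1, hd1, h1⟩ := hO p v hv s
  obtain ⟨C2, d2, hd2, h2⟩ := hO p w hw s
  obtain ⟨C3, d3, hd3, h3⟩ := hO p (v + w) hvw s
  refine ⟨(C1 + C2 + C3) / 2, min d1 (min d2 d3), lt_min hd1 (lt_min hd2 hd3), ?_⟩
  intro t ht
  have k1 := h1 t (lt_of_lt_of_le ht (min_le_left _ _))
  have k2 := h2 t (lt_of_lt_of_le ht (le_trans (min_le_right _ _) (min_le_left _ _)))
  have k3 := h3 t (lt_of_lt_of_le ht (le_trans (min_le_right _ _) (min_le_right _ _)))
  have e1 : R (t • s) p (v + w) (v + w) = R (t • s) p v v + R (t • s) p v w +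
      (R (t • s) p w v + R (t • s) p w w) := by
    have e2 : R (t • s) p (v + w) = R (t • s) p v + R (t • s) p w := (R (t • s) p).map_add v w
    rw [e2, LinearMap.add_apply, (R (t • s) p v).map_add v w, (R (t • s) p w).map_add v w]
  rw [hs (t • s) p w v] at e1
  show |R (t • s) p v w| ≤ (C1 + C2 + C3) / 2 * |t| ^ N
  simp only [] at k1 k2 k3
  rw [abs_le] at k1 k2 k3 ⊢
  constructor <;> nlinarith [k1.1, k1.2, k2.1, k2.2, k3.1, k3.2, e1]

/-- Row T6. Representation of families of forms (compare `hadamard_fm` in `LibNS38/V3.lean`, whose proof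
adapts). PLAN. For matrix units put
`f (s, A) := R s (ret A) (prT (ret A).1 (e a b)) (prT (ret A).1 (e c d))`, smooth on `ball 0 ε × PU n`, and
`O(|t| ^ N)` along rays (polarization: `prT x v` is tangent at `x`, sums of tangent vectors are tangent);
`NS38.taylor_rep` gives `g_{abcd α}`; `L α s p v w :=` symmetrization of
`∑ v a b * w c d * g_{abcd α} (s, p.1)` (`LinearMap.mk₂`). For tangent `v`, `prT v = v`. -/
theorem taylor_fm {n m : ℕ} (N : ℕ) (ε : ℝ) (hε : 0 < ε) (R : (Fin m → ℝ) → PD n → Fm n)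
    (hR : SmFP (Metric.ball 0 ε) R) (hs : ∀ s p v w, R s p v w = R s p w v) (hO : RayF N R) :
    ∃ L : (Fin N → Fin m) → (Fin m → ℝ) → PD n → Fm n,
      (∀ α, SmFP (Metric.ball 0 ε) (L α)) ∧ (∀ α s p v w, L α s p v w = L α s p w v) ∧
      ∀ s ∈ Metric.ball (0 : Fin m → ℝ) ε, ∀ (p : PD n) (v : Mt n), IsTan p v →
        R s p v v = ∑ α : Fin N → Fin m, (∏ j, s (α j)) * L α s p v v := by
  have hT := (prT_facts (n := n)).1
  -- the coefficient functions
  have hex : ∀ i j : Fin n × Fin n, ∃ g : (Fin N → Fin m) → (Fin m → ℝ) × Mt n → ℝ,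
      (∀ α, ContDiffOn ℝ ∞ (g α) (Metric.ball (0 : Fin m → ℝ) ε ×ˢ PU n)) ∧
      ∀ s ∈ Metric.ball (0 : Fin m → ℝ) ε, ∀ x ∈ PU n,
        R s (ret x) (prT (ret x).1 (T6_e i)) (prT (ret x).1 (T6_e j)) =
          ∑ α : Fin N → Fin m, (∏ l, s (α l)) * g α (s, x) := by
    intro i j
    obtain ⟨g, h1, h2⟩ := NS38.taylor_rep N
      (fun x : (Fin m → ℝ) × Mt n =>
        R x.1 (ret x.2) (prT (ret x.2).1 (T6_e i)) (prT (ret x.2).1 (T6_e j)))
      ε hε (PU n) PU_open
      (cd_bil (K := fun x : (Fin m → ℝ) × Mt n => R x.1 (ret x.2)) hR (T6_prT_smooth _ _)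
        (T6_prT_smooth _ _))
      (fun x _ => T6_pol N R hs hO (ret x) _ _ (hT _ _) (hT _ _))
    exact ⟨g, h1, h2⟩
  choose g hg1 hg2 using hex
  refine ⟨fun α s p => T6_K (fun i j => 1 / 2 * (g i j α (s, p.1) + g j i α (s, p.1))), ?_, ?_, ?_⟩
  · -- smoothness
    intro α v w
    have hmap : ContDiffOn ℝ ∞ (fun x : (Fin m → ℝ) × Mt n => (x.1, (ret x.2).1))
        (Metric.ball (0 : Fin m → ℝ) ε ×ˢ PU n) :=
      contDiffOn_fst.prodMk ((ret_smooth (n := n) (m := ∞)).comp contDiffOn_snd (fun x hx => hx.2))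
    have hmaps : Set.MapsTo (fun x : (Fin m → ℝ) × Mt n => (x.1, (ret x.2).1))
        (Metric.ball (0 : Fin m → ℝ) ε ×ˢ PU n)
        (Metric.ball (0 : Fin m → ℝ) ε ×ˢ PU n) := fun x hx => ⟨hx.1, mem_PU _⟩
    have hgc : ∀ i j, ContDiffOn ℝ ∞ (fun x : (Fin m → ℝ) × Mt n => g i j α (x.1, (ret x.2).1))
        (Metric.ball (0 : Fin m → ℝ) ε ×ˢ PU n) := fun i j => (hg1 i j α).comp hmap hmaps
    show ContDiffOn ℝ ∞ (fun x : (Fin m → ℝ) × Mt n => ∑ i : Fin n × Fin n, ∑ j : Fin n × Fin n,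
      v i.1 i.2 * w j.1 j.2 *
        (1 / 2 * (g i j α (x.1, (ret x.2).1) + g j i α (x.1, (ret x.2).1))))
      (Metric.ball (0 : Fin m → ℝ) ε ×ˢ PU n)
    exact ContDiffOn.sum fun i _ => ContDiffOn.sum fun j _ =>
      contDiffOn_const.mul (contDiffOn_const.mul ((hgc i j).add (hgc j i)))
  · -- symmetry
    intro α s p v w
    exact T6_K_symm _ (fun i j => by rw [add_comm]) v w
  · -- the identity
    intro s hsb p v hv
    show R s p v v = ∑ α : Fin N → Fin m, (∏ j, s (α j)) *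
      T6_K (fun i j => 1 / 2 * (g i j α (s, p.1) + g j i α (s, p.1))) v v
    have hK : ∀ α : Fin N → Fin m,
        T6_K (fun i j => 1 / 2 * (g i j α (s, p.1) + g j i α (s, p.1))) v v =
          ∑ i : Fin n × Fin n, ∑ j : Fin n × Fin n, v i.1 i.2 * v j.1 j.2 * g i j α (s, p.1) :=
      fun α => T6_K_diag (fun i j => g i j α (s, p.1)) v
    have hR' : R s p v v = ∑ i : Fin n × Fin n, ∑ j : Fin n × Fin n, ∑ α : Fin N → Fin m,
        v i.1 i.2 * v j.1 j.2 * ((∏ l, s (α l)) * g i j α (s, p.1)) := by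
      rw [T6_exp (R s p) p v hv]
      refine Finset.sum_congr rfl fun i _ => Finset.sum_congr rfl fun j _ => ?_
      have h := hg2 i j s hsb p.1 (mem_PU p)
      rw [ret_self] at h
      rw [h, Finset.mul_sum]
    have hL : ∑ α : Fin N → Fin m, (∏ j, s (α j)) *
        T6_K (fun i j => 1 / 2 * (g i j α (s, p.1) + g j i α (s, p.1))) v v =
        ∑ α : Fin N → Fin m, ∑ i : Fin n × Fin n, ∑ j : Fin n × Fin n,
          v i.1 i.2 * v j.1 j.2 * ((∏ l, s (α l)) * g i j α (s, p.1)) := by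
      refine Finset.sum_congr rfl fun α _ => ?_
      rw [hK α, Finset.mul_sum]
      refine Finset.sum_congr rfl fun i _ => ?_
      rw [Finset.mul_sum]
      refine Finset.sum_congr rfl fun j _ => ?_
      ring
    rw [hR', hL]
    symm
    rw [Finset.sum_comm]
    refine Finset.sum_congr rfl fun i _ => ?_
    rw [Finset.sum_comm]

end LibNC38
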