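import Pool.Agent.LibFR38.Q3
import Pool.Agent.LibFR38.T6
import Pool.Agent.LibFR38.G1P
import Pool.Agent.LibFR38.G3P

set_option autoImplicit false
set_option maxSynthPendingDepth 3

open Matrix MeasureTheory Topology Filter
open scoped Matrix.Norms.Elementwise ContDiff

namespace LibNC38

/-- the derivative of the retraction, on `PU n` -/
private theorem Q4_diff {n : ℕ} {A : Mt n} (hA : A ∈ PU n) :
    DifferentiableAt ℝ (fun B : Mt n => (ret B).1) A := by
  have h1 : ContDiffOn ℝ 1 (fun B : Mt n => (ret B).1) (PU n) := ret_smooth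
  exact (h1.contDiffAt (PU_open.mem_nhds hA)).differentiableAt (by simp)

private theorem Q4_tan {n : ℕ} {A : Mt n} (hA : A ∈ PU n) (v : Mt n) :
    IsTan (ret A) (fderiv ℝ (fun B : Mt n => (ret B).1) A v) :=
  tan_fderiv (fun B : Mt n => ret B) A (Q4_diff hA) v

private theorem Q4_gen {E F : Type} [NormedAddCommGroup E] [NormedSpace ℝ E]
    [NormedAddCommGroup F] [NormedSpace ℝ F] {Ω : Set E} (hΩ : IsOpen Ω) (f : E → F)
    (hf : ContDiffOn ℝ ∞ f Ω) (v : E) : ContDiffOn ℝ ∞ (fun A : E => fderiv ℝ f A v) Ω := by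
  have h2 : ContDiffOn ℝ ∞ (fderiv ℝ f) Ω := hf.fderiv_of_isOpen hΩ (by simp)
  exact h2.clm_apply contDiffOn_const

private theorem Q4_dsm {n : ℕ} (v : Mt n) :
    ContDiffOn ℝ ∞ (fun A : Mt n => fderiv ℝ (fun B : Mt n => (ret B).1) A v) (PU n) :=
  Q4_gen PU_open (fun B : Mt n => (ret B).1) ret_smooth v

private theorem Q4_pol {n : ℕ} (h g : Fm n) (hs : ∀ v w, h v w = h w v)
    (gs : ∀ v w, g v w = g w v) (v w : Mt n) (h1 : h v v = g v v) (h2 : h w w = g w w)
    (h3 : h (v + w) (v + w) = g (v + w) (v + w)) : h v w = g v w := by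
  simp only [map_add, LinearMap.add_apply] at h3
  have e1 := hs v w
  have e2 := gs v w
  linarith

/-- polarization on the vectors `D ret v`, which are tangent -/
private theorem Q4_polD {n : ℕ} {A : Mt n} (hA : A ∈ PU n) (h g : Fm n)
    (hs : ∀ v w, h v w = h w v) (gs : ∀ v w, g v w = g w v)
    (he : ∀ v, IsTan (ret A) v → h v v = g v v) (v w : Mt n) :
    h (fderiv ℝ (fun B : Mt n => (ret B).1) A v) (fderiv ℝ (fun B : Mt n => (ret B).1) A w) =
      g (fderiv ℝ (fun B : Mt n => (ret B).1) A v)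
        (fderiv ℝ (fun B : Mt n => (ret B).1) A w) := by
  refine Q4_pol h g hs gs _ _ (he _ (Q4_tan hA v)) (he _ (Q4_tan hA w)) ?_
  rw [← map_add]
  exact he _ (Q4_tan hA (v + w))

private theorem Q4_zero {n m : ℕ} (hn : 1 ≤ n) (H : (Fin m → ℝ) → PD n → Fm n)
    (hs : ∀ s p v w, H s p v w = H s p w v) (h0 : ∀ p v, IsTan p v → H 0 p v v = gF p v v)
    (A v w : Mt n) (hA : A ∈ PU n) : prodm (H 0) A v w = prodm (gF : PD n → Fm n) A v w := by
  have gs := ((prodm_gF hn).1).symm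
  have e := Q4_polD hA (H 0 (ret A)) (gF (ret A)) (hs 0 (ret A)) (gs (ret A)) (h0 (ret A)) v w
  unfold prodm
  rw [e]

private theorem Q4_add {n : ℕ} (g k : PD n → Fm n) (A v w : Mt n) :
    prodm (fun p => g p + k p) A v w = prodm g A v w +
      k (ret A) (fderiv ℝ (fun B : Mt n => (ret B).1) A v)
        (fderiv ℝ (fun B : Mt n => (ret B).1) A w) := by
  unfold prodm
  simp only [LinearMap.add_apply]
  ring

private theorem Q4_prod {m N : ℕ} (s : Fin m → ℝ) (α : Fin N → Fin m) :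
    |∏ j, s (α j)| ≤ ‖s‖ ^ N := by
  rw [Finset.abs_prod]
  calc ∏ j, |s (α j)| ≤ ∏ _j : Fin N, ‖s‖ :=
        Finset.prod_le_prod (fun j _ => abs_nonneg _) (fun j _ => norm_le_pi_norm s (α j))
    _ = ‖s‖ ^ N := by simp

/-- Row Q4 (compare `gauge_prodm`, `LibNS38/P5.lean`, whose proof adapts). The data give the gauge data
`GaugeF` for the product metrics. PLAN. `a s := √ (c s)`, `Φ' s := lft (a s) (Φ s)` (`lft_smoothP`, `Φ' 0 = id` on
`PU n`: `dec_facts`); index type `Fin k ⊕ (Fin (N + 1) → Fin m)`: `K (inl i) s A v w := e i (ret A) (D ret v)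
(D ret w)`, `K (inr α) s A v w := L α s (ret A) (D ret v) (D ret w)` with `L` from `taylor_fm (N + 1)` for `R`
(`D ret v = fderiv ℝ (fun B => (ret B).1) A v`, tangent at `ret A`: `tan_fderiv`), coefficients `q i s` and
`∏ j, s (α j)` (`≤ ‖s‖ ^ (N + 1)`: `norm_le_pi_norm`). Identity: `prodm_pull` with `h = H s`,
`m = gF + ∑ q e + R s` (`a s ^ 2 = c s`); `prodm m = prodm gF + ∑ ..`, `prodm (H 0) = prodm gF`
(polarization on tangent vectors). Point `y ∈ Q` with `Φ' s y = x`: `NS38.near_idP` for the compact set `{x}`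
and `Ω := interior Q`, `NS38.near_surj` (`LibNS38/G1b.lean`), as in P5. Surjectivity: `lft_surj`. -/
theorem dat_gauge {n m : ℕ} (hn : 1 ≤ n) (Γ : Subgroup (SL n)) (H : (Fin m → ℝ) → PD n → Fm n)
    (hs : ∀ s p v w, H s p v w = H s p w v) (h0 : ∀ p v, IsTan p v → H 0 p v v = gF p v v)
    (N : ℕ) (ε : ℝ) (Φ : (Fin m → ℝ) → PD n → PD n) (c : (Fin m → ℝ) → ℝ) {k : ℕ}
    (q : Fin k → (Fin m → ℝ) → ℝ) (e : Fin k → PD n → Fm n) (R : (Fin m → ℝ) → PD n → Fm n)
    (hD : Dat Γ H N ε Φ c q e R) (Z : Set (Fin m → ℝ)) (B δ : ℝ) (hB : 0 ≤ B) (hδ : 0 < δ)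
    (hq : ∀ s ∈ Z, ‖s‖ < δ → ∀ i, |q i s| ≤ B * ‖s‖ ^ (N + 1)) (x : Mt n) (hx : x ∈ PU n)
    (Q : Set (Mt n)) (hQ : Q ∈ 𝓝 x) (hQP : Q ⊆ PU n) :
    NS38.GaugeF (fun s => prodm (H s)) Z (PU n) Q x (N + 1) := by
  obtain ⟨L, hL, hLs, hLe⟩ := taylor_fm (N + 1) ε hD.pos R hD.smR hD.symR hD.rR
  have hε := hD.pos
  have gs := ((prodm_gF hn).1).symm
  -- the square root of `c`
  have ha : ContDiffOn ℝ ∞ (fun s => √(c s)) (Metric.ball 0 ε) :=
    hD.smc.sqrt (fun s hs' => (hD.cpos s hs').ne')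
  have hap : ∀ s ∈ Metric.ball (0 : Fin m → ℝ) ε, 0 < √(c s) :=
    fun s hs' => Real.sqrt_pos.2 (hD.cpos s hs')
  have hF := lft_smoothP (Metric.ball 0 ε) Φ hD.smΦ (fun s => √(c s)) ha
  have hF0 : ∀ y ∈ PU n, lft (√(c 0)) (Φ 0) y = y := by
    intro y hy
    have h1 := (dec_facts hn).1 y hy
    unfold lft
    rw [hD.c0, Real.sqrt_one, one_mul, one_smul, hD.id]
    exact h1.symm
  have hint : interior Q ⊆ PU n := interior_subset.trans hQP
  have hxi : x ∈ interior Q := mem_interior_iff_mem_nhds.2 hQ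
  obtain ⟨ρ, hρ, δ', hδ', hδε, hball, hnear⟩ := NS38.near_idP (Ω := interior Q) isOpen_interior ε hε
    (fun s A => lft (√(c s)) (Φ s) A)
    (hF.mono (Set.prod_mono_right hint)) (fun y hy => hF0 y (hint hy)) {x} isCompact_singleton
    (Set.singleton_subset_iff.2 hxi)
  have hmin : 0 < min δ' δ := lt_min hδ' hδ
  have hsub : Metric.ball (0 : Fin m → ℝ) (min δ' δ) ⊆ Metric.ball 0 ε :=
    Metric.ball_subset_ball ((min_le_left _ _).trans hδε)
  have hsub2 : Metric.ball (0 : Fin m → ℝ) (min δ' δ) ×ˢ PU n ⊆ Metric.ball 0 ε ×ˢ PU n :=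
    Set.prod_mono_left hsub
  refine ⟨Fin k ⊕ (Fin (N + 1) → Fin m), inferInstance, min δ' δ, max B 1,
    fun s A => lft (√(c s)) (Φ s) A, c, Sum.elim q (fun α s => ∏ j, s (α j)),
    fun i s A v w => (Sum.elim (fun i' => e i' (ret A)) (fun α => L α s (ret A)) i : Fm n)
      (fderiv ℝ (fun B : Mt n => (ret B).1) A v)
      (fderiv ℝ (fun B : Mt n => (ret B).1) A w), hmin, le_max_of_le_right zero_le_one,
    hF.mono hsub2, hF0, ?_, ?_, ?_⟩
  · intro i
    refine ⟨?_, ?_, ?_⟩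
    · intro y _ u v w
      show (Sum.elim (fun i' => e i' (ret y.2)) (fun α => L α y.1 (ret y.2)) i : Fm n) _ _ =
        (Sum.elim (fun i' => e i' (ret y.2)) (fun α => L α y.1 (ret y.2)) i : Fm n) _ _ +
        (Sum.elim (fun i' => e i' (ret y.2)) (fun α => L α y.1 (ret y.2)) i : Fm n) _ _
      rw [map_add, map_add, LinearMap.add_apply]
    · intro y _ r v w
      show (Sum.elim (fun i' => e i' (ret y.2)) (fun α => L α y.1 (ret y.2)) i : Fm n) _ _ =
        r * (Sum.elim (fun i' => e i' (ret y.2)) (fun α => L α y.1 (ret y.2)) i : Fm n) _ _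
      rw [map_smul, map_smul, LinearMap.smul_apply, smul_eq_mul]
    · intro y _ v w
      rcases i with i | α
      · exact (hD.tf i).1.symm _ _ _
      · exact hLs α _ _ _ _
  · intro i v w
    have h1 : Set.MapsTo (fun y : (Fin m → ℝ) × Mt n => y.2) (Metric.ball 0 ε ×ˢ PU n) (PU n) :=
      fun y hy => hy.2
    have h2 : ∀ u : Mt n, ContDiffOn ℝ ∞
        (fun y : (Fin m → ℝ) × Mt n => fderiv ℝ (fun B : Mt n => (ret B).1) y.2 u)
        (Metric.ball 0 ε ×ˢ PU n) := fun u =>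
      (Q4_dsm u).comp contDiff_snd.contDiffOn h1
    rcases i with i | α
    · exact (cd_bil (K := fun y : (Fin m → ℝ) × Mt n => e i (ret y.2))
        (fun a b => ((hD.tf i).2 a b).comp contDiff_snd.contDiffOn h1) (h2 v) (h2 w)).mono hsub2
    · exact (cd_bil (K := fun y : (Fin m → ℝ) × Mt n => L α y.1 (ret y.2))
        (fun a b => hL α a b) (h2 v) (h2 w)).mono hsub2
  · intro s hs1
    have hs2 : s ∈ Metric.ball (0 : Fin m → ℝ) ε := hsub hs1
    have hsn : ‖s‖ < min δ' δ := by rwa [mem_ball_zero_iff] at hs1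
    have hct : √(c s) ^ 2 = c s := Real.sq_sqrt (hD.cpos s hs2).le
    refine ⟨hD.cpos s hs2, ?_, ?_, ?_, ?_⟩
    · obtain ⟨hA, hB'⟩ := hnear s (hsn.trans_le (min_le_left _ _)) x (Set.mem_singleton x)
      obtain ⟨y, hy, hyx⟩ := (NS38.near_surj (fun A => lft (√(c s)) (Φ s) A) x ρ hρ
        (fun A hA' => (hA A hA').1) hB').1
      refine ⟨y, interior_subset (hball x (Set.mem_singleton x) ?_), hyx⟩
      exact Metric.closedBall_subset_closedBall (by linarith) hy
    · intro y hy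
      exact ⟨((lft_facts hn).1 (√(c s)) (Φ s) y hy).1,
        lft_surj hn Γ (Φ s) (hD.dfm s hs2) (√(c s)) (hap s hs2) y hy⟩
    · intro y hy v w
      have h1 := prodm_pull hn (H s) (fun p => gF p + (∑ i, q i s • e i p + R s p)) (hs s)
        (fun p v w => by
          simp only [LinearMap.add_apply, LinearMap.sum_apply, LinearMap.smul_apply]
          rw [gs p v w, hD.symR s p v w]
          congr 2
          exact Finset.sum_congr rfl (fun i _ => by rw [(hD.tf i).1.symm p v w]))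
        (Φ s) (hD.dfm s hs2).smooth (√(c s)) (hap s hs2)
        (fun p v hv => by
          rw [hD.eq s hs2 p v hv, hct]
          simp only [LinearMap.add_apply, LinearMap.sum_apply, LinearMap.smul_apply, smul_eq_mul]
          ring) y hy v w
      have h2 := Q4_polD hy (R s (ret y)) (∑ α : Fin (N + 1) → Fin m, (∏ j, s (α j)) • L α s (ret y))
        (hD.symR s (ret y))
        (fun v w => by
          simp only [LinearMap.sum_apply, LinearMap.smul_apply]
          exact Finset.sum_congr rfl (fun α _ => by rw [hLs α s (ret y) v w]))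
        (fun v hv => by
          rw [hLe s hs2 (ret y) v hv]
          simp only [LinearMap.sum_apply, LinearMap.smul_apply, smul_eq_mul]) v w
      rw [hct, Q4_add, ← Q4_zero hn H hs h0 y v w hy] at h1
      rw [Fintype.sum_sum_type]
      simp only [Sum.elim_inl, Sum.elim_inr]
      refine Eq.trans h1 ?_
      congr 2
      rw [LinearMap.add_apply, LinearMap.add_apply, h2]
      simp only [LinearMap.sum_apply, LinearMap.smul_apply, smul_eq_mul]
    · intro hsZ i
      have hB1 : B ≤ max B 1 := le_max_left _ _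
      have h11 : 1 ≤ max B 1 := le_max_right _ _
      have hp : 0 ≤ ‖s‖ ^ (N + 1) := pow_nonneg (norm_nonneg s) _
      rcases i with i | α
      · exact (hq s hsZ (hsn.trans_le (min_le_right _ _)) i).trans
          (mul_le_mul_of_nonneg_right hB1 hp)
      · refine (Q4_prod s α).trans ?_
        calc ‖s‖ ^ (N + 1) = 1 * ‖s‖ ^ (N + 1) := (one_mul _).symm
          _ ≤ max B 1 * ‖s‖ ^ (N + 1) := mul_le_mul_of_nonneg_right h11 hp

end LibNC38
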