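import Pool.Agent.LibFR38.W1
import Pool.Agent.LibFR38.N1
import Pool.Agent.LibFR38.Q4

set_option autoImplicit false
set_option maxSynthPendingDepth 3

open Matrix MeasureTheory Topology Filter
open scoped Matrix.Norms.Elementwise ContDiff

namespace LibNC38

private theorem Q5_congr {E : Type} [NormedAddCommGroup E] [NormedSpace ℝ E]
    {G G' : E → E → E → ℝ} {Ω : Set E} (hΩ : IsOpen Ω)
    (h : ∀ x ∈ Ω, ∀ v w, G x v w = G' x v w) (hL : NS38.LSym G' Ω) : NS38.LSym G Ω := by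
  obtain ⟨C, hC, hK, hd⟩ := hL
  refine ⟨C, hC, ?_, hd⟩
  intro x hx u v w
  have h1 := hK x hx u v w
  have h2 : ∀ a b : E, fderiv ℝ (fun y => G y a b) x = fderiv ℝ (fun y => G' y a b) x := by
    intro a b
    refine Filter.EventuallyEq.fderiv_eq ?_
    filter_upwards [hΩ.mem_nhds hx] with y hy
    exact h y hy a b
  rw [h2, h2, h2, h x hx]
  exact h1

private theorem Q5_flat {n : ℕ} (h : PD n → Fm n) (A v w : Mt n) :
    prodm h A v w = h (ret A) (fderiv ℝ (fun B : Mt n => (ret B).1) A v)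
      (fderiv ℝ (fun B : Mt n => (ret B).1) A w) +
      (prodm gF A v w - gF (ret A) (fderiv ℝ (fun B : Mt n => (ret B).1) A v)
      (fderiv ℝ (fun B : Mt n => (ret B).1) A w)) := by
  unfold prodm
  ring

private theorem Q5_tan {n : ℕ} {A : Mt n} (hA : A ∈ PU n) (v : Mt n) :
    IsTan (ret A) (fderiv ℝ (fun B : Mt n => (ret B).1) A v) := by
  refine tan_fderiv (fun B : Mt n => ret B) A ?_ v
  exact ((ret_smooth (m := ∞)).contDiffAt (PU_open.mem_nhds hA)).differentiableAt (by simp)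

/-- Row Q5 (assembly). Absence of conjugate points bounds the derivative of the curvature at every point
to every order. PLAN. `Z = {s | NoConj (dN (nrm (H s)))}`, `fam_data`, `dat_gauge` with
`Q := closedBall x ρ ⊆ PU n` (compact, neighbourhood of `x`), `met_near`, `met_prodm`, `LSym (prodm (H 0))` from
`lsym_gF` (`prodm (H 0) = prodm gF` on `PU n`; compare `LibNS38/P6.lean`), `NS38.fam_dcurv` with `N + 1`;
`‖s‖ ^ (N + 1) ≤ ‖s‖ ^ N` for `‖s‖ ≤ 1`. -/
theorem nc_dcurv {n m : ℕ} (hn : 3 ≤ n) (Γ : Subgroup (SL n)) (hd : Disc Γ) (hcc : Coc Γ)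
    (H : (Fin m → ℝ) → PD n → Fm n) (hH : ∀ s, FmOK Γ (H s)) (ε0 : ℝ) (hε0 : 0 < ε0)
    (hs : SmFP (Metric.ball 0 ε0) H) (h0 : ∀ p v, IsTan p v → H 0 p v v = gF p v v) (N : ℕ)
    (x : Mt n) (hx : x ∈ PU n) :
    ∃ M δ : ℝ, 0 ≤ M ∧ 0 < δ ∧ ∀ s : Fin m → ℝ, ‖s‖ < δ → NoConj (dN (nrm (H s))) →
      NS38.DcB (prodm (H s)) (PU n) x (M * ‖s‖ ^ N) := by
  have hn1 : 1 ≤ n := by omega
  have hsym : ∀ s p v w, H s p v w = H s p w v := fun s p v w => (hH s).symm p v w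
  obtain ⟨δ1, hδ1, -, hM⟩ := met_near hn1 Γ hcc H hH ε0 hε0 hs h0
  obtain ⟨ε, Φ, c, k, q, e, R, B, δ2, hD, hB, hδ2, -, hq⟩ :=
    fam_data hn Γ hd hcc H hH ε0 hε0 hs h0 N
  have : ProperSpace (Mt n) := FiniteDimensional.proper ℝ (Mt n)
  obtain ⟨ρ, hρ, hball⟩ := Metric.nhds_basis_closedBall.mem_iff.1 (PU_open.mem_nhds hx)
  obtain ⟨hgF, -⟩ := prodm_gF (n := n) hn1
  have hL0 : NS38.LSym (prodm (H 0)) (PU n) := by
    refine Q5_congr PU_open (fun A hA v w => ?_) (lsym_gF (n := n) hn1)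
    have h1 : ∀ u, IsTan (ret A) u → H 0 (ret A) u u = gF (ret A) u u := fun u hu => h0 _ _ hu
    have hv := Q5_tan hA v
    have hw := Q5_tan hA w
    have hvw : IsTan (ret A) (fderiv ℝ (fun B : Mt n => (ret B).1) A v +
        fderiv ℝ (fun B : Mt n => (ret B).1) A w) := by
      have h2 := Q5_tan hA (v + w)
      rwa [map_add] at h2
    have e1 := h1 _ hv
    have e2 := h1 _ hw
    have e3 := h1 _ hvw
    simp only [map_add, LinearMap.add_apply] at e3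
    have e4 := hsym 0 (ret A) (fderiv ℝ (fun B : Mt n => (ret B).1) A v)
      (fderiv ℝ (fun B : Mt n => (ret B).1) A w)
    have e5 := hgF.symm (ret A) (fderiv ℝ (fun B : Mt n => (ret B).1) A v)
      (fderiv ℝ (fun B : Mt n => (ret B).1) A w)
    rw [Q5_flat (H 0)]
    linarith
  have hG := dat_gauge hn1 Γ H hsym h0 N ε Φ c q e R hD
    {s : Fin m → ℝ | NoConj (dN (nrm (H s)))} B δ2 hB hδ2 (fun s hs1 hs2 => hq s hs2 hs1) x hx
    (Metric.closedBall x ρ) (Metric.closedBall_mem_nhds x hρ) hball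
  obtain ⟨M, δ3, hM0, hδ3, hM1⟩ := NS38.fam_dcurv (PU_open (n := n)) (fun s => prodm (H s))
    {s : Fin m → ℝ | NoConj (dN (nrm (H s)))} δ1 hδ1
    (fun s hs1 => met_prodm hn1 (H s) (hM s (by simpa using hs1))) hL0
    (Metric.closedBall x ρ) (isCompact_closedBall x ρ) hball x (N + 1) (by omega) hG
  refine ⟨M, min δ3 1, hM0, lt_min hδ3 one_pos, ?_⟩
  intro s hs1 hnc C hC hK z u v w
  have h1 := hM1 s hnc (lt_of_lt_of_le hs1 (min_le_left _ _)) C hC hK z u v w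
  refine h1.trans ?_
  have h2 : ‖s‖ ^ (N + 1) ≤ ‖s‖ ^ N :=
    pow_le_pow_of_le_one (norm_nonneg s) (hs1.le.trans (min_le_right _ _)) (Nat.le_succ N)
  have h3 : 0 ≤ ‖z‖ * ‖u‖ * ‖v‖ * ‖w‖ := by positivity
  exact mul_le_mul_of_nonneg_right (mul_le_mul_of_nonneg_left h2 hM0) h3

end LibNC38
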