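import Pool.Agent.LibFR38.R1

set_option autoImplicit false
set_option maxSynthPendingDepth 3

open Matrix MeasureTheory Topology Filter
open scoped Matrix.Norms.Elementwise ContDiff

namespace LibNC38

private lemma S0_inv (A B D g0 : ℝ) (hA : |A| ≤ 1 / 2) (u : ℝ) (hu : u = (1 + A) * g0 + B + D) :
    |(1 + A)⁻¹ * u - g0 - B| ≤ 2 * |D - A * B| := by
  have h1 : 1 / 2 ≤ 1 + A := by
    have := (abs_le.1 hA).1
    linarith
  have h0 : 0 < 1 + A := by linarith
  have h2 : (1 + A)⁻¹ * u - g0 - B = (1 + A)⁻¹ * (D - A * B) := by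
    rw [hu]
    field_simp
    ring
  rw [h2, abs_mul, abs_of_pos (inv_pos.2 h0)]
  refine mul_le_mul_of_nonneg_right ?_ (abs_nonneg _)
  rw [inv_le_comm₀ h0 (by norm_num)]
  linarith

/-- Row S0. Algebra of one gauge step at a fixed point and tangent vector: `u s` = value of
`pul ψ_s (g + ∑ q e + R)`, `G s` = `pul ψ_s g`, `E j s` = `pul ψ_s e_j`, `Rp s` = `pul ψ_s R`,
`κ i = a i g0 + y i + e' i`. PLAN. With `A s = ∑ i, a i * Q i s` (`RayO (N + 1)`) and
`B s = ∑ j, q j s * e j + ∑ i, Q i s * e' i` (`RayO 1`): `u s = (1 + A s) g0 + B s + O(N + 2)` (add up), so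
`u / (1 + A) - g0 - B = (O(N + 2) - A B) / (1 + A)`, and `1 / (1 + A)` is bounded along rays near `0`
(`A = O(t)`, so `|A| ≤ 1/2` for small `t` on each ray). -/
theorem step_alg {P : Type} [NormedAddCommGroup P] [NormedSpace ℝ P] (N k l : ℕ) (g0 : ℝ)
    (q : Fin k → P → ℝ) (e : Fin k → ℝ) (Q : Fin l → P → ℝ) (a y e' κ : Fin l → ℝ)
    (u G Rp R : P → ℝ) (E : Fin k → P → ℝ) (hκ : ∀ i, κ i = a i * g0 + y i + e' i)
    (hu : ∃ ε > 0, ∀ s ∈ Metric.ball (0 : P) ε, u s = G s + ∑ j, q j s * E j s + Rp s)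
    (hG : RayO (N + 2) (fun s => G s - g0 + ∑ i, Q i s * y i))
    (hE : ∀ j, RayO (N + 1) (fun s => E j s - e j)) (hq : ∀ j, RayO 1 (q j))
    (hRp : RayO (N + 2) (fun s => Rp s - R s))
    (hR : RayO (N + 2) (fun s => R s - ∑ i, Q i s * κ i)) (hQ : ∀ i, RayO (N + 1) (Q i)) :
    RayO (N + 2) (fun s => (1 + ∑ i, a i * Q i s)⁻¹ * u s - g0 - ∑ j, q j s * e j -
      ∑ i, Q i s * e' i) := by
  obtain ⟨f1, f2, f3, f4, f5, f6, f7⟩ := rayO_facts (P := P)
  have hA : RayO (N + 1) (fun s => ∑ i, a i * Q i s) :=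
    f7 (N + 1) (Fin l) Finset.univ (fun i s => a i * Q i s) (fun i _ => f3 (N + 1) (Q i) (a i) (hQ i))
  have hB1 : RayO 1 (fun s => ∑ j, q j s * e j) := by
    refine f7 1 (Fin k) Finset.univ (fun j s => q j s * e j) (fun j _ => ?_)
    have h := f3 1 (q j) (e j) (hq j)
    simp only [mul_comm (e j)] at h
    exact h
  have hB2 : RayO 1 (fun s => ∑ i, Q i s * e' i) := by
    refine f7 1 (Fin l) Finset.univ (fun i s => Q i s * e' i) (fun i _ => ?_)
    have h := f3 1 (Q i) (e' i) (f1 1 (N + 1) (Q i) (by omega) (hQ i))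
    simp only [mul_comm (e' i)] at h
    exact h
  have hB := f2 1 _ _ hB1 hB2
  have hAB := f4 (N + 1) 1 _ _ hA hB
  have h2 : RayO (N + 2) (fun s => ∑ j, q j s * (E j s - e j)) := by
    refine f7 (N + 2) (Fin k) Finset.univ (fun j s => q j s * (E j s - e j)) (fun j _ => ?_)
    have h := f4 1 (N + 1) _ _ (hq j) (hE j)
    rwa [show 1 + (N + 1) = N + 2 by ring] at h
  have hD : RayO (N + 2) (fun s => u s - (1 + ∑ i, a i * Q i s) * g0 -
      (∑ j, q j s * e j + ∑ i, Q i s * e' i)) := by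
    obtain ⟨ε, hε, hu⟩ := hu
    refine f6 (N + 2) ε _ _ hε ?_ (f2 (N + 2) _ _ (f2 (N + 2) _ _ hG h2) (f2 (N + 2) _ _ hRp hR))
    intro s hs
    have e1 : ∑ j, q j s * (E j s - e j) = ∑ j, q j s * E j s - ∑ j, q j s * e j := by
      rw [← Finset.sum_sub_distrib]
      exact Finset.sum_congr rfl (fun j _ => by ring)
    have e2 : ∑ i, Q i s * κ i = (∑ i, a i * Q i s) * g0 + ∑ i, Q i s * y i +
        ∑ i, Q i s * e' i := by
      rw [Finset.sum_mul, ← Finset.sum_add_distrib, ← Finset.sum_add_distrib]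
      exact Finset.sum_congr rfl (fun i _ => by rw [hκ i]; ring)
    show G s - g0 + ∑ i, Q i s * y i + ∑ j, q j s * (E j s - e j) +
      (Rp s - R s + (R s - ∑ i, Q i s * κ i)) = u s - (1 + ∑ i, a i * Q i s) * g0 -
      (∑ j, q j s * e j + ∑ i, Q i s * e' i)
    rw [hu s hs, e1, e2]
    ring
  have hDAB : RayO (N + 2) (fun s => (u s - (1 + ∑ i, a i * Q i s) * g0 -
      (∑ j, q j s * e j + ∑ i, Q i s * e' i)) + (-1) * ((∑ i, a i * Q i s) *
        (∑ j, q j s * e j + ∑ i, Q i s * e' i))) :=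
    f2 (N + 2) _ _ hD (f3 (N + 2) _ (-1) hAB)
  intro s
  obtain ⟨C1, δ1, hδ1, h1⟩ := hDAB s
  obtain ⟨C2, δ2, hδ2, h3⟩ := hA s
  have hC : 0 < |C2| + 1 := by positivity
  refine ⟨2 * C1, min δ1 (min δ2 (min 1 (1 / (2 * (|C2| + 1))))), by positivity, fun t ht => ?_⟩
  have ht1 : |t| < δ1 := lt_of_lt_of_le ht (min_le_left _ _)
  have ht2 : |t| < δ2 := lt_of_lt_of_le ht ((min_le_right _ _).trans (min_le_left _ _))
  have ht3 : |t| < 1 := lt_of_lt_of_le ht
    ((min_le_right _ _).trans ((min_le_right _ _).trans (min_le_left _ _)))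
  have ht4 : |t| < 1 / (2 * (|C2| + 1)) := lt_of_lt_of_le ht
    ((min_le_right _ _).trans ((min_le_right _ _).trans (min_le_right _ _)))
  have hA1 : |∑ i, a i * Q i (t • s)| ≤ 1 / 2 := by
    refine (h3 t ht2).trans ?_
    have hp : |t| ^ (N + 1) ≤ |t| := by
      have := pow_le_pow_of_le_one (abs_nonneg t) ht3.le (show 1 ≤ N + 1 by omega)
      simpa using this
    have h5 : C2 * |t| ^ (N + 1) ≤ |C2| * |t| :=
      (mul_le_mul_of_nonneg_right (le_abs_self C2) (by positivity)).trans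
        (mul_le_mul_of_nonneg_left hp (abs_nonneg _))
    have h6 : |t| * (2 * (|C2| + 1)) < 1 := (lt_div_iff₀ (by positivity)).1 ht4
    have h7 := abs_nonneg t
    have h8 := abs_nonneg C2
    nlinarith
  have h9 := S0_inv (∑ i, a i * Q i (t • s)) (∑ j, q j (t • s) * e j + ∑ i, Q i (t • s) * e' i)
    (u (t • s) - (1 + ∑ i, a i * Q i (t • s)) * g0 -
      (∑ j, q j (t • s) * e j + ∑ i, Q i (t • s) * e' i)) g0 hA1 (u (t • s)) (by ring)
  have h10 := h1 t ht1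
  have h11 : (1 + ∑ i, a i * Q i (t • s))⁻¹ * u (t • s) - g0 - ∑ j, q j (t • s) * e j -
      ∑ i, Q i (t • s) * e' i = (1 + ∑ i, a i * Q i (t • s))⁻¹ * u (t • s) - g0 -
        (∑ j, q j (t • s) * e j + ∑ i, Q i (t • s) * e' i) := by ring
  show |(1 + ∑ i, a i * Q i (t • s))⁻¹ * u (t • s) - g0 - ∑ j, q j (t • s) * e j -
      ∑ i, Q i (t • s) * e' i| ≤ 2 * C1 * |t| ^ (N + 2)
  rw [h11]
  refine h9.trans ?_
  have h12 : (u (t • s) - (1 + ∑ i, a i * Q i (t • s)) * g0 -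
      (∑ j, q j (t • s) * e j + ∑ i, Q i (t • s) * e' i)) - (∑ i, a i * Q i (t • s)) *
        (∑ j, q j (t • s) * e j + ∑ i, Q i (t • s) * e' i) =
      (u (t • s) - (1 + ∑ i, a i * Q i (t • s)) * g0 -
      (∑ j, q j (t • s) * e j + ∑ i, Q i (t • s) * e' i)) + (-1) * ((∑ i, a i * Q i (t • s)) *
        (∑ j, q j (t • s) * e j + ∑ i, Q i (t • s) * e' i)) := by ring
  rw [h12, mul_assoc]
  exact mul_le_mul_of_nonneg_left h10 (by norm_num)

end LibNC38
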