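import Pool.Agent.LibFR38.T7
import Pool.Agent.LibFR38.E1
import Pool.Agent.LibFR38.E2
import Pool.Agent.LibFR38.G8P
import Pool.Agent.LibFR38.I1P
import Pool.Agent.LibFR38.S0

set_option autoImplicit false
set_option maxSynthPendingDepth 3

open Matrix MeasureTheory Topology Filter
open scoped Matrix.Norms.Elementwise ContDiff

namespace LibNC38

private theorem S1_gsymm {n : ℕ} (p : PD n) (v w : Mt n) : gF p v w = gF p w v := by
  show (p.1⁻¹ * v * (p.1⁻¹ * w)).trace = (p.1⁻¹ * w * (p.1⁻¹ * v)).trace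
  exact Matrix.trace_mul_comm _ _

private theorem S1_pul_add {n : ℕ} (φ : PD n → PD n) {k : ℕ} (g R : PD n → Fm n) (q : Fin k → ℝ)
    (e : Fin k → PD n → Fm n) (p : PD n) (v w : Mt n) :
    pul φ (fun p => g p + ∑ j, q j • e j p + R p) p v w =
      pul φ g p v w + ∑ j, q j * pul φ (e j) p v w + pul φ R p v w := by
  simp only [pul_apply, LinearMap.add_apply, LinearMap.sum_apply, LinearMap.smul_apply, smul_eq_mul]

/-- Row S1 (assembly). From order `N` to order `N + 1`. -/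
theorem ordP_succ {n m : ℕ} (hn : 1 ≤ n) (Γ : Subgroup (SL n)) (hc : Coc Γ)
    (Cc : Submodule ℝ (PD n → Fm n)) (hCT : Cc ≤ TF Γ)
    (hdec : ∀ κ ∈ TF Γ, ∃ e ∈ Cc, TrF Γ (κ - e)) (H : (Fin m → ℝ) → PD n → Fm n)
    (hH : ∀ s, FmOK Γ (H s)) (N : ℕ) (hO : OrdP Γ Cc H N) : OrdP Γ Cc H (N + 1) := by
  obtain ⟨ε, Φ, c, k, q, e, R, hD, he⟩ := hO
  have hinv := dat_inv Γ H hH N ε Φ c q e R hD
  obtain ⟨l, Q, κ, hQs, hQh, hκ, hRT⟩ := top_part Γ (N + 1) ε hD.pos R hD.smR hD.symR hD.rR hinv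
  choose e' he' hdec' using fun i => hdec (κ i) (hκ i)
  choose a Y hY hkey using hdec'
  obtain ⟨r, hr, hψS, hψ0, hψD⟩ := gauk_facts hn Γ hc Y hY
  have hQ0 : ∀ i, Q i 0 = 0 := by
    intro i
    have h := hQh i 0 0
    rwa [zero_smul, zero_pow (Nat.succ_ne_zero N), zero_mul] at h
  -- the map `s ↦ (Q i s)_i`
  obtain ⟨Qv, hQv⟩ : ∃ Qv : (Fin m → ℝ) → Fin l → ℝ, Qv = fun s i => Q i s := ⟨_, rfl⟩
  have hQvs : ContDiff ℝ ∞ Qv := by
    rw [hQv]
    exact contDiff_pi.2 hQs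
  have hQv0 : Qv 0 = 0 := by
    rw [hQv]
    funext i
    exact hQ0 i
  have hQvh : ∀ (t : ℝ) (s : Fin m → ℝ), Qv (t • s) = t ^ (N + 1) • Qv s := by
    intro t s
    rw [hQv]
    funext i
    exact hQh i t s
  obtain ⟨A, hA⟩ : ∃ A : (Fin m → ℝ) → ℝ, A = fun s => ∑ i, a i * Q i s := ⟨_, rfl⟩
  have hAs : ContDiff ℝ ∞ A := by
    rw [hA]
    exact ContDiff.sum fun i _ => contDiff_const.mul (hQs i)
  have hA0 : A 0 = 0 := by
    rw [hA]
    simp [hQ0]
  -- the small radius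
  obtain ⟨ε', hε', hε'ε, hsm⟩ : ∃ ε' > 0, ε' ≤ ε ∧ ∀ s ∈ Metric.ball (0 : Fin m → ℝ) ε',
      Qv s ∈ Metric.ball (0 : Fin l → ℝ) r ∧ 0 < 1 + A s := by
    have h1 : ∀ᶠ s in 𝓝 (0 : Fin m → ℝ), Qv s ∈ Metric.ball (0 : Fin l → ℝ) r := by
      refine hQvs.continuous.continuousAt.eventually_mem ?_
      rw [hQv0]
      exact Metric.ball_mem_nhds _ hr
    have h2 : ∀ᶠ s in 𝓝 (0 : Fin m → ℝ), A s ∈ Set.Ioi (-1 : ℝ) := by
      refine hAs.continuous.continuousAt.eventually_mem ?_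
      rw [hA0]
      exact Ioi_mem_nhds (by norm_num)
    obtain ⟨ε1, hε1, h3⟩ := Metric.eventually_nhds_iff_ball.1 (h1.and h2)
    refine ⟨min ε1 ε, lt_min hε1 hD.pos, min_le_right _ _, fun s hs => ?_⟩
    have h4 := h3 s (Metric.ball_subset_ball (min_le_left _ _) hs)
    refine ⟨h4.1, ?_⟩
    have h5 : -1 < A s := h4.2
    linarith
  have hball : Metric.ball (0 : Fin m → ℝ) ε' ⊆ Metric.ball 0 ε := Metric.ball_subset_ball hε'ε
  -- the gauge maps
  obtain ⟨ψ, hψ⟩ : ∃ ψ : (Fin m → ℝ) → PD n → PD n, ψ = fun s => gauk Y (Qv s) := ⟨_, rfl⟩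
  have hψs : SmMP (Metric.ball 0 ε') ψ := by
    rw [hψ]
    exact (smP_comp (n := n) (Metric.ball 0 r) (Metric.ball 0 ε') Qv hQvs.contDiffOn
      (fun s hs => (hsm s hs).1)).2 (gauk Y) hψS
  have hψz : ∀ p, ψ 0 p = p := by
    intro p
    rw [hψ]
    show gauk Y (Qv 0) p = p
    rw [hQv0]
    exact hψ0 p
  have hψd : ∀ s ∈ Metric.ball (0 : Fin m → ℝ) ε', Dfm Γ (ψ s) := by
    intro s hs
    rw [hψ]
    exact hψD _ (hsm s hs).1
  have hΦs : SmMP (Metric.ball 0 ε') Φ :=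
    ((smP_facts (P := Fin m → ℝ) (n := n)).2.2.1 (Metric.ball 0 ε) (Metric.ball 0 ε') R Φ hball).2
      hD.smΦ
  have hRs : SmFP (Metric.ball 0 ε') R :=
    ((smP_facts (P := Fin m → ℝ) (n := n)).2.2.1 (Metric.ball 0 ε) (Metric.ball 0 ε') R Φ hball).1
      hD.smR
  -- the new coefficients and forms
  obtain ⟨q', hq'⟩ : ∃ q' : Fin (k + l) → (Fin m → ℝ) → ℝ, q' = Fin.append q Q := ⟨_, rfl⟩
  obtain ⟨e'', he''⟩ : ∃ e'' : Fin (k + l) → PD n → Fm n, e'' = Fin.append e e' := ⟨_, rfl⟩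
  have hsum : ∀ (s : Fin m → ℝ) (p : PD n) (v w : Mt n), ∑ i, q' i s * e'' i p v w =
      ∑ j, q j s * e j p v w + ∑ i, Q i s * e' i p v w := by
    intro s p v w
    rw [Fin.sum_univ_add, hq', he'']
    simp only [Fin.append_left, Fin.append_right]
  have hTFe : ∀ i, e'' i ∈ Cc := by
    intro i
    rw [he'']
    refine Fin.addCases (fun j => ?_) (fun j => ?_) i
    · rw [Fin.append_left]
      exact he j
    · rw [Fin.append_right]
      exact he' j
  have hq's : ∀ i, ContDiffOn ℝ ∞ (q' i) (Metric.ball 0 ε') := by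
    intro i
    rw [hq']
    refine Fin.addCases (fun j => ?_) (fun j => ?_) i
    · rw [Fin.append_left]
      exact (hD.smq j).mono hball
    · rw [Fin.append_right]
      exact (hQs j).contDiffOn
  have hQO : ∀ i, RayO (N + 1) (Q i) := fun i =>
    (rayO_comp (P := Fin m → ℝ) (P' := Fin m → ℝ)).2.1 (N + 1) (Q i) (hQh i)
  -- the pulled back family
  obtain ⟨W, hW⟩ : ∃ W : (Fin m → ℝ) → PD n → Fm n,
      W = fun s => pul (ψ s) (fun p => gF p + ∑ j, q j s • e j p + R s p) := ⟨_, rfl⟩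
  have hWs : SmFP (Metric.ball 0 ε') W := by
    rw [hW]
    refine (smP_pul (n := n) (Metric.ball (0 : Fin m → ℝ) ε') Metric.isOpen_ball).1 ψ
      (fun s p => gF p + ∑ j, q j s • e j p + R s p) hψs ?_
    have h1 : SmFP (Metric.ball (0 : Fin m → ℝ) ε') (fun s p => ∑ j, q j s • e j p) :=
      (smP_facts (P := Fin m → ℝ) (n := n)).2.2.2.2.2 (Metric.ball 0 ε') k q (fun j _ => e j)
        (fun j => (hD.smq j).mono hball)
        (fun j => (smP_facts (P := Fin m → ℝ) (n := n)).2.2.2.2.1 _ (e j) (hD.tf j).2)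
    have h2 : SmFP (Metric.ball (0 : Fin m → ℝ) ε') (fun _ => (gF : PD n → Fm n)) :=
      (smP_facts (P := Fin m → ℝ) (n := n)).2.1 _
    intro v w
    refine (((h2 v w).add (h1 v w)).add (hRs v w)).congr fun x _ => ?_
    simp only [LinearMap.add_apply]
  have hWsym : ∀ s p v w, W s p v w = W s p w v := by
    intro s p v w
    rw [hW]
    show pul (ψ s) (fun p => gF p + ∑ j, q j s • e j p + R s p) p v w =
      pul (ψ s) (fun p => gF p + ∑ j, q j s • e j p + R s p) p w v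
    rw [S1_pul_add, S1_pul_add]
    simp only [pul_apply]
    rw [S1_gsymm, hD.symR]
    congr 2
    refine Finset.sum_congr rfl fun j _ => ?_
    rw [(hD.tf j).1.symm]
  obtain ⟨R', hR'⟩ : ∃ R' : (Fin m → ℝ) → PD n → Fm n, R' = fun s p =>
      (1 + A s)⁻¹ • W s p - gF p - ∑ i, q' i s • e'' i p := ⟨_, rfl⟩
  have hR'a : ∀ s p v w, R' s p v w = (1 + A s)⁻¹ * W s p v w - gF p v w -
      (∑ j, q j s * e j p v w + ∑ i, Q i s * e' i p v w) := by
    intro s p v w
    rw [← hsum, hR']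
    simp only [LinearMap.sub_apply, LinearMap.smul_apply, LinearMap.sum_apply, smul_eq_mul]
  refine ⟨ε', fun s p => Φ s (ψ s p), fun s => c s * (1 + A s), k + l, q', e'', R', ?_, hTFe⟩
  refine ⟨hε', ?_, ?_, ?_, ?_, ?_, ?_, hq's, ?_, fun i => hCT (hTFe i), ?_, ?_, ?_, ?_⟩
  · exact (smP_pul (n := n) (Metric.ball (0 : Fin m → ℝ) ε') Metric.isOpen_ball).2 Φ ψ hΦs hψs
  · intro p
    show Φ 0 (ψ 0 p) = p
    rw [hψz, hD.id]
  · intro s hs
    have hA' : Dfm Γ (Φ s) := hD.dfm s (hball hs)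
    have hB : Dfm Γ (ψ s) := hψd s hs
    obtain ⟨χ, hχs, hχ1, hχ2⟩ := hA'.inv
    obtain ⟨ξ, hξs, hξ1, hξ2⟩ := hB.inv
    refine ⟨((dff_facts (n := n)).2.1 (Φ s) (ψ s) hA'.smooth hB.smooth).1, ?_, ?_⟩
    · intro γ hγ p
      show Φ s (ψ s (act γ p)) = act γ (Φ s (ψ s p))
      rw [hB.equi γ hγ p, hA'.equi γ hγ]
    · refine ⟨fun p => ξ (χ p), ((dff_facts (n := n)).2.1 ξ χ hξs hχs).1, ?_, ?_⟩
      · intro p
        show ξ (χ (Φ s (ψ s p))) = p
        rw [hχ1, hξ1]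
      · intro p
        show Φ s (ψ s (ξ (χ p))) = p
        rw [hξ2, hχ2]
  · exact (hD.smc.mono hball).mul (contDiff_const.add hAs).contDiffOn
  · show c 0 * (1 + A 0) = 1
    rw [hD.c0, hA0]
    norm_num
  · intro s hs
    exact mul_pos (hD.cpos s (hball hs)) (hsm s hs).2
  · intro i
    rw [hq']
    refine Fin.addCases (fun j => ?_) (fun j => ?_) i
    · rw [Fin.append_left]
      exact hD.rq j
    · rw [Fin.append_right]
      exact (rayO_facts (P := Fin m → ℝ)).1 1 (N + 1) _ (by omega) (hQO j)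
  · -- `R'` is smooth
    intro v w
    have ha : ContDiffOn ℝ ∞ (fun x : (Fin m → ℝ) × Mt n => (1 + A x.1)⁻¹)
        (Metric.ball 0 ε' ×ˢ PU n) := by
      refine ContDiffOn.inv ((contDiff_const.add (hAs.comp contDiff_fst)).contDiffOn) ?_
      intro x hx
      exact (hsm x.1 hx.1).2.ne'
    have h2 : SmFP (Metric.ball (0 : Fin m → ℝ) ε') (fun _ => (gF : PD n → Fm n)) :=
      (smP_facts (P := Fin m → ℝ) (n := n)).2.1 _
    have h1 : SmFP (Metric.ball (0 : Fin m → ℝ) ε') (fun s p => ∑ i, q' i s • e'' i p) :=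
      (smP_facts (P := Fin m → ℝ) (n := n)).2.2.2.2.2 (Metric.ball 0 ε') (k + l) q'
        (fun i _ => e'' i) hq's
        (fun i => (smP_facts (P := Fin m → ℝ) (n := n)).2.2.2.2.1 _ (e'' i) (hCT (hTFe i)).2)
    refine (((ha.mul (hWs v w)).sub (h2 v w)).sub (h1 v w)).congr fun x _ => ?_
    rw [hR']
    simp only [LinearMap.sub_apply, LinearMap.smul_apply, smul_eq_mul]
  · intro s p v w
    rw [hR'a, hR'a, hWsym, S1_gsymm]
    congr 2
    · refine Finset.sum_congr rfl fun j _ => ?_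
      rw [(hD.tf j).1.symm]
    · refine Finset.sum_congr rfl fun j _ => ?_
      rw [(hCT (he' j)).1.symm]
  · -- the order of `R'`
    intro p v hv
    have hpul : ∀ j, RayO (N + 1) (fun s => pul (ψ s) (e j) p v v - e j p v v) := by
      intro j
      have h1 : SmFP (Metric.ball (0 : Fin l → ℝ) r) (fun _ => e j) :=
        (smP_facts (P := Fin l → ℝ) (n := n)).2.2.2.2.1 _ (e j) (hD.tf j).2
      have h2 : RayF 0 (fun _ : Fin l → ℝ => e j) := by
        intro p v _ s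
        exact ⟨|e j p v v|, 1, one_pos, fun t _ => by simp⟩
      have h3 := pul_ray 0 r hr (gauk Y) hψS hψ0 (fun _ => e j) h1
        (fun _ p v w => (hD.tf j).1.symm p v w) h2 p v hv
      have h4 := (rayO_comp (P := Fin m → ℝ) (P' := Fin l → ℝ)).1 (0 + 1) (N + 1) _ Qv (by omega)
        hQvh h3
      rw [zero_add, one_mul] at h4
      rw [hψ]
      exact h4
    have hG : RayO (N + 2) (fun s => pul (ψ s) gF p v v - gF p v v +
        ∑ i, Q i s * LieG (Y i) p.1 v) := by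
      have h3 := gauk_second Γ hc Y hY p v hv
      have h4 := (rayO_comp (P := Fin m → ℝ) (P' := Fin l → ℝ)).1 2 (N + 1) _ Qv (by omega)
        hQvh h3
      have h5 := (rayO_facts (P := Fin m → ℝ)).1 (N + 2) (2 * (N + 1)) _ (by omega) h4
      rw [hψ]
      rw [hQv] at h5 ⊢
      exact h5
    have hRp : RayO (N + 2) (fun s => pul (ψ s) (R s) p v v - R s p v v) :=
      pul_ray (N + 1) ε' hε' ψ hψs hψz R hRs hD.symR hD.rR p v hv
    have hstep := step_alg N k l (gF p v v) q (fun j => e j p v v) Q a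
      (fun i => LieG (Y i) p.1 v) (fun i => e' i p v v) (fun i => κ i p v v)
      (fun s => W s p v v) (fun s => pul (ψ s) gF p v v) (fun s => pul (ψ s) (R s) p v v)
      (fun s => R s p v v) (fun j s => pul (ψ s) (e j) p v v)
      (fun i => by
        have h := hkey i p v hv
        have h2 : (κ i - e' i) p v v = κ i p v v - e' i p v v := rfl
        rw [h2] at h
        linarith)
      ⟨1, one_pos, fun s _ => by
        rw [hW]
        exact S1_pul_add (ψ s) gF (R s) (fun j => q j s) e p v v⟩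
      hG hpul hD.rq hRp (hRT p v hv) hQO
    have h6 : (fun s => R' s p v v) = fun s => (1 + ∑ i, a i * Q i s)⁻¹ * W s p v v - gF p v v -
        ∑ j, q j s * e j p v v - ∑ i, Q i s * e' i p v v := by
      funext s
      rw [hR'a, hA]
      ring
    rw [h6]
    exact hstep
  · -- the identity
    intro s hs p v hv
    have hA' : Dfm Γ (Φ s) := hD.dfm s (hball hs)
    have hB : Dfm Γ (ψ s) := hψd s hs
    have hd1 := ((dff_facts (n := n)).2.1 (Φ s) (ψ s) hA'.smooth hB.smooth).2 p v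
    have htan := (dff_facts (n := n)).1 (ψ s) hB.smooth p v
    have hi := hD.eq s (hball hs) (ψ s p) (dff (ψ s) p v) htan
    have h6 : (1 + A s) ≠ 0 := (hsm s hs).2.ne'
    have hWa : W s p v v = gF (ψ s p) (dff (ψ s) p v) (dff (ψ s) p v) +
        ∑ j, q j s * e j (ψ s p) (dff (ψ s) p v) (dff (ψ s) p v) +
        R s (ψ s p) (dff (ψ s) p v) (dff (ψ s) p v) := by
      rw [hW]
      show pul (ψ s) (fun p => gF p + ∑ j, q j s • e j p + R s p) p v v = _
      rw [S1_pul_add]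
      simp only [pul_apply]
    rw [pul_apply] at hi
    rw [pul_apply]
    show H s (Φ s (ψ s p)) (dff (fun p => Φ s (ψ s p)) p v) (dff (fun p => Φ s (ψ s p)) p v) =
      c s * (1 + A s) * (gF p v v + ∑ i, q' i s * e'' i p v v + R' s p v v)
    rw [hd1, hi, ← hWa, hR'a, hsum]
    field_simp
    ring

/-- all orders -/
theorem ordP_all {n m : ℕ} (hn : 1 ≤ n) (Γ : Subgroup (SL n)) (hc : Coc Γ)
    (Cc : Submodule ℝ (PD n → Fm n)) (hCT : Cc ≤ TF Γ)
    (hdec : ∀ κ ∈ TF Γ, ∃ e ∈ Cc, TrF Γ (κ - e)) (H : (Fin m → ℝ) → PD n → Fm n)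
    (hH : ∀ s, FmOK Γ (H s)) (h0 : OrdP Γ Cc H 0) : ∀ N : ℕ, OrdP Γ Cc H N := by
  intro N
  induction N with
  | zero => exact h0
  | succ N ih => exact ordP_succ hn Γ hc Cc hCT hdec H hH N ih

end LibNC38
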