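import Pool.Agent.LibNS38.B0

set_option autoImplicit false
set_option maxSynthPendingDepth 3

open Topology Filter Set
open scoped ContDiff

namespace NS38

/-- All Taylor coefficients at `0` (within `[0, 1]`) up to order `M` vanish. -/
theorem ray_taylor_coeff_zero (φ : ℝ → ℝ) (hφ : ContDiffOn ℝ ∞ φ (Icc (0 : ℝ) 1)) (M : ℕ)
    (hO : ∃ C δ : ℝ, 0 < δ ∧ ∀ t : ℝ, |t| < δ → |φ t| ≤ C * |t| ^ (M + 1)) :
    ∀ k : ℕ, k ≤ M → iteratedDerivWithin k φ (Icc (0 : ℝ) 1) 0 = 0 := by
  intro k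
  induction k using Nat.strong_induction_on with
  | _ k ih =>
    intro hk
    obtain ⟨C, δ, hδ, hC⟩ := hO
    have h0 : (0 : ℝ) ∈ Icc (0 : ℝ) 1 := ⟨le_refl _, zero_le_one⟩
    have hlo := taylor_isLittleO (f := φ) (n := k) (convex_Icc (0 : ℝ) 1) h0
      (hφ.of_le (by exact_mod_cast le_top))
    have hev : ∀ x : ℝ, taylorWithinEval φ k (Icc (0 : ℝ) 1) 0 x
        = ((k.factorial : ℝ)⁻¹ * x ^ k) * iteratedDerivWithin k φ (Icc (0 : ℝ) 1) 0 := by
      intro x
      rw [taylor_within_apply, Finset.sum_range_succ, Finset.sum_eq_zero]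
      · simp [smul_eq_mul]
      · intro j hj
        have hj' : j < k := Finset.mem_range.mp hj
        rw [ih j hj' (by omega), smul_zero]
    -- `φ` itself is `o(x ^ k)` at `0` within `[0, 1]`
    have hφo : (fun x : ℝ => φ x) =o[𝓝[Icc (0 : ℝ) 1] 0] fun x : ℝ => (x - 0) ^ k := by
      have hbig : (fun x : ℝ => φ x) =O[𝓝[Icc (0 : ℝ) 1] 0] fun x : ℝ => x ^ (M + 1) := by
        refine Asymptotics.IsBigO.of_bound C ?_
        have hb : ∀ᶠ x : ℝ in 𝓝 (0 : ℝ), |x| < δ := by
          have := Metric.ball_mem_nhds (0 : ℝ) hδ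
          filter_upwards [this] with x hx
          simpa [Real.dist_eq] using hx
        filter_upwards [mem_nhdsWithin_of_mem_nhds hb] with x hx
        have := hC x hx
        simpa [Real.norm_eq_abs, abs_pow] using this
      have hsm : (fun x : ℝ => x ^ (M + 1)) =o[𝓝[Icc (0 : ℝ) 1] 0] fun x : ℝ => (x - 0) ^ k := by
        have := (Asymptotics.isLittleO_pow_pow (𝕜 := ℝ) (m := k) (n := M + 1) (by omega))
        have h2 := this.mono (nhdsWithin_le_nhds (s := Icc (0 : ℝ) 1))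
        simpa using h2
      exact hbig.trans_isLittleO hsm
    have hdiff := hφo.sub hlo
    have hdiff' : (fun x : ℝ => ((k.factorial : ℝ)⁻¹ * x ^ k)
        * iteratedDerivWithin k φ (Icc (0 : ℝ) 1) 0) =o[𝓝[Icc (0 : ℝ) 1] 0]
        fun x : ℝ => (x - 0) ^ k := by
      refine hdiff.congr_left ?_
      intro x
      rw [hev x]
      ring
    by_contra hne
    set c : ℝ := iteratedDerivWithin k φ (Icc (0 : ℝ) 1) 0 with hc
    have hcpos : 0 < |c| := abs_pos.mpr hne
    have hfpos : (0 : ℝ) < (k.factorial : ℝ) := by exact_mod_cast Nat.factorial_pos k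
    have hε : 0 < |c| / (2 * (k.factorial : ℝ)) := by positivity
    have hb := hdiff'.bound hε
    have hfr : ∃ᶠ x : ℝ in 𝓝[Icc (0 : ℝ) 1] (0 : ℝ), 0 < x := by
      have hne' : (𝓝[Ioo (0 : ℝ) 1] (0 : ℝ)).NeBot := by
        rw [← mem_closure_iff_nhdsWithin_neBot, closure_Ioo (by norm_num)]
        exact h0
      have hfr1 : ∃ᶠ x : ℝ in 𝓝[Ioo (0 : ℝ) 1] (0 : ℝ), 0 < x := by
        apply Filter.Eventually.frequently
        filter_upwards [self_mem_nhdsWithin] with x hx
        exact hx.1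
      exact hfr1.filter_mono (nhdsWithin_mono _ Ioo_subset_Icc_self)
    obtain ⟨x, hx0, hx⟩ := (hfr.and_eventually hb).exists
    have hxk : 0 < x ^ k := pow_pos hx0 k
    simp only [sub_zero, Real.norm_eq_abs, abs_mul, abs_inv, abs_of_pos hxk,
      abs_of_pos hfpos] at hx
    have h1 : (k.factorial : ℝ)⁻¹ * x ^ k * |c| = 2 * (|c| / (2 * (k.factorial : ℝ)) * x ^ k) := by
      field_simp
    rw [h1] at hx
    have h2 : 0 < |c| / (2 * (k.factorial : ℝ)) * x ^ k := by positivity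
    linarith

/-- Row T1 (only Mathlib). Taylor formula with integral remainder for a function which is
`O(t ^ (M + 1))` at `0`. PLAN. General Taylor formula by induction on `M` (integration by parts):
`φ t = ∑ j ≤ M, φ^(j)(0) t^j / j! + t^(M+1) ∫ ..`; the polynomial is then `O(t^(M+1))`, so its coefficients
vanish (divide by the lowest power of `t`, let `t → 0`). Possibly useful: `taylor_mean_remainder_bound`,
`iteratedDeriv_succ'`, `intervalIntegral.integral_mul_deriv_eq_deriv_mul`. On the open interval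
`iteratedDeriv` is differentiable with derivative the next one. -/
theorem ray_taylor (φ : ℝ → ℝ) (a : ℝ) (ha : 1 < a) (hφ : ContDiffOn ℝ ∞ φ (Ioo (-a) a)) (M : ℕ)
    (hO : ∃ C δ : ℝ, 0 < δ ∧ ∀ t : ℝ, |t| < δ → |φ t| ≤ C * |t| ^ (M + 1)) :
    φ 1 = ∫ u in (0 : ℝ)..1, (1 - u) ^ M / (M.factorial : ℝ) * iteratedDeriv (M + 1) φ u := by
  have hsub : Icc (0 : ℝ) 1 ⊆ Ioo (-a) a := by
    intro x hx
    exact ⟨by linarith [hx.1], by linarith [hx.2]⟩
  have hφI : ContDiffOn ℝ ∞ φ (Icc (0 : ℝ) 1) := hφ.mono hsub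
  have hcoef := ray_taylor_coeff_zero φ hφI M hO
  have huIcc : uIcc (0 : ℝ) 1 = Icc 0 1 := uIcc_of_le zero_le_one
  have hT := taylor_integral_remainder (f := φ) (x := 1) (x₀ := 0) (n := M)
    (by rw [huIcc]; exact hφI.of_le (by exact_mod_cast le_top))
  rw [huIcc] at hT
  have hz : taylorWithinEval φ M (Icc (0 : ℝ) 1) 0 1 = 0 := by
    rw [taylor_within_apply]
    apply Finset.sum_eq_zero
    intro j hj
    have hj' : j < M + 1 := Finset.mem_range.mp hj
    rw [hcoef j (by omega), smul_zero]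
  rw [hz, sub_zero] at hT
  rw [hT]
  apply intervalIntegral.integral_congr
  intro t ht
  rw [huIcc] at ht
  have hat : ContDiffAt ℝ ((M + 1 : ℕ) : WithTop ℕ∞) φ t := by
    have h1 : ContDiffAt ℝ ∞ φ t := hφ.contDiffAt (Ioo_mem_nhds (hsub ht).1 (hsub ht).2)
    exact h1.of_le (by exact_mod_cast le_top)
  have heq : iteratedDerivWithin (M + 1) φ (Icc (0 : ℝ) 1) t = iteratedDeriv (M + 1) φ t :=
    iteratedDerivWithin_eq_iteratedDeriv (uniqueDiffOn_Icc zero_lt_one) hat ht
  simp only [smul_eq_mul]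
  rw [heq]

end NS38
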