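import Pool.Agent.LibNS38.B0

set_option autoImplicit false
set_option maxSynthPendingDepth 3

open Topology Filter Set
open scoped ContDiff

namespace NS38

private theorem T5_sub {P : Type} (n : ℕ) :
    ∀ (W : Submodule ℝ (P → ℝ)) [FiniteDimensional ℝ W], Module.finrank ℝ W ≤ n →
    ∃ (k : ℕ) (σ : Fin k → P) (Q : Fin k → P → ℝ),
      (∀ i, Q i ∈ W) ∧ ∀ g ∈ W, ∀ s, g s = ∑ i, g (σ i) * Q i s := by
  induction n with
  | zero =>
    intro W _ hW
    have h0 : W = ⊥ := by
      apply Submodule.finrank_eq_zero.mp
      omega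
    refine ⟨0, Fin.elim0, Fin.elim0, fun i => i.elim0, ?_⟩
    intro g hg s
    rw [h0, Submodule.mem_bot] at hg
    simp [hg]
  | succ n ih =>
    intro W _ hW
    by_cases hb : W = ⊥
    · refine ⟨0, Fin.elim0, Fin.elim0, fun i => i.elim0, ?_⟩
      intro g hg s
      rw [hb, Submodule.mem_bot] at hg
      simp [hg]
    · obtain ⟨g, hg, hg0⟩ := (Submodule.ne_bot_iff W).mp hb
      obtain ⟨s0, hs0⟩ : ∃ s0, g s0 ≠ 0 := by
        by_contra hcon
        push Not at hcon
        exact hg0 (funext hcon)
      let ev : (P → ℝ) →ₗ[ℝ] ℝ := LinearMap.proj s0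
      let W' : Submodule ℝ (P → ℝ) := W ⊓ LinearMap.ker ev
      have hlt : W' < W := by
        refine lt_of_le_of_ne inf_le_left ?_
        intro heq
        have : g ∈ W' := by rw [heq]; exact hg
        exact hs0 (LinearMap.mem_ker.mp this.2)
      haveI : FiniteDimensional ℝ W' := Submodule.finiteDimensional_of_le hlt.le
      have hfr : Module.finrank ℝ W' ≤ n := by
        have := Submodule.finrank_lt_finrank_of_lt hlt
        omega
      obtain ⟨k, σ, Q, hQ, hI⟩ := ih W' hfr
      refine ⟨k + 1, Fin.cons s0 σ,
        Fin.cons ((g s0)⁻¹ • (g - ∑ i, g (σ i) • Q i)) Q, ?_, ?_⟩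
      · intro i
        refine Fin.cases ?_ (fun j => ?_) i
        · simp only [Fin.cons_zero]
          exact W.smul_mem _ (W.sub_mem hg (W.sum_mem fun i _ => W.smul_mem _ (hQ i).1))
        · simp only [Fin.cons_succ]
          exact (hQ j).1
      · intro h hh s
        have hh' : h - (h s0 / g s0) • g ∈ W' := by
          refine ⟨W.sub_mem hh (W.smul_mem _ hg), ?_⟩
          refine LinearMap.mem_ker.mpr ?_
          change h s0 - (h s0 / g s0) * g s0 = 0
          field_simp
          simp
        have key := hI _ hh' s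
        simp only [Pi.sub_apply, Pi.smul_apply, smul_eq_mul] at key
        rw [Fin.sum_univ_succ]
        simp only [Fin.cons_zero, Fin.cons_succ, Pi.smul_apply, Pi.sub_apply, smul_eq_mul,
          Finset.sum_apply]
        have e1 : ∑ i, (h (σ i) - h s0 / g s0 * g (σ i)) * Q i s
            = ∑ i, h (σ i) * Q i s - h s0 / g s0 * ∑ i, g (σ i) * Q i s := by
          rw [Finset.mul_sum, ← Finset.sum_sub_distrib]
          refine Finset.sum_congr rfl fun i _ => ?_
          ring
        rw [e1] at key
        have e2 : h s0 * ((g s0)⁻¹ * (g s - ∑ i, g (σ i) * Q i s))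
            = h s0 / g s0 * g s - h s0 / g s0 * ∑ i, g (σ i) * Q i s := by
          rw [div_eq_mul_inv]
          ring
        rw [e2]
        linarith

/-- Row T5 (only Mathlib, linear algebra). Interpolation in a finite dimensional space of functions.
PLAN. `W = span (range f)` is finite dimensional; the evaluations `W → ℝ` at the points of `P` have zero
intersection of kernels, so they span the dual of `W` (`Module.Dual`, `Submodule.dualAnnihilator`, or:
choose points one by one, each evaluation not in the span of the previous ones); a basis of the dual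
among the evaluations at points `σ i` and the dual basis `Q i` of `W`: `Q i (σ j) = δ_ij`, and every `g ∈ W`
is `∑ i, g (σ i) • Q i`. Possible direct induction on the dimension: if `g ∈ W`, `g (σ) ≠ 0`, split off
`g / g (σ)` and pass to `{h ∈ W | h (σ) = 0}`. -/
theorem interp {P ι : Type} [Fintype ι] (f : ι → P → ℝ) :
    ∃ (k : ℕ) (σ : Fin k → P) (Q : Fin k → P → ℝ),
      (∀ i, Q i ∈ Submodule.span ℝ (Set.range f)) ∧
      ∀ a s, f a s = ∑ i, f a (σ i) * Q i s := by
  haveI : FiniteDimensional ℝ (Submodule.span ℝ (Set.range f)) :=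
    FiniteDimensional.span_of_finite ℝ (Set.finite_range f)
  obtain ⟨k, σ, Q, hQ, hI⟩ := T5_sub (Module.finrank ℝ (Submodule.span ℝ (Set.range f)))
    (Submodule.span ℝ (Set.range f)) le_rfl
  exact ⟨k, σ, Q, hQ, fun a s => hI (f a) (Submodule.subset_span ⟨a, rfl⟩) s⟩

end NS38
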