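import Pool.Agent.LibFR38.T5
import Pool.Agent.LibFR38.T6
import Pool.Agent.LibFR38.R1
import Pool.Agent.LibFR38.V1P

set_option autoImplicit false
set_option maxSynthPendingDepth 3

open Matrix MeasureTheory Topology Filter
open scoped Matrix.Norms.Elementwise ContDiff

namespace LibNC38

/-- the monomials -/
private noncomputable def T7_f {m : ℕ} (N : ℕ) (α : Fin N → Fin m) (s : Fin m → ℝ) : ℝ :=
  ∏ j, s (α j)

private theorem T7_f_hom {m : ℕ} (N : ℕ) (α : Fin N → Fin m) (t : ℝ) (s : Fin m → ℝ) :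
    T7_f N α (t • s) = t ^ N * T7_f N α s := by
  unfold T7_f
  simp only [Pi.smul_apply, smul_eq_mul, Finset.prod_mul_distrib, Finset.prod_const,
    Finset.card_univ, Fintype.card_fin]

private theorem T7_f_smooth {m : ℕ} (N : ℕ) (α : Fin N → Fin m) :
    ContDiff ℝ ∞ (T7_f N α) := by
  unfold T7_f
  exact contDiff_prod fun j _ => contDiff_apply ℝ ℝ (α j)

private theorem T7_Q {m : ℕ} (N : ℕ) (q : (Fin m → ℝ) → ℝ)
    (hq : q ∈ Submodule.span ℝ (Set.range (T7_f (m := m) N))) :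
    ContDiff ℝ ∞ q ∧ ∀ (t : ℝ) (s : Fin m → ℝ), q (t • s) = t ^ N * q s := by
  induction hq using Submodule.span_induction with
  | mem x hx =>
    obtain ⟨α, rfl⟩ := hx
    exact ⟨T7_f_smooth N α, T7_f_hom N α⟩
  | zero =>
    exact ⟨contDiff_const, fun t s => by rw [Pi.zero_apply, Pi.zero_apply, mul_zero]⟩
  | add x y _ _ hx hy =>
    refine ⟨hx.1.add hy.1, fun t s => ?_⟩
    rw [Pi.add_apply, Pi.add_apply, hx.2, hy.2]
    ring
  | smul a x _ hx =>
    refine ⟨contDiff_const.mul hx.1, fun t s => ?_⟩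
    rw [Pi.smul_apply, Pi.smul_apply, hx.2, smul_eq_mul, smul_eq_mul]
    ring

/-- the form `κ i` -/
private noncomputable def T7_k {n m N : ℕ} (L : (Fin N → Fin m) → (Fin m → ℝ) → PD n → Fm n)
    (σ : Fin m → ℝ) (p : PD n) : Fm n :=
  ∑ α : Fin N → Fin m, T7_f N α σ • L α 0 p

private theorem T7_k_apply {n m N : ℕ} (L : (Fin N → Fin m) → (Fin m → ℝ) → PD n → Fm n)
    (σ : Fin m → ℝ) (p : PD n) (v w : Mt n) :
    T7_k L σ p v w = ∑ α : Fin N → Fin m, T7_f N α σ * L α 0 p v w := by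
  unfold T7_k
  rw [LinearMap.sum_apply, LinearMap.sum_apply]
  rfl

private theorem T7_small {m : ℕ} (ε : ℝ) (hε : 0 < ε) (σ : Fin m → ℝ) :
    ∀ᶠ t in 𝓝[>] (0 : ℝ), t • σ ∈ Metric.ball (0 : Fin m → ℝ) ε := by
  have h1 : Tendsto (fun t : ℝ => t • σ) (𝓝 0) (𝓝 ((0 : ℝ) • σ)) :=
    (continuous_id.smul continuous_const).tendsto 0
  rw [zero_smul] at h1
  exact (h1.mono_left nhdsWithin_le_nhds) (Metric.ball_mem_nhds _ hε)

private theorem T7_lim {n m N : ℕ} (ε : ℝ) (hε : 0 < ε)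
    (L : (Fin N → Fin m) → (Fin m → ℝ) → PD n → Fm n)
    (hL : ∀ α, SmFP (Metric.ball 0 ε) (L α)) (σ : Fin m → ℝ) (p : PD n) (v : Mt n) :
    Tendsto (fun t : ℝ => ∑ α : Fin N → Fin m, T7_f N α σ * L α (t • σ) p v v) (𝓝[>] 0)
      (𝓝 (T7_k L σ p v v)) := by
  rw [T7_k_apply]
  refine tendsto_finsetSum _ fun α _ => Tendsto.const_mul _ ?_
  have h1 : ContinuousAt (fun s => L α s p v v) 0 :=
    (smP_point _ (L α) (hL α) p v v).continuousOn.continuousAt (Metric.ball_mem_nhds _ hε)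
  have h2 : Tendsto (fun t : ℝ => t • σ) (𝓝 0) (𝓝 0) := by
    have h3 : Tendsto (fun t : ℝ => t • σ) (𝓝 0) (𝓝 ((0 : ℝ) • σ)) :=
      (continuous_id.smul continuous_const).tendsto 0
    rwa [zero_smul] at h3
  exact (Tendsto.comp h1 h2).mono_left nhdsWithin_le_nhds

/-- Row T7. The top part of a smooth invariant family of order `N`. PLAN. `L` from `taylor_fm`; `interp` for
the monomials `f α s = ∏ j, s (α j)` gives `σ, Q` with `f α s = ∑ i, f α (σ i) * Q i s`; each `Q i` is a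
combination of monomials: smooth and homogeneous of degree `N` (`Submodule.span_induction`).
`κ i := ∑ α, f α (σ i) • L α 0`. Symmetric, smooth (`smP_facts` (4) at `s = 0`), continuous
(`p ↦ L α 0 p v w` is the restriction of a function continuous on `PU n`, `ret_self`). Invariance: for
tangent `v` and `t > 0` small, `R (t • σ i) p v v = t ^ N * ∑ α, f α (σ i) * L α (t • σ i) p v v`, so
`κ i p v v` is the limit of `t ^ (-N) * R (t • σ i) p v v` as `t → 0+` (continuity of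
`s ↦ L α s p v v`: `smP_point`), the same at `act γ p`; `hi`. Remainder:
`R s p v v - ∑ i, Q i s * κ i p v v = ∑ α, f α s * (L α s p v v - L α 0 p v v)`: `RayO (N + 1)` by
`rayO_facts`, `rayO_comp`. -/
theorem top_part {n m : ℕ} (Γ : Subgroup (SL n)) (N : ℕ) (ε : ℝ) (hε : 0 < ε)
    (R : (Fin m → ℝ) → PD n → Fm n) (hR : SmFP (Metric.ball 0 ε) R)
    (hs : ∀ s p v w, R s p v w = R s p w v) (hO : RayF N R)
    (hi : ∀ s ∈ Metric.ball (0 : Fin m → ℝ) ε, ∀ γ ∈ Γ, ∀ p v, IsTan p v →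
      R s (act γ p) (γ.1 * v * γ.1ᵀ) (γ.1 * v * γ.1ᵀ) = R s p v v) :
    ∃ (k : ℕ) (Q : Fin k → (Fin m → ℝ) → ℝ) (κ : Fin k → PD n → Fm n),
      (∀ i, ContDiff ℝ ∞ (Q i)) ∧ (∀ i (t : ℝ) (s : Fin m → ℝ), Q i (t • s) = t ^ N * Q i s) ∧
      (∀ i, κ i ∈ TF Γ) ∧
      ∀ p v, IsTan p v → RayO (N + 1) (fun s => R s p v v - ∑ i, Q i s * κ i p v v) := by
  obtain ⟨L, hL, hLs, hrep⟩ := taylor_fm N ε hε R hR hs hO
  obtain ⟨k, σ, Q, hQ, hint⟩ := NS38.interp (T7_f (m := m) N)
  have h0 : (0 : Fin m → ℝ) ∈ Metric.ball (0 : Fin m → ℝ) ε := Metric.mem_ball_self hε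
  have hsm : ∀ (i : Fin k) (v w : Mt n),
      ContDiffOn ℝ ∞ (fun A : Mt n => T7_k L (σ i) (ret A) v w) (PU n) := by
    intro i v w
    have h1 : (fun A : Mt n => T7_k L (σ i) (ret A) v w) =
        fun A : Mt n => ∑ α : Fin N → Fin m, T7_f N α (σ i) * L α 0 (ret A) v w := by
      funext A
      exact T7_k_apply L (σ i) (ret A) v w
    rw [h1]
    refine ContDiffOn.sum fun α _ => contDiffOn_const.mul ?_
    exact (smP_facts.2.2.2.1 (Metric.ball 0 ε) 0 (L α) (fun _ p => p) h0).1 (hL α) v w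
  have hrep2 : ∀ s ∈ Metric.ball (0 : Fin m → ℝ) ε, ∀ (p : PD n) (v : Mt n), IsTan p v →
      R s p v v = ∑ α : Fin N → Fin m, T7_f N α s * L α s p v v := hrep
  refine ⟨k, Q, fun i => T7_k L (σ i), fun i => (T7_Q N (Q i) (hQ i)).1,
    fun i => (T7_Q N (Q i) (hQ i)).2, fun i => ⟨⟨fun v w => ?_, fun p v w => ?_,
      fun γ hγ p v hv => ?_⟩, fun v w => hsm i v w⟩, fun p v hv => ?_⟩
  · have h1 : ContinuousOn (fun A : Mt n => T7_k L (σ i) (ret A) v w) (PU n) :=
      (hsm i v w).continuousOn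
    have h2 : Continuous fun p : PD n => T7_k L (σ i) (ret p.1) v w :=
      h1.comp_continuous continuous_subtype_val fun p => mem_PU p
    refine h2.congr fun p => ?_
    rw [ret_self]
  · rw [T7_k_apply, T7_k_apply]
    exact Finset.sum_congr rfl fun α _ => by rw [hLs]
  · have hv' : IsTan (act γ p) (γ.1 * v * γ.1ᵀ) := tan_facts.2.1 γ p v hv
    have hlim1 := T7_lim ε hε L hL (σ i) p v
    have hlim2 := T7_lim ε hε L hL (σ i) (act γ p) (γ.1 * v * γ.1ᵀ)
    refine tendsto_nhds_unique (hlim2.congr' ?_) hlim1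
    filter_upwards [T7_small ε hε (σ i), self_mem_nhdsWithin] with t ht ht0
    have ht1 : (0 : ℝ) < t := ht0
    have e1 : ∀ (p' : PD n) (v' : Mt n), IsTan p' v' → R (t • σ i) p' v' v' =
        t ^ N * ∑ α : Fin N → Fin m, T7_f N α (σ i) * L α (t • σ i) p' v' v' := by
      intro p' v' h'
      rw [hrep2 _ ht p' v' h', Finset.mul_sum]
      refine Finset.sum_congr rfl fun α _ => ?_
      rw [T7_f_hom]
      ring
    have e2 := hi _ ht γ hγ p v hv
    rw [e1 _ _ hv', e1 _ _ hv] at e2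
    exact mul_left_cancel₀ (pow_ne_zero N ht1.ne') e2
  · obtain ⟨-, r2, r3, r4, r5, r6, r7⟩ := rayO_facts (P := Fin m → ℝ)
    obtain ⟨-, -, c3⟩ := rayO_comp (P := Fin m → ℝ) (P' := Fin m → ℝ)
    refine r6 (N + 1) ε (fun s => ∑ α : Fin N → Fin m,
      T7_f N α s * (L α s p v v - L α 0 p v v)) _ hε (fun s hs' => ?_) ?_
    · show (∑ α : Fin N → Fin m, T7_f N α s * (L α s p v v - L α 0 p v v)) =
        R s p v v - ∑ i, Q i s * T7_k L (σ i) p v v
      rw [hrep2 s hs' p v hv]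
      have e1 : ∑ i, Q i s * T7_k L (σ i) p v v =
          ∑ α : Fin N → Fin m, T7_f N α s * L α 0 p v v := by
        calc ∑ i, Q i s * T7_k L (σ i) p v v
            = ∑ i, ∑ α : Fin N → Fin m, Q i s * (T7_f N α (σ i) * L α 0 p v v) := by
              refine Finset.sum_congr rfl fun i _ => ?_
              rw [T7_k_apply, Finset.mul_sum]
          _ = ∑ α : Fin N → Fin m, ∑ i, Q i s * (T7_f N α (σ i) * L α 0 p v v) :=
              Finset.sum_comm
          _ = ∑ α : Fin N → Fin m, T7_f N α s * L α 0 p v v := by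
              refine Finset.sum_congr rfl fun α _ => ?_
              rw [hint α s, Finset.sum_mul]
              refine Finset.sum_congr rfl fun i _ => ?_
              ring
      rw [e1, ← Finset.sum_sub_distrib]
      refine Finset.sum_congr rfl fun α _ => ?_
      ring
    · refine r7 (N + 1) (Fin N → Fin m) Finset.univ
        (fun α s => T7_f N α s * (L α s p v v - L α 0 p v v)) fun α _ => ?_
      refine r4 N 1 (T7_f N α) (fun s => L α s p v v - L α 0 p v v) (c3 N m α) ?_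
      have h1 : ContDiffOn ℝ ∞ (fun s => L α s p v v - L α 0 p v v) (Metric.ball 0 ε) :=
        (smP_point _ (L α) (hL α) p v v).sub contDiffOn_const
      exact (r5 ε _ hε h1).2 (sub_self _)

end LibNC38
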