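import Pool.Agent.LibFR38.T6
import Pool.Agent.LibNS38.D8

set_option autoImplicit false
set_option maxSynthPendingDepth 3

open Matrix MeasureTheory Topology Filter
open scoped Matrix.Norms.Elementwise ContDiff

namespace LibNC38

private theorem U1_single {n : ℕ} (i j : Fin n) (c : ℝ) :
    (Matrix.single i j c : Mt n) = c • Matrix.single i j (1 : ℝ) := by
  rw [Matrix.smul_single, smul_eq_mul, mul_one]

private theorem U1_lin {n : ℕ} (f : Mt n →ₗ[ℝ] ℝ) (w : Mt n) :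
    f w = ∑ k, ∑ l, w k l * f (Matrix.single k l 1) := by
  have h : w = ∑ k, ∑ l, w k l • (Matrix.single k l (1 : ℝ) : Mt n) := by
    conv_lhs => rw [Matrix.matrix_eq_sum_single w]
    exact Finset.sum_congr rfl fun i _ => Finset.sum_congr rfl fun j _ => U1_single i j _
  have h2 : f w = f (∑ k, ∑ l, w k l • (Matrix.single k l (1 : ℝ) : Mt n)) := congrArg f h
  rw [h2, map_sum]
  refine Finset.sum_congr rfl fun k _ => ?_
  rw [map_sum]
  refine Finset.sum_congr rfl fun l _ => ?_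
  rw [map_smul, smul_eq_mul]

private theorem U1_exp {n : ℕ} (B : Fm n) (v w : Mt n) :
    B v w = ∑ i, ∑ j, ∑ k, ∑ l,
      v i j * (w k l * B (Matrix.single i j 1) (Matrix.single k l 1)) := by
  have h1 : B v w = LinearMap.flip B w v := rfl
  rw [h1, U1_lin (LinearMap.flip B w) v]
  refine Finset.sum_congr rfl fun i _ => Finset.sum_congr rfl fun j _ => ?_
  have h2 : LinearMap.flip B w (Matrix.single i j 1) = B (Matrix.single i j 1) w := rfl
  rw [h2, U1_lin (B (Matrix.single i j 1)) w, Finset.mul_sum]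
  refine Finset.sum_congr rfl fun k _ => ?_
  rw [Finset.mul_sum]

private noncomputable def U1_F {n : ℕ} (κ : PD n → Fm n) (y : SL n × Mt n) : ℝ :=
  κ (act y.1 (o n)) (y.1.1 * y.2 * y.1.1ᵀ) (y.1.1 * y.2 * y.1.1ᵀ)

private theorem U1_smul {n : ℕ} (κ : PD n → Fm n) (g : SL n) (w : Mt n) (r : ℝ) :
    U1_F κ (g, r • w) = r ^ 2 * U1_F κ (g, w) := by
  unfold U1_F
  show κ (act g (o n)) (g.1 * (r • w) * g.1ᵀ) (g.1 * (r • w) * g.1ᵀ) =
    r ^ 2 * κ (act g (o n)) (g.1 * w * g.1ᵀ) (g.1 * w * g.1ᵀ)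
  rw [Matrix.mul_smul, Matrix.smul_mul, map_smul, map_smul, LinearMap.smul_apply, smul_eq_mul,
    smul_eq_mul]
  ring

/-- core: uniform bound on a compact set of parameters and of group elements -/
private theorem U1_core {P : Type*} [TopologicalSpace P] {n : ℕ} {S : Set P} (hS : IsCompact S)
    (K : P → PD n → Fm n)
    (hK : ∀ E E' : Mt n, ContinuousOn (fun x : P × PD n => K x.1 x.2 E E') (S ×ˢ Set.univ))
    {Q : Set (SL n)} (hQ : IsCompact Q) :
    ∃ C : ℝ, 0 ≤ C ∧ ∀ s ∈ S, ∀ g ∈ Q, ∀ w : Mt n,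
      |U1_F (K s) (g, w)| ≤ C * ∑ i, ∑ j, w i j ^ 2 := by
  let B : Set (Mt n) := Set.pi Set.univ fun _ => Set.pi Set.univ fun _ => Set.Icc (-1 : ℝ) 1
  have hB : IsCompact B := isCompact_univ_pi fun _ => isCompact_univ_pi fun _ => isCompact_Icc
  have hSQB : IsCompact (S ×ˢ (Q ×ˢ B)) := hS.prod (hQ.prod hB)
  have hc1 : Continuous fun x : P × (SL n × Mt n) => x.2.1.1 :=
    continuous_subtype_val.comp (continuous_fst.comp continuous_snd)
  have hc2 : Continuous fun x : P × (SL n × Mt n) => x.2.2 := continuous_snd.comp continuous_snd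
  have hc3 : Continuous fun x : P × (SL n × Mt n) => x.2.1.1 * x.2.2 * x.2.1.1ᵀ :=
    (hc1.matrix_mul hc2).matrix_mul hc1.matrix_transpose
  have hc4 : Continuous fun x : P × (SL n × Mt n) => act x.2.1 (o n) :=
    act_facts.2.2.comp ((continuous_fst.comp continuous_snd).prodMk continuous_const)
  have hcont : ContinuousOn (fun x : P × (SL n × Mt n) => U1_F (K x.1) x.2)
      (S ×ˢ (Q ×ˢ B)) := by
    have h5 : (fun x : P × (SL n × Mt n) => U1_F (K x.1) x.2) = fun x => ∑ i, ∑ j, ∑ k, ∑ l,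
        (x.2.1.1 * x.2.2 * x.2.1.1ᵀ) i j * ((x.2.1.1 * x.2.2 * x.2.1.1ᵀ) k l *
          K x.1 (act x.2.1 (o n)) (Matrix.single i j 1) (Matrix.single k l 1)) := by
      funext x
      exact U1_exp _ _ _
    rw [h5]
    refine continuousOn_finsetSum _ fun i _ => continuousOn_finsetSum _ fun j _ =>
      continuousOn_finsetSum _ fun k _ => continuousOn_finsetSum _ fun l _ => ?_
    have h7 : ContinuousOn (fun x : P × (SL n × Mt n) =>
        K x.1 (act x.2.1 (o n)) (Matrix.single i j 1) (Matrix.single k l 1))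
        (S ×ˢ (Q ×ˢ B)) := by
      have h8 : Continuous fun x : P × (SL n × Mt n) => (x.1, act x.2.1 (o n)) :=
        continuous_fst.prodMk hc4
      exact (hK (Matrix.single i j 1) (Matrix.single k l 1)).comp h8.continuousOn
        (fun x hx => ⟨hx.1, Set.mem_univ _⟩)
    exact (hc3.matrix_elem i j).continuousOn.mul ((hc3.matrix_elem k l).continuousOn.mul h7)
  obtain ⟨C, hC⟩ := hSQB.exists_bound_of_continuousOn hcont
  refine ⟨|C|, abs_nonneg _, fun s hs g hg w => ?_⟩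
  set R : ℝ := ∑ i, ∑ j, w i j ^ 2 with hR
  have hR0 : 0 ≤ R := Finset.sum_nonneg fun i _ => Finset.sum_nonneg fun j _ => sq_nonneg _
  have hle : ∀ i j, w i j ^ 2 ≤ R := by
    intro i j
    have a1 : w i j ^ 2 ≤ ∑ j, w i j ^ 2 :=
      Finset.single_le_sum (f := fun j => w i j ^ 2) (fun j _ => sq_nonneg _) (Finset.mem_univ j)
    have a2 : ∑ j, w i j ^ 2 ≤ R :=
      Finset.single_le_sum (f := fun i => ∑ j, w i j ^ 2)
        (fun i _ => Finset.sum_nonneg fun j _ => sq_nonneg _) (Finset.mem_univ i)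
    exact a1.trans a2
  rcases hR0.eq_or_lt with h | h
  · have hw : w = 0 := by
      ext i j
      have a1 := hle i j
      rw [← h] at a1
      have a2 : w i j ^ 2 = 0 := le_antisymm a1 (sq_nonneg _)
      exact pow_eq_zero_iff (two_ne_zero) |>.1 a2
    have a3 : U1_F (K s) (g, w) = 0 := by
      have a4 := U1_smul (K s) g w 0
      rw [zero_smul] at a4
      rw [hw, a4]
      ring
    rw [a3, abs_zero, ← h, mul_zero]
  · set r : ℝ := √ R with hr
    have hr0 : 0 < r := Real.sqrt_pos.2 h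
    have hr2 : r ^ 2 = R := Real.sq_sqrt hR0
    have hwB : (r⁻¹ • w) ∈ B := by
      intro i _ j _
      have a1 : |w i j| ≤ r := Real.abs_le_sqrt (hle i j)
      have a2 : |r⁻¹ * w i j| ≤ 1 := by
        rw [abs_mul, abs_of_pos (inv_pos.2 hr0), inv_mul_le_iff₀ hr0, mul_one]
        exact a1
      exact abs_le.1 a2
    have hlt := hC (s, (g, r⁻¹ • w)) ⟨hs, hg, hwB⟩
    rw [Real.norm_eq_abs] at hlt
    have hw : w = r • (r⁻¹ • w) := by
      rw [smul_smul, mul_inv_cancel₀ hr0.ne', one_smul]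
    have a3 : U1_F (K s) (g, w) = R * U1_F (K s) (g, r⁻¹ • w) := by
      conv_lhs => rw [hw]
      rw [U1_smul, hr2]
    rw [a3, abs_mul, abs_of_nonneg hR0, mul_comm]
    exact mul_le_mul_of_nonneg_right (hlt.trans (le_abs_self C)) hR0

/-- reduction of a tangent vector to the compact set -/
private theorem U1_red {n : ℕ} {Γ : Subgroup (SL n)} {Q : Set (SL n)}
    (hQg : ∀ g : SL n, ∃ γ ∈ Γ, γ * g ∈ Q) (p : PD n) (v : Mt n) (hv : IsTan p v) :
    ∃ γ ∈ Γ, ∃ g ∈ Q, ∃ w : Mt n, act γ p = act g (o n) ∧ g.1 * w * g.1ᵀ = γ.1 * v * γ.1ᵀ ∧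
      ∑ i, ∑ j, w i j ^ 2 = gF p v v := by
  obtain ⟨γ, hγ, hg⟩ := hQg (tch p)
  refine ⟨γ, hγ, γ * tch p, hg, ((γ * tch p)⁻¹ * γ).1 * v * ((γ * tch p)⁻¹ * γ).1ᵀ, ?_, ?_, ?_⟩
  · rw [act_facts.2.1, ← tch_eq p]
  · have h5 : (γ * tch p).1 * ((γ * tch p)⁻¹ * γ).1 = γ.1 := by
      have h2 : (γ * tch p) * ((γ * tch p)⁻¹ * γ) = γ := by rw [mul_inv_cancel_left]
      exact congrArg Subtype.val h2
    have h6 : ∀ a b : Mt n, a * (b * v * bᵀ) * aᵀ = (a * b) * v * (a * b)ᵀ := by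
      intro a b
      rw [Matrix.transpose_mul]
      simp only [Matrix.mul_assoc]
    rw [h6, h5]
  · set a : SL n := (γ * tch p)⁻¹ * γ with ha
    have h1 : act γ p = act (γ * tch p) (o n) := by
      rw [act_facts.2.1, ← tch_eq p]
    have h3 : act a p = o n := by
      rw [ha, act_facts.2.1, h1, ← act_facts.2.1, inv_mul_cancel, act_facts.1]
    have h8 : spd p v = √ (∑ i, ∑ j, (a.1 * v * a.1ᵀ) i j ^ 2) := by
      rw [← spd_facts.1 a p v, h3]
      refine spd_facts.2.1 _ ?_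
      rw [Matrix.transpose_mul, Matrix.transpose_mul, Matrix.transpose_transpose, hv.1,
        Matrix.mul_assoc]
    rw [gF_self p v hv, h8, Real.sq_sqrt]
    exact Finset.sum_nonneg fun i _ => Finset.sum_nonneg fun j _ => sq_nonneg _

/-- Row U1. Bound of a form of `TF Γ` by the metric. PLAN. Compact set `Q` of `coc_pd`; the continuous
function `κ p v v` is bounded on `{(p, v) | p ∈ Q, IsTan p v, spd p v = 1}` (compact: see `unif_conv`,
`LibNS38/D8.lean`), homogeneity, invariance of both sides. -/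
theorem form_bound {n : ℕ} (Γ : Subgroup (SL n)) (hc : Coc Γ) (κ : PD n → Fm n) (hκ : FmOK Γ κ) :
    ∃ C : ℝ, 0 ≤ C ∧ ∀ (p : PD n) (v : Mt n), IsTan p v → |κ p v v| ≤ C * gF p v v := by
  obtain ⟨Q, hQ, hQg⟩ := hc
  obtain ⟨C, hC0, hC⟩ := U1_core (P := Unit) (S := Set.univ) isCompact_univ (fun _ => κ)
    (fun E E' => ((hκ.cont E E').comp continuous_snd).continuousOn) hQ
  refine ⟨C, hC0, fun p v hv => ?_⟩
  obtain ⟨γ, hγ, g, hg, w, h1, h2, h3⟩ := U1_red hQg p v hv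
  have h4 := hC () (Set.mem_univ _) g hg w
  rw [h3] at h4
  have h5 : U1_F κ (g, w) = κ p v v := by
    rw [← hκ.inv γ hγ p v hv]
    unfold U1_F
    show κ (act g (o n)) (g.1 * w * g.1ᵀ) (g.1 * w * g.1ᵀ) = _
    rw [h2, h1]
  rw [← h5]
  exact h4

/-- Row U1 (second part). Uniform bound of a family of order `N`. PLAN. `taylor_fm`; on the compact set of
unit tangent vectors over `Q` and for `‖s‖ ≤ ε/2` (compact) the functions `L α s p v v` are bounded
(continuity of `SmFP` families), `|∏ j, s (α j)| ≤ ‖s‖ ^ N`; invariance `hi` of `R s`. -/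
theorem fam_bound {n m : ℕ} (Γ : Subgroup (SL n)) (hc : Coc Γ) (N : ℕ) (ε : ℝ) (hε : 0 < ε)
    (R : (Fin m → ℝ) → PD n → Fm n) (hR : SmFP (Metric.ball 0 ε) R)
    (hs : ∀ s p v w, R s p v w = R s p w v) (hO : RayF N R)
    (hi : ∀ s ∈ Metric.ball (0 : Fin m → ℝ) ε, ∀ γ ∈ Γ, ∀ p v, IsTan p v →
      R s (act γ p) (γ.1 * v * γ.1ᵀ) (γ.1 * v * γ.1ᵀ) = R s p v v) :
    ∃ C δ : ℝ, 0 ≤ C ∧ 0 < δ ∧ δ ≤ ε ∧ ∀ s : Fin m → ℝ, ‖s‖ < δ → ∀ (p : PD n) (v : Mt n),
      IsTan p v → |R s p v v| ≤ C * ‖s‖ ^ N * gF p v v := by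
  obtain ⟨L, hL, -, hrep⟩ := taylor_fm N ε hε R hR hs hO
  obtain ⟨Q, hQ, hQg⟩ := hc
  have hS : IsCompact (Metric.closedBall (0 : Fin m → ℝ) (ε / 2)) := isCompact_closedBall 0 _
  have hSb : Metric.closedBall (0 : Fin m → ℝ) (ε / 2) ⊆ Metric.ball 0 ε :=
    Metric.closedBall_subset_ball (by linarith)
  have hcont : ∀ α : Fin N → Fin m, ∀ E E' : Mt n, ContinuousOn
      (fun x : (Fin m → ℝ) × PD n => L α x.1 x.2 E E')
      (Metric.closedBall (0 : Fin m → ℝ) (ε / 2) ×ˢ Set.univ) := by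
    intro α E E'
    have h2 := (hL α E E').continuousOn
    have h3 : Continuous (fun x : (Fin m → ℝ) × PD n => ((x.1, x.2.1) : (Fin m → ℝ) × Mt n)) :=
      continuous_fst.prodMk (continuous_subtype_val.comp continuous_snd)
    have h4 : Set.MapsTo (fun x : (Fin m → ℝ) × PD n => ((x.1, x.2.1) : (Fin m → ℝ) × Mt n))
        (Metric.closedBall (0 : Fin m → ℝ) (ε / 2) ×ˢ Set.univ) (Metric.ball 0 ε ×ˢ PU n) :=
      fun x hx => ⟨hSb hx.1, mem_PU x.2⟩
    refine (h2.comp h3.continuousOn h4).congr fun x _ => ?_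
    show L α x.1 x.2 E E' = L α x.1 (ret x.2.1) E E'
    rw [ret_self]
  choose C hC0 hC using fun α : Fin N → Fin m => U1_core hS (L α) (hcont α) hQ
  refine ⟨∑ α, C α, ε / 2, Finset.sum_nonneg fun α _ => hC0 α, by linarith, by linarith,
    fun s hsn p v hv => ?_⟩
  have hs1 : s ∈ Metric.closedBall (0 : Fin m → ℝ) (ε / 2) := by
    rw [mem_closedBall_zero_iff]
    exact hsn.le
  obtain ⟨γ, hγ, g, hg, w, h1, h2, h3⟩ := U1_red hQg p v hv
  have hvt : IsTan (act γ p) (γ.1 * v * γ.1ᵀ) := by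
    refine ⟨?_, ?_⟩
    · rw [Matrix.transpose_mul, Matrix.transpose_mul, Matrix.transpose_transpose, hv.1,
        Matrix.mul_assoc]
    · have hd : IsUnit γ.1.det := by rw [γ.2]; exact isUnit_one
      have hdT : IsUnit γ.1ᵀ.det := by rw [Matrix.det_transpose, γ.2]; exact isUnit_one
      have e1 : (act γ p).1⁻¹ = (γ.1ᵀ)⁻¹ * (p.1⁻¹ * γ.1⁻¹) := by
        show (γ.1 * p.1 * γ.1ᵀ)⁻¹ = _
        rw [Matrix.mul_inv_rev, Matrix.mul_inv_rev]
      rw [e1]
      have e2 : (γ.1ᵀ)⁻¹ * (p.1⁻¹ * γ.1⁻¹) * (γ.1 * v * γ.1ᵀ) =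
          (γ.1ᵀ)⁻¹ * (p.1⁻¹ * v) * γ.1ᵀ := by
        calc (γ.1ᵀ)⁻¹ * (p.1⁻¹ * γ.1⁻¹) * (γ.1 * v * γ.1ᵀ)
            = (γ.1ᵀ)⁻¹ * p.1⁻¹ * ((γ.1⁻¹ * γ.1) * v) * γ.1ᵀ := by
              simp only [Matrix.mul_assoc]
          _ = (γ.1ᵀ)⁻¹ * (p.1⁻¹ * v) * γ.1ᵀ := by
              rw [Matrix.nonsing_inv_mul _ hd, Matrix.one_mul]
              simp only [Matrix.mul_assoc]
      rw [e2, Matrix.trace_mul_comm, ← Matrix.mul_assoc, Matrix.mul_nonsing_inv _ hdT,
        Matrix.one_mul]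
      exact hv.2
  have hval : R s p v v = ∑ α : Fin N → Fin m, (∏ j, s (α j)) * U1_F (L α s) (g, w) := by
    rw [← hi s (hSb hs1) γ hγ p v hv, hrep s (hSb hs1) (act γ p) _ hvt]
    refine Finset.sum_congr rfl fun α _ => ?_
    congr 1
    unfold U1_F
    show _ = L α s (act g (o n)) (g.1 * w * g.1ᵀ) (g.1 * w * g.1ᵀ)
    rw [h2, h1]
  rw [hval]
  refine (Finset.abs_sum_le_sum_abs _ _).trans ?_
  rw [Finset.sum_mul, Finset.sum_mul]
  refine Finset.sum_le_sum fun α _ => ?_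
  rw [abs_mul]
  have hp : |∏ j, s (α j)| ≤ ‖s‖ ^ N := by
    rw [Finset.abs_prod]
    calc ∏ j, |s (α j)| ≤ ∏ _j : Fin N, ‖s‖ :=
          Finset.prod_le_prod (fun j _ => abs_nonneg _) (fun j _ => norm_le_pi_norm s (α j))
      _ = ‖s‖ ^ N := by rw [Finset.prod_const, Finset.card_univ, Fintype.card_fin]
  have hb := hC α s hs1 g hg w
  rw [h3] at hb
  calc |∏ j, s (α j)| * |U1_F (L α s) (g, w)| ≤ ‖s‖ ^ N * (C α * gF p v v) :=
        mul_le_mul hp hb (abs_nonneg _) (by positivity)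
    _ = C α * ‖s‖ ^ N * gF p v v := by ring

end LibNC38
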