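import Pool.Agent.LibFR38.M1
import Pool.Agent.LibFR38.S1
import Pool.Agent.LibFR38.B1P
import Pool.Agent.LibFR38.C1
import Pool.Agent.LibFR38.L2

set_option autoImplicit false
set_option maxSynthPendingDepth 3

open Matrix MeasureTheory Topology Filter
open scoped Matrix.Norms.Elementwise ContDiff

namespace LibNC38

/-- data of order `N` with the bound of the coefficients by absence of conjugate points -/
theorem fam_data {n m : ℕ} (hn : 3 ≤ n) (Γ : Subgroup (SL n)) (hd : Disc Γ) (hcc : Coc Γ)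
    (H : (Fin m → ℝ) → PD n → Fm n) (hH : ∀ s, FmOK Γ (H s)) (ε0 : ℝ) (hε0 : 0 < ε0)
    (hs : SmFP (Metric.ball 0 ε0) H) (h0 : ∀ p v, IsTan p v → H 0 p v v = gF p v v) (N : ℕ) :
    ∃ (ε : ℝ) (Φ : (Fin m → ℝ) → PD n → PD n) (c : (Fin m → ℝ) → ℝ) (k : ℕ)
      (q : Fin k → (Fin m → ℝ) → ℝ) (e : Fin k → PD n → Fm n) (R : (Fin m → ℝ) → PD n → Fm n)
      (C δ : ℝ), Dat Γ H N ε Φ c q e R ∧ 0 ≤ C ∧ 0 < δ ∧ δ ≤ ε ∧ ∀ s : Fin m → ℝ, ‖s‖ < δ →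
        NoConj (dN (nrm (H s))) → ∀ i, |q i s| ≤ C * ‖s‖ ^ (N + 1) := by
  obtain ⟨Cc, hCT, hC0, hdec⟩ := compl_exists Γ
  have hO : OrdP Γ Cc H N :=
    ordP_all (by omega) Γ hcc Cc hCT hdec H hH (ordP_zero Γ Cc H hH ε0 hε0 hs h0) N
  obtain ⟨ε, Φ, c, k, q, e, R, hD, he, hl⟩ := dat_rebase Γ Cc hCT H N hO
  obtain ⟨C, δ, hC, hδ, hδε, hq⟩ := main_bound hn Γ hd hcc Cc hC0 H hH N ε Φ c q e R hD he hl
  exact ⟨ε, Φ, c, k, q, e, R, C, δ, hD, hC, hδ, hδε, hq⟩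

/-- Row W1. The metrics without conjugate points of the family are close to the orbit of `g` to every
order. PLAN. `fam_data`, `form_bound` for the `e i`, `fam_bound` (with `N + 1`, `dat_inv`) for `R`; on the
smaller ball `c s ≤ 2` (continuity, `c 0 = 1`);
`pul Φ H - c g = c (∑ q e + R)`, `‖s‖ ^ (N + 1) ≤ ‖s‖ ^ N` for `‖s‖ ≤ 1`. -/
theorem fam_one {n m : ℕ} (hn : 3 ≤ n) (Γ : Subgroup (SL n)) (hd : Disc Γ) (hcc : Coc Γ)
    (H : (Fin m → ℝ) → PD n → Fm n) (hH : ∀ s, FmOK Γ (H s)) (ε0 : ℝ) (hε0 : 0 < ε0)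
    (hs : SmFP (Metric.ball 0 ε0) H) (h0 : ∀ p v, IsTan p v → H 0 p v v = gF p v v) (N : ℕ) :
    ∃ (ε C : ℝ) (Φ : (Fin m → ℝ) → PD n → PD n) (c : (Fin m → ℝ) → ℝ), 0 < ε ∧
      SmMP (Metric.ball 0 ε) Φ ∧ (∀ p, Φ 0 p = p) ∧ ContDiffOn ℝ ∞ c (Metric.ball 0 ε) ∧ c 0 = 1 ∧
      ∀ s ∈ Metric.ball (0 : Fin m → ℝ) ε, Dfm Γ (Φ s) ∧ 0 < c s ∧
        (NoConj (dN (nrm (H s))) → ∀ (p : PD n) (v : Mt n), IsTan p v →
          |pul (Φ s) (H s) p v v - c s * gF p v v| ≤ C * ‖s‖ ^ N * gF p v v) := by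
  obtain ⟨ε1, Φ, c, k, q, e, R, C1, δ1, hD, hC1, hδ1, hδε, hq⟩ :=
    fam_data hn Γ hd hcc H hH ε0 hε0 hs h0 N
  obtain ⟨C2, δ2, hC2, hδ2, hδ2ε, hR⟩ := fam_bound Γ hcc (N + 1) ε1 hD.pos R hD.smR hD.symR hD.rR
    (dat_inv Γ H hH N ε1 Φ c q e R hD)
  have hCe : ∀ i, ∃ C : ℝ, 0 ≤ C ∧ ∀ (p : PD n) (v : Mt n), IsTan p v →
      |e i p v v| ≤ C * gF p v v := fun i => form_bound Γ hcc (e i) (hD.tf i).1
  choose Ce hCe0 hCe1 using hCe
  have hcc0 : ContinuousAt c 0 :=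
    hD.smc.continuousOn.continuousAt (Metric.ball_mem_nhds _ hD.pos)
  obtain ⟨δ3, hδ3, hc3⟩ := Metric.continuousAt_iff.1 hcc0 1 one_pos
  refine ⟨min (min δ1 δ2) (min δ3 1), 2 * (∑ i, C1 * Ce i + C2), Φ, c, ?_, ?_, hD.id, ?_, hD.c0, ?_⟩
  · exact lt_min (lt_min hδ1 hδ2) (lt_min hδ3 one_pos)
  · refine hD.smΦ.mono (Set.prod_mono (Metric.ball_subset_ball ?_) le_rfl)
    exact (min_le_left _ _).trans ((min_le_left _ _).trans hδε)
  · refine hD.smc.mono (Metric.ball_subset_ball ?_)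
    exact (min_le_left _ _).trans ((min_le_left _ _).trans hδε)
  intro s hsb
  have hsn : ‖s‖ < min (min δ1 δ2) (min δ3 1) := mem_ball_zero_iff.1 hsb
  have hs1 : ‖s‖ < δ1 := hsn.trans_le ((min_le_left _ _).trans (min_le_left _ _))
  have hs2 : ‖s‖ < δ2 := hsn.trans_le ((min_le_left _ _).trans (min_le_right _ _))
  have hs3 : ‖s‖ < δ3 := hsn.trans_le ((min_le_right _ _).trans (min_le_left _ _))
  have hs4 : ‖s‖ < 1 := hsn.trans_le ((min_le_right _ _).trans (min_le_right _ _))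
  have hsε : s ∈ Metric.ball (0 : Fin m → ℝ) ε1 := mem_ball_zero_iff.2 (hs1.trans_le hδε)
  refine ⟨hD.dfm s hsε, hD.cpos s hsε, ?_⟩
  intro hnc p v hv
  have hg0 : 0 ≤ gF p v v := by
    rw [gF_self p v hv]
    exact sq_nonneg _
  have hc0 : 0 < c s := hD.cpos s hsε
  have hc2 : c s ≤ 2 := by
    have h1 := hc3 (x := s) (by simpa [dist_zero_right] using hs3)
    rw [hD.c0, Real.dist_eq] at h1
    have h2 := (abs_lt.1 h1).2
    linarith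
  have h1 : pul (Φ s) (H s) p v v - c s * gF p v v
      = c s * (∑ i, q i s * e i p v v + R s p v v) := by
    rw [hD.eq s hsε p v hv]
    ring
  have h2 : |∑ i, q i s * e i p v v + R s p v v|
      ≤ (∑ i, C1 * Ce i + C2) * ‖s‖ ^ (N + 1) * gF p v v := by
    have h3 : |∑ i, q i s * e i p v v| ≤ ∑ i, C1 * Ce i * ‖s‖ ^ (N + 1) * gF p v v := by
      refine (Finset.abs_sum_le_sum_abs _ _).trans (Finset.sum_le_sum fun i _ => ?_)
      rw [abs_mul]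
      calc |q i s| * |e i p v v| ≤ (C1 * ‖s‖ ^ (N + 1)) * (Ce i * gF p v v) :=
            mul_le_mul (hq s hs1 hnc i) (hCe1 i p v hv) (abs_nonneg _) (by positivity)
        _ = C1 * Ce i * ‖s‖ ^ (N + 1) * gF p v v := by ring
    have h4 := hR s hs2 p v hv
    calc |∑ i, q i s * e i p v v + R s p v v| ≤ |∑ i, q i s * e i p v v| + |R s p v v| :=
          abs_add_le _ _
      _ ≤ ∑ i, C1 * Ce i * ‖s‖ ^ (N + 1) * gF p v v + C2 * ‖s‖ ^ (N + 1) * gF p v v :=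
          add_le_add h3 h4
      _ = (∑ i, C1 * Ce i + C2) * ‖s‖ ^ (N + 1) * gF p v v := by
          rw [add_mul, add_mul, Finset.sum_mul, Finset.sum_mul]
  have hK : 0 ≤ ∑ i, C1 * Ce i + C2 :=
    add_nonneg (Finset.sum_nonneg fun i _ => mul_nonneg hC1 (hCe0 i)) hC2
  have h5 : ‖s‖ ^ (N + 1) ≤ ‖s‖ ^ N :=
    pow_le_pow_of_le_one (norm_nonneg _) hs4.le (Nat.le_succ N)
  rw [h1, abs_mul, abs_of_pos hc0]
  calc c s * |∑ i, q i s * e i p v v + R s p v v|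
      ≤ 2 * ((∑ i, C1 * Ce i + C2) * ‖s‖ ^ (N + 1) * gF p v v) :=
        mul_le_mul hc2 h2 (abs_nonneg _) (by norm_num)
    _ ≤ 2 * ((∑ i, C1 * Ce i + C2) * ‖s‖ ^ N * gF p v v) := by gcongr
    _ = 2 * (∑ i, C1 * Ce i + C2) * ‖s‖ ^ N * gF p v v := by ring

end LibNC38
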