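import Pool.Agent.LibFR38.F0
import Pool.Agent.LibFR38.A1
import Pool.Agent.LibFR38.V1P

set_option autoImplicit false
set_option maxSynthPendingDepth 3

open Matrix MeasureTheory Topology Filter
open scoped Matrix.Norms.Elementwise ContDiff

namespace LibNC38

private theorem Y1_fd {n : ℕ} (v : Mt n) :
    ContDiffOn ℝ ∞ (fun A : Mt n => fderiv ℝ (fun B : Mt n => (ret B).1) A v) (PU n) := by
  have h1 : ContDiffOn ℝ ∞ (fun B : Mt n => ((ret B).1 : Mt n)) (PU n) := ret_smooth
  have h2 := h1.fderiv_of_isOpen (m := ∞) PU_open (by simp)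
  exact h2.clm_apply contDiffOn_const

private theorem Y1_tr {n : ℕ} (v : Mt n) :
    ContDiffOn ℝ ∞ (fun A : Mt n => ((syp A)⁻¹ * syp v).trace) (PU n) := by
  refine cd_trace (cd_mul (cd_inv syp_smooth ?_) contDiffOn_const)
  intro A hA
  have h5 : (syp A).PosDef := hA
  exact h5.det_pos.ne'

private theorem Y1_eval {m : ℕ} (p : MvPolynomial (Fin m) ℝ) :
    ContDiff ℝ ∞ (fun s : Fin m → ℝ => MvPolynomial.eval s p) := by
  induction p using MvPolynomial.induction_on with
  | C a =>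
    simp only [MvPolynomial.eval_C]
    exact contDiff_const
  | add p q hp hq =>
    simp only [map_add]
    exact hp.add hq
  | mul_X p i hp =>
    simp only [map_mul, MvPolynomial.eval_X]
    exact hp.mul (contDiff_apply ℝ ℝ i)

/-- Row Y1. Polynomial families of forms. PLAN. `FmOK`: `fmOK_sum`. Smooth: `smP_facts` (5), (6)
(`s ↦ eval s p` is smooth: `MvPolynomial` evaluation is `ContDiff`, e.g. by `MvPolynomial.induction_on`).
`PolyS` for the product metric: `prodm h A v w` is linear in `h` up to the flat part; the coefficient functions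
`A ↦ κ i (ret A) (D ret v) (D ret w)` and the flat part are smooth on `PU n` (as in `met_prodm`,
`LibNS38/P1.lean`, and `path_locsym`, `LibNS38/P6.lean`); `NS38.polyS_facts`. -/
theorem poly_fam {n m D : ℕ} (hn : 1 ≤ n) (Γ : Subgroup (SL n)) (κ : Fin D → PD n → Fm n)
    (hκ : ∀ i, FmOK Γ (κ i))
    (hs : ∀ i v w, ContDiffOn ℝ ∞ (fun A : Mt n => κ i (ret A) v w) (PU n))
    (pp : Fin D → MvPolynomial (Fin m) ℝ) :
    (∀ s : Fin m → ℝ, FmOK Γ (fun p => ∑ i, MvPolynomial.eval s (pp i) • κ i p)) ∧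
    SmFP (Set.univ : Set (Fin m → ℝ)) (fun s p => ∑ i, MvPolynomial.eval s (pp i) • κ i p) ∧
    ∀ v w : Mt n, NS38.PolyS (PU n) (fun (s : Fin m → ℝ) A =>
      prodm (fun p => ∑ i, MvPolynomial.eval s (pp i) • κ i p) A v w) := by
  refine ⟨fun s => fmOK_sum Γ κ hκ (fun i => MvPolynomial.eval s (pp i)), ?_, ?_⟩
  · intro v w
    have h1 : ContDiffOn ℝ ∞ (fun x : (Fin m → ℝ) × Mt n =>
        ∑ i, MvPolynomial.eval x.1 (pp i) * κ i (ret x.2) v w)
        ((Set.univ : Set (Fin m → ℝ)) ×ˢ PU n) := by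
      refine ContDiffOn.sum fun i _ => ContDiffOn.mul ?_ ?_
      · exact ((Y1_eval (pp i)).comp contDiff_fst).contDiffOn
      · exact (hs i v w).comp contDiffOn_snd fun x hx => hx.2
    refine h1.congr fun x _ => ?_
    simp only [LinearMap.sum_apply, LinearMap.smul_apply, smul_eq_mul]
  · intro v w
    obtain ⟨k1, -, -, -, -, -, k7, k8, -, k10⟩ :=
      NS38.polyS_facts (m := m) (PU_open (n := n))
    have hfl : ContDiffOn ℝ ∞ (fun A : Mt n =>
        1 / (n : ℝ) * ((syp A)⁻¹ * syp v).trace * ((syp A)⁻¹ * syp w).trace +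
        ((skp v)ᵀ * skp w).trace) (PU n) :=
      ((contDiffOn_const.mul (Y1_tr v)).mul (Y1_tr w)).add contDiffOn_const
    have hc : ∀ i, ContDiffOn ℝ ∞ (fun A : Mt n =>
        κ i (ret A) (fderiv ℝ (fun B : Mt n => (ret B).1) A v)
          (fderiv ℝ (fun B : Mt n => (ret B).1) A w)) (PU n) := fun i =>
      cd_bil (K := fun A : Mt n => κ i (ret A)) (hs i) (Y1_fd v) (Y1_fd w)
    have hS : NS38.PolyS (PU n) (fun (s : Fin m → ℝ) (A : Mt n) =>
        ∑ i ∈ (Finset.univ : Finset (Fin D)), MvPolynomial.eval s (pp i) *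
          (κ i (ret A) (fderiv ℝ (fun B : Mt n => (ret B).1) A v)
          (fderiv ℝ (fun B : Mt n => (ret B).1) A w))) :=
      k8 (Fin D) Finset.univ _ fun i _ => k7 (pp i) _ (hc i)
    have hF := k7 1 _ hfl
    refine k10 _ _ ?_ (k1 _ _ hS hF)
    intro s A _
    unfold prodm
    simp only [LinearMap.sum_apply, LinearMap.smul_apply, smul_eq_mul, map_one, one_mul]
    ring

end LibNC38
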