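import Pool.Agent.LibFR38.Z2

set_option autoImplicit false
set_option maxSynthPendingDepth 3

open Topology Filter Set
open scoped ContDiff

namespace NS38

private lemma Z3_der {m : ℕ} {K : Type} [Field K] [Algebra ℝ K]
    (φ : MvPolynomial (Fin m) ℝ →ₐ[ℝ] K) (D : Derivation ℝ K K) (f : MvPolynomial (Fin m) ℝ) :
    D (φ f) = ∑ j : Fin m, φ (MvPolynomial.pderiv j f) * D (φ (MvPolynomial.X j)) := by
  induction f using MvPolynomial.induction_on with
  | C a =>
    have h1 : φ (MvPolynomial.C a) = algebraMap ℝ K a := by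
      rw [← MvPolynomial.algebraMap_eq]
      exact φ.commutes a
    rw [h1, D.map_algebraMap]
    symm
    apply Finset.sum_eq_zero
    intro j _
    rw [MvPolynomial.pderiv_C, map_zero, zero_mul]
  | add p q hp hq =>
    rw [map_add, map_add, hp, hq, ← Finset.sum_add_distrib]
    apply Finset.sum_congr rfl
    intro j _
    rw [map_add, map_add, add_mul]
  | mul_X p i hp =>
    rw [map_mul, Derivation.leibniz, hp, smul_eq_mul, smul_eq_mul]
    have h2 : ∀ j : Fin m, φ (MvPolynomial.pderiv j (p * MvPolynomial.X i)) *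
        D (φ (MvPolynomial.X j)) =
        φ (MvPolynomial.X i) * (φ (MvPolynomial.pderiv j p) * D (φ (MvPolynomial.X j))) +
        φ p * (if j = i then D (φ (MvPolynomial.X i)) else 0) := by
      intro j
      rw [Derivation.leibniz, smul_eq_mul, smul_eq_mul, map_add, map_mul, map_mul]
      by_cases hji : j = i
      · subst hji
        rw [MvPolynomial.pderiv_X_self, map_one, if_pos rfl]
        ring
      · rw [MvPolynomial.pderiv_X_of_ne (fun h => hji h.symm), map_zero, if_neg hji]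
        ring
    rw [Finset.sum_congr rfl (fun j _ => h2 j), Finset.sum_add_distrib, ← Finset.mul_sum,
      ← Finset.mul_sum, Finset.sum_ite_eq' Finset.univ i (fun _ => D (φ (MvPolynomial.X i))),
      if_pos (Finset.mem_univ i)]
    ring

private lemma Z3_fld {m : ℕ} {K : Type} [Field K] [Algebra ℝ K]
    (φ : MvPolynomial (Fin m) ℝ →ₐ[ℝ] K) (P : MvPolynomial (Fin m) ℝ)
    (hI : ∀ i j, φ (MvPolynomial.X i) * φ (MvPolynomial.pderiv j P) =
      φ (MvPolynomial.X j) * φ (MvPolynomial.pderiv i P)) :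
    ¬ AlgebraicIndependent ℝ ![φ (∑ i : Fin m, (MvPolynomial.X i) ^ 2), φ P] := by
  intro h
  have : CharZero K := charZero_of_injective_algebraMap (algebraMap ℝ K).injective
  obtain ⟨D, hD1, hD2⟩ := der_exists _ _ h
  have hx : φ (∑ i : Fin m, (MvPolynomial.X i) ^ 2) = ∑ i : Fin m, φ (MvPolynomial.X i) ^ 2 := by
    rw [map_sum]
    apply Finset.sum_congr rfl
    intro i _
    rw [map_pow]
  have h0 : ∑ j : Fin m, φ (MvPolynomial.X j) * D (φ (MvPolynomial.X j)) = 0 := by
    rw [hx, map_sum] at hD1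
    have h3 : ∀ i : Fin m, D (φ (MvPolynomial.X i) ^ 2) =
        2 * (φ (MvPolynomial.X i) * D (φ (MvPolynomial.X i))) := by
      intro i
      rw [pow_two, Derivation.leibniz, smul_eq_mul]
      ring
    rw [Finset.sum_congr rfl (fun i _ => h3 i), ← Finset.mul_sum] at hD1
    rcases mul_eq_zero.1 hD1 with h4 | h4
    · exact absurd h4 two_ne_zero
    · exact h4
  by_cases hX : ∀ i : Fin m, φ (MvPolynomial.X i) = 0
  · have h5 := h.ne_zero (0 : Fin 2)
    apply h5
    show φ (∑ i : Fin m, (MvPolynomial.X i) ^ 2) = 0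
    rw [hx]
    apply Finset.sum_eq_zero
    intro i _
    rw [hX i]
    exact zero_pow two_ne_zero
  · push Not at hX
    obtain ⟨i, hi⟩ := hX
    rw [Z3_der φ D P] at hD2
    have h6 : ∀ j : Fin m, φ (MvPolynomial.pderiv j P) * D (φ (MvPolynomial.X j)) =
        (φ (MvPolynomial.pderiv i P) / φ (MvPolynomial.X i)) *
          (φ (MvPolynomial.X j) * D (φ (MvPolynomial.X j))) := by
      intro j
      have h7 : φ (MvPolynomial.pderiv j P) =
          (φ (MvPolynomial.pderiv i P) / φ (MvPolynomial.X i)) * φ (MvPolynomial.X j) := by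
        rw [div_mul_eq_mul_div, eq_div_iff hi]
        linear_combination hI i j
      rw [h7]
      ring
    rw [Finset.sum_congr rfl (fun j _ => h6 j), ← Finset.mul_sum, h0, mul_zero] at hD2
    exact zero_ne_one hD2

/-- Row Z3. On the critical variety the two functions `∑ X_i^2` and `P` are algebraically dependent. PLAN.
`K` = fraction field of `R/𝔭`, `x, y ∈ K` the images of `∑ X_i^2`, `P`. If there is no such `F` then `x, y` are
algebraically independent over `ℝ`; `D` from `der_exists`. `D y = ∑ j, (∂_j P) * D (X_j)` in `K`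
(`MvPolynomial.mkDerivation` / derivations of polynomials: `Derivation` composed with the algebra map is
determined on the variables, `MvPolynomial.derivation_ext` etc.), `D x = 2 ∑ X_j D X_j = 0`. If all `X_j = 0` in `K`
then `x = 0`, contradiction to independence. Otherwise `X_i ≠ 0`, `μ = ∂_i P / X_i`, and `∂_j P = μ X_j` in `K` by
`hI`: `D y = μ ∑ X_j D X_j = 0 ≠ 1`. -/
theorem dep_prime {m : ℕ} (P : MvPolynomial (Fin m) ℝ) (𝔭 : Ideal (MvPolynomial (Fin m) ℝ))
    (hp : 𝔭.IsPrime) (hI : ∀ i j, MvPolynomial.X i * MvPolynomial.pderiv j P -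
      MvPolynomial.X j * MvPolynomial.pderiv i P ∈ 𝔭) :
    ∃ F : MvPolynomial (Fin 2) ℝ, F ≠ 0 ∧
      MvPolynomial.aeval ![∑ i : Fin m, (MvPolynomial.X i : MvPolynomial (Fin m) ℝ) ^ 2, P] F ∈ 𝔭 := by
  by_contra hcon
  push Not at hcon
  have := hp
  let A := MvPolynomial (Fin m) ℝ ⧸ 𝔭
  let K := FractionRing A
  let φ : MvPolynomial (Fin m) ℝ →ₐ[ℝ] K :=
    (IsScalarTower.toAlgHom ℝ A K).comp (Ideal.Quotient.mkₐ ℝ 𝔭)
  have hφ : ∀ f : MvPolynomial (Fin m) ℝ, φ f = algebraMap A K (Ideal.Quotient.mk 𝔭 f) := fun f => rfl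
  have hφ0 : ∀ f : MvPolynomial (Fin m) ℝ, φ f = 0 → f ∈ 𝔭 := by
    intro f hf
    rw [hφ] at hf
    have h1 : Ideal.Quotient.mk 𝔭 f = 0 := by
      apply IsFractionRing.injective A K
      rw [hf, map_zero]
    exact Ideal.Quotient.eq_zero_iff_mem.1 h1
  have hφ1 : ∀ f ∈ 𝔭, φ f = 0 := by
    intro f hf
    rw [hφ, Ideal.Quotient.eq_zero_iff_mem.2 hf, map_zero]
  refine Z3_fld φ P (fun i j => ?_) ?_
  · have h2 := hφ1 _ (hI i j)
    rw [map_sub, map_mul, map_mul] at h2
    exact sub_eq_zero.1 h2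
  · rw [algebraicIndependent_iff]
    intro F hF
    by_contra hF0
    refine hcon F hF0 (hφ0 _ ?_)
    have h3 : (![φ (∑ i : Fin m, (MvPolynomial.X i) ^ 2), φ P] : Fin 2 → K) =
        fun k => φ ((![∑ i : Fin m, (MvPolynomial.X i : MvPolynomial (Fin m) ℝ) ^ 2, P] :
          Fin 2 → MvPolynomial (Fin m) ℝ) k) := by
      funext k
      fin_cases k <;> rfl
    rw [h3] at hF
    rw [MvPolynomial.comp_aeval_apply]
    exact hF

/-- Row Z3 (second part). PLAN. `I` the ideal generated by the minors; finitely many minimal primes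
(`Ideal.finite_minimalPrimes_of_isNoetherianRing`); `F` the product of the polynomials of `dep_prime`:
`aeval .. F` is in every minimal prime, so in the radical of `I` (`Ideal.sInf_minimalPrimes`); a power is in `I`,
so it vanishes at the points where the minors vanish. -/
theorem dep_all {m : ℕ} (P : MvPolynomial (Fin m) ℝ) :
    ∃ F : MvPolynomial (Fin 2) ℝ, F ≠ 0 ∧ ∀ s : Fin m → ℝ,
      (∀ i j, s i * MvPolynomial.eval s (MvPolynomial.pderiv j P) =
        s j * MvPolynomial.eval s (MvPolynomial.pderiv i P)) →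
      MvPolynomial.eval ![∑ i, s i ^ 2, MvPolynomial.eval s P] F = 0 := by
  classical
  let I : Ideal (MvPolynomial (Fin m) ℝ) := Ideal.span (Set.range
    (fun ij : Fin m × Fin m => MvPolynomial.X ij.1 * MvPolynomial.pderiv ij.2 P -
      MvPolynomial.X ij.2 * MvPolynomial.pderiv ij.1 P))
  have hfin : I.minimalPrimes.Finite := Ideal.finite_minimalPrimes_of_isNoetherianRing _ I
  have hex : ∀ 𝔭 : Ideal (MvPolynomial (Fin m) ℝ), ∃ F : MvPolynomial (Fin 2) ℝ, F ≠ 0 ∧
      (𝔭 ∈ I.minimalPrimes → MvPolynomial.aeval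
        ![∑ i : Fin m, (MvPolynomial.X i : MvPolynomial (Fin m) ℝ) ^ 2, P] F ∈ 𝔭) := by
    intro 𝔭
    by_cases h𝔭 : 𝔭 ∈ I.minimalPrimes
    · obtain ⟨F, hF, hF1⟩ := dep_prime P 𝔭 h𝔭.1.1 (fun i j =>
        h𝔭.1.2 (Ideal.subset_span ⟨(i, j), rfl⟩))
      exact ⟨F, hF, fun _ => hF1⟩
    · exact ⟨1, one_ne_zero, fun h => absurd h h𝔭⟩
  choose G hG0 hG1 using hex
  refine ⟨∏ 𝔭 ∈ hfin.toFinset, G 𝔭, Finset.prod_ne_zero_iff.2 (fun 𝔭 _ => hG0 𝔭), fun s hs => ?_⟩
  have h1 : MvPolynomial.aeval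
      ![∑ i : Fin m, (MvPolynomial.X i : MvPolynomial (Fin m) ℝ) ^ 2, P]
      (∏ 𝔭 ∈ hfin.toFinset, G 𝔭) ∈ I.radical := by
    rw [← Ideal.sInf_minimalPrimes, Submodule.mem_sInf]
    intro 𝔭 h𝔭
    rw [map_prod, ← Finset.mul_prod_erase _ _ (hfin.mem_toFinset.2 h𝔭)]
    exact Ideal.mul_mem_right _ _ (hG1 𝔭 h𝔭)
  obtain ⟨n, hn⟩ := h1
  have h2 : I ≤ RingHom.ker (MvPolynomial.eval s) := by
    rw [Ideal.span_le]
    rintro _ ⟨ij, rfl⟩
    show _ ∈ RingHom.ker (MvPolynomial.eval s)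
    rw [RingHom.mem_ker, map_sub, map_mul, map_mul, MvPolynomial.eval_X, MvPolynomial.eval_X, hs,
      sub_self]
  have h3 := h2 hn
  rw [RingHom.mem_ker, map_pow] at h3
  have h4 := eq_zero_of_pow_eq_zero h3
  rw [← h4]
  have h5 : (![∑ i, s i ^ 2, MvPolynomial.eval s P] : Fin 2 → ℝ) = fun k =>
      MvPolynomial.aeval s ((![∑ i : Fin m, (MvPolynomial.X i : MvPolynomial (Fin m) ℝ) ^ 2, P] :
          Fin 2 → MvPolynomial (Fin m) ℝ) k) := by
    funext k
    fin_cases k
    · show ∑ i, s i ^ 2 = MvPolynomial.aeval s (∑ i : Fin m, (MvPolynomial.X i) ^ 2)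
      rw [map_sum]
      apply Finset.sum_congr rfl
      intro i _
      rw [map_pow, MvPolynomial.aeval_X]
    · rfl
  rw [h5]
  exact (MvPolynomial.comp_aeval_apply _ (MvPolynomial.aeval s : MvPolynomial (Fin m) ℝ →ₐ[ℝ] ℝ) _).symm

end NS38
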