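import Pool.Agent.LibNS38.B0

set_option autoImplicit false
set_option maxSynthPendingDepth 3

open Topology Filter Set
open scoped ContDiff

namespace NS38

/-- Row Z4 (only Mathlib). A nonzero polynomial in one variable is at least `c x ^ M` near `0+`. PLAN.
`F = X ^ M * G`, `G (0) ≠ 0` (`Polynomial.exists_eq_pow_rootMultiplicity_mul_and_not_dvd`, or
`Polynomial.natTrailingDegree`), continuity. -/
theorem poly_low (F : Polynomial ℝ) (hF : F ≠ 0) :
    ∃ (c : ℝ) (M : ℕ) (δ : ℝ), 0 < c ∧ 0 < δ ∧ ∀ x : ℝ, 0 < x → x < δ → c * x ^ M ≤ |F.eval x| := by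
  obtain ⟨q, hq, hnd⟩ := Polynomial.exists_eq_pow_rootMultiplicity_mul_and_not_dvd F hF 0
  have hq0 : q.eval 0 ≠ 0 := fun h => hnd (Polynomial.dvd_iff_isRoot.2 h)
  have hpos : 0 < |q.eval 0| := abs_pos.2 hq0
  have hcont : Continuous fun x : ℝ => |q.eval x| := q.continuous.abs
  have hev : ∀ᶠ x in 𝓝 (0 : ℝ), |q.eval 0| / 2 < |q.eval x| :=
    hcont.continuousAt.eventually (lt_mem_nhds (by linarith))
  obtain ⟨δ, hδ, hball⟩ := Metric.eventually_nhds_iff.1 hev
  refine ⟨|q.eval 0| / 2, Polynomial.rootMultiplicity 0 F, δ, by linarith, hδ, fun x hx hxδ => ?_⟩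
  have h1 : |q.eval 0| / 2 < |q.eval x| := by
    apply hball
    rw [Real.dist_eq, sub_zero, abs_of_pos hx]
    exact hxδ
  have h2 : F.eval x = x ^ Polynomial.rootMultiplicity 0 F * q.eval x := by
    conv_lhs => rw [hq]
    simp
  rw [h2, abs_mul, abs_of_nonneg (pow_nonneg hx.le _), mul_comm]
  exact mul_le_mul_of_nonneg_left h1.le (pow_nonneg hx.le _)

/-- Row Z4 (second part). PLAN. `F = ∑ j, F_j (x) y ^ j` (`MvPolynomial.finSuccEquiv` / `Fin 2`; or split the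
support by the exponent of the variable `1`), `l` minimal with `F_l ≠ 0`. If `F (x, y) = 0`, `0 < y < 1`,
`0 < x < 1`, then `|F_l (x)| y ^ l = |∑ j > l, F_j (x) y ^ j| ≤ C y ^ (l + 1)`, `C` a bound of `∑ |F_j|` on `[0, 1]`;
`poly_low`. -/
theorem two_low (F : MvPolynomial (Fin 2) ℝ) (hF : F ≠ 0) :
    ∃ (c : ℝ) (M : ℕ) (δ : ℝ), 0 < c ∧ 0 < δ ∧ ∀ x y : ℝ, 0 < x → x < δ → 0 < y → y < 1 →
      MvPolynomial.eval ![x, y] F = 0 → c * x ^ M ≤ y := by
  classical
  have hne : F.support.Nonempty := by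
    rw [Finset.nonempty_iff_ne_empty]
    intro h
    exact hF (MvPolynomial.support_eq_empty.1 h)
  obtain ⟨m₀, hm₀, hmin⟩ := Finset.exists_min_image F.support (fun m => m 1) hne
  -- the lowest coefficient polynomial
  set S₁ : Finset (Fin 2 →₀ ℕ) := F.support.filter (fun m => m 1 = m₀ 1) with hS₁
  set S₂ : Finset (Fin 2 →₀ ℕ) := F.support.filter (fun m => ¬ m 1 = m₀ 1) with hS₂
  set P : Polynomial ℝ := ∑ m ∈ S₁, Polynomial.C (F.coeff m) * Polynomial.X ^ (m 0) with hP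
  have hPeval : ∀ x : ℝ, P.eval x = ∑ m ∈ S₁, F.coeff m * x ^ (m 0) := by
    intro x
    simp [hP, Polynomial.eval_finsetSum]
  have hPne : P ≠ 0 := by
    intro h0
    have hc : P.coeff (m₀ 0) = F.coeff m₀ := by
      rw [hP, Polynomial.finsetSum_coeff]
      rw [Finset.sum_eq_single m₀]
      · simp
      · intro m hm hmm
        rw [Polynomial.coeff_C_mul_X_pow]
        rw [if_neg]
        intro h00
        apply hmm
        have hm1 : m 1 = m₀ 1 := (Finset.mem_filter.1 hm).2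
        ext i
        fin_cases i
        · exact h00.symm
        · exact hm1
      · intro hm
        exact absurd (show m₀ ∈ S₁ from Finset.mem_filter.2 ⟨hm₀, rfl⟩) hm
    rw [h0, Polynomial.coeff_zero] at hc
    exact (MvPolynomial.mem_support_iff.1 hm₀) hc.symm
  obtain ⟨c, M, δ, hc, hδ, hlow⟩ := poly_low P hPne
  set C : ℝ := (∑ m ∈ S₂, |F.coeff m|) + 1 with hC
  have hCpos : 0 < C := by
    have : 0 ≤ ∑ m ∈ S₂, |F.coeff m| := Finset.sum_nonneg fun _ _ => abs_nonneg _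
    linarith
  refine ⟨c / C, M, min δ 1, div_pos hc hCpos, lt_min hδ one_pos, fun x y hx hxδ hy hy1 hz => ?_⟩
  have hxδ' : x < δ := lt_of_lt_of_le hxδ (min_le_left _ _)
  have hx1 : x < 1 := lt_of_lt_of_le hxδ (min_le_right _ _)
  have hz' : ∑ m ∈ F.support, F.coeff m * (x ^ (m 0) * y ^ (m 1)) = 0 := by
    rw [MvPolynomial.eval_eq'] at hz
    rw [← hz]
    refine Finset.sum_congr rfl fun m _ => ?_
    rw [Fin.prod_univ_two]
    simp
  have hsplit := Finset.sum_filter_add_sum_filter_not F.support (fun m => m 1 = m₀ 1)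
    (fun m => F.coeff m * (x ^ (m 0) * y ^ (m 1)))
  rw [hz'] at hsplit
  have hfirst : ∑ m ∈ F.support.filter (fun m => m 1 = m₀ 1), F.coeff m * (x ^ (m 0) * y ^ (m 1)) =
      P.eval x * y ^ (m₀ 1) := by
    rw [hPeval, Finset.sum_mul]
    refine Finset.sum_congr rfl fun m hm => ?_
    rw [(Finset.mem_filter.1 hm).2]
    ring
  have hsecond : |∑ m ∈ F.support.filter (fun m => ¬ m 1 = m₀ 1),
      F.coeff m * (x ^ (m 0) * y ^ (m 1))| ≤ C * y ^ (m₀ 1 + 1) := by
    refine (Finset.abs_sum_le_sum_abs _ _).trans ?_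
    have h3 : ∀ m ∈ S₂, |F.coeff m * (x ^ (m 0) * y ^ (m 1))| ≤ |F.coeff m| * y ^ (m₀ 1 + 1) := by
      intro m hm
      have hm' := Finset.mem_filter.1 hm
      have hle : m₀ 1 + 1 ≤ m 1 := by
        have h4 := hmin m hm'.1
        have h5 : m 1 ≠ m₀ 1 := hm'.2
        have h6 : m₀ 1 ≤ m 1 := h4
        omega
      rw [abs_mul, abs_of_nonneg (mul_nonneg (pow_nonneg hx.le _) (pow_nonneg hy.le _))]
      refine mul_le_mul_of_nonneg_left ?_ (abs_nonneg _)
      have h7 : x ^ (m 0) ≤ 1 := pow_le_one₀ hx.le hx1.le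
      have h8 : y ^ (m 1) ≤ y ^ (m₀ 1 + 1) := pow_le_pow_of_le_one hy.le hy1.le hle
      calc x ^ (m 0) * y ^ (m 1) ≤ 1 * y ^ (m₀ 1 + 1) :=
            mul_le_mul h7 h8 (pow_nonneg hy.le _) zero_le_one
        _ = y ^ (m₀ 1 + 1) := one_mul _
    refine (Finset.sum_le_sum h3).trans ?_
    rw [← Finset.sum_mul]
    refine mul_le_mul_of_nonneg_right ?_ (pow_nonneg hy.le _)
    rw [hC]
    linarith
  rw [hfirst] at hsplit
  have h9 : |P.eval x| * y ^ (m₀ 1) ≤ C * y ^ (m₀ 1 + 1) := by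
    have h10 : P.eval x * y ^ (m₀ 1) = -(∑ m ∈ F.support.filter (fun m => ¬ m 1 = m₀ 1),
        F.coeff m * (x ^ (m 0) * y ^ (m 1))) := by linarith
    have h11 : |P.eval x| * y ^ (m₀ 1) = |P.eval x * y ^ (m₀ 1)| := by
      rw [abs_mul, abs_of_nonneg (pow_nonneg hy.le _)]
    rw [h11, h10, abs_neg]
    exact hsecond
  have hyp : 0 < y ^ (m₀ 1) := pow_pos hy _
  have h12 : |P.eval x| ≤ C * y := by
    have h13 : |P.eval x| * y ^ (m₀ 1) ≤ (C * y) * y ^ (m₀ 1) := by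
      calc |P.eval x| * y ^ (m₀ 1) ≤ C * y ^ (m₀ 1 + 1) := h9
        _ = (C * y) * y ^ (m₀ 1) := by ring
    exact le_of_mul_le_mul_right h13 hyp
  have h14 := hlow x hx hxδ'
  rw [div_mul_eq_mul_div, div_le_iff₀ hCpos]
  linarith [h14.trans h12]

end NS38
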