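import Pool.Agent.LibFR38.Z1
import Pool.Agent.LibFR38.Z3
import Pool.Agent.LibFR38.Z4

set_option autoImplicit false
set_option maxSynthPendingDepth 3

open Topology Filter Set
open scoped ContDiff

namespace NS38

private theorem Z5_sq_le {m : ℕ} (s : Fin m → ℝ) : ‖s‖ ^ 2 ≤ ∑ i, s i ^ 2 := by
  have h0 : 0 ≤ ∑ i, s i ^ 2 := Finset.sum_nonneg fun i _ => sq_nonneg _
  have h1 : ‖s‖ ≤ Real.sqrt (∑ i, s i ^ 2) := by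
    refine (pi_norm_le_iff_of_nonneg (Real.sqrt_nonneg _)).mpr fun i => ?_
    rw [Real.norm_eq_abs]
    refine Real.abs_le_sqrt ?_
    exact Finset.single_le_sum (f := fun i => s i ^ 2) (fun j _ => sq_nonneg _) (Finset.mem_univ i)
  calc ‖s‖ ^ 2 ≤ (Real.sqrt (∑ i, s i ^ 2)) ^ 2 := pow_le_pow_left₀ (norm_nonneg s) h1 2
    _ = _ := Real.sq_sqrt h0

private theorem Z5_le_sq {m : ℕ} (s : Fin m → ℝ) : ∑ i, s i ^ 2 ≤ (m : ℝ) * ‖s‖ ^ 2 := by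
  have h1 : ∀ i ∈ (Finset.univ : Finset (Fin m)), s i ^ 2 ≤ ‖s‖ ^ 2 := by
    intro i _
    have h2 := norm_le_pi_norm s i
    rw [Real.norm_eq_abs] at h2
    have h3 : |s i| ^ 2 ≤ ‖s‖ ^ 2 := pow_le_pow_left₀ (abs_nonneg _) h2 2
    rwa [sq_abs] at h3
  have h4 := Finset.sum_le_card_nsmul _ _ _ h1
  simpa [nsmul_eq_mul] using h4

/-- Row Z5 (assembly). Lojasiewicz inequality at an isolated zero. PLAN. `F` from `dep_all`, `c, M, δ` from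
`two_low`. For `s ≠ 0` small (so `m ≥ 1`) let `r = ∑ s i ^ 2` (`‖s‖ ^ 2 ≤ r ≤ m ‖s‖ ^ 2`, sup norm), `s'` from
`crit_min`: `s' ≠ 0`, `‖s'‖ ^ 2 ≤ r < ε0 ^ 2`, so `y = eval s' P > 0`; `eval ![r, y] F = 0`. If `y < 1`:
`c * r ^ M ≤ y ≤ eval s P`; if `y ≥ 1`: `eval s P ≥ 1 ≥ r ^ M` for `r ≤ 1`. So
`min c 1 * ‖s‖ ^ (2 M) ≤ eval s P`. -/
theorem loj {m : ℕ} (P : MvPolynomial (Fin m) ℝ) (ε0 : ℝ) (hε0 : 0 < ε0)
    (h : ∀ s : Fin m → ℝ, s ≠ 0 → ‖s‖ < ε0 → 0 < MvPolynomial.eval s P) :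
    ∃ (c : ℝ) (M : ℕ) (δ : ℝ), 0 < c ∧ 0 < δ ∧ ∀ s : Fin m → ℝ, s ≠ 0 → ‖s‖ < δ →
      c * ‖s‖ ^ M ≤ MvPolynomial.eval s P := by
  obtain ⟨F, hF0, hF⟩ := dep_all P
  obtain ⟨c, M, δ, hc, hδ, hlow⟩ := two_low F hF0
  set κ : ℝ := min δ (min 1 (ε0 ^ 2)) with hκ
  have hκ0 : 0 < κ := lt_min hδ (lt_min one_pos (pow_pos hε0 2))
  have hm1 : (0 : ℝ) < (m : ℝ) + 1 := by positivity
  refine ⟨min c 1, 2 * M, min 1 (κ / ((m : ℝ) + 1)), lt_min hc one_pos,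
    lt_min one_pos (div_pos hκ0 hm1), ?_⟩
  intro s hs0 hsn
  have hs1 : ‖s‖ < 1 := lt_of_lt_of_le hsn (min_le_left _ _)
  have hs2 : ‖s‖ < κ / ((m : ℝ) + 1) := lt_of_lt_of_le hsn (min_le_right _ _)
  have hn0 : 0 ≤ ‖s‖ := norm_nonneg s
  have hmpos : 0 < m := by
    rcases Nat.eq_zero_or_pos m with h0 | h0
    · subst h0
      exact absurd (Subsingleton.elim s 0) hs0
    · exact h0
  have hr0 : 0 < ∑ i, s i ^ 2 := by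
    have := Z5_sq_le s
    have h2 : 0 < ‖s‖ := norm_pos_iff.mpr hs0
    have h3 : 0 < ‖s‖ ^ 2 := pow_pos h2 2
    linarith
  have hr1 : ∑ i, s i ^ 2 < κ := by
    have h1 := Z5_le_sq s
    have h2 : ‖s‖ * ((m : ℝ) + 1) < κ := (lt_div_iff₀ hm1).mp hs2
    have h3 : ‖s‖ ^ 2 ≤ ‖s‖ := by nlinarith
    have h4 : (m : ℝ) * ‖s‖ ^ 2 ≤ (m : ℝ) * ‖s‖ := mul_le_mul_of_nonneg_left h3 (Nat.cast_nonneg m)
    nlinarith
  have hrδ : ∑ i, s i ^ 2 < δ := lt_of_lt_of_le hr1 (min_le_left _ _)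
  have hrε : ∑ i, s i ^ 2 < ε0 ^ 2 :=
    lt_of_lt_of_le hr1 (le_trans (min_le_right _ _) (min_le_right _ _))
  obtain ⟨s', hs'r, hmin, hlag⟩ := crit_min hmpos P (∑ i, s i ^ 2) hr0
  have hs'0 : s' ≠ 0 := by
    intro h0
    rw [h0] at hs'r
    have : ∑ i : Fin m, (0 : Fin m → ℝ) i ^ 2 = 0 := by simp
    rw [this] at hs'r
    linarith
  have hs'n : ‖s'‖ < ε0 := by
    have h1 := Z5_sq_le s'
    rw [hs'r] at h1
    exact lt_of_pow_lt_pow_left₀ 2 hε0.le (lt_of_le_of_lt h1 hrε)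
  have hy0 := h s' hs'0 hs'n
  have hy1 := hmin s rfl
  have hz := hF s' hlag
  rw [hs'r] at hz
  rcases lt_or_ge (MvPolynomial.eval s' P) 1 with hy | hy
  · have h1 := hlow _ _ hr0 hrδ hy0 hy hz
    have h2 : (‖s‖ ^ 2) ^ M ≤ (∑ i, s i ^ 2) ^ M :=
      pow_le_pow_left₀ (by positivity) (Z5_sq_le s) M
    have h3 : 0 ≤ (‖s‖ ^ 2) ^ M := by positivity
    calc min c 1 * ‖s‖ ^ (2 * M) = min c 1 * (‖s‖ ^ 2) ^ M := by rw [pow_mul]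
      _ ≤ c * (‖s‖ ^ 2) ^ M := mul_le_mul_of_nonneg_right (min_le_left _ _) h3
      _ ≤ c * (∑ i, s i ^ 2) ^ M := mul_le_mul_of_nonneg_left h2 hc.le
      _ ≤ _ := le_trans h1 hy1
  · have h1 : ‖s‖ ^ (2 * M) ≤ 1 := pow_le_one₀ hn0 hs1.le
    have h3 : 0 ≤ ‖s‖ ^ (2 * M) := by positivity
    calc min c 1 * ‖s‖ ^ (2 * M) ≤ 1 * ‖s‖ ^ (2 * M) :=
          mul_le_mul_of_nonneg_right (min_le_right _ _) h3
      _ ≤ 1 := by linarith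
      _ ≤ _ := le_trans hy hy1

end NS38
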