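import Pool.Agent.LibFR38.Q5
import Pool.Agent.LibFR38.A5
import Pool.Agent.LibFR38.A6
import Pool.Agent.LibFR38.Z5
import Pool.Agent.LibFR38.Y1

set_option autoImplicit false
set_option maxSynthPendingDepth 3

open Matrix MeasureTheory Topology Filter
open scoped Matrix.Norms.Elementwise ContDiff

namespace LibNC38

private theorem Y2_fin {m : ℕ} (Q : (Fin m → ℝ) → Prop) (N : ℕ)
    (F : Finset (MvPolynomial (Fin m) ℝ))
    (h : ∀ p ∈ F, ∃ K δ : ℝ, 0 ≤ K ∧ 0 < δ ∧ ∀ s : Fin m → ℝ, ‖s‖ < δ → Q s →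
      |MvPolynomial.eval s p| ≤ K * ‖s‖ ^ N) :
    ∃ K δ : ℝ, 0 ≤ K ∧ 0 < δ ∧ ∀ s : Fin m → ℝ, ‖s‖ < δ → Q s →
      MvPolynomial.eval s (∑ p ∈ F, p ^ 2) ≤ K * (‖s‖ ^ N) ^ 2 := by
  classical
  induction F using Finset.induction_on with
  | empty =>
    refine ⟨0, 1, le_rfl, one_pos, fun s _ _ => ?_⟩
    rw [Finset.sum_empty, map_zero, zero_mul]
  | insert q F hq ih =>
    obtain ⟨K1, δ1, hK1, hδ1, h1⟩ := ih fun p hp => h p (Finset.mem_insert_of_mem hp)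
    obtain ⟨K2, δ2, hK2, hδ2, h2⟩ := h q (Finset.mem_insert_self q F)
    refine ⟨K2 ^ 2 + K1, min δ1 δ2, by positivity, lt_min hδ1 hδ2, fun s hs hQ => ?_⟩
    have e1 := h1 s (lt_of_lt_of_le hs (min_le_left _ _)) hQ
    have e2 := h2 s (lt_of_lt_of_le hs (min_le_right _ _)) hQ
    have e3 : MvPolynomial.eval s q ^ 2 ≤ (K2 * ‖s‖ ^ N) ^ 2 := by
      rw [← sq_abs (MvPolynomial.eval s q)]
      exact pow_le_pow_left₀ (abs_nonneg _) e2 2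
    rw [Finset.sum_insert hq, map_add, map_pow]
    calc MvPolynomial.eval s q ^ 2 + MvPolynomial.eval s (∑ p ∈ F, p ^ 2)
        ≤ (K2 * ‖s‖ ^ N) ^ 2 + K1 * (‖s‖ ^ N) ^ 2 := add_le_add e3 e1
      _ = (K2 ^ 2 + K1) * (‖s‖ ^ N) ^ 2 := by ring

private theorem Y2_small (c K : ℝ) (hc : 0 < c) (hK : 0 ≤ K) (M : ℕ) (x : ℝ) (hx : 0 < x)
    (hx1 : x < 1) (hx2 : x < c / (K + 1)) (h : c * x ^ M ≤ K * (x ^ (M + 1)) ^ 2) : False := by
  have hK1 : 0 < K + 1 := by linarith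
  have e1 : x * (K + 1) < c := (lt_div_iff₀ hK1).1 hx2
  have e2 : 0 < x ^ M := pow_pos hx M
  have e3 : x ^ M ≤ 1 := pow_le_one₀ hx.le hx1.le
  have e4 : K * (x ^ (M + 1)) ^ 2 = (K * x * (x * x ^ M)) * x ^ M := by ring
  rw [e4] at h
  have e5 : c ≤ K * x * (x * x ^ M) := le_of_mul_le_mul_right h e2
  have e6 : x * x ^ M ≤ 1 := by
    calc x * x ^ M ≤ 1 * 1 := mul_le_mul hx1.le e3 e2.le zero_le_one
      _ = 1 := one_mul 1
  have e7 : K * x * (x * x ^ M) ≤ K * x * 1 := mul_le_mul_of_nonneg_left e6 (mul_nonneg hK hx.le)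
  nlinarith

/-- Row Y2 (final assembly). PLAN. `H s p = ∑ i, eval s (pp i) • κ i p`. `poly_fam`, `met_near`: `δ1 ≤ 1` with
`MetX (H s)` for `‖s‖ < δ1`, so `Met (prodm (H s)) (PU n)` (`met_prodm`). `NS38.lsym_poly` with
`B = ball 0 δ1`: `Pz`. `NS38.fin_zero`: `F`. `P := ∑ p ∈ F, p ^ 2`. For `s ≠ 0`, `‖s‖ < min ε0 δ1`: `eval s P > 0`, since
otherwise all `p ∈ F`, so all `p ∈ Pz` vanish at `s`, and `LocSym (H s)`. `NS38.loj`: `c, M, δ2`. For each `p ∈ F`,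
`lsym_poly` (2) gives `x, A` and `nc_dcurv` at `x` with `N = M + 1` gives: for small `s` with `NoConj`,
`|eval s p| ≤ A * (M' ‖s‖ ^ (M + 1))`. So
`c ‖s‖ ^ M ≤ eval s P ≤ A'' ‖s‖ ^ (2 M + 2)`, impossible for `s ≠ 0` small. -/
theorem iso_final {n m D : ℕ} (hn : 3 ≤ n) (Γ : Subgroup (SL n)) (hd : Disc Γ) (hcc : Coc Γ)
    (κ : Fin D → PD n → Fm n) (hκ : ∀ i, FmOK Γ (κ i))
    (hs : ∀ i v w, ContDiffOn ℝ ∞ (fun A : Mt n => κ i (ret A) v w) (PU n))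
    (pp : Fin D → MvPolynomial (Fin m) ℝ)
    (h0 : ∀ p v, IsTan p v → ∑ i, MvPolynomial.eval 0 (pp i) * κ i p v v = gF p v v)
    (hiso : ∃ ε0 > 0, ∀ s : Fin m → ℝ, s ≠ 0 → ‖s‖ < ε0 →
      ¬ LocSym (fun p => ∑ i, MvPolynomial.eval s (pp i) • κ i p)) :
    ∃ ε > 0, ∀ s : Fin m → ℝ, s ≠ 0 → ‖s‖ < ε →
      ¬ NoConj (dN (nrm (fun p => ∑ i, MvPolynomial.eval s (pp i) • κ i p))) := by
  have hn1 : 1 ≤ n := by omega
  obtain ⟨hH, hsm, hpo⟩ := poly_fam hn1 Γ κ hκ hs pp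
  set H : (Fin m → ℝ) → PD n → Fm n := fun s p => ∑ i, MvPolynomial.eval s (pp i) • κ i p
    with hHdef
  have h0' : ∀ p v, IsTan p v → H 0 p v v = gF p v v := by
    intro p v hv
    rw [← h0 p v hv, hHdef]
    simp only [LinearMap.sum_apply, LinearMap.smul_apply, smul_eq_mul]
  have hsm1 : SmFP (Metric.ball 0 1) H := fun v w =>
    (hsm v w).mono (Set.prod_mono_left (Set.subset_univ _))
  obtain ⟨δ1, hδ1, hδ1', hMX⟩ := met_near hn1 Γ hcc H hH 1 one_pos hsm1 h0'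
  have hMet : ∀ s ∈ Metric.ball (0 : Fin m → ℝ) δ1, NS38.Met (prodm (H s)) (PU n) := by
    intro s hs1
    exact met_prodm hn1 (H s) (hMX s (mem_ball_zero_iff.1 hs1))
  obtain ⟨Pz, hP1, hP2⟩ := NS38.lsym_poly PU_open (fun s => prodm (H s)) hpo
    (Metric.ball 0 δ1) hMet
  obtain ⟨F, hF, hFz⟩ := NS38.fin_zero Pz
  obtain ⟨ε0, hε0, hiso'⟩ := hiso
  have hsq : ∀ s : Fin m → ℝ, MvPolynomial.eval s (∑ p ∈ F, p ^ 2) =
      ∑ p ∈ F, MvPolynomial.eval s p ^ 2 := by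
    intro s
    rw [map_sum]
    exact Finset.sum_congr rfl fun p _ => map_pow _ _ _
  obtain ⟨c, M, δ2, hc, hδ2, hloj⟩ := NS38.loj (∑ p ∈ F, p ^ 2) (min ε0 δ1)
    (lt_min hε0 hδ1) (by
      intro s hs0 hsn
      rw [hsq s]
      have hnn : ∀ p ∈ F, 0 ≤ MvPolynomial.eval s p ^ 2 := fun p _ => sq_nonneg _
      refine lt_of_le_of_ne (Finset.sum_nonneg hnn) fun h0s => ?_
      have hz : ∀ p ∈ F, MvPolynomial.eval s p = 0 := fun p hp =>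
        pow_eq_zero_iff (two_ne_zero) |>.1 ((Finset.sum_eq_zero_iff_of_nonneg hnn).1 h0s.symm p hp)
      have hL : NS38.LSym (prodm (H s)) (PU n) :=
        hP1 s (mem_ball_zero_iff.2 (lt_of_lt_of_le hsn (min_le_right _ _))) (hFz s hz)
      exact hiso' s hs0 (lt_of_lt_of_le hsn (min_le_left _ _)) hL)
  obtain ⟨K, δ3, hK, hδ3, hup⟩ := Y2_fin (fun s => NoConj (dN (nrm (H s)))) (M + 1) F (by
    intro p hp
    obtain ⟨x, hx, A, hA, hb⟩ := hP2 p (hF p hp)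
    obtain ⟨M', δ', hM', hδ', hd'⟩ := nc_dcurv hn Γ hd hcc H hH 1 one_pos hsm1 h0' (M + 1) x hx
    refine ⟨A * M', min δ' δ1, mul_nonneg hA hM', lt_min hδ' hδ1, fun s hsn hQ => ?_⟩
    have hs1 : ‖s‖ < δ1 := lt_of_lt_of_le hsn (min_le_right _ _)
    rw [mul_assoc]
    exact hb s (mem_ball_zero_iff.2 hs1) (hs1.le.trans hδ1') _
      (hd' s (lt_of_lt_of_le hsn (min_le_left _ _)) hQ))
  have hK1 : 0 < K + 1 := by linarith
  refine ⟨min (min δ2 δ3) (min 1 (c / (K + 1))),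
    lt_min (lt_min hδ2 hδ3) (lt_min one_pos (div_pos hc hK1)), fun s hs0 hsn hnc => ?_⟩
  have a1 : ‖s‖ < δ2 := lt_of_lt_of_le hsn ((min_le_left _ _).trans (min_le_left _ _))
  have a2 : ‖s‖ < δ3 := lt_of_lt_of_le hsn ((min_le_left _ _).trans (min_le_right _ _))
  have a3 : ‖s‖ < 1 := lt_of_lt_of_le hsn ((min_le_right _ _).trans (min_le_left _ _))
  have a4 : ‖s‖ < c / (K + 1) :=
    lt_of_lt_of_le hsn ((min_le_right _ _).trans (min_le_right _ _))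
  exact Y2_small c K hc hK M ‖s‖ (norm_pos_iff.2 hs0) a3 a4
    ((hloj s hs0 a1).trans (hup s a2 hnc))

end LibNC38
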