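import Pool.Agent.LibNS38.B0

set_option autoImplicit false
set_option maxSynthPendingDepth 3

open Topology Filter Set
open scoped ContDiff

namespace NS38

private theorem Z1_deriv {m : ℕ} (P : MvPolynomial (Fin m) ℝ) (p : ℝ → Fin m → ℝ)
    (p' : Fin m → ℝ) (θ : ℝ) (hp : ∀ k, HasDerivAt (fun t => p t k) (p' k) θ) :
    HasDerivAt (fun t => MvPolynomial.eval (p t) P)
      (∑ k, p' k * MvPolynomial.eval (p θ) (MvPolynomial.pderiv k P)) θ := by
  induction P using MvPolynomial.induction_on with
  | C a =>
    simp only [MvPolynomial.eval_C, MvPolynomial.pderiv_C, map_zero, mul_zero,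
      Finset.sum_const_zero]
    exact hasDerivAt_const θ a
  | add P Q hP hQ =>
    simp only [map_add, mul_add, Finset.sum_add_distrib]
    exact hP.add hQ
  | mul_X P k hP =>
    have h := hP.mul (hp k)
    have e1 : (fun t => MvPolynomial.eval (p t) (P * MvPolynomial.X k)) =
        (fun t => MvPolynomial.eval (p t) P) * (fun t => p t k) := by
      funext t
      simp
    rw [e1]
    refine h.congr_deriv ?_
    symm
    have e2 : ∀ l, p' l * MvPolynomial.eval (p θ)
        (MvPolynomial.pderiv l (P * MvPolynomial.X k)) =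
        p' l * MvPolynomial.eval (p θ) (MvPolynomial.pderiv l P) * p θ k +
          (if l = k then MvPolynomial.eval (p θ) P * p' l else 0) := by
      intro l
      rw [Derivation.leibniz, MvPolynomial.pderiv_X]
      by_cases hl : l = k
      · subst hl
        simp
        ring
      · simp [hl, Ne.symm hl]
        ring
    rw [Finset.sum_congr rfl (fun l _ => e2 l), Finset.sum_add_distrib, ← Finset.sum_mul]
    simp

/-- Row Z1 (only Mathlib). A minimum of a polynomial on a sphere satisfies the Lagrange equations. PLAN.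
The sphere `{s | ∑ s i ^ 2 = r}` is compact and nonempty (`m ≥ 1`). `IsLocalExtrOn.exists_multipliers_of_hasStrictFDerivAt_1d`
(Mathlib) or: for `i ≠ j` rotate in the plane of the coordinates `i, j`: `θ ↦ eval (..) P` has a minimum at
`θ = 0`, so its derivative `s i * ∂_j P - s j * ∂_i P` vanishes. -/
theorem crit_min {m : ℕ} (hm : 0 < m) (P : MvPolynomial (Fin m) ℝ) (r : ℝ) (hr : 0 < r) :
    ∃ s : Fin m → ℝ, ∑ i, s i ^ 2 = r ∧
      (∀ t : Fin m → ℝ, ∑ i, t i ^ 2 = r → MvPolynomial.eval s P ≤ MvPolynomial.eval t P) ∧
      ∀ i j, s i * MvPolynomial.eval s (MvPolynomial.pderiv j P) =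
        s j * MvPolynomial.eval s (MvPolynomial.pderiv i P) := by
  have hcl : IsClosed {s : Fin m → ℝ | ∑ i, s i ^ 2 = r} :=
    isClosed_eq (by fun_prop) continuous_const
  have hbd : Bornology.IsBounded {s : Fin m → ℝ | ∑ i, s i ^ 2 = r} := by
    refine (Metric.isBounded_closedBall (x := (0 : Fin m → ℝ)) (r := Real.sqrt r)).subset ?_
    intro s hs
    rw [mem_closedBall_zero_iff, pi_norm_le_iff_of_nonneg (Real.sqrt_nonneg r)]
    intro i
    rw [Real.norm_eq_abs]
    refine Real.abs_le_sqrt ?_
    have hs' : ∑ i, s i ^ 2 = r := hs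
    rw [← hs']
    exact Finset.single_le_sum (f := fun i => s i ^ 2) (fun i _ => sq_nonneg _) (Finset.mem_univ i)
  have hcp : IsCompact {s : Fin m → ℝ | ∑ i, s i ^ 2 = r} :=
    Metric.isCompact_of_isClosed_isBounded hcl hbd
  have hne : ({s : Fin m → ℝ | ∑ i, s i ^ 2 = r}).Nonempty := by
    refine ⟨Pi.single ⟨0, hm⟩ (Real.sqrt r), ?_⟩
    show ∑ i, (Pi.single (⟨0, hm⟩ : Fin m) (Real.sqrt r) : Fin m → ℝ) i ^ 2 = r
    rw [Finset.sum_eq_single (⟨0, hm⟩ : Fin m)]
    · rw [Pi.single_eq_same, Real.sq_sqrt hr.le]
    · intro b _ hb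
      rw [Pi.single_eq_of_ne hb]
      simp
    · intro h
      exact absurd (Finset.mem_univ _) h
  obtain ⟨s, hs, hmin⟩ := hcp.exists_isMinOn hne
    (MvPolynomial.continuous_eval P).continuousOn
  have hs' : ∑ i, s i ^ 2 = r := hs
  refine ⟨s, hs', fun t ht => hmin ht, ?_⟩
  intro i j
  by_cases hij : i = j
  · subst hij; rfl
  set p : ℝ → Fin m → ℝ := fun θ k =>
    if k = i then s i * Real.cos θ - s j * Real.sin θ else
      if k = j then s i * Real.sin θ + s j * Real.cos θ else s k with hpdef
  set p' : Fin m → ℝ := fun k => if k = i then - s j else if k = j then s i else 0 with hp'def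
  have hp0 : p 0 = s := by
    funext k
    simp only [hpdef, Real.cos_zero, Real.sin_zero]
    by_cases h1 : k = i
    · subst h1; simp
    · by_cases h2 : k = j
      · subst h2; simp [h1]
      · simp [h1, h2]
  have hder : ∀ k, HasDerivAt (fun t => p t k) (p' k) 0 := by
    intro k
    by_cases h1 : k = i
    · subst h1
      have e : (fun t => p t k) = fun t => s k * Real.cos t - s j * Real.sin t := by
        funext t; simp [hpdef]
      rw [e]
      have h := ((Real.hasDerivAt_cos 0).const_mul (s k)).sub
        ((Real.hasDerivAt_sin 0).const_mul (s j))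
      refine h.congr_deriv ?_
      simp [hp'def]
    · by_cases h2 : k = j
      · subst h2
        have e : (fun t => p t k) = fun t => s i * Real.sin t + s k * Real.cos t := by
          funext t; simp [hpdef, h1]
        rw [e]
        have h := ((Real.hasDerivAt_sin 0).const_mul (s i)).add
          ((Real.hasDerivAt_cos 0).const_mul (s k))
        refine h.congr_deriv ?_
        simp [hp'def, h1]
      · have e : (fun t => p t k) = fun _ => s k := by
          funext t; simp [hpdef, h1, h2]
        rw [e]
        have h := hasDerivAt_const (0 : ℝ) (s k)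
        refine h.congr_deriv ?_
        simp [hp'def, h1, h2]
  have hsum : ∀ θ, ∑ k, p θ k ^ 2 = r := by
    intro θ
    have e : ∀ k, p θ k ^ 2 = s k ^ 2 +
        ((if k = i then (s i * Real.cos θ - s j * Real.sin θ) ^ 2 - s i ^ 2 else 0) +
        (if k = j then (s i * Real.sin θ + s j * Real.cos θ) ^ 2 - s j ^ 2 else 0)) := by
      intro k
      by_cases h1 : k = i
      · subst h1; simp [hpdef, hij]
      · by_cases h2 : k = j
        · subst h2; simp [hpdef, h1]
        · simp [hpdef, h1, h2]
    rw [Finset.sum_congr rfl (fun k _ => e k), Finset.sum_add_distrib, Finset.sum_add_distrib,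
      Finset.sum_ite_eq' Finset.univ i, Finset.sum_ite_eq' Finset.univ j, hs']
    simp only [Finset.mem_univ, if_true]
    have := Real.sin_sq_add_cos_sq θ
    nlinarith [this]
  have hloc : IsLocalMin (fun t => MvPolynomial.eval (p t) P) 0 := by
    refine Filter.Eventually.of_forall fun t => ?_
    show MvPolynomial.eval (p 0) P ≤ MvPolynomial.eval (p t) P
    rw [hp0]
    exact hmin (hsum t)
  have hz := hloc.hasDerivAt_eq_zero (Z1_deriv P p p' 0 hder)
  rw [hp0] at hz
  have e : ∀ k, p' k * MvPolynomial.eval s (MvPolynomial.pderiv k P) =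
      (if k = i then - s j * MvPolynomial.eval s (MvPolynomial.pderiv i P) else 0) +
      (if k = j then s i * MvPolynomial.eval s (MvPolynomial.pderiv j P) else 0) := by
    intro k
    by_cases h1 : k = i
    · subst h1; simp [hp'def, hij]
    · by_cases h2 : k = j
      · subst h2; simp [hp'def, h1]
      · simp [hp'def, h1, h2]
  rw [Finset.sum_congr rfl (fun k _ => e k), Finset.sum_add_distrib,
    Finset.sum_ite_eq' Finset.univ i, Finset.sum_ite_eq' Finset.univ j] at hz
  simp only [Finset.mem_univ, if_true] at hz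
  linarith

end NS38
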