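import Pool.Agent.LibNS38.B0

set_option autoImplicit false
set_option maxSynthPendingDepth 3

open Topology Filter Set
open scoped ContDiff

namespace NS38

private lemma Z2_algebraic {K : Type} [Field K] [Algebra ℝ K] {t : Set K}
    (ht : IsTranscendenceBasis ℝ ((↑) : t → K)) [Algebra (MvPolynomial t ℝ) K]
    (hal : ∀ p : MvPolynomial t ℝ,
      algebraMap (MvPolynomial t ℝ) K p = MvPolynomial.aeval ((↑) : t → K) p) :
    Algebra.IsAlgebraic (MvPolynomial t ℝ) K := by
  have h1 : Algebra.IsAlgebraic (Algebra.adjoin ℝ (Set.range ((↑) : t → K))) K := ht.isAlgebraic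
  refine ⟨fun z => ?_⟩
  obtain ⟨q, hq0, hq⟩ := h1.isAlgebraic z
  let e := ht.1.aevalEquiv
  refine ⟨q.map (e.symm : _ →+* MvPolynomial t ℝ), ?_, ?_⟩
  · intro h
    apply hq0
    exact (Polynomial.map_eq_zero_iff (f := (e.symm : _ →+* MvPolynomial t ℝ))
      e.symm.injective).1 h
  · rw [Polynomial.aeval_def, Polynomial.eval₂_map]
    rw [Polynomial.aeval_def] at hq
    rw [← hq]
    congr 1
    ext a
    obtain ⟨p, rfl⟩ := e.surjective a
    change algebraMap (MvPolynomial t ℝ) K (e.symm (e p)) = ((e p : _) : K)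
    rw [AlgEquiv.symm_apply_apply, hal]
    exact (ht.1.algebraMap_aevalEquiv p).symm

private lemma Z2_etale {K : Type} [Field K] [Algebra ℝ K] {t : Set K}
    (ht : IsTranscendenceBasis ℝ ((↑) : t → K)) [Algebra (MvPolynomial t ℝ) K]
    (hal : ∀ p : MvPolynomial t ℝ,
      algebraMap (MvPolynomial t ℝ) K p = MvPolynomial.aeval ((↑) : t → K) p) :
    Algebra.FormallyEtale (MvPolynomial t ℝ) K := by
  have hinj : Function.Injective (algebraMap (MvPolynomial t ℝ) K) := by
    have h0 : Function.Injective (MvPolynomial.aeval (R := ℝ) ((↑) : t → K)) := ht.1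
    intro p q hpq
    rw [hal, hal] at hpq
    exact h0 hpq
  have hF : FaithfulSMul (MvPolynomial t ℝ) K := (faithfulSMul_iff_algebraMap_injective _ _).2 hinj
  let : Algebra (FractionRing (MvPolynomial t ℝ)) K := FractionRing.liftAlgebra (MvPolynomial t ℝ) K
  have : IsScalarTower (MvPolynomial t ℝ) (FractionRing (MvPolynomial t ℝ)) K :=
    FractionRing.isScalarTower_liftAlgebra (MvPolynomial t ℝ) K
  have : Algebra.IsAlgebraic (MvPolynomial t ℝ) K := Z2_algebraic ht hal
  have : Algebra.IsAlgebraic (FractionRing (MvPolynomial t ℝ)) K :=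
    Algebra.IsAlgebraic.extendScalars (R := MvPolynomial t ℝ) (IsFractionRing.injective (MvPolynomial t ℝ) _)
  have : CharZero (FractionRing (MvPolynomial t ℝ)) :=
    charZero_of_injective_algebraMap (IsFractionRing.injective (MvPolynomial t ℝ) _)
  have : Algebra.IsSeparable (FractionRing (MvPolynomial t ℝ)) K := inferInstance
  have : Algebra.FormallyEtale (FractionRing (MvPolynomial t ℝ)) K :=
    Algebra.FormallyEtale.of_isSeparable _ K
  have : Algebra.FormallyEtale (MvPolynomial t ℝ) (FractionRing (MvPolynomial t ℝ)) :=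
    Algebra.FormallyEtale.of_isLocalization (nonZeroDivisors _)
  exact Algebra.FormallyEtale.comp (MvPolynomial t ℝ) (FractionRing (MvPolynomial t ℝ)) K

/-- Row Z2 (only Mathlib). Derivations of a field of characteristic zero with prescribed values on two
algebraically independent elements. PLAN. Extend `{x, y}` to a transcendence basis
(`exists_isTranscendenceBasis..`), the polynomial ring on it has the derivation `∂/∂y`
(`MvPolynomial.mkDerivation`), it extends to its fraction field `F₀ ⊆ K` and to the algebraic (separable: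
characteristic zero) extension `K / F₀` (formally étale: `Algebra.FormallyEtale.of_isSeparable`; compare
`Algebra.FormallySmooth.of_algebraicIndependent_of_isSeparable` in `Mathlib/RingTheory/Smooth/Field.lean`, or
`Mathlib/FieldTheory/Differential/Basic.lean`). Another way: `K` is formally smooth over `ℝ(x)`... or Zorn's
lemma on intermediate fields with a derivation. Another way: lift the algebra homomorphism
`ℝ[x, y, ..] → K[ε]`, `y ↦ y + ε`, along `K[ε] → K` by formal étaleness over the polynomial ring. -/
theorem der_exists {K : Type} [Field K] [Algebra ℝ K] (x y : K)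
    (h : AlgebraicIndependent ℝ ![x, y]) : ∃ D : Derivation ℝ K K, D x = 0 ∧ D y = 1 := by
  classical
  have hinj : Function.Injective ![x, y] := h.injective
  have hxy : x ≠ y := by
    intro hxy
    have : (0 : Fin 2) = 1 := hinj (by simpa using hxy)
    exact absurd this (by decide)
  have hr : AlgebraicIndepOn ℝ id (Set.range ![x, y]) := h.coe_range
  obtain ⟨t, hst, ht⟩ := exists_isTranscendenceBasis_superset hr
  have hxt : x ∈ t := hst ⟨0, rfl⟩
  have hyt : y ∈ t := hst ⟨1, rfl⟩
  let : Algebra (MvPolynomial t ℝ) K := (MvPolynomial.aeval ((↑) : t → K)).toRingHom.toAlgebra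
  have hal : ∀ p : MvPolynomial t ℝ,
      algebraMap (MvPolynomial t ℝ) K p = MvPolynomial.aeval ((↑) : t → K) p := fun p => rfl
  have : IsScalarTower ℝ (MvPolynomial t ℝ) K := by
    refine IsScalarTower.of_algebraMap_eq fun r => ?_
    rw [hal]
    exact (AlgHom.commutes (MvPolynomial.aeval ((↑) : t → K)) r).symm
  have : Algebra.FormallyEtale (MvPolynomial t ℝ) K := Z2_etale ht hal
  let d : Derivation ℝ (MvPolynomial t ℝ) K :=
    MvPolynomial.mkDerivation ℝ (fun i : t => if (i : K) = y then (1 : K) else 0)
  let L : Ω[K⁄ℝ] →ₗ[K] K :=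
    (d.liftKaehlerDifferential.liftBaseChange K) ∘ₗ
      (KaehlerDifferential.tensorKaehlerEquivOfFormallyEtale ℝ (MvPolynomial t ℝ) K).symm.toLinearMap
  have key : ∀ p : MvPolynomial t ℝ,
      L (KaehlerDifferential.D ℝ K (algebraMap (MvPolynomial t ℝ) K p)) = d p := by
    intro p
    change (d.liftKaehlerDifferential.liftBaseChange K)
      ((KaehlerDifferential.tensorKaehlerEquivOfFormallyEtale ℝ (MvPolynomial t ℝ) K).symm
        (KaehlerDifferential.D ℝ K (algebraMap (MvPolynomial t ℝ) K p))) = d p
    rw [KaehlerDifferential.tensorKaehlerEquivOfFormallyEtale_symm_D_algebraMap]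
    rw [LinearMap.liftBaseChange_tmul, Derivation.liftKaehlerDifferential_comp_D, one_smul]
  refine ⟨L.compDer (KaehlerDifferential.D ℝ K), ?_, ?_⟩
  · have h1 := key (MvPolynomial.X ⟨x, hxt⟩)
    rw [hal, MvPolynomial.aeval_X, MvPolynomial.mkDerivation_X] at h1
    rw [if_neg hxy] at h1
    exact h1
  · have h1 := key (MvPolynomial.X ⟨y, hyt⟩)
    rw [hal, MvPolynomial.aeval_X, MvPolynomial.mkDerivation_X] at h1
    rw [if_pos rfl] at h1
    exact h1

end NS38
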